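import Pool.Agent.Lib.MP_c55f2d_al.Defs

namespace Pool.Agent.Lib.MP_c55f2d_al

variable {Λ : Type} [Ring Λ] {G : Type} [AddCommGroup G] [Module Λ G]

theorem InAdd.of_retract {M M' : Type} [AddCommGroup M] [Module Λ M] [AddCommGroup M']
    [Module Λ M'] (h : InAdd Λ G M') (i : M →ₗ[Λ] M') (r : M' →ₗ[Λ] M) (hr : ∀ x, r (i x) = x) :
    InAdd Λ G M := by
  obtain ⟨n, i', r', h'⟩ := h
  exact ⟨n, i' ∘ₗ i, r ∘ₗ r', fun x => by simp [h', hr]⟩

theorem InAdd.self : InAdd Λ G G :=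
  ⟨1, LinearMap.pi fun _ => LinearMap.id, LinearMap.proj 0, fun _ => rfl⟩

theorem InAdd.of_subsingleton {M : Type} [AddCommGroup M] [Module Λ M] [Subsingleton M] :
    InAdd Λ G M :=
  ⟨0, 0, 0, fun _ => Subsingleton.elim _ _⟩

theorem InAdd.prod {M M' : Type} [AddCommGroup M] [Module Λ M] [AddCommGroup M']
    [Module Λ M'] (h : InAdd Λ G M) (h' : InAdd Λ G M') : InAdd Λ G (M × M') := by
  obtain ⟨n, i, r, h⟩ := h
  obtain ⟨n', i', r', h'⟩ := h'
  let E : (Fin (n + n') → G) ≃ₗ[Λ] (Fin n → G) × (Fin n' → G) :=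
    (LinearEquiv.funCongrLeft Λ G finSumFinEquiv).trans (LinearEquiv.sumArrowLequivProdArrow _ _ Λ G)
  refine ⟨n + n', E.symm.toLinearMap ∘ₗ (i.prodMap i'), (r.prodMap r') ∘ₗ E.toLinearMap, ?_⟩
  intro x
  simp [h, h']

/-- Splitting off a summand. -/
theorem InAdd.of_split {M L : Type} [AddCommGroup M] [Module Λ M] [AddCommGroup L] [Module Λ L]
    (u : L →ₗ[Λ] M) (r : M →ₗ[Λ] L) (hb : Function.Bijective (r ∘ₗ u)) (hL : InAdd Λ G L)
    (hK : InAdd Λ G (LinearMap.ker r)) : InAdd Λ G M := by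
  let E : L ≃ₗ[Λ] L := LinearEquiv.ofBijective (r ∘ₗ u) hb
  have hE : ∀ l, r (u (E.symm l)) = l := fun l => E.apply_symm_apply l
  let p : M →ₗ[Λ] M := LinearMap.id - u ∘ₗ E.symm.toLinearMap ∘ₗ r
  have hp : ∀ x, p x ∈ LinearMap.ker r := by
    intro x
    simp [p, hE]
  refine (hL.prod hK).of_retract (r.prod (p.codRestrict _ hp))
    ((u ∘ₗ E.symm.toLinearMap).coprod (LinearMap.ker r).subtype) ?_
  intro x
  simp [p]

theorem exists_proj {M L : Type} [AddCommGroup M] [Module Λ M] [AddCommGroup L] [Module Λ L]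
    (u : L →ₗ[Λ] M) (r : M →ₗ[Λ] L) (hb : Function.Bijective (r ∘ₗ u)) :
    ∃ p : M →ₗ[Λ] LinearMap.ker r, ∀ y : LinearMap.ker r, p y = y := by
  let E : L ≃ₗ[Λ] L := LinearEquiv.ofBijective (r ∘ₗ u) hb
  have hE : ∀ l, r (u (E.symm l)) = l := fun l => E.apply_symm_apply l
  let p : M →ₗ[Λ] M := LinearMap.id - u ∘ₗ E.symm.toLinearMap ∘ₗ r
  have hp : ∀ x, p x ∈ LinearMap.ker r := by
    intro x
    simp [p, hE]
  refine ⟨p.codRestrict _ hp, fun y => Subtype.ext ?_⟩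
  have : r y = 0 := y.2
  simp [p, this]

theorem finrank_ker_lt {k M L : Type} [Field k] [Algebra k Λ] [AddCommGroup M] [Module Λ M]
    [Module k M] [IsScalarTower k Λ M] [FiniteDimensional k M] [AddCommGroup L] [Module Λ L]
    (r : M →ₗ[Λ] L) (x : M) (hx : r x ≠ 0) :
    Module.finrank k (LinearMap.ker r) < Module.finrank k M := by
  have : (LinearMap.ker r).restrictScalars k ≠ ⊤ := by
    intro h
    apply hx
    have : x ∈ (LinearMap.ker r).restrictScalars k := h ▸ Submodule.mem_top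
    simpa using this
  exact Submodule.finrank_lt this

theorem finiteDim_sub (k : Type) {M : Type} [Field k] [Algebra k Λ] [AddCommGroup M] [Module Λ M]
    [Module k M] [IsScalarTower k Λ M] [FiniteDimensional k M] (N : Submodule Λ M) :
    FiniteDimensional k N :=
  Module.Finite.of_injective (N.subtype.restrictScalars k) N.injective_subtype

/-- A functional that kills the kernel of a linear map factors through it. -/
theorem exists_factor {k A B : Type} [Field k] [AddCommGroup A] [Module k A] [AddCommGroup B]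
    [Module k B] (Ψ : A →ₗ[k] B) (ψ : A →ₗ[k] k) (h : ∀ x, Ψ x = 0 → ψ x = 0) :
    ∃ θ : B →ₗ[k] k, ∀ x, θ (Ψ x) = ψ x := by
  have hle : LinearMap.ker Ψ ≤ LinearMap.ker ψ := fun x hx => h x hx
  obtain ⟨θ, hθ⟩ := LinearMap.exists_extend
    (((LinearMap.ker Ψ).liftQ ψ hle) ∘ₗ Ψ.quotKerEquivRange.symm.toLinearMap)
  refine ⟨θ, fun x => ?_⟩
  have := LinearMap.congr_fun hθ ⟨Ψ x, LinearMap.mem_range_self Ψ x⟩
  simp only [LinearMap.comp_apply, Submodule.subtype_apply, LinearEquiv.coe_coe] at this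
  rw [this]
  have h2 : Ψ.quotKerEquivRange.symm ⟨Ψ x, LinearMap.mem_range_self Ψ x⟩ =
      Submodule.Quotient.mk x := by
    rw [LinearEquiv.symm_apply_eq]
    ext
    simp
  rw [h2]
  simp

theorem exists_functional {k A : Type} [Field k] [AddCommGroup A] [Module k A]
    (W : Submodule k A) (x : A) (hx : x ∉ W) :
    ∃ φ : A →ₗ[k] k, φ x = 1 ∧ ∀ y ∈ W, φ y = 0 := by
  obtain ⟨φ, h1, h2⟩ := LinearMap.exists_extend_of_notMem (0 : W →ₗ[k] k) hx 1
  refine ⟨φ, h2, fun y hy => ?_⟩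
  have := LinearMap.congr_fun h1 ⟨y, hy⟩
  simpa using this

/-- Two flags: a vector in general position. -/
theorem exists_two_flags {k A : Type} [Field k] [AddCommGroup A] [Module k A]
    (F F' : ℕ → Submodule k A) (hF : Monotone F) (L : ℕ) (hL : F L = ⊤) (hL' : F' L = ⊤)
    (h0 : F 0 ⊔ F' 0 ≠ ⊤) :
    ∃ p q x, p < L ∧ q < L ∧ x ∈ F (p + 1) ∧ x ∈ F' (q + 1) ∧ x ∉ F p ⊔ F' q := by
  classical
  have h1 : ∃ p, p < L ∧ ¬ F (p + 1) ≤ F p ⊔ F' 0 := by
    by_contra hc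
    push Not at hc
    have : ∀ p, p ≤ L → F p ≤ F 0 ⊔ F' 0 := by
      intro p hp
      induction p with
      | zero => exact le_sup_left
      | succ p ih =>
        exact (hc p (by omega)).trans (sup_le (ih (by omega)) le_sup_right)
    apply h0
    rw [eq_top_iff, ← hL]
    exact this L le_rfl
  obtain ⟨p, hp, hp'⟩ := h1
  have h2 : ∃ q, F (p + 1) ≤ F p ⊔ F' q := ⟨L, by rw [hL']; simp⟩
  have h3 : Nat.find h2 ≠ 0 := by
    intro h
    have := Nat.find_spec h2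
    rw [h] at this
    exact hp' this
  obtain ⟨q, hq⟩ := Nat.exists_eq_succ_of_ne_zero h3
  have h4 : F (p + 1) ≤ F p ⊔ F' (q + 1) := by
    have := Nat.find_spec h2
    rwa [hq] at this
  have h5 : ¬ F (p + 1) ≤ F p ⊔ F' q := Nat.find_min h2 (by omega)
  have h6 : q < L := by
    have : Nat.find h2 ≤ L := Nat.find_min' h2 (by rw [hL']; simp)
    omega
  obtain ⟨y, hy, hy'⟩ := SetLike.not_le_iff_exists.mp h5
  obtain ⟨y1, hy1, y2, hy2, rfl⟩ := Submodule.mem_sup.mp (h4 hy)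
  refine ⟨p, q, y2, hp, h6, ?_, hy2, ?_⟩
  · have := (F (p + 1)).sub_mem hy (hF (Nat.le_succ p) hy1)
    simpa using this
  · intro h
    exact hy' (Submodule.add_mem _ (Submodule.mem_sup_left hy1) h)

end Pool.Agent.Lib.MP_c55f2d_al
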