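import Mathlib

namespace Pool.Agent.Lib.MP_c55f2d_al

/-- A triangulation quiver `(Q, f)` in the sense of Ladkani and Erdmann-Skowronski: every vertex is
the source of exactly two arrows `α` and `bar α`, and `f` is a permutation of the arrows with
`s (f α) = t α` and `f ^ 3 = 1`. -/
structure TriQuiver (V Ar : Type) where
  /-- source of an arrow -/
  s : Ar → V
  /-- target of an arrow -/
  t : Ar → V
  /-- the other arrow with the same source -/
  bar : Ar → Ar
  /-- the permutation `f` -/
  f : Equiv.Perm Ar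
  s_surj : Function.Surjective s
  bar_ne : ∀ α, bar α ≠ α
  s_bar : ∀ α, s (bar α) = s α
  eq_or_bar : ∀ α β, s β = s α → β = α ∨ β = bar α
  s_f : ∀ α, s (f α) = t α
  f_cube : ∀ α, f (f (f α)) = α

/-- The permutation `g α = bar (f α)`. -/
def TriQuiver.g {V Ar : Type} (Q : TriQuiver V Ar) (α : Ar) : Ar := Q.bar (Q.f α)

/-- The path `α, g α, ..., g ^ (n-1) α` of length `n`, as an element of the algebra acting on left
modules (the first arrow is the rightmost factor). -/
def gpath {V Ar Λ : Type} [Ring Λ] (Q : TriQuiver V Ar) (e : V → Λ) (a : Ar → Λ) (α : Ar) :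
    ℕ → Λ
  | 0 => e (Q.s α)
  | n + 1 => a (Q.g^[n] α) * gpath Q e a α n

/-- `r` is annihilated by all arrows, i.e. lies in the socle of the regular module. -/
def InSoc {Ar Λ : Type} [Ring Λ] (a : Ar → Λ) (r : Λ) : Prop := ∀ δ, a δ * r = 0

/-- The algebra is generated by vertex idempotents `e` and arrows `a` that satisfy, modulo the
socle, the relations of the weighted surface algebra of `(Q, f)` with weights `m` and
parameters `c`; all the numbers `m α * n α` (with `n α` the length of the `g`-orbit of `α`)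
are at least `4`. -/
structure WSPres (k : Type) {V Ar Λ : Type} [Field k] [Ring Λ] [Algebra k Λ] [Fintype V]
    (Q : TriQuiver V Ar) (m : Ar → ℕ) (c : Ar → k) (e : V → Λ) (a : Ar → Λ) : Prop where
  idem : CompleteOrthogonalIdempotents e
  arrow : ∀ α, e (Q.t α) * a α * e (Q.s α) = a α
  gen : Algebra.adjoin k (Set.range e ∪ Set.range a) = ⊤
  m_g : ∀ α, m (Q.g α) = m α
  c_g : ∀ α, c (Q.g α) = c α
  c_ne : ∀ α, c α ≠ 0
  four_le : ∀ α, 4 ≤ m α * Function.minimalPeriod Q.g α
  rel1 : ∀ α, InSoc a (a (Q.f α) * a α - c (Q.bar α) •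
    gpath Q e a (Q.bar α) (m (Q.bar α) * Function.minimalPeriod Q.g (Q.bar α) - 1))
  rel2 : ∀ α, InSoc a (a (Q.g (Q.f α)) * a (Q.f α) * a α)
  rel3 : ∀ α, InSoc a (a (Q.f (Q.g α)) * a (Q.g α) * a α)
  rel4 : ∀ α, InSoc a (gpath Q e a α (m α * Function.minimalPeriod Q.g α))

/-- `M` lies in `add G`: it is a direct summand of a finite direct sum of copies of `G`. -/
def InAdd (Λ G M : Type) [Ring Λ] [AddCommGroup G] [Module Λ G] [AddCommGroup M] [Module Λ M] :
    Prop :=
  ∃ (n : ℕ) (i : M →ₗ[Λ] (Fin n → G)) (r : (Fin n → G) →ₗ[Λ] M), ∀ x, r (i x) = x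

end Pool.Agent.Lib.MP_c55f2d_al
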