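import Pool.Agent.Lib.MP_c55f2d_al.RadSq

namespace Pool.Agent.Lib.MP_c55f2d_al

namespace WSPres

variable {k V Ar Λ : Type} [Field k] [Ring Λ] [Algebra k Λ] [Fintype V]
  {Q : TriQuiver V Ar} {m : Ar → ℕ} {c : Ar → k} {e : V → Λ} {a : Ar → Λ}

/-- The path `A` without its last arrow `γ`. -/
noncomputable def pen (Q : TriQuiver V Ar) (m : Ar → ℕ) (e : V → Λ) (a : Ar → Λ) (γ : Ar) : Λ :=
  gpath Q e a (Q.g (Q.g γ)) (N Q m (Q.g (Q.g γ)) - 2)

variable (h : WSPres k Q m c e a)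
include h

theorem iter_pen (γ : Ar) : Q.g^[N Q m (Q.g (Q.g γ)) - 2] (Q.g (Q.g γ)) = γ :=
  Q.g_inj (Q.g_inj (h.g_g_iter _))

theorem a_pen (γ : Ar) :
    a γ * pen Q m e a γ = gpath Q e a (Q.g (Q.g γ)) (N Q m (Q.g (Q.g γ)) - 1) := by
  have h4 := h.four (Q.g (Q.g γ))
  rw [show N Q m (Q.g (Q.g γ)) - 1 = (N Q m (Q.g (Q.g γ)) - 2) + 1 by omega, gpath, h.iter_pen, pen]

theorem pen_eq (γ : Ar) : ∃ α l, Q.g (Q.g α) = γ ∧ pen Q m e a γ = a (Q.g α) * a α * l := by
  have h4 := h.four (Q.g (Q.g γ))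
  obtain ⟨n, hn⟩ : ∃ n, N Q m (Q.g (Q.g γ)) - 2 = n + 1 + 1 := ⟨N Q m (Q.g (Q.g γ)) - 4, by omega⟩
  have h1 := h.iter_pen γ
  rw [hn, Function.iterate_succ_apply', Function.iterate_succ_apply'] at h1
  refine ⟨Q.g^[n] (Q.g (Q.g γ)), gpath Q e a (Q.g (Q.g γ)) n, h1, ?_⟩
  rw [pen, hn, gpath, gpath, Function.iterate_succ_apply', mul_assoc]

theorem a_pen_ne {γ δ : Ar} (hd : δ ≠ γ) : InSoc a (a δ * pen Q m e a γ) := by
  obtain ⟨α, l, h1, h2⟩ := h.pen_eq γ
  rw [h2]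
  by_cases hs : Q.s δ = Q.t (Q.g α)
  · rcases Q.out_cases hs with h3 | h3
    · rw [h3, ← mul_assoc, ← mul_assoc]
      exact (h.rel3 α).mul_right l
    · exact absurd (h3.trans h1) hd
  · rw [← mul_assoc, ← mul_assoc, h.toGen.a_a_ne hs, zero_mul, zero_mul]
    exact InSoc.zero

theorem a_a_pen (γ δ δ' : Ar) : InSoc a (a δ' * (a δ * pen Q m e a γ)) := by
  by_cases hd : δ = γ
  · rw [hd, h.a_pen, ← Q.bar_bar (Q.g (Q.g γ))]
    exact h.a_A _ _
  · rw [h.a_pen_ne hd δ']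
    exact InSoc.zero

theorem f_rel (β : Ar) : InSoc a (a (Q.f β) * a β -
    c (Q.bar β) • (a (Q.op (Q.f β)) * pen Q m e a (Q.op (Q.f β)))) := by
  rw [h.a_pen, Q.g_g_op_f]
  exact h.rel1 β

variable {Z : Type} [AddCommGroup Z] [Module k Z] [Module Λ Z] [IsScalarTower k Λ Z]

/-- Generators of the distinguished submodule. -/
def kgen (Q : TriQuiver V Ar) (m : Ar → ℕ) (e : V → Λ) (a : Ar → Λ) (Z : Type) [AddCommGroup Z]
    [Module Λ Z] : Set Z :=
  {y | (∀ δ, a δ • y = 0) ∨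
    (∃ β, ∃ w w' : Z, (∀ δ, a δ • (y - a β • w) = 0) ∧ ∀ δ, a δ • (y - a (Q.op β) • w') = 0) ∨
    ∃ γ, ∃ z : Z, y = pen Q m e a γ • z}

omit [Module k Z] [IsScalarTower k Λ Z] in
theorem soc_e {y : Z} (hy : ∀ δ, a δ • y = 0) (i : V) (δ : Ar) : a δ • e i • y = 0 := by
  rw [← mul_smul]
  by_cases hi : Q.s δ = i
  · rw [← hi, h.toGen.a_e, hy]
  · rw [h.toGen.a_e_ne hi, zero_smul]

omit [Module k Z] [IsScalarTower k Λ Z] in
theorem kgen_e (i : V) {y : Z} (hy : y ∈ kgen Q m e a Z) : e i • y ∈ kgen Q m e a Z := by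
  have hg := h.toGen
  rcases hy with hy | ⟨β, w, w', h1, h2⟩ | ⟨γ, z, rfl⟩
  · exact Or.inl (h.soc_e hy i)
  · by_cases hi : i = Q.t β
    · refine Or.inr (Or.inl ⟨β, w, w', fun δ => ?_, fun δ => ?_⟩)
      · have := h.soc_e h1 i δ
        rwa [smul_sub, ← mul_smul (e i), hi, hg.e_a, ← hi] at this
      · have := h.soc_e h2 i δ
        rwa [smul_sub, ← mul_smul (e i), hi, ← Q.t_op β, hg.e_a, Q.t_op, ← hi] at this
    · refine Or.inl fun δ => ?_
      have := h.soc_e h1 i δ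
      rwa [smul_sub, ← mul_smul (e i), hg.e_a_ne hi, zero_smul, sub_zero] at this
  · rw [← mul_smul, pen]
    by_cases hi : i = Q.s (Q.g^[N Q m (Q.g (Q.g γ)) - 2] (Q.g (Q.g γ)))
    · rw [hi, hg.e_gpath]
      exact Or.inr (Or.inr ⟨γ, z, rfl⟩)
    · rw [hg.e_gpath_ne hi, zero_smul]
      exact Or.inl fun δ => smul_zero _

omit [Module k Z] [IsScalarTower k Λ Z] in
theorem kgen_a (hZ : ∀ r, InSoc a r → ∀ z : Z, r • z = 0) {y : Z} (hy : y ∈ kgen Q m e a Z)
    (δ δ' : Ar) : a δ' • a δ • y = 0 := by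
  have hg := h.toGen
  have key : ∀ β (w : Z), a δ' • a (Q.f β) • a β • w = 0 := fun β w => by
    have := hZ _ (h.a_f_a δ' β) w
    rwa [mul_smul, mul_smul] at this
  rcases hy with hy | ⟨β, w, w', h1, h2⟩ | ⟨γ, z, rfl⟩
  · rw [hy, smul_zero]
  · have h3 := h1 δ
    have h4 := h2 δ
    rw [smul_sub, sub_eq_zero] at h3 h4
    by_cases hs : Q.s δ = Q.t β
    · rcases Q.out_cases hs with h5 | h5
      · rw [h3, h5, key]
      · rw [h4, h5, ← Q.f_op, key]
    · rw [h3, ← mul_smul (a δ), hg.a_a_ne hs, zero_smul, smul_zero]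
  · have := hZ _ (h.a_a_pen γ δ δ') z
    rwa [mul_smul, mul_smul] at this

theorem span_a (hZ : ∀ r, InSoc a r → ∀ z : Z, r • z = 0) {y : Z}
    (hy : y ∈ Submodule.span k (kgen Q m e a Z)) (δ δ' : Ar) : a δ' • a δ • y = 0 := by
  induction hy using Submodule.span_induction with
  | mem y hy => exact h.kgen_a hZ hy δ δ'
  | zero => simp
  | add x y _ _ hx hy => rw [smul_add, smul_add, hx, hy, add_zero]
  | smul r x _ hx => rw [smul_comm (a δ), smul_comm (a δ'), hx, smul_zero]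

/-- The distinguished submodule. -/
def ksub (hZ : ∀ r, InSoc a r → ∀ z : Z, r • z = 0) : Submodule Λ Z :=
  h.toGen.mkSub (Submodule.span k (kgen Q m e a Z))
    (by
      intro i y hy
      induction hy using Submodule.span_induction with
      | mem y hy => exact Submodule.subset_span (h.kgen_e i hy)
      | zero => simp
      | add x y _ _ hx hy => rw [smul_add]; exact Submodule.add_mem _ hx hy
      | smul r x _ hx => rw [smul_comm]; exact Submodule.smul_mem _ r hx)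
    (fun δ y hy => Submodule.subset_span (Or.inl fun δ' => h.span_a hZ hy δ δ'))

theorem mem_ksub (hZ : ∀ r, InSoc a r → ∀ z : Z, r • z = 0) (y : Z) :
    y ∈ h.ksub hZ ↔ y ∈ Submodule.span k (kgen Q m e a Z) := Iff.rfl

theorem ksub_P (hZ : ∀ r, InSoc a r → ∀ z : Z, r • z = 0) (γ : Ar) {y : Z} (hy : y ∈ h.ksub hZ) :
    ∃ v ∈ h.ksub hZ, ∃ w ∈ h.ksub hZ, a (Q.bar γ) • v = 0 ∧ a (Q.bar (Q.op γ)) • w = 0 ∧
      a γ • y = a γ • v + a (Q.op γ) • w := by
  have hg := h.toGen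
  have penK : ∀ γ' (z : Z), pen Q m e a γ' • z ∈ h.ksub hZ := fun γ' z =>
    Submodule.subset_span (Or.inr (Or.inr ⟨γ', z, rfl⟩))
  have penb : ∀ γ' δ (z : Z), δ ≠ γ' → a δ • pen Q m e a γ' • z = 0 := fun γ' δ z hd => by
    rw [← mul_smul]; exact hZ _ (h.a_pen_ne hd) z
  have key : ∀ β (y w : Z), γ = Q.f β → a γ • (y - a β • w) = 0 →
      ∃ v ∈ h.ksub hZ, ∃ w ∈ h.ksub hZ, a (Q.bar γ) • v = 0 ∧ a (Q.bar (Q.op γ)) • w = 0 ∧
        a γ • y = a γ • v + a (Q.op γ) • w := by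
    intro β y w hβ hy
    rw [smul_sub, sub_eq_zero] at hy
    refine ⟨0, Submodule.zero_mem _, c (Q.bar β) • pen Q m e a (Q.op γ) • w,
      Submodule.smul_of_tower_mem _ _ (penK _ _), smul_zero _, ?_, ?_⟩
    · rw [smul_comm, penb _ _ _ (Q.bar_ne _), smul_zero]
    · have := hZ _ (h.f_rel β) w
      rw [sub_smul, sub_eq_zero, smul_assoc, mul_smul, mul_smul, ← hβ] at this
      rw [hy, this, smul_zero, zero_add, smul_comm]
  have triv : ∀ y : Z, a γ • y = 0 →
      ∃ v ∈ h.ksub hZ, ∃ w ∈ h.ksub hZ, a (Q.bar γ) • v = 0 ∧ a (Q.bar (Q.op γ)) • w = 0 ∧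
        a γ • y = a γ • v + a (Q.op γ) • w := fun y hy =>
    ⟨0, Submodule.zero_mem _, 0, Submodule.zero_mem _, smul_zero _, smul_zero _, by simp [hy]⟩
  rw [mem_ksub] at hy
  induction hy using Submodule.span_induction with
  | mem y hy =>
    rcases hy with hy | ⟨β, w, w', h1, h2⟩ | ⟨γ', z, rfl⟩
    · exact triv y (hy γ)
    · by_cases hs : Q.s γ = Q.t β
      · rcases Q.out_cases hs with h5 | h5
        · exact key β y w h5 (h1 γ)
        · exact key (Q.op β) y w' (by rw [h5, Q.f_op]) (h2 γ)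
      · apply triv
        have h3 := h1 γ
        rwa [smul_sub, ← mul_smul (a γ), hg.a_a_ne hs, zero_smul, sub_zero] at h3
    · by_cases hd : γ = γ'
      · exact ⟨_, penK γ' z, 0, Submodule.zero_mem _,
          penb _ _ _ (by rw [hd]; exact Q.bar_ne _), smul_zero _, by simp⟩
      · exact triv _ (penb _ _ _ hd)
  | zero => exact triv 0 (smul_zero _)
  | add x y _ _ hx hy =>
    obtain ⟨v, hv, w, hw, h1, h2, h3⟩ := hx
    obtain ⟨v', hv', w', hw', h1', h2', h3'⟩ := hy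
    refine ⟨v + v', Submodule.add_mem _ hv hv', w + w', Submodule.add_mem _ hw hw', ?_, ?_, ?_⟩
    · rw [smul_add, h1, h1', add_zero]
    · rw [smul_add, h2, h2', add_zero]
    · rw [smul_add, smul_add, smul_add, h3, h3']; abel
  | smul r x _ hx =>
    obtain ⟨v, hv, w, hw, h1, h2, h3⟩ := hx
    refine ⟨r • v, Submodule.smul_of_tower_mem _ _ hv, r • w, Submodule.smul_of_tower_mem _ _ hw,
      ?_, ?_, ?_⟩
    · rw [smul_comm, h1, smul_zero]
    · rw [smul_comm, h2, smul_zero]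
    · rw [smul_comm (a γ) r, smul_comm (a γ) r, smul_comm (a _) r, h3, smul_add]

theorem ksub_dec (hZ : ∀ r, InSoc a r → ∀ z : Z, r • z = 0) (β : Ar) {y : Z}
    (hy : y ∈ h.ksub hZ) : ∃ u u' : Z, a β • u ∈ h.ksub hZ ∧
      ∀ δ, a δ • (e (Q.t β) • y - a β • u - a (Q.op β) • u') = 0 := by
  have hg := h.toGen
  rw [mem_ksub] at hy
  induction hy using Submodule.span_induction with
  | mem y hy =>
    have hyK : y ∈ h.ksub hZ := Submodule.subset_span hy
    have key : ∀ w : Z, (∀ δ, a δ • (y - a β • w) = 0) → ∃ u u' : Z, a β • u ∈ h.ksub hZ ∧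
        ∀ δ, a δ • (e (Q.t β) • y - a β • u - a (Q.op β) • u') = 0 := by
      intro w hw
      refine ⟨w, 0, ?_, fun δ => ?_⟩
      · have h1 : y - a β • w ∈ h.ksub hZ := Submodule.subset_span (Or.inl hw)
        simpa using Submodule.sub_mem _ hyK h1
      · have := h.soc_e hw (Q.t β) δ
        rw [smul_sub, ← mul_smul (e _), hg.e_a] at this
        rw [smul_zero, sub_zero, this]
    have triv : (∀ δ, a δ • e (Q.t β) • y = 0) → ∃ u u' : Z, a β • u ∈ h.ksub hZ ∧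
        ∀ δ, a δ • (e (Q.t β) • y - a β • u - a (Q.op β) • u') = 0 := fun hy =>
      ⟨0, 0, by simp, fun δ => by simpa using hy δ⟩
    rcases hy with hy | ⟨β', w, w', h1, h2⟩ | ⟨γ', z, hz⟩
    · exact triv (h.soc_e hy _)
    · by_cases ht : Q.t β' = Q.t β
      · rcases Q.in_cases ht with h3 | h3
        · exact key w (by rw [← h3]; exact h1)
        · exact key w' (by rw [h3, Q.op_op] at h2; exact h2)
      · apply triv
        intro δ
        have := h.soc_e h1 (Q.t β) δ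
        rwa [smul_sub, ← mul_smul (e _), hg.e_a_ne (Ne.symm ht), zero_smul, sub_zero] at this
    · obtain ⟨α, l, -, h2⟩ := h.pen_eq γ'
      rw [h2, mul_assoc, mul_smul] at hz
      by_cases ht : Q.t (Q.g α) = Q.t β
      · rcases Q.in_cases ht with h3 | h3
        · exact key ((a α * l) • z) fun δ => by rw [hz, h3, sub_self, smul_zero]
        · refine ⟨0, (a α * l) • z, by simp, fun δ => ?_⟩
          rw [hz, h3, ← mul_smul (e _), ← Q.t_op β, hg.e_a]; simp
      · apply triv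
        intro δ
        rw [hz, ← mul_smul (e _), hg.e_a_ne (Ne.symm ht), zero_smul, smul_zero]
  | zero => exact ⟨0, 0, by simp, fun δ => by simp⟩
  | add x y _ _ hx hy =>
    obtain ⟨u, u', h1, h2⟩ := hx
    obtain ⟨v, v', h3, h4⟩ := hy
    refine ⟨u + v, u' + v', by rw [smul_add]; exact Submodule.add_mem _ h1 h3, fun δ => ?_⟩
    have : e (Q.t β) • (x + y) - a β • (u + v) - a (Q.op β) • (u' + v') =
        (e (Q.t β) • x - a β • u - a (Q.op β) • u') +
          (e (Q.t β) • y - a β • v - a (Q.op β) • v') := by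
      simp only [smul_add]; abel
    rw [this, smul_add, h2, h4, add_zero]
  | smul r x _ hx =>
    obtain ⟨u, u', h1, h2⟩ := hx
    refine ⟨r • u, r • u', by rw [smul_comm]; exact Submodule.smul_of_tower_mem _ _ h1,
      fun δ => ?_⟩
    rw [smul_comm (e _) r, smul_comm (a β) r, smul_comm (a _) r, ← smul_sub, ← smul_sub,
      smul_comm (a δ) r, h2, smul_zero]

theorem ksub_ind (hZ : ∀ r, InSoc a r → ∀ z : Z, r • z = 0) (β : Ar) (w w' : Z)
    (hy : a β • w - a (Q.op β) • w' ∈ h.ksub hZ) : a β • w ∈ h.ksub hZ := by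
  have hg := h.toGen
  obtain ⟨u, u', h1, h2⟩ := h.ksub_dec hZ β hy
  have h3 : a β • (w - u) ∈ h.ksub hZ := by
    refine Submodule.subset_span (Or.inr (Or.inl ⟨β, w - u, w' + u', fun δ => by simp,
      fun δ => ?_⟩))
    have := h2 δ
    rw [smul_sub (e _), ← mul_smul (e _), ← mul_smul (e _), hg.e_a, ← Q.t_op β, hg.e_a] at this
    rw [← this]
    congr 1
    simp only [smul_sub, smul_add]; abel
  have := Submodule.add_mem _ h3 h1
  simpa [smul_sub] using this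

/-- The two-step filtration of a module annihilated by the socle. -/
theorem filt [Fintype Ar] [FiniteDimensional k Λ] [FiniteDimensional k Z] {G : Type}
    [AddCommGroup G] [Module Λ G] {L : ℕ} (hL : ∀ α, gpath Q e a α L = 0)
    (hG : ∀ α p q, p < L → q < L → InAdd Λ G (Univ Λ (locRel Q e a α p q)))
    (hGw : ∀ γ, InAdd Λ G (Univ Λ (wRel Q e a γ)))
    (hGv : ∀ γ, InAdd Λ G (Univ Λ (vRel Q e a γ)))
    (hZ : ∀ r, InSoc a r → ∀ z : Z, r • z = 0) :
    ∃ Y : Submodule Λ Z, InAdd Λ G Y ∧ InAdd Λ G (Z ⧸ Y) := by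
  have hg := h.toGen
  refine ⟨h.ksub hZ, ?_, ?_⟩
  · have := finiteDim_sub k (h.ksub hZ)
    apply hg.radSq_add h.nak hL hG hGw hGv _ _ rfl
    · intro δ δ' y
      exact Subtype.ext (h.span_a hZ y.2 δ' δ)
    · intro γ y
      obtain ⟨v, hv, w, hw, h1, h2, h3⟩ := h.ksub_P hZ γ y.2
      exact ⟨⟨v, hv⟩, ⟨w, hw⟩, Subtype.ext h1, Subtype.ext h2, Subtype.ext h3⟩
  · apply hg.local_add h.nak hL hG _ _ rfl
    · intro β y
      obtain ⟨w, rfl⟩ := Submodule.Quotient.mk_surjective _ y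
      rw [← Submodule.Quotient.mk_smul, ← Submodule.Quotient.mk_smul,
        Submodule.Quotient.mk_eq_zero]
      refine Submodule.subset_span (Or.inl fun δ => ?_)
      have := hZ _ (h.a_f_a δ β) w
      rwa [mul_smul, mul_smul] at this
    · intro β y y' hyy
      obtain ⟨w, rfl⟩ := Submodule.Quotient.mk_surjective _ y
      obtain ⟨w', rfl⟩ := Submodule.Quotient.mk_surjective _ y'
      rw [← Submodule.Quotient.mk_smul, ← Submodule.Quotient.mk_smul, Submodule.Quotient.eq] at hyy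
      rw [← Submodule.Quotient.mk_smul, Submodule.Quotient.mk_eq_zero]
      exact h.ksub_ind hZ β w w' hyy

end WSPres

end Pool.Agent.Lib.MP_c55f2d_al
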