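import Mathlib

/-! Tame algebras: modules of bounded dimension are generated in two steps. -/

namespace Pool.Agent.Lib.MP_c55f2d_al.H54

open Polynomial Matrix

/-- `X` is a direct summand of `W` -/
def Summand (Λ X W : Type) [Ring Λ] [AddCommGroup X] [Module Λ X] [AddCommGroup W] [Module Λ W] :
    Prop := ∃ (i : X →ₗ[Λ] W) (p : W →ₗ[Λ] X), ∀ x, p (i x) = x

/-- `X` is a direct summand of the middle term of a short exact sequence with both ends in
`add G` -/
def TwoStep (Λ G X : Type) [Ring Λ] [AddCommGroup G] [Module Λ G] [AddCommGroup X] [Module Λ X] :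
    Prop := ∃ (Y W Z : ModuleCat.{0} Λ) (f : Y →ₗ[Λ] W) (g : W →ₗ[Λ] Z), Function.Injective f ∧
      Function.Exact f g ∧ Function.Surjective g ∧ (∃ n : ℕ, Summand Λ Y (Fin n → G)) ∧
        (∃ n : ℕ, Summand Λ Z (Fin n → G)) ∧ Summand Λ X W

/-- indecomposable modules -/
def Indec (Λ X : Type) [Ring Λ] [AddCommGroup X] [Module Λ X] : Prop :=
  Nontrivial X ∧ ∀ A B : Submodule Λ X, IsCompl A B → A = ⊥ ∨ B = ⊥

/-- tame representation type; a bimodule that is free of rank `r` over `k[X]` is written as a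
representation by `r × r` matrices over `k[X]` -/
def Tame (k Λ : Type) [Field k] [Ring Λ] [Algebra k Λ] : Prop :=
  ∀ d : ℕ, 1 ≤ d → ∃ (n : ℕ) (r : Fin n → ℕ)
    (ρ : ∀ i, Λ →ₐ[k] Matrix (Fin (r i)) (Fin (r i)) k[X]) (m : ℕ) (N : Fin m → ModuleCat.{0} Λ),
    ∀ (M : Type) [AddCommGroup M] [Module k M] [Module Λ M] [IsScalarTower k Λ M],
      Module.finrank k M = d → Indec Λ M → (∃ j, Nonempty (M ≃ₗ[Λ] N j)) ∨
        ∃ (i : Fin n) (c : k) (e : M ≃ₗ[k] (Fin (r i) → k)),
          ∀ a x, e (a • x) = ((ρ i a).map (eval c)) *ᵥ e x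

variable {Λ : Type} [Ring Λ] {G G' M M' W W' : Type} [AddCommGroup G] [Module Λ G]
  [AddCommGroup G'] [Module Λ G'] [AddCommGroup M] [Module Λ M] [AddCommGroup M'] [Module Λ M']
  [AddCommGroup W] [Module Λ W] [AddCommGroup W'] [Module Λ W']

theorem Summand.of_equiv (e : M ≃ₗ[Λ] W) : Summand Λ M W := ⟨e, e.symm, e.symm_apply_apply⟩

theorem Summand.trans (h : Summand Λ M W) (h' : Summand Λ W W') : Summand Λ M W' := by
  obtain ⟨i, p, h⟩ := h
  obtain ⟨j, q, h'⟩ := h'
  exact ⟨j ∘ₗ i, p ∘ₗ q, fun x => by simp [h, h']⟩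

theorem Summand.prod (h : Summand Λ M W) (h' : Summand Λ M' W') : Summand Λ (M × M') (W × W') := by
  obtain ⟨i, p, h⟩ := h
  obtain ⟨j, q, h'⟩ := h'
  exact ⟨i.prodMap j, p.prodMap q, fun x => by simp [h, h']⟩

theorem Summand.pi (h : Summand Λ G G') (n : ℕ) : Summand Λ (Fin n → G) (Fin n → G') := by
  obtain ⟨i, p, h⟩ := h
  exact ⟨i.compLeft _, p.compLeft _, fun x => funext fun _ => h _⟩

theorem summand_left : Summand Λ M (M × M') := ⟨.inl _ _ _, .fst _ _ _, fun _ => rfl⟩

theorem summand_right : Summand Λ M' (M × M') := ⟨.inr _ _ _, .snd _ _ _, fun _ => rfl⟩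

theorem summand_one : Summand Λ M (Fin 1 → M) := .of_equiv (LinearEquiv.funUnique _ _ _).symm

theorem summand_add (n m : ℕ) : Summand Λ ((Fin n → G) × (Fin m → G)) (Fin (n + m) → G) :=
  .of_equiv ((LinearEquiv.sumArrowLequivProdArrow _ _ Λ G).symm.trans
    (LinearEquiv.funCongrLeft Λ G finSumFinEquiv.symm))

theorem TwoStep.mono (h : TwoStep Λ G M) (h1 : Summand Λ G G') (h2 : Summand Λ M' M) :
    TwoStep Λ G' M' := by
  obtain ⟨Y, W, Z, f, g, a, b, c, ⟨n, y⟩, ⟨m, z⟩, x⟩ := h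
  exact ⟨Y, W, Z, f, g, a, b, c, ⟨n, y.trans (h1.pi n)⟩, ⟨m, z.trans (h1.pi m)⟩, h2.trans x⟩

theorem TwoStep.prod (h : TwoStep Λ G M) (h' : TwoStep Λ G M') : TwoStep Λ G (M × M') := by
  obtain ⟨Y, W, Z, f, g, a, b, c, ⟨n, y⟩, ⟨m, z⟩, x⟩ := h
  obtain ⟨Y', W', Z', f', g', a', b', c', ⟨n', y'⟩, ⟨m', z'⟩, x'⟩ := h'
  exact ⟨.of Λ (Y × Y'), .of Λ (W × W'), .of Λ (Z × Z'), f.prodMap f', g.prodMap g', a.prodMap a',
    fun w => by simp [Prod.ext_iff, b w.1, b' w.2], c.prodMap c',
    ⟨_, (y.prod y').trans (summand_add _ _)⟩, ⟨_, (z.prod z').trans (summand_add _ _)⟩, x.prod x'⟩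

theorem twoStep_self : TwoStep Λ M M :=
  ⟨.of Λ M, .of Λ M, .of Λ (Fin 0 → M), .id, 0, fun _ _ h => h, fun w => by simp,
    fun _ => ⟨0, Subsingleton.elim _ _⟩, ⟨1, summand_one⟩, ⟨0, .of_equiv (.refl _ _)⟩,
    .of_equiv (.refl _ _)⟩

/-- the coinduced module -/
def Co (k Λ A : Type) [Field k] [Ring Λ] [Algebra k Λ] [AddCommGroup A] [Module k A] : Type :=
  Λ →ₗ[k] A

section
variable {k A B : Type} [Field k] [Algebra k Λ] [AddCommGroup A] [Module k A]

instance : AddCommGroup (Co k Λ A) := inferInstanceAs (AddCommGroup (Λ →ₗ[k] A))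
instance : Module k (Co k Λ A) := inferInstanceAs (Module k (Λ →ₗ[k] A))

instance : Module Λ (Co k Λ A) where
  smul a f := LinearMap.comp f (LinearMap.mulRight k a)
  one_smul f := LinearMap.ext fun b => congrArg f.toFun (mul_one b)
  mul_smul a c f := LinearMap.ext fun b => congrArg f.toFun (mul_assoc b a c).symm
  smul_zero _ := rfl
  smul_add _ _ _ := rfl
  add_smul a c f := LinearMap.ext fun b => (congrArg f.toFun (mul_add b a c)).trans (f.map_add _ _)
  zero_smul f := LinearMap.ext fun b => (congrArg f.toFun (mul_zero b)).trans f.map_zero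

instance : IsScalarTower k Λ (Co k Λ A) :=
  ⟨fun c a f => LinearMap.ext fun b =>
    (congrArg f.toFun (mul_smul_comm c b a)).trans (f.map_smul c _)⟩

instance [FiniteDimensional k Λ] [FiniteDimensional k A] : FiniteDimensional k (Co k Λ A) :=
  inferInstanceAs (FiniteDimensional k (Λ →ₗ[k] A))

variable [AddCommGroup B] [Module k B] [Module Λ B] [IsScalarTower k Λ B]

/-- the map to the coinduced module given by a linear map -/
def toCo (s : B →ₗ[k] A) : B →ₗ[Λ] Co k Λ A where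
  toFun x := s ∘ₗ (LinearMap.toSpanSingleton Λ B x).restrictScalars k
  map_add' x y := LinearMap.ext fun b => (congrArg s (smul_add b x y)).trans (s.map_add _ _)
  map_smul' a x := LinearMap.ext fun b => congrArg s (mul_smul b a x).symm

theorem twoStep_of_exact [Module Λ A] [IsScalarTower k Λ A] (f : A →ₗ[Λ] B) (g : B →ₗ[Λ] M)
    (hf : Function.Injective f) (he : Function.Exact f g) (hg : Function.Surjective g) :
    TwoStep Λ (B × (Co k Λ A ⧸ LinearMap.range (toCo (Λ := Λ) (LinearMap.id : A →ₗ[k] A)))) M := by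
  obtain ⟨s, hs⟩ := (f.restrictScalars k).exists_leftInverse_of_injective
    (LinearMap.ker_eq_bot.2 hf)
  have e1 : ∀ a, toCo (Λ := Λ) s (f a) = toCo (LinearMap.id : A →ₗ[k] A) a := fun a =>
    LinearMap.ext fun b => (congrArg s (f.map_smul b a).symm).trans (LinearMap.congr_fun hs _)
  set U := LinearMap.range (toCo (Λ := Λ) (LinearMap.id : A →ₗ[k] A))
  obtain ⟨q, e2⟩ : ∃ q : M →ₗ[Λ] Co k Λ A ⧸ U, ∀ b, q (g b) = U.mkQ (toCo s b) :=
    ⟨(LinearMap.ker g).liftQ (U.mkQ ∘ₗ toCo s) (fun b hb => by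
      obtain ⟨a, rfl⟩ := (he b).1 hb
      exact (Submodule.Quotient.mk_eq_zero U).2 ⟨a, (e1 a).symm⟩) ∘ₗ
        (g.quotKerEquivOfSurjective hg).symm.toLinearMap, fun b => by simp⟩
  refine ⟨.of Λ B, .of Λ (M × Co k Λ A), .of Λ (Co k Λ A ⧸ U), g.prod (toCo s),
    (-q).coprod U.mkQ, (injective_iff_map_eq_zero _).2 fun b hb => ?_, fun w => ⟨fun hw => ?_, ?_⟩,
    fun z => ?_, ⟨1, summand_left.trans summand_one⟩, ⟨1, summand_right.trans summand_one⟩,
    summand_left⟩
  · obtain ⟨a, rfl⟩ := (he b).1 (congrArg Prod.fst hb)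
    have := LinearMap.congr_fun ((e1 a).symm.trans (congrArg Prod.snd hb)) 1
    rw [show a = 0 from (one_smul Λ a).symm.trans this, map_zero]
  · obtain ⟨b, hb⟩ := hg w.1
    have h1 : -q w.1 + U.mkQ w.2 = 0 := hw
    rw [← hb, e2, ← map_neg, ← map_add] at h1
    obtain ⟨a, ha⟩ := (Submodule.Quotient.mk_eq_zero U).1 h1
    refine ⟨f a + b, Prod.ext ?_ ?_⟩
    · show g (f a + b) = w.1
      rw [map_add, he.apply_apply_eq_zero, zero_add, hb]
    · show toCo s (f a + b) = w.2
      rw [map_add, e1, ha, neg_add_cancel_comm]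
  · rintro ⟨b, rfl⟩
    show -q (g b) + U.mkQ (toCo s b) = 0
    rw [e2, neg_add_cancel]
  · obtain ⟨i, rfl⟩ := U.mkQ_surjective z
    exact ⟨(0, i), by simp⟩

end

section
variable {k : Type} [Field k] [Algebra k Λ] {r : ℕ}

/-- the lattice given by a representation over `k[X]` -/
def Lat (_ : Λ →ₐ[k] Matrix (Fin r) (Fin r) k[X]) : Type := Fin r → k[X]

variable (ρ : Λ →ₐ[k] Matrix (Fin r) (Fin r) k[X])

noncomputable instance : AddCommGroup (Lat ρ) := inferInstanceAs (AddCommGroup (Fin r → k[X]))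
noncomputable instance : Module k (Lat ρ) := inferInstanceAs (Module k (Fin r → k[X]))
noncomputable instance : Module Λ (Lat ρ) := Module.compHom (Fin r → k[X]) ρ.toRingHom

theorem Lat.smul_def (a : Λ) (v : Lat ρ) : a • v = ρ a *ᵥ v := rfl

instance : IsScalarTower k Λ (Lat ρ) :=
  ⟨fun c a v => by rw [Lat.smul_def, map_smul]; exact smul_mulVec c (ρ a) v⟩

/-- the largest submodule of vectors of degree less than `n` -/
def Lat.deg (n : ℕ) : Submodule Λ (Lat ρ) where
  carrier := {v | ∀ (a : Λ) (i : Fin r), (a • v) i ∈ degreeLT k n}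
  add_mem' {v w} hv hw a i := by rw [smul_add]; exact add_mem (hv a i) (hw a i)
  zero_mem' a i := by rw [smul_zero]; exact zero_mem _
  smul_mem' b v hv a i := by rw [← mul_smul]; exact hv _ i

instance (n : ℕ) : FiniteDimensional k (Lat.deg ρ n) := by
  have : FiniteDimensional k (degreeLT k n) := (degreeLTEquiv k n).symm.finiteDimensional
  refine FiniteDimensional.of_injective (V₂ := Fin r → degreeLT k n)
    { toFun := fun v i => ⟨v.1 i, by simpa using v.2 1 i⟩
      map_add' := fun _ _ => rfl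
      map_smul' := fun _ _ => rfl } fun v w h => Subtype.ext (funext fun i => ?_)
  exact congrArg Subtype.val (congrFun h i)

theorem Lat.exists_deg [FiniteDimensional k Λ] :
    ∃ n, ∀ v : Fin r → k, (fun i => C (v i) : Lat ρ) ∈ Lat.deg ρ (n + 1) := by
  let β := Module.finBasis k Λ
  refine ⟨Finset.univ.sup fun t : _ × Fin r × Fin r => (ρ (β t.1) t.2.1 t.2.2).natDegree,
    fun v a i => ?_⟩
  show ∑ j, ρ a i j * C (v j) ∈ _
  refine sum_mem fun j _ => ?_
  rw [mul_comm, ← smul_eq_C_mul, ← β.sum_repr a, map_sum, Matrix.sum_apply]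
  refine Submodule.smul_mem _ _ (sum_mem fun t _ => ?_)
  rw [map_smul, Matrix.smul_apply]
  refine Submodule.smul_mem _ _ (mem_degreeLT.2 (degree_le_natDegree.trans_lt ?_))
  exact_mod_cast Nat.lt_succ_of_le (Finset.le_sup (f := fun t : _ × Fin r × Fin r =>
    (ρ (β t.1) t.2.1 t.2.2).natDegree) (Finset.mem_univ (t, i, j)))

theorem mem_shift {n : ℕ} {c : k} {p : k[X]} :
    (X - C c) * p ∈ degreeLT k (n + 1) ↔ p ∈ degreeLT k n := by
  rw [mem_degreeLT, mem_degreeLT, degree_mul, degree_X_sub_C, add_comm, Nat.cast_succ]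
  exact WithBot.add_lt_add_iff_right WithBot.one_ne_bot

/-- multiplication by `X - c` -/
noncomputable def Lat.sh (c : k) : Lat ρ →ₗ[Λ] Lat ρ where
  toFun v i := (X - C c) * v i
  map_add' _ _ := funext fun _ => mul_add _ _ _
  map_smul' a v := (mulVec_smul (ρ a) (X - C c) v).symm

theorem Lat.sh_mem {n : ℕ} {c : k} {v : Lat ρ} :
    Lat.sh ρ c v ∈ Lat.deg ρ (n + 1) ↔ v ∈ Lat.deg ρ n :=
  forall_congr' fun a => forall_congr' fun i => by rw [← map_smul]; exact mem_shift

theorem exists_ev {M : Type} [AddCommGroup M] [Module k M] [Module Λ M] (c : k)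
    (e : M ≃ₗ[k] (Fin r → k)) (he : ∀ a x, e (a • x) = ((ρ a).map (eval c)) *ᵥ e x) :
    ∃ g : Lat ρ →ₗ[Λ] M, ∀ v, e (g v) = fun i => (v i).eval c :=
  ⟨{ toFun := fun v => e.symm fun i => (v i).eval c
     map_add' := fun v w => by
       rw [← map_add]
       exact congrArg _ (funext fun i => eval_add)
     map_smul' := fun a v => e.symm_apply_eq.2 (by
       rw [RingHom.id_apply, he, e.apply_symm_apply]
       exact funext fun i => RingHom.map_mulVec (evalRingHom c) (ρ a) v i) },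
    fun v => e.apply_symm_apply _⟩

theorem exists_family [FiniteDimensional k Λ] : ∃ G : ModuleCat.{0} Λ, Module.Finite Λ G ∧
    ∀ (M : Type) [AddCommGroup M] [Module k M] [Module Λ M] (c : k) (e : M ≃ₗ[k] (Fin r → k)),
      (∀ a x, e (a • x) = ((ρ a).map (eval c)) *ᵥ e x) → TwoStep Λ G M := by
  obtain ⟨n, hn⟩ := Lat.exists_deg ρ
  refine ⟨.of Λ (Lat.deg ρ (n + 1) × (Co k Λ (Lat.deg ρ n) ⧸ LinearMap.range
    (toCo (Λ := Λ) (LinearMap.id : Lat.deg ρ n →ₗ[k] Lat.deg ρ n)))), ?_,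
    fun M _ _ _ c e he => ?_⟩
  · have := Module.Finite.of_restrictScalars_finite k Λ (Lat.deg ρ (n + 1))
    have := Module.Finite.of_restrictScalars_finite k Λ (Co k Λ (Lat.deg ρ n))
    exact Module.Finite.prod
  obtain ⟨g, hg⟩ := exists_ev ρ c e he
  refine twoStep_of_exact (k := k) (A := Lat.deg ρ n) (B := Lat.deg ρ (n + 1))
    ((Lat.sh ρ c).restrict fun v hv => (Lat.sh_mem ρ).2 hv) (g.domRestrict _)
    (fun v w h => Subtype.ext (funext fun i => mul_left_cancel₀ (X_sub_C_ne_zero c)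
      (congrFun (congrArg Subtype.val h) i))) (fun v => ⟨fun h => ?_, ?_⟩) fun x =>
    ⟨⟨_, hn (e x)⟩, e.injective ((hg _).trans (funext fun i => eval_C))⟩
  · have h1 := (hg v.1).symm.trans ((congrArg e h).trans e.map_zero)
    choose w hw using fun i => dvd_iff_isRoot.2 (congrFun h1 i)
    have e2 : v.1 = Lat.sh ρ c w := funext hw
    exact ⟨⟨w, (Lat.sh_mem ρ).1 (e2 ▸ v.2)⟩, Subtype.ext e2.symm⟩
  · rintro ⟨w, rfl⟩
    refine e.injective ((hg _).trans ((funext fun i => ?_).trans e.map_zero.symm))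
    show eval c ((X - C c) * w.1 i) = 0
    simp

theorem Tame.indec [FiniteDimensional k Λ] (h : Tame k Λ) (d : ℕ) :
    ∃ G : ModuleCat.{0} Λ, Module.Finite Λ G ∧
      ∀ (M : Type) [AddCommGroup M] [Module k M] [Module Λ M] [IsScalarTower k Λ M],
        Module.finrank k M = d + 1 → Indec Λ M → TwoStep Λ G M := by
  obtain ⟨n, r, ρ, m, N, H⟩ := h (d + 1) (Nat.succ_pos d)
  choose G G1 G2 using fun i => exists_family (ρ i)
  have : ∀ j, ∃ N' : ModuleCat.{0} Λ, Module.Finite Λ N' ∧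
      (Module.Finite Λ (N j) → Summand Λ (N j) N') := fun j => by
    by_cases c : Module.Finite Λ (N j)
    · exact ⟨N j, c, fun _ => .of_equiv (.refl _ _)⟩
    · exact ⟨.of Λ PUnit, inferInstance, fun g => absurd g c⟩
  choose N' N1 N2 using this
  refine ⟨.of Λ ((∀ i, G i) × ∀ j, N' j), Module.Finite.prod, fun M _ _ _ _ hd hi => ?_⟩
  rcases H M hd hi with ⟨j, ⟨e⟩⟩ | ⟨i, c, e, he⟩
  · have := Module.finite_of_finrank_eq_succ hd
    have := Module.Finite.of_restrictScalars_finite k Λ M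
    exact twoStep_self.mono (((N2 j (.equiv e)).trans ⟨.single Λ (fun j => N' j) j, .proj j,
      fun x => by simp⟩).trans summand_right) (.of_equiv e)
  · exact (G2 i M c e he).mono (Summand.trans ⟨.single Λ (fun i => G i) i, .proj i,
      fun x => by simp⟩ summand_left) (.of_equiv (.refl _ _))

theorem Tame.indec_le [FiniteDimensional k Λ] (h : Tame k Λ) (d : ℕ) :
    ∃ G : ModuleCat.{0} Λ, Module.Finite Λ G ∧
      ∀ (M : Type) [AddCommGroup M] [Module k M] [Module Λ M] [IsScalarTower k Λ M]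
        [FiniteDimensional k M], Module.finrank k M ≤ d → Indec Λ M → TwoStep Λ G M := by
  induction d with
  | zero =>
    refine ⟨.of Λ PUnit, inferInstance, fun M _ _ _ _ _ hd hi => ?_⟩
    exact absurd (Module.finrank_zero_iff.1 (Nat.le_zero.1 hd))
      (not_subsingleton_iff_nontrivial.2 hi.1)
  | succ d ih =>
    obtain ⟨G, G1, G2⟩ := ih
    obtain ⟨G', G3, G4⟩ := h.indec d
    refine ⟨.of Λ (G × G'), Module.Finite.prod, fun M _ _ _ _ _ hd hi => ?_⟩
    rcases hd.eq_or_lt with c | c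
    · exact (G4 M c hi).mono summand_right (.of_equiv (.refl _ _))
    · exact (G2 M (Nat.le_of_lt_succ c) hi).mono summand_left (.of_equiv (.refl _ _))

theorem Tame.main [FiniteDimensional k Λ] (h : Tame k Λ) (d : ℕ) :
    ∃ G : ModuleCat.{0} Λ, Module.Finite Λ G ∧
      ∀ (M : Type) [AddCommGroup M] [Module k M] [Module Λ M] [IsScalarTower k Λ M]
        [FiniteDimensional k M], (∀ (A : Type) [AddCommGroup A] [Module k A] [Module Λ A]
          [IsScalarTower k Λ A], Summand Λ A M → Indec Λ A → Module.finrank k A ≤ d) →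
        TwoStep Λ G M := by
  obtain ⟨G, G1, G2⟩ := h.indec_le d
  suffices H : ∀ (n : ℕ) (M : Type) [AddCommGroup M] [Module k M] [Module Λ M] [IsScalarTower k Λ M]
      [FiniteDimensional k M], Module.finrank k M = n → (∀ (A : Type) [AddCommGroup A] [Module k A]
        [Module Λ A] [IsScalarTower k Λ A], Summand Λ A M → Indec Λ A → Module.finrank k A ≤ d) →
      TwoStep Λ G M from ⟨G, G1, fun M _ _ _ _ _ => H _ M rfl⟩
  intro n
  refine Nat.strong_induction_on n fun n ih M _ _ _ _ _ hn hM => ?_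
  rcases subsingleton_or_nontrivial M with c | c
  · exact twoStep_self.mono (.of_equiv (.refl _ _)) ⟨0, 0, fun x => Subsingleton.elim _ _⟩
  by_cases hi : Indec Λ M
  · exact G2 M (hM M (.of_equiv (.refl _ _)) hi) hi
  simp only [Indec, c, true_and, not_forall, not_or] at hi
  obtain ⟨A, B, h1, h2, h3⟩ := hi
  have k1 : ∀ A : Submodule Λ M, A ≠ ⊤ → Summand Λ A M → TwoStep Λ G A := fun A hA sA => by
    have : FiniteDimensional k A := inferInstanceAs (FiniteDimensional k (A.restrictScalars k))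
    exact ih _ (lt_of_lt_of_eq (Submodule.finrank_lt (s := A.restrictScalars k)
      (by simpa using hA)) hn) A rfl fun A' _ _ _ _ s i => hM A' (s.trans sA) i
  have e := Submodule.prodEquivOfIsCompl A B h1
  exact ((k1 A (fun g => h3 (by simpa [g] using h1.disjoint))
    (summand_left.trans (.of_equiv e))).prod (k1 B (fun g => h2 (by simpa [g] using h1.disjoint))
      (summand_right.trans (.of_equiv e)))).mono (.of_equiv (.refl _ _)) (.of_equiv e.symm)

end

end Pool.Agent.Lib.MP_c55f2d_al.H54
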