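import Pool.Agent.Lib.MP_c55f2d_al.H94Mod

/-! From two-step filtrations of modules to the Rouquier dimension. -/

namespace Pool.Agent.Lib.MP_c55f2d_al.H94

open CategoryTheory Limits Pretriangulated ZeroObject

universe u

section

variable {Λ : Type u} [Ring Λ] [IsNoetherianRing Λ] [Frobenius (FGModuleCat.{u} Λ)]
  {G : Stable (FGModuleCat.{u} Λ)}

theorem Gen1.retract {M N : FGModuleCat.{u} Λ} (h : Gen1 G ((st _).obj N)) (i : M →ₗ[Λ] N)
    (r : N →ₗ[Λ] M) (hr : ∀ x, r (i x) = x) : Gen1 G ((st _).obj M) := by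
  let ρ : Retract M N :=
    ⟨FGModuleCat.ofHom i, FGModuleCat.ofHom r, FGModuleCat.hom_ext (LinearMap.ext hr)⟩
  exact .summand _ _ (.of_retract (ρ.map (st _))) h

theorem Gen1.prod {M N : FGModuleCat.{u} Λ} (h : Gen1 G ((st _).obj M))
    (h' : Gen1 G ((st _).obj N)) : Gen1 G ((st _).obj (.of Λ (M × N))) := by
  let a : FGModuleCat.of Λ (M × N) ⟶ M := FGModuleCat.ofHom (LinearMap.fst Λ M N)
  let b : FGModuleCat.of Λ (M × N) ⟶ N := FGModuleCat.ofHom (LinearMap.snd Λ M N)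
  let c : M ⟶ FGModuleCat.of Λ (M × N) := FGModuleCat.ofHom (LinearMap.inl Λ M N)
  let d : N ⟶ FGModuleCat.of Λ (M × N) := FGModuleCat.ofHom (LinearMap.inr Λ M N)
  have e : a ≫ c + b ≫ d = 𝟙 _ :=
    FGModuleCat.hom_ext (LinearMap.ext fun x => Prod.ext (add_zero x.1) (zero_add x.2))
  refine .summand _ _ (.of_retract ⟨biprod.lift ((st _).map a) ((st _).map b),
    biprod.desc ((st _).map c) ((st _).map d), ?_⟩) (.sum _ _ h h')
  rw [biprod.lift_desc, ← Functor.map_comp, ← Functor.map_comp, ← Functor.map_add, e, (st _).map_id]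

theorem Gen1.pow (G : FGModuleCat.{u} Λ) (n : ℕ) :
    Gen1 ((st _).obj G) ((st _).obj (FGModuleCat.of Λ (Fin n → G))) := by
  induction n with
  | zero =>
    have e : 𝟙 (FGModuleCat.of Λ (Fin 0 → G)) = 0 :=
      FGModuleCat.hom_ext (LinearMap.ext fun _ => Subsingleton.elim _ _)
    refine .summand _ _ (.of_retract ⟨0, 0, ?_⟩) .zero
    rw [← (st _).map_id, e, Functor.map_zero, comp_zero]
  | succ n ih =>
    let e : (G × (Fin n → G)) ≃ₗ[Λ] (Fin (n + 1) → G) := Fin.consLinearEquiv Λ fun _ => G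
    exact (Gen1.prod (M := G) .self ih).retract e.symm.toLinearMap e.toLinearMap e.apply_symm_apply

end

theorem stableDim_le_one (k Λ : Type u) [Field k] [Ring Λ] [Algebra k Λ] [FiniteDimensional k Λ]
    [Module.Injective Λ Λ] (G : FGModuleCat.{u} Λ)
    (h : ∀ (M : Type u) [AddCommGroup M] [Module Λ M] [Module.Finite Λ M], ∃ Y : Submodule Λ M,
      (∃ (n : ℕ) (i : Y →ₗ[Λ] (Fin n → G)) (r : (Fin n → G) →ₗ[Λ] Y), ∀ x, r (i x) = x) ∧
      ∃ (n : ℕ) (i : (M ⧸ Y) →ₗ[Λ] (Fin n → G)) (r : (Fin n → G) →ₗ[Λ] M ⧸ Y), ∀ x, r (i x) = x) :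
    stableDim k Λ ≤ 1 := by
  have := noeth k Λ
  have := frobenius k Λ
  refine iInf₂_le (f := fun (d : ℕ) (_ : ∃ G : Stable (FGModuleCat.{u} Λ), ∀ M, Gen G d M) =>
    (d : ℕ∞)) 1 ⟨(st _).obj G, fun M => ?_⟩
  obtain ⟨Y, ⟨n, i, r, h1⟩, m, j, s, h2⟩ := h M.as
  let S : ShortComplex (FGModuleCat.{u} Λ) :=
    ShortComplex.mk (X₁ := .of Λ Y) (X₂ := M.as) (X₃ := .of Λ (M.as ⧸ Y))
      (FGModuleCat.ofHom Y.subtype) (FGModuleCat.ofHom Y.mkQ) (FGModuleCat.hom_ext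
        (LinearMap.ext fun x => (Submodule.Quotient.mk_eq_zero Y).2 x.2))
  have hS : S.ShortExact :=
    ShortExact.reflects_shortExact_of_faithful
      (forget₂ (FGModuleCat.{u} Λ) (ModuleCat.{u} Λ))
      (ModuleCat.shortComplex_shortExact _ (LinearMap.exact_subtype_mkQ Y) Y.injective_subtype
        Y.mkQ_surjective)
  exact ⟨stdTriangle hS, (distTriang_eq (FGModuleCat.{u} Λ)).ge (dist_std hS),
    (Gen1.pow G n).retract (M := .of Λ Y) i r h1,
    (Gen1.pow G m).retract (M := .of Λ (M.as ⧸ Y)) j s h2, .of_retract (Retract.refl _)⟩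

end Pool.Agent.Lib.MP_c55f2d_al.H94
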