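import Pool.Agent.Lib.MP_c55f2d_al.H94Stable

/-! Happel's theorem: the triangles induced by short exact sequences make the stable category of
a Frobenius abelian category triangulated. -/

namespace Pool.Agent.Lib.MP_c55f2d_al.H94

open CategoryTheory Limits Pretriangulated ZeroObject

universe v u

set_option backward.isDefEq.respectTransparency false

section General

variable {T : Type u} [Category.{v} T] [HasZeroObject T] [HasShift T ℤ] [Preadditive T]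
  (D : Set (Triangle T))

theorem rot_back (hiso : ∀ A ∈ D, ∀ (B) (_ : B ≅ A), B ∈ D)
    (c1 : ∀ X : T, contractibleTriangle X ∈ D)
    (c2 : ∀ X : T, Triangle.mk (0 : (0 : T) ⟶ X) (𝟙 X) 0 ∈ D)
    (cone : ∀ {X Y : T} (f : X ⟶ Y), ∃ (Z : T) (g : Y ⟶ Z) (h : Z ⟶ X⟦(1 : ℤ)⟧),
      Triangle.mk f g h ∈ D)
    (rot : ∀ A ∈ D, A.rotate ∈ D)
    (compl : ∀ (A B : Triangle T) (_ : A ∈ D) (_ : B ∈ D) (a : A.obj₁ ⟶ B.obj₁)
      (b : A.obj₂ ⟶ B.obj₂) (_ : A.mor₁ ≫ b = a ≫ B.mor₁),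
      ∃ c : A.obj₃ ⟶ B.obj₃, A.mor₂ ≫ c = b ≫ B.mor₂ ∧ A.mor₃ ≫ a⟦1⟧' = c ≫ B.mor₃)
    (A : Triangle T) (hA : A.rotate ∈ D) : A ∈ D := by
  have z12 : ∀ A ∈ D, A.mor₁ ≫ A.mor₂ = 0 := fun A hA => by
    obtain ⟨c, hc, -⟩ := compl _ _ (c1 A.obj₁) hA (𝟙 _) A.mor₁ rfl
    exact hc.symm.trans zero_comp
  have yon : ∀ A ∈ D, ∀ (W : T) (n : A.obj₂ ⟶ W), A.mor₁ ≫ n = 0 → ∃ a, n = A.mor₂ ≫ a :=
    fun A hA W n hn => by
      obtain ⟨c, hc, -⟩ := compl _ _ hA (c2 W) 0 n (hn.trans comp_zero.symm)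
      exact ⟨c, (hc.trans (Category.comp_id _)).symm⟩
  have coy : ∀ A ∈ D, ∀ (W : T) (n : W ⟶ A.obj₃), n ≫ A.mor₃ = 0 → ∃ b, n = b ≫ A.mor₂ :=
    fun A hA W n hn => by
      obtain ⟨c, -, hc⟩ := compl _ _ (rot _ (c1 W)) (rot _ (rot _ hA)) n 0
        (zero_comp.trans hn.symm)
      obtain ⟨b, rfl⟩ := (shiftFunctor T (1 : ℤ)).map_surjective (X := W) (Y := A.obj₂) c
      refine ⟨b, (shiftFunctor T (1 : ℤ)).map_injective ?_⟩
      have hc' : (-(𝟙 W)⟦(1 : ℤ)⟧') ≫ n⟦(1 : ℤ)⟧' = b⟦(1 : ℤ)⟧' ≫ (-A.mor₂⟦(1 : ℤ)⟧') := hc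
      simpa using hc'
  have iso3 : ∀ A ∈ D, ∀ e : A.obj₃ ⟶ A.obj₃, A.mor₂ ≫ e = A.mor₂ → e ≫ A.mor₃ = A.mor₃ →
      IsIso e := fun A hA e h2 h3 => by
    have h2' : A.mor₂ ≫ (e - 𝟙 A.obj₃) = 0 := by simp [h2]
    obtain ⟨a, ha⟩ := yon _ (rot _ hA) _ (e - 𝟙 A.obj₃) h2'
    obtain ⟨b, hb⟩ := coy _ hA _ (e - 𝟙 A.obj₃) (by simp [h3])
    have h0 : (e - 𝟙 A.obj₃) ≫ (e - 𝟙 A.obj₃) = 0 := by
      have h : A.mor₂ ≫ A.mor₃ = 0 := z12 _ (rot _ hA)
      have ha' : e - 𝟙 A.obj₃ = A.mor₃ ≫ a := ha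
      calc (e - 𝟙 A.obj₃) ≫ (e - 𝟙 A.obj₃) = (b ≫ A.mor₂) ≫ A.mor₃ ≫ a := by rw [← hb, ← ha']
        _ = 0 := by rw [Category.assoc, reassoc_of% h, zero_comp, comp_zero]
    simp only [Preadditive.sub_comp, Preadditive.comp_sub, Category.id_comp,
      Category.comp_id] at h0
    refine ⟨𝟙 _ - (e - 𝟙 _), ?_, ?_⟩
    · simp only [Preadditive.comp_sub, Category.comp_id]
      rw [← sub_eq_zero, ← neg_eq_zero, ← h0]
      abel
    · simp only [Preadditive.sub_comp, Category.id_comp]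
      rw [← sub_eq_zero, ← neg_eq_zero, ← h0]
      abel
  obtain ⟨Z, g, h, hB⟩ := cone A.mor₁
  have hA3 := rot _ (rot _ hA)
  have hB3 := rot _ (rot _ (rot _ hB))
  obtain ⟨c, c₂, c₃⟩ := compl _ _ hA3 hB3 (𝟙 _) (𝟙 _) (by simp)
  obtain ⟨d, d₂, d₃⟩ := compl _ _ hB3 hA3 (𝟙 _) (𝟙 _) (by simp)
  rw [CategoryTheory.Functor.map_id, Category.comp_id] at c₃ d₃
  rw [Category.id_comp] at c₂ d₂
  have i1 := iso3 _ hA3 (c ≫ d) (by rw [reassoc_of% c₂, d₂]) (by rw [Category.assoc, ← d₃, ← c₃])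
  have i2 := iso3 _ hB3 (d ≫ c) (by rw [reassoc_of% d₂, c₂]) (by rw [Category.assoc, ← c₃, ← d₃])
  have : Mono c := mono_of_mono c d
  have : IsSplitEpi c := ⟨⟨inv (d ≫ c) ≫ d, by simp⟩⟩
  have hc : IsIso c := isIso_of_mono_of_isSplitEpi c
  obtain ⟨ψ, rfl⟩ := (shiftFunctor T (1 : ℤ)).map_surjective (X := A.obj₃) (Y := Z) c
  have := isIso_of_reflects_iso ψ (shiftFunctor T (1 : ℤ))
  refine hiso _ hB _ (Triangle.isoMk _ _ (Iso.refl _) (Iso.refl _) (asIso ψ) (by simp) ?_ ?_)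
  · exact (shiftFunctor T (1 : ℤ)).map_injective (by simpa using c₂)
  · exact (shiftFunctor T (1 : ℤ)).map_injective (by simpa using c₃)

end General

variable {C : Type u} [Category.{v} C] [Abelian C] [Frobenius C]

theorem dist_iso : ∀ A ∈ distTri C, ∀ (B) (_ : B ≅ A), B ∈ distTri C :=
  fun _ ⟨S, hS, ⟨e⟩⟩ _ e' => ⟨S, hS, ⟨e' ≪≫ e⟩⟩

theorem dist_std {S : ShortComplex C} (hS : S.ShortExact) : stdTriangle hS ∈ distTri C :=
  ⟨S, hS, ⟨Iso.refl _⟩⟩

theorem dist_contractible (X : Stable C) : contractibleTriangle X ∈ distTri C := by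
  let S : ShortComplex C := ShortComplex.mk (𝟙 X.as) (0 : X.as ⟶ 0) (by simp)
  have hS : S.ShortExact := { exact := (S.exact_iff_epi rfl).2 inferInstance }
  have h0 : IsZero ((st C).obj 0) := st_isZero _
  exact ⟨S, hS, ⟨Triangle.isoMk _ _ (Iso.refl _) (Iso.refl _) ((isZero_zero _).iso h0)
    (by simp [stdTriangle, S]; rfl) (h0.eq_of_tgt _ _) ((isZero_zero _).eq_of_src _ _)⟩⟩

theorem dist_contractible₁ (X : Stable C) :
    Triangle.mk (0 : (0 : Stable C) ⟶ X) (𝟙 X) 0 ∈ distTri C := by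
  let S : ShortComplex C := ShortComplex.mk (0 : 0 ⟶ X.as) (𝟙 X.as) (by simp)
  have hS : S.ShortExact := { exact := (S.exact_iff_mono rfl).2 inferInstance }
  have h0 : IsZero ((st C).obj 0) := st_isZero _
  exact ⟨S, hS, ⟨Triangle.isoMk _ _ ((isZero_zero _).iso h0) (Iso.refl _) (Iso.refl _)
    ((isZero_zero _).eq_of_src _ _) (by simp [stdTriangle, S]; rfl)
    (((shiftFunctor (Stable C) (1 : ℤ)).map_isZero h0).eq_of_tgt _ _)⟩⟩

theorem dist_cone {X Y : Stable C} (f : X ⟶ Y) :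
    ∃ (Z : Stable C) (g : Y ⟶ Z) (h : Z ⟶ X⟦(1 : ℤ)⟧), Triangle.mk f g h ∈ distTri C := by
  obtain ⟨f, rfl⟩ := (st C).map_surjective (X := X.as) (Y := Y.as) f
  let j := biprod.lift f (Injective.ι X.as)
  have : Mono j := mono_of_mono_fac (biprod.lift_snd f (Injective.ι X.as))
  let S : ShortComplex C := ShortComplex.mk j (cokernel.π j) (cokernel.condition _)
  have hS : S.ShortExact :=
    { exact := ShortComplex.exact_of_g_is_cokernel _ (cokernelIsCokernel _) }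
  refine ⟨_, (st C).map biprod.inl ≫ (stdTriangle hS).mor₂, (stdTriangle hS).mor₃, S, hS,
    ⟨Triangle.isoMk _ _ (Iso.refl _)
      (asIso ((st C).map (biprod.inl : Y.as ⟶ Y.as ⊞ Injective.under X.as))) (Iso.refl _) ?_
      (by simp) (by simp)⟩⟩
  refine ((st C).map_comp _ _).symm.trans (Eq.trans ?_ (Category.id_comp _).symm)
  refine ((st_eq _ _).2 ⟨_, Injective.ι X.as, biprod.inr, inferInstance, ?_⟩).symm
  ext <;> simp [S, j]

theorem std_natural {S S' : ShortComplex C} (hS : S.ShortExact) (hS' : S'.ShortExact)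
    (φ : S ⟶ S') : (stdTriangle hS).mor₃ ≫ ((st C).map φ.τ₁)⟦(1 : ℤ)⟧' =
      (st C).map φ.τ₃ ≫ (stdTriangle hS').mor₃ :=
  ((st C).map_comp _ _).symm.trans ((st_τ₃ hS
    (extend hS (𝟙 _) ≫ extend (injSeq_shortExact _) φ.τ₁) (φ ≫ extend hS' (𝟙 _))
      (by simp)).trans ((st C).map_comp _ _))

theorem std_complete {S S' : ShortComplex C} (hS : S.ShortExact) (hS' : S'.ShortExact)
    (a : (st C).obj S.X₁ ⟶ (st C).obj S'.X₁) (b : (st C).obj S.X₂ ⟶ (st C).obj S'.X₂)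
    (h : (st C).map S.f ≫ b = a ≫ (st C).map S'.f) :
    ∃ c : (st C).obj S.X₃ ⟶ (st C).obj S'.X₃, (st C).map S.g ≫ c = b ≫ (st C).map S'.g ∧
      (stdTriangle hS).mor₃ ≫ a⟦(1 : ℤ)⟧' = c ≫ (stdTriangle hS').mor₃ := by
  obtain ⟨a, rfl⟩ := (st C).map_surjective a
  obtain ⟨b, rfl⟩ := (st C).map_surjective b
  have := hS.mono_f
  have := hS.epi_g
  rw [← Functor.map_comp, ← Functor.map_comp, st_eq] at h
  obtain ⟨P, α, β, hP, h⟩ := h
  have := (Frobenius.proj_iff_inj P).1 hP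
  have h1 : a ≫ S'.f = S.f ≫ (b - Injective.factorThru α S.f ≫ β) := by simp [h]
  obtain ⟨c, hc⟩ := hS.exact.desc' ((b - Injective.factorThru α S.f ≫ β) ≫ S'.g)
    (by rw [← reassoc_of% h1, S'.zero, comp_zero])
  have h2 : (st C).map b = (st C).map (b - Injective.factorThru α S.f ≫ β) :=
    (st_eq _ _).2 ⟨P, _, β, hP, (sub_sub_cancel _ _).symm⟩
  refine ⟨(st C).map c, ?_, std_natural hS hS' ⟨a, _, c, h1, hc.symm⟩⟩
  rw [h2, ← Functor.map_comp, ← Functor.map_comp, hc]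

theorem dist_complete (A B : Triangle (Stable C)) (hA : A ∈ distTri C) (hB : B ∈ distTri C)
    (a : A.obj₁ ⟶ B.obj₁) (b : A.obj₂ ⟶ B.obj₂) (h : A.mor₁ ≫ b = a ≫ B.mor₁) :
    ∃ c : A.obj₃ ⟶ B.obj₃, A.mor₂ ≫ c = b ≫ B.mor₂ ∧ A.mor₃ ≫ a⟦1⟧' = c ≫ B.mor₃ := by
  obtain ⟨S, hS, ⟨e⟩⟩ := hA
  obtain ⟨S', hS', ⟨e'⟩⟩ := hB
  obtain ⟨c, h₂, h₃⟩ := std_complete hS hS' (e.inv.hom₁ ≫ a ≫ e'.hom.hom₁)
    (e.inv.hom₂ ≫ b ≫ e'.hom.hom₂) (by
      have h1 : (st C).map S.f ≫ e.inv.hom₂ = e.inv.hom₁ ≫ A.mor₁ := e.inv.comm₁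
      have h2 : B.mor₁ ≫ e'.hom.hom₂ = e'.hom.hom₁ ≫ (st C).map S'.f := e'.hom.comm₁
      rw [reassoc_of% h1, reassoc_of% h, h2, Category.assoc, Category.assoc])
  let ψ : stdTriangle hS ⟶ stdTriangle hS' := Triangle.homMk _ _ (e.inv.hom₁ ≫ a ≫ e'.hom.hom₁)
    (e.inv.hom₂ ≫ b ≫ e'.hom.hom₂) c (by
      have h1 := e.inv.comm₁
      have h2 := e'.hom.comm₁
      rw [reassoc_of% h1, reassoc_of% h, h2, Category.assoc, Category.assoc]) h₂ h₃
  have k₂ := (e.hom ≫ ψ ≫ e'.inv).comm₂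
  have k₃ := (e.hom ≫ ψ ≫ e'.inv).comm₃
  have l₁ : (e.hom ≫ ψ ≫ e'.inv).hom₁ = a := by simp [ψ]
  have l₂ : (e.hom ≫ ψ ≫ e'.inv).hom₂ = b := by simp [ψ]
  rw [l₂] at k₂
  rw [l₁] at k₃
  exact ⟨_, k₂, k₃⟩

theorem std_rotate {S : ShortComplex C} (hS : S.ShortExact) :
    (stdTriangle hS).rotate ∈ distTri C := by
  have := hS.mono_f
  have := hS.epi_g
  let φ := extend hS (𝟙 S.X₁)
  have h1 : Injective.ι S.X₁ = S.f ≫ φ.τ₂ := by simpa [φ] using φ.comm₁₂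
  have h2 : φ.τ₂ ≫ cokernel.π (Injective.ι S.X₁) = S.g ≫ φ.τ₃ := φ.comm₂₃
  let R : ShortComplex C := ShortComplex.mk (biprod.lift S.g φ.τ₂)
    (biprod.desc φ.τ₃ (-cokernel.π (Injective.ι S.X₁))) (by simp [h2])
  have : Epi R.g := epi_of_epi_fac (biprod.inr_desc φ.τ₃ (-cokernel.π (Injective.ι S.X₁)))
  have : Mono R.f := Preadditive.mono_of_cancel_zero _ fun t ht => by
    obtain ⟨s, rfl⟩ := hS.exact.lift' t (by simpa [R] using ht =≫ biprod.fst)
    have h3 : s ≫ Injective.ι S.X₁ = 0 := by simpa [R, h1] using ht =≫ biprod.snd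
    rw [zero_of_comp_mono _ h3, zero_comp]
  have hR : R.ShortExact :=
    { exact := ShortComplex.exact_of_g_is_cokernel _ (CokernelCofork.IsColimit.ofπ' _ _
        fun {A} k hk => by
          have hk' : S.g ≫ biprod.inl ≫ k + φ.τ₂ ≫ biprod.inr ≫ k = 0 := by
            simpa [R, biprod.lift_eq] using hk
          have h3 : Injective.ι S.X₁ ≫ (-biprod.inr ≫ k) = 0 := by
            have := S.f ≫= hk'
            simpa [h1] using this
          refine ⟨cokernel.desc _ _ h3, ?_⟩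
          ext
          · rw [← cancel_epi S.g]
            simp [R, ← reassoc_of% h2, eq_neg_of_add_eq_zero_left hk']
          · simp [R]) }
  refine ⟨R, hR, ⟨Triangle.isoMk _ _ (Iso.refl _)
    (asIso ((st C).map (biprod.inl : S.X₃ ⟶ S.X₃ ⊞ Injective.under S.X₁))) (Iso.refl _)
    ?_ ?_ ?_⟩⟩
  · refine ((st C).map_comp _ _).symm.trans (Eq.trans ?_ (Category.id_comp _).symm)
    refine ((st_eq _ _).2 ⟨_, φ.τ₂, biprod.inr, projUnder S.X₁, ?_⟩).symm
    ext <;> simp [R]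
  · refine (Category.comp_id _).trans (Eq.trans ?_ ((st C).map_comp _ _))
    simp [R, stdTriangle, φ]
  · let ψ := extend hR (𝟙 R.X₁)
    have h3 : Injective.ι S.X₂ = R.f ≫ ψ.τ₂ := by simpa [ψ] using ψ.comm₁₂
    have h4 : ψ.τ₂ ≫ cokernel.π (Injective.ι S.X₂) = R.g ≫ ψ.τ₃ := ψ.comm₂₃
    let χ : injSeq S.X₁ ⟶ injSeq S.X₂ := ⟨S.f, biprod.inr ≫ ψ.τ₂, -ψ.τ₃, by
      simp [h1, h3, R, biprod.lift_eq], by simp [h4, R]⟩
    have h5 : (cosyz C).map ((st C).map S.f) = (st C).map (-ψ.τ₃) := cosyz_map χ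
    have h6 : (stdTriangle hS).rotate.mor₃ = (st C).map ψ.τ₃ := by
      rw [Functor.map_neg] at h5
      exact neg_eq_iff_eq_neg.2 h5
    refine Eq.trans ?_ (h6.trans (Category.id_comp _).symm)
    simp

theorem dist_rotate : ∀ A ∈ distTri C, A.rotate ∈ distTri C :=
  fun _ ⟨_, hS, ⟨e⟩⟩ => dist_iso _ (std_rotate hS) _ ((rotate (Stable C)).mapIso e)

theorem dist_rotate_iff (A : Triangle (Stable C)) : A ∈ distTri C ↔ A.rotate ∈ distTri C :=
  ⟨dist_rotate A, rot_back _ dist_iso dist_contractible dist_contractible₁ dist_cone dist_rotate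
    dist_complete A⟩

/-- Happel's theorem: the stable category is pretriangulated, with the triangles induced by short
exact sequences as distinguished triangles. -/
@[instance_reducible]
noncomputable def preTri : Pretriangulated (Stable C) where
  distinguishedTriangles := distTri C
  isomorphic_distinguished := dist_iso
  contractible_distinguished := dist_contractible
  distinguished_cocone_triangle := dist_cone
  rotate_distinguished_triangle := dist_rotate_iff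
  complete_distinguished_triangle_morphism := dist_complete

attribute [local instance] preTri

/-- the short exact sequence given by a monomorphism -/
noncomputable abbrev cokSeq {X Y : C} (f : X ⟶ Y) : ShortComplex C :=
  ShortComplex.mk f (cokernel.π f) (cokernel.condition _)

omit [Frobenius C] in
theorem cokSeq_shortExact {X Y : C} (f : X ⟶ Y) [Mono f] : (cokSeq f).ShortExact :=
  { exact := ShortComplex.exact_of_g_is_cokernel _ (cokernelIsCokernel _) }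

theorem exists_mono {X Y : C} (u : (st C).obj X ⟶ (st C).obj Y) :
    ∃ (Y' : C) (f : X ⟶ Y') (e : (st C).obj Y ≅ (st C).obj Y'), Mono f ∧
      u ≫ e.hom = (st C).map f := by
  obtain ⟨f, rfl⟩ := (st C).map_surjective u
  refine ⟨_, biprod.lift f (Injective.ι X),
    asIso ((st C).map (biprod.inl : Y ⟶ Y ⊞ Injective.under X)),
    mono_of_mono_fac (biprod.lift_snd f (Injective.ι X)), ((st C).map_comp _ _).symm.trans ?_⟩
  refine ((st_eq _ _).2 ⟨_, Injective.ι X, biprod.inr, inferInstance, ?_⟩).symm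
  ext <;> simp

theorem octa {X₁ X₂ X₃ : C} (f : X₁ ⟶ X₂) (g : X₂ ⟶ X₃) [Mono f] [Mono g] :
    Nonempty (Triangulated.Octahedron (rfl : (st C).map f ≫ (st C).map g = (st C).map (f ≫ g))
      (dist_std (cokSeq_shortExact f)) (dist_std (cokSeq_shortExact g))
      (dist_std (cokSeq_shortExact (f ≫ g)))) := by
  let m₁ : cokernel f ⟶ cokernel (f ≫ g) := cokernel.desc _ (g ≫ cokernel.π _)
    (by rw [← Category.assoc, cokernel.condition])
  let m₃ : cokernel (f ≫ g) ⟶ cokernel g := cokernel.desc _ (cokernel.π _) (by simp)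
  let R : ShortComplex C := ShortComplex.mk m₁ m₃ (by ext; simp [m₁, m₃])
  have : Epi R.g := epi_of_epi_fac (cokernel.π_desc _ _ _)
  have : Mono R.f := Preadditive.mono_of_cancel_zero _ fun {W} t ht => by
    let s := Projective.factorThru (Projective.π W ≫ t) (cokernel.π f)
    have hs : s ≫ cokernel.π f = Projective.π W ≫ t := Projective.factorThru_comp _ _
    have h1 : (s ≫ g) ≫ cokernel.π (f ≫ g) = 0 := by
      have : cokernel.π f ≫ m₁ = g ≫ cokernel.π _ := cokernel.π_desc _ _ _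
      have ht' : t ≫ m₁ = 0 := ht
      rw [Category.assoc, ← this, reassoc_of% hs, ht', comp_zero]
    obtain ⟨r, hr⟩ := (cokSeq_shortExact (f ≫ g)).exact.lift' (s ≫ g) h1
    have h2 : r ≫ f = s := by rw [← cancel_mono g]; simpa using hr
    rw [← cancel_epi (Projective.π W), ← hs, ← h2]
    simp
  have hR : R.ShortExact :=
    { exact := ShortComplex.exact_of_g_is_cokernel _ (CokernelCofork.IsColimit.ofπ' _ _
        fun {A} k hk => by
          have h3 : g ≫ cokernel.π (f ≫ g) ≫ k = 0 := by simpa [R, m₁] using cokernel.π f ≫= hk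
          refine ⟨cokernel.desc _ _ h3, ?_⟩
          ext
          simp [R, m₃]) }
  have n₂ := std_natural (cokSeq_shortExact f) (cokSeq_shortExact (f ≫ g))
    ⟨𝟙 _, g, m₁, by simp, by simp [m₁]⟩
  have n₄ := std_natural (cokSeq_shortExact (f ≫ g)) (cokSeq_shortExact g)
    ⟨f, 𝟙 _, m₃, by simp, by simp [m₃]⟩
  have n₅ := std_natural (cokSeq_shortExact g) hR
    ⟨cokernel.π f, cokernel.π (f ≫ g), 𝟙 _, by simp [R, m₁], by simp [R, m₃]⟩
  refine ⟨⟨(st C).map m₁, (st C).map m₃, ?_, ?_, ?_, n₄, ?_⟩⟩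
  · rw [← Functor.map_comp, ← Functor.map_comp]
    simp [m₁]
  · refine n₂.symm.trans ?_
    erw [(st C).map_id, (shiftFunctor (Stable C) (1 : ℤ)).map_id]
    exact Category.comp_id _
  · rw [← Functor.map_comp]
    simp [m₃]
  · refine dist_iso _ (dist_std hR) _ (Triangle.isoMk _ _ (Iso.refl _) (Iso.refl _) (Iso.refl _)
      (by simp [stdTriangle, R]) (by simp [stdTriangle, R]) ?_)
    simpa [stdTriangle] using n₅

/-- Happel's theorem: (TR4) holds, so the stable category is triangulated. -/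
theorem isTri : IsTriangulated (Stable C) := IsTriangulated.mk' fun X₁ X₂ X₃ u₁₂ u₂₃ => by
  obtain ⟨Y₂, f, e₂, hf, h₂⟩ := exists_mono (X := X₁.as) (Y := X₂.as) u₁₂
  obtain ⟨Y₃, g, e₃, hg, h₃⟩ := exists_mono (X := Y₂) (Y := X₃.as) (e₂.inv ≫ u₂₃)
  exact ⟨_, _, _, _, _, _, (st C).map f, (st C).map g, Iso.refl _, e₂, e₃,
    h₂.trans (Category.id_comp _).symm, by rw [← h₃]; simp, _, _, _, _, _, _, _, _, _, octa f g⟩

end Pool.Agent.Lib.MP_c55f2d_al.H94
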