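import Mathlib

/-! Over a selfinjective finite-dimensional algebra every finitely generated module embeds in a
finitely generated free module. -/

namespace Pool.Agent.Lib.MP_c55f2d_al.H94

universe u

variable {k Λ : Type u} [Field k] [Ring Λ] [Algebra k Λ] [FiniteDimensional k Λ]
  [Module.Injective Λ Λ]

include k in
theorem exists_simple_ann (S : Type u) [AddCommGroup S] [Module Λ S] [Nontrivial S] :
    ∃ U : Submodule Λ Λ, IsSimpleModule Λ U ∧ ∀ x ∈ U, ∀ a ∈ Module.annihilator Λ S, x * a = 0 := by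
  have : IsArtinianRing Λ := isArtinian_of_tower k inferInstance
  let N : Submodule k Λ := (Module.annihilator Λ S).restrictScalars k
  let b := Module.finBasis k N
  let f : Λ →ₗ[Λ] (Fin (Module.finrank k N) → Λ) :=
    LinearMap.pi fun i => LinearMap.toSpanSingleton Λ Λ (b i : Λ)
  have hker : LinearMap.ker f ≠ ⊥ := fun h => by
    obtain ⟨g, hg⟩ := Module.Injective.out f (LinearMap.ker_eq_bot.1 h) (LinearMap.id (R := Λ))
    have h1 : (1 : Λ) ∈ Module.annihilator Λ S := by
      have h2 : f 1 = ∑ i, (b i : Λ) • (Pi.single i 1 : Fin (Module.finrank k N) → Λ) := by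
        ext j
        simp [f, Pi.single_apply]
      have h3 : (1 : Λ) = g (f 1) := (hg 1).symm
      rw [h3, h2, map_sum]
      exact Ideal.sum_mem _ fun i _ => by
        rw [map_smul, smul_eq_mul]
        exact Ideal.mul_mem_right _ _ (b i).2
    obtain ⟨s, hs⟩ := exists_ne (0 : S)
    exact hs (by simpa using Module.mem_annihilator.1 h1 s)
  obtain ⟨U, hU, hle⟩ := (eq_bot_or_exists_atom_le (LinearMap.ker f)).resolve_left hker
  refine ⟨U, isSimpleModule_iff_isAtom.2 hU, fun x hx a ha => ?_⟩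
  have h1 : ∀ i, x * (b i : Λ) = 0 := fun i => congrFun (LinearMap.mem_ker.1 (hle hx)) i
  have h2 : a = ∑ i, b.repr ⟨a, ha⟩ i • (b i : Λ) := by
    have := congrArg Subtype.val (b.sum_repr ⟨a, ha⟩)
    rw [Submodule.coe_sum] at this
    exact this.symm
  rw [h2, Finset.mul_sum]
  exact Finset.sum_eq_zero fun i _ => by rw [mul_smul_comm, h1, smul_zero]

omit [Module.Injective Λ Λ] in
include k in
theorem exists_sep (S S' : Type u) [AddCommGroup S] [Module Λ S] [IsSimpleModule Λ S]
    [AddCommGroup S'] [Module Λ S'] [IsSimpleModule Λ S'] (h : IsEmpty (S ≃ₗ[Λ] S')) :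
    ∃ u ∈ Module.annihilator Λ S, 1 - u ∈ Module.annihilator Λ S' := by
  have z1 : ∀ f : S →ₗ[Λ] S', f = 0 := fun f =>
    f.bijective_or_eq_zero.resolve_left fun hf => h.false (.ofBijective f hf)
  have z2 : ∀ f : S' →ₗ[Λ] S, f = 0 := fun f =>
    f.bijective_or_eq_zero.resolve_left fun hf => h.false (LinearEquiv.ofBijective f hf).symm
  let p : Module.End (Module.End Λ (S × S')) (S × S') :=
    { toFun := fun x => (0, x.2)
      map_add' := fun x y => by simp
      map_smul' := fun φ x => by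
        have h1 := LinearMap.congr_fun (z1 (.snd Λ S S' ∘ₗ φ ∘ₗ .inl Λ S S')) x.1
        have h2 := LinearMap.congr_fun (z2 (.fst Λ S S' ∘ₗ φ ∘ₗ .inr Λ S S')) x.2
        have h3 : φ x = φ (x.1, 0) + φ (0, x.2) := by rw [← map_add]; simp
        simp only [LinearMap.comp_apply, LinearMap.inl_apply, LinearMap.inr_apply,
          LinearMap.snd_apply, LinearMap.fst_apply, LinearMap.zero_apply] at h1 h2
        refine Prod.ext h2.symm ?_
        show (φ x).2 = (φ (0, x.2)).2
        rw [h3, Prod.snd_add, h1, zero_add] }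
  let : Module k (S × S') := Module.compHom _ (algebraMap k Λ)
  have : IsScalarTower k Λ (S × S') := ⟨fun c a x => by rw [Algebra.smul_def, mul_smul]; rfl⟩
  have : FiniteDimensional k (S × S') := Module.Finite.trans Λ _
  have : IsSemisimpleModule Λ (S × S') :=
    have := IsSemisimpleModule.sup (IsSemisimpleModule.range (LinearMap.inl Λ S S'))
      (IsSemisimpleModule.range (LinearMap.inr Λ S S'))
    .congr (LinearEquiv.ofTop _ LinearMap.sup_range_inl_inr).symm
  obtain ⟨s, hs⟩ := Module.Finite.fg_top (R := k) (M := S × S')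
  obtain ⟨u, hu⟩ := jacobson_density p s
  have key : ∀ x : S × S', ((0 : S), x.2) = u • x := fun x => by
    induction hs.ge (trivial : x ∈ ⊤) using Submodule.span_induction with
    | mem m hm => exact hu m hm
    | zero => simp
    | add _ _ _ _ h₁ h₂ => rw [smul_add, ← h₁, ← h₂]; simp
    | smul c x _ h =>
      rw [← algebraMap_smul Λ c x, smul_smul, ← Algebra.commutes, mul_smul, ← h]
      exact Prod.ext (smul_zero _).symm rfl
  refine ⟨u, Module.mem_annihilator.2 fun x => (congrArg Prod.fst (key (x, 0))).symm,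
    Module.mem_annihilator.2 fun y => ?_⟩
  rw [sub_smul, one_smul, sub_eq_zero]
  exact congrArg Prod.snd (key (0, y))

include k in
theorem equiv_of_ann (S S' : Type u) [AddCommGroup S] [Module Λ S] [IsSimpleModule Λ S]
    [AddCommGroup S'] [Module Λ S'] [IsSimpleModule Λ S'] (U U' : Submodule Λ Λ) [Nontrivial U]
    (e : U ≃ₗ[Λ] U') (hU : ∀ x ∈ U, ∀ a ∈ Module.annihilator Λ S, x * a = 0)
    (hU' : ∀ x ∈ U', ∀ a ∈ Module.annihilator Λ S', x * a = 0) : Nonempty (S ≃ₗ[Λ] S') := by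
  by_contra h
  obtain ⟨u, hu, hu'⟩ := exists_sep (k := k) S S' (not_nonempty_iff.1 h)
  obtain ⟨g, hg⟩ := Module.Injective.out U.subtype U.injective_subtype (U'.subtype ∘ₗ e.toLinearMap)
  obtain ⟨x, hx⟩ := exists_ne (0 : U)
  have h1 : (e x : Λ) = x * g 1 := by
    rw [← smul_eq_mul, ← map_smul, smul_eq_mul, mul_one]
    exact (hg x).symm
  have h2 : (e x : Λ) * u = 0 := by
    rw [h1, mul_assoc]
    exact hU _ x.2 _ (Ideal.mul_mem_left _ _ hu)
  have h3 := hU' _ (e x).2 _ hu'
  rw [mul_sub, mul_one, h2, sub_zero] at h3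
  exact hx (e.map_eq_zero_iff.1 (Subtype.ext h3))

include k in
/-- every simple module is isomorphic to a left ideal -/
theorem kasch (S : Type u) [AddCommGroup S] [Module Λ S] [IsSimpleModule Λ S] :
    ∃ V : Submodule Λ Λ, Nonempty (S ≃ₗ[Λ] V) := by
  have : IsNoetherianRing Λ := isNoetherian_of_tower k inferInstance
  have iso : ∀ U U' : Submodule Λ Λ, IsSimpleModule Λ U → IsSimpleModule Λ U' →
      isotypicComponent Λ Λ U = isotypicComponent Λ Λ U' → Nonempty (U ≃ₗ[Λ] U') :=
    fun U U' _ _ h => isIsotypicOfType_submodule_iff.mp (.isotypicComponent Λ Λ U') _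
      (h ▸ U.le_isotypicComponent)
  choose V hV hc using fun c : isotypicComponents Λ Λ => c.2
  choose U hU hann using fun c : isotypicComponents Λ Λ =>
    @exists_simple_ann k Λ _ _ _ _ _ (V c) _ _ (IsSimpleModule.nontrivial Λ _)
  let ψ : isotypicComponents Λ Λ → isotypicComponents Λ Λ :=
    fun c => ⟨isotypicComponent Λ Λ (U c), U c, hU c, rfl⟩
  have hψ : Function.Injective ψ := fun c c' h => by
    obtain ⟨e⟩ := iso _ _ (hU c) (hU c') (congrArg Subtype.val h)
    have := IsSimpleModule.nontrivial Λ (U c)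
    obtain ⟨e'⟩ := equiv_of_ann (k := k) (V c) (V c') _ _ e (hann c) (hann c')
    exact Subtype.ext (by rw [hc c, hc c', e'.isotypicComponent_eq])
  have := IsSimpleModule.nontrivial Λ S
  obtain ⟨W, hW, hW'⟩ := exists_simple_ann (k := k) (Λ := Λ) S
  obtain ⟨c, h⟩ := Finite.surjective_of_injective hψ ⟨isotypicComponent Λ Λ W, W, hW, rfl⟩
  obtain ⟨e⟩ := iso _ _ (hU c) hW (congrArg Subtype.val h)
  have := IsSimpleModule.nontrivial Λ W
  exact ⟨V c, equiv_of_ann (k := k) S (V c) _ _ e.symm hW' (hann c)⟩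

include k in
theorem exists_embedding (X : Type u) [AddCommGroup X] [Module Λ X] [Module.Finite Λ X] :
    ∃ (n : ℕ) (f : X →ₗ[Λ] (Fin n → Λ)), Function.Injective f := by
  have : IsArtinianRing Λ := isArtinian_of_tower k inferInstance
  obtain ⟨_, ⟨n, f, rfl⟩, hmin⟩ := IsArtinian.set_has_minimal
    {K : Submodule Λ X | ∃ (n : ℕ) (f : X →ₗ[Λ] (Fin n → Λ)), LinearMap.ker f = K}
    ⟨_, 0, 0, rfl⟩
  refine ⟨n, f, LinearMap.ker_eq_bot.1 (by_contra fun hne => ?_)⟩
  obtain ⟨S, hS, hle⟩ := (eq_bot_or_exists_atom_le (LinearMap.ker f)).resolve_left hne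
  have := isSimpleModule_iff_isAtom.2 hS
  obtain ⟨V, ⟨e⟩⟩ := kasch (k := k) (Λ := Λ) S
  obtain ⟨g, hg⟩ := Module.Injective.out S.subtype S.injective_subtype (V.subtype ∘ₗ e.toLinearMap)
  let f' : X →ₗ[Λ] (Fin (n + 1) → Λ) := (Fin.consLinearEquiv Λ fun _ => Λ).toLinearMap ∘ₗ g.prod f
  have hf' : ∀ x, f' x = 0 ↔ g x = 0 ∧ f x = 0 := fun x =>
    ((Fin.consLinearEquiv Λ fun _ : Fin (n + 1) => Λ).map_eq_zero_iff).trans Prod.ext_iff
  refine hmin _ ⟨_, f', rfl⟩ (lt_of_le_of_ne (fun x hx => ((hf' x).1 hx).2) fun h => hS.1 ?_)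
  refine (Submodule.eq_bot_iff _).2 fun x hx => ?_
  have h1 : g x = 0 := ((hf' x).1 (h.ge (hle hx))).1
  have h2 : (e ⟨x, hx⟩ : Λ) = 0 := (hg ⟨x, hx⟩).symm.trans h1
  exact congrArg Subtype.val (e.map_eq_zero_iff.1 (Subtype.ext h2))

end Pool.Agent.Lib.MP_c55f2d_al.H94
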