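import Mathlib

/-! The Rouquier dimension of a triangulated category. -/

namespace Pool.Agent.Lib.MP_c55f2d_al.H94

open CategoryTheory Limits Pretriangulated ZeroObject

universe v u

variable {T : Type u} [Category.{v} T] [HasZeroObject T] [HasShift T ℤ] [Preadditive T]
  [∀ n : ℤ, (shiftFunctor T n).Additive] [Pretriangulated T]

/-- `X` is a direct summand of `Y` -/
def IsSummand (X Y : T) : Prop := ∃ Z : T, Nonempty (Y ≅ X ⊞ Z)

/-- `⟨G⟩₁`: the smallest class of objects containing `G` and closed under finite direct sums,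
direct summands and shifts -/
inductive Gen1 (G : T) : T → Prop
  | self : Gen1 G G
  | zero : Gen1 G 0
  | sum (X Y : T) : Gen1 G X → Gen1 G Y → Gen1 G (X ⊞ Y)
  | summand (X Y : T) : IsSummand X Y → Gen1 G Y → Gen1 G X
  | shift (X : T) (n : ℤ) : Gen1 G X → Gen1 G (X⟦n⟧)

/-- `Gen G n` is `⟨G⟩_{n+1}`; the class `⟨G⟩_{n+2}` consists of the direct summands of the middle
terms `X` of distinguished triangles `Y → X → Z → Y[1]` with `Y` in `⟨G⟩_{n+1}` and `Z` in
`⟨G⟩₁` -/
def Gen (G : T) : ℕ → T → Prop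
  | 0 => Gen1 G
  | n + 1 => fun W => ∃ A ∈ distTriang T, Gen G n A.obj₁ ∧ Gen1 G A.obj₃ ∧ IsSummand W A.obj₂

variable (T) in
/-- the Rouquier dimension of a triangulated category: the least `d` such that
`T = ⟨G⟩_{d+1}` for some object `G`, and `⊤` if there is no such `d` -/
noncomputable def rouquierDim [IsTriangulated T] : ℕ∞ :=
  ⨅ (d : ℕ) (_ : ∃ G : T, ∀ X, Gen G d X), (d : ℕ∞)

theorem IsSummand.of_retract {X Y : T} (h : Retract X Y) : IsSummand X Y := by
  obtain ⟨Z, g, k, hT⟩ := distinguished_cocone_triangle h.i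
  obtain ⟨e, -⟩ := exists_iso_binaryBiproduct_of_distTriang _ hT
    (Triangle.mor₃_eq_zero_of_mono₁ _ hT (inferInstanceAs (Mono h.i)))
  exact ⟨Z, ⟨e⟩⟩

end Pool.Agent.Lib.MP_c55f2d_al.H94
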