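import Pool.Agent.Lib.MP_c55f2d_al.H94Happel
import Pool.Agent.Lib.MP_c55f2d_al.H94Rouquier
import Pool.Agent.Lib.MP_c55f2d_al.H94Kasch

/-! The stable module category of a selfinjective algebra and its Rouquier dimension. -/

namespace Pool.Agent.Lib.MP_c55f2d_al.H94

open CategoryTheory Limits Pretriangulated ZeroObject

universe v u

section

variable (C : Type u) [Category.{v} C] [Abelian C] [Frobenius C]

/-- Happel's theorem: the stable category of a Frobenius abelian category is triangulated, the
distinguished triangles being those isomorphic to triangles induced by short exact sequences. -/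
theorem happel : ∃ h : Pretriangulated (Stable C),
    h.distinguishedTriangles = distTri C ∧ IsTriangulated (Stable C) :=
  ⟨preTri, rfl, isTri⟩

noncomputable instance : Pretriangulated (Stable C) := (happel C).choose

instance : IsTriangulated (Stable C) := (happel C).choose_spec.2

theorem distTriang_eq : (distTriang (Stable C)) = distTri C := (happel C).choose_spec.1

end

section

variable {Λ : Type u} [Ring Λ] [IsNoetherianRing Λ]

theorem proj_of_module (P : FGModuleCat.{u} Λ) (h : Module.Projective Λ P) : Projective P :=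
  (forget₂ (FGModuleCat.{u} Λ) (ModuleCat.{u} Λ)).projective_of_map_projective
    (ModuleCat.projective_of_categoryTheory_projective P.obj)

theorem inj_of_module (P : FGModuleCat.{u} Λ) (h : Module.Injective Λ P) : Injective P :=
  (forget₂ (FGModuleCat.{u} Λ) (ModuleCat.{u} Λ)).injective_of_map_injective
    (Module.injective_object_of_injective_module Λ P)

omit [IsNoetherianRing Λ] in
theorem epi_of_surj {X Y : FGModuleCat.{u} Λ} (f : X →ₗ[Λ] Y) (h : Function.Surjective f) :
    Epi (FGModuleCat.ofHom f : X ⟶ Y) :=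
  (forget₂ (FGModuleCat.{u} Λ) (ModuleCat.{u} Λ)).epi_of_epi_map
    ((ModuleCat.epi_iff_surjective _).2 h)

omit [IsNoetherianRing Λ] in
theorem mono_of_inj {X Y : FGModuleCat.{u} Λ} (f : X →ₗ[Λ] Y) (h : Function.Injective f) :
    Mono (FGModuleCat.ofHom f : X ⟶ Y) :=
  (forget₂ (FGModuleCat.{u} Λ) (ModuleCat.{u} Λ)).mono_of_mono_map
    ((ModuleCat.mono_iff_injective _).2 h)

/-- the projective objects of `mod Λ` are the finitely generated projective modules -/
theorem projective_iff (P : FGModuleCat.{u} Λ) : Projective P ↔ Module.Projective Λ P := by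
  refine ⟨fun h => ?_, proj_of_module P⟩
  obtain ⟨n, f, hf⟩ := Module.Finite.exists_fin' Λ P
  have := epi_of_surj (X := .of Λ (Fin n → Λ)) f hf
  let s := Projective.factorThru (𝟙 P) (FGModuleCat.ofHom f : .of Λ (Fin n → Λ) ⟶ P)
  exact .of_split s.hom.hom f (congrArg (fun t => t.hom.hom)
    (Projective.factorThru_comp (𝟙 P) (FGModuleCat.ofHom f : .of Λ (Fin n → Λ) ⟶ P)))

end

variable (k Λ : Type u) [Field k] [Ring Λ] [Algebra k Λ] [FiniteDimensional k Λ]

include k in
theorem noeth : IsNoetherianRing Λ := isNoetherian_of_tower k inferInstance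

variable [Module.Injective Λ Λ]

include k in
/-- `mod Λ` is a Frobenius category when `Λ` is selfinjective -/
theorem frobenius : Frobenius (FGModuleCat.{u} Λ) := by
  have := noeth k Λ
  have hp : ∀ n, Projective (FGModuleCat.of Λ (Fin n → Λ)) :=
    fun n => proj_of_module _ (inferInstanceAs (Module.Projective Λ (Fin n → Λ)))
  have hi : ∀ n, Injective (FGModuleCat.of Λ (Fin n → Λ)) :=
    fun n => inj_of_module _ (inferInstanceAs (Module.Injective Λ (Fin n → Λ)))
  have e : ∀ X : FGModuleCat.{u} Λ, ∃ (n : ℕ) (f : .of Λ (Fin n → Λ) ⟶ X), Epi f := fun X =>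
    have ⟨n, f, hf⟩ := Module.Finite.exists_fin' Λ X
    ⟨n, _, epi_of_surj (X := .of Λ (Fin n → Λ)) f hf⟩
  have m : ∀ X : FGModuleCat.{u} Λ, ∃ (n : ℕ) (f : X ⟶ .of Λ (Fin n → Λ)), Mono f := fun X =>
    have ⟨n, f, hf⟩ := exists_embedding (k := k) (Λ := Λ) X
    ⟨n, _, mono_of_inj (Y := .of Λ (Fin n → Λ)) f hf⟩
  refine ⟨⟨fun X => ?_⟩, ⟨fun X => ?_⟩, fun P => ⟨fun h => ?_, fun h => ?_⟩⟩
  · obtain ⟨n, f, hf⟩ := e X
    exact ⟨{ p := _, f := f }⟩
  · obtain ⟨n, f, hf⟩ := m X
    exact ⟨{ J := _, f := f }⟩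
  · obtain ⟨n, f, hf⟩ := e P
    exact Retract.injective ⟨Projective.factorThru (𝟙 P) f, f, Projective.factorThru_comp _ _⟩
  · obtain ⟨n, f, hf⟩ := m P
    exact Retract.projective ⟨f, Injective.factorThru (𝟙 P) f, Injective.comp_factorThru _ _⟩

/-- the Rouquier dimension of the stable module category of the selfinjective algebra `Λ` -/
noncomputable def stableDim : ℕ∞ :=
  haveI : IsNoetherianRing Λ := noeth k Λ
  haveI : Frobenius (FGModuleCat.{u} Λ) := frobenius k Λ
  rouquierDim (Stable (FGModuleCat.{u} Λ))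

end Pool.Agent.Lib.MP_c55f2d_al.H94
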