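import Mathlib

/-! The shift by the integers defined by the powers of an autoequivalence. -/

namespace Pool.Agent.Lib.MP_c55f2d_al.H94

open CategoryTheory

universe v u

/-- endofunctors as a monoid under composition -/
def EndF (D : Type u) [Category.{v} D] : Type (max u v) := D ⥤ D

instance (D : Type u) [Category.{v} D] : Monoid (EndF D) where
  mul F G := Functor.comp F G
  one := Functor.id D
  mul_assoc _ _ _ := rfl
  one_mul _ := rfl
  mul_one _ := rfl

variable {C D : Type u} [Category.{v} C] [Category.{v} D]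

/-- the endofunctor underlying a unit of the monoid of endofunctors -/
def unitF (w : (EndF D)ˣ) : D ⥤ D := w.val

theorem unitF_add (w : (EndF D)ˣ) (n m : ℤ) : unitF (w ^ (n + m)) = unitF (w ^ n) ⋙ unitF (w ^ m) := by
  rw [zpow_add]; rfl

theorem unitF_zero (w : (EndF D)ˣ) : unitF (w ^ (0 : ℤ)) = 𝟭 D := by
  rw [zpow_zero]; rfl

/-- the shift defined by the powers of a strictly invertible endofunctor -/
@[instance_reducible]
noncomputable def strictShift (w : (EndF D)ˣ) : HasShift D ℤ :=
  hasShiftMk D ℤ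
    { F := fun n => unitF (w ^ n)
      zero := eqToIso (unitF_zero w)
      add := fun n m => eqToIso (unitF_add w n m)
      assoc_hom_app := fun _ _ _ _ => by simp [eqToHom_map]
      zero_add_hom_app := fun _ _ => by simp [eqToHom_map]
      add_zero_hom_app := fun _ _ => by simp }

theorem powNat_iso (T : C ⥤ D) (e : C ≌ C) (w : (EndF D)ˣ) (i : e.functor ⋙ T ≅ T ⋙ unitF w) :
    ∀ m : ℕ, Nonempty ((e.powNat m).functor ⋙ T ≅ T ⋙ unitF (w ^ m))
  | 0 => ⟨by rw [pow_zero]; exact Iso.refl _⟩
  | 1 => ⟨by rw [pow_one]; exact i⟩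
  | m + 2 => by
    obtain ⟨j⟩ := powNat_iso T e w i (m + 1)
    rw [pow_succ' w (m + 1)]
    exact ⟨Functor.isoWhiskerLeft e.functor j ≪≫ Functor.isoWhiskerRight i (unitF (w ^ (m + 1)))⟩

theorem pow_iso (T : C ⥤ D) (e : C ≌ C) (w : (EndF D)ˣ) (i : e.functor ⋙ T ≅ T ⋙ unitF w) :
    ∀ n : ℤ, Nonempty ((e ^ n).functor ⋙ T ≅ T ⋙ unitF (w ^ n))
  | Int.ofNat m => by
    rw [show w ^ (Int.ofNat m) = w ^ m from zpow_natCast w m]
    exact powNat_iso T e w i m
  | Int.negSucc m => by
    rw [zpow_negSucc, ← inv_pow]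
    have h : unitF w ⋙ unitF w⁻¹ = 𝟭 D := w.mul_inv
    refine powNat_iso T e.symm w⁻¹ ?_ (m + 1)
    exact Functor.isoWhiskerLeft (e.inverse ⋙ T) (eqToIso h.symm) ≪≫
      Functor.isoWhiskerLeft e.inverse (Functor.isoWhiskerRight i.symm (unitF w⁻¹)) ≪≫
      Functor.isoWhiskerRight e.counitIso (T ⋙ unitF w⁻¹)

instance (e : C ≌ C) : e.functor.mapSkeleton.IsIso where
  bijective_obj := ⟨Functor.mapSkeleton_injective _, Functor.mapSkeleton_surjective _⟩

/-- an autoequivalence induces a strictly invertible endofunctor of the skeleton -/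
noncomputable def skelUnit (e : C ≌ C) : (EndF (Skeleton C))ˣ where
  val := e.functor.mapSkeleton
  inv := e.functor.mapSkeleton.asIsomorphism.inverse
  val_inv := e.functor.mapSkeleton.asIsomorphism.unit_eq.symm
  inv_val := e.functor.mapSkeleton.asIsomorphism.counit_eq

theorem skel_iso (e : C ≌ C) (n : ℤ) : Nonempty ((e ^ n).functor ⋙ toSkeletonFunctor C ≅
    toSkeletonFunctor C ⋙ unitF (skelUnit e ^ n)) :=
  pow_iso _ e _ e.functor.toSkeletonFunctorCompMapSkeletonIso.symm n

attribute [local instance] endofunctorMonoidalCategory in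
theorem monoidal_pow (e : C ≌ C) :
    Nonempty (Discrete.functor fun n : ℤ => (e ^ n).functor).Monoidal :=
  letI := strictShift (skelUnit e)
  ⟨((skeletonEquivalence C).fullyFaithfulInverse.hasShift (fun n => (e ^ n).functor)
    (fun n => (skel_iso e n).some)).shiftMonoidal⟩

end Pool.Agent.Lib.MP_c55f2d_al.H94
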