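import Pool.Agent.Lib.MP_c55f2d_al.H94Shift

/-! The stable category of a Frobenius abelian category, with the cosyzygy shift and the
triangles induced by short exact sequences (Happel's theorem). -/

namespace Pool.Agent.Lib.MP_c55f2d_al.H94

open CategoryTheory Limits Pretriangulated ZeroObject

universe v u

attribute [local instance] endofunctorMonoidalCategory in
/-- the integer powers of an autoequivalence carry coherent composition isomorphisms -/
theorem pow_monoidal {D : Type u} [Category.{v} D] (e : D ≌ D) :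
    Nonempty (Discrete.functor fun n : ℤ => (e ^ n).functor).Monoidal :=
  monoidal_pow e

/-- the shift by the integers whose `n`-th shift functor is the `n`-th power of `e` -/
@[instance_reducible]
noncomputable def shiftOfEquiv {D : Type u} [Category.{v} D] (e : D ≌ D) : HasShift D ℤ where
  shift := Discrete.functor fun n : ℤ => (e ^ n).functor
  shiftMonoidal := (pow_monoidal e).some

/-- A category is Frobenius if it has enough projectives, enough injectives, and the projective
and the injective objects coincide. -/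
class Frobenius (C : Type u) [Category.{v} C] : Prop where
  enoughProj : EnoughProjectives C
  enoughInj : EnoughInjectives C
  proj_iff_inj : ∀ P : C, Projective P ↔ Injective P

attribute [instance] Frobenius.enoughProj Frobenius.enoughInj

variable {C : Type u} [Category.{v} C] [Abelian C]

/-- the morphism `f` factors through a projective object -/
def FactorsProj {X Y : C} (f : X ⟶ Y) : Prop :=
  ∃ (P : C) (a : X ⟶ P) (b : P ⟶ Y), Projective P ∧ a ≫ b = f

theorem FactorsProj.zero {X Y : C} : FactorsProj (0 : X ⟶ Y) :=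
  ⟨0, 0, 0, inferInstance, zero_comp⟩

theorem FactorsProj.add {X Y : C} {f g : X ⟶ Y} (hf : FactorsProj f) (hg : FactorsProj g) :
    FactorsProj (f + g) := by
  obtain ⟨P, a, b, hP, rfl⟩ := hf
  obtain ⟨Q, c, d, hQ, rfl⟩ := hg
  exact ⟨P ⊞ Q, biprod.lift a c, biprod.desc b d, inferInstance, biprod.lift_desc⟩

theorem FactorsProj.neg {X Y : C} {f : X ⟶ Y} (hf : FactorsProj f) : FactorsProj (-f) := by
  obtain ⟨P, a, b, hP, rfl⟩ := hf
  exact ⟨P, a, -b, hP, by simp⟩

omit [Abelian C] in
theorem FactorsProj.comp_left {W X Y : C} (g : W ⟶ X) {f : X ⟶ Y} (hf : FactorsProj f) :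
    FactorsProj (g ≫ f) := by
  obtain ⟨P, a, b, hP, rfl⟩ := hf
  exact ⟨P, g ≫ a, b, hP, by simp⟩

omit [Abelian C] in
theorem FactorsProj.comp_right {X Y Z : C} {f : X ⟶ Y} (hf : FactorsProj f) (g : Y ⟶ Z) :
    FactorsProj (f ≫ g) := by
  obtain ⟨P, a, b, hP, rfl⟩ := hf
  exact ⟨P, a, b ≫ g, hP, by simp⟩

variable (C) in
/-- two morphisms are stably equal if their difference factors through a projective object -/
def stRel : HomRel C := fun _ _ f g => FactorsProj (f - g)

instance : Congruence (stRel C) where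
  comp_left f g g' h := by
    have := FactorsProj.comp_left f h
    rwa [Preadditive.comp_sub] at this
  comp_right g h := by
    have := FactorsProj.comp_right h g
    rwa [Preadditive.sub_comp] at this
  equivalence :=
    { refl := fun f => by
        show FactorsProj (f - f)
        rw [sub_self]
        exact .zero
      symm := fun {f g} h => by
        show FactorsProj (g - f)
        rw [← neg_sub]
        exact FactorsProj.neg h
      trans := fun {f g h} a b => by
        show FactorsProj (f - h)
        rw [← sub_add_sub_cancel f g h]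
        exact FactorsProj.add a b }

theorem stRel_add ⦃X Y : C⦄ (f₁ f₂ g₁ g₂ : X ⟶ Y) (a : stRel C f₁ f₂) (b : stRel C g₁ g₂) :
    stRel C (f₁ + g₁) (f₂ + g₂) := by
  show FactorsProj (f₁ + g₁ - (f₂ + g₂))
  rw [add_sub_add_comm]
  exact FactorsProj.add a b

variable (C) in
/-- The stable category: the same objects, morphisms modulo those factoring through a
projective object. -/
abbrev Stable : Type u := CategoryTheory.Quotient (stRel C)

variable (C) in
/-- the canonical functor to the stable category -/
abbrev st : C ⥤ Stable C := Quotient.functor (stRel C)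

noncomputable instance : Preadditive (Stable C) := Quotient.preadditive (stRel C) stRel_add

instance : (st C).Additive := Quotient.functor_additive (stRel C) stRel_add

instance : HasZeroObject (Stable C) := (st C).hasZeroObject_of_additive

instance : HasFiniteProducts (Stable C) := (st C).hasFiniteProducts_of_additive_of_essSurj

theorem st_eq {X Y : C} (f g : X ⟶ Y) : (st C).map f = (st C).map g ↔ FactorsProj (f - g) :=
  Quotient.functor_map_eq_iff (stRel C) f g

theorem st_zero {X Y : C} (f : X ⟶ Y) : (st C).map f = 0 ↔ FactorsProj f := by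
  rw [← (st C).map_zero, st_eq, sub_zero]

theorem st_isZero (P : C) [Projective P] : IsZero ((st C).obj P) := by
  rw [IsZero.iff_id_eq_zero, ← (st C).map_id, st_zero]
  exact ⟨P, 𝟙 P, 𝟙 P, inferInstance, Category.id_comp _⟩

instance (Y P : C) [Projective P] : IsIso ((st C).map (biprod.inl : Y ⟶ Y ⊞ P)) :=
  ⟨(st C).map biprod.fst, by rw [← Functor.map_comp, biprod.inl_fst, (st C).map_id], by
    rw [← Functor.map_comp, ← (st C).map_id, eq_comm, st_eq]
    exact ⟨P, biprod.snd, biprod.inr, inferInstance, by rw [← biprod.total, add_sub_cancel_left]⟩⟩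

section Lift

variable {S S' : ShortComplex C}

theorem exists_hom₁ (hS : S.ShortExact) [Injective S'.X₂] (a : S.X₁ ⟶ S'.X₁) :
    ∃ φ : S ⟶ S', φ.τ₁ = a := by
  have := hS.mono_f
  have := hS.epi_g
  obtain ⟨w, hw⟩ := hS.exact.desc' (Injective.factorThru (a ≫ S'.f) S.f ≫ S'.g) (by simp)
  exact ⟨⟨a, Injective.factorThru (a ≫ S'.f) S.f, w, by simp, hw.symm⟩, rfl⟩

theorem exists_hom₃ (hS : S'.ShortExact) [Projective S.X₂] (w : S.X₃ ⟶ S'.X₃) :
    ∃ φ : S ⟶ S', φ.τ₃ = w := by
  have := hS.mono_f
  have := hS.epi_g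
  obtain ⟨a, ha⟩ := hS.exact.lift' (S.f ≫ Projective.factorThru (S.g ≫ w) S'.g) (by simp)
  exact ⟨⟨a, Projective.factorThru (S.g ≫ w) S'.g, w, ha, by simp⟩, rfl⟩

theorem factors₁ (hS : S'.ShortExact) [Projective S.X₂] (φ : S ⟶ S') (h : FactorsProj φ.τ₃) :
    FactorsProj φ.τ₁ := by
  have := hS.mono_f
  have := hS.epi_g
  obtain ⟨P, a, b, hP, h⟩ := h
  obtain ⟨s, hs⟩ := hS.exact.lift' (φ.τ₂ - S.g ≫ a ≫ Projective.factorThru b S'.g)
    (by simp [h, φ.comm₂₃])
  exact ⟨_, S.f, s, inferInstance, by rw [← cancel_mono S'.f]; simp [hs, φ.comm₁₂]⟩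

variable [Frobenius C]

instance projUnder (X : C) : Projective (Injective.under X) :=
  (Frobenius.proj_iff_inj _).2 inferInstance

theorem factors₃ (hS : S.ShortExact) [Projective S'.X₂] (φ : S ⟶ S') (h : FactorsProj φ.τ₁) :
    FactorsProj φ.τ₃ := by
  have := hS.mono_f
  have := hS.epi_g
  obtain ⟨P, a, b, hP, h⟩ := h
  have := (Frobenius.proj_iff_inj P).1 hP
  obtain ⟨t, ht⟩ := hS.exact.desc' (φ.τ₂ - Injective.factorThru a S.f ≫ b ≫ S'.f)
    (by simp [reassoc_of% h, φ.comm₁₂])
  exact ⟨_, t, S'.g, inferInstance, by rw [← cancel_epi S.g]; simp [reassoc_of% ht, φ.comm₂₃]⟩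

theorem st_τ₃ (hS : S.ShortExact) [Projective S'.X₂] (φ ψ : S ⟶ S')
    (h : (st C).map φ.τ₁ = (st C).map ψ.τ₁) : (st C).map φ.τ₃ = (st C).map ψ.τ₃ :=
  (st_eq _ _).2 (factors₃ hS (φ - ψ) ((st_eq _ _).1 h))

end Lift

variable [Frobenius C]

/-- the chosen short exact sequence `0 → X → I(X) → Ω⁻¹ X → 0` with `I(X)` injective -/
noncomputable abbrev injSeq (X : C) : ShortComplex C :=
  ShortComplex.mk (Injective.ι X) (cokernel.π (Injective.ι X)) (cokernel.condition _)

theorem injSeq_shortExact (X : C) : (injSeq X).ShortExact :=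
  { exact := ShortComplex.exact_of_g_is_cokernel _ (cokernelIsCokernel _) }

/-- A morphism of complexes from the short exact sequence `S` to `0 → X → I(X) → Ω⁻¹ X → 0`
that extends `a : S.X₁ ⟶ X`. -/
noncomputable def extend {S : ShortComplex C} (hS : S.ShortExact) {X : C} (a : S.X₁ ⟶ X) :
    S ⟶ injSeq X :=
  (exists_hom₁ (S' := injSeq X) hS a).choose

@[simp]
theorem extend_τ₁ {S : ShortComplex C} (hS : S.ShortExact) {X : C} (a : S.X₁ ⟶ X) :
    (extend hS a).τ₁ = a :=
  (exists_hom₁ (S' := injSeq X) hS a).choose_spec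

variable (C) in
/-- the cosyzygy, as a functor from `C` to the stable category -/
noncomputable def cosyz₀ : C ⥤ Stable C where
  obj X := (st C).obj (injSeq X).X₃
  map a := (st C).map (extend (injSeq_shortExact _) a).τ₃
  map_id X := (st_τ₃ (injSeq_shortExact X) _ (𝟙 _) (by simp)).trans ((st C).map_id _)
  map_comp a b := (st_τ₃ (injSeq_shortExact _) _ (extend (injSeq_shortExact _) a ≫
    extend (injSeq_shortExact _) b) (by simp)).trans ((st C).map_comp _ _)

theorem cosyz₀_congr (X Y : C) (a b : X ⟶ Y) (h : stRel C a b) :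
    (cosyz₀ C).map a = (cosyz₀ C).map b :=
  st_τ₃ (injSeq_shortExact X) _ _ (by simpa using (st_eq a b).2 h)

variable (C) in
/-- the cosyzygy functor `Ω⁻¹` on the stable category -/
noncomputable def cosyz : Stable C ⥤ Stable C :=
  CategoryTheory.Quotient.lift (stRel C) (cosyz₀ C) cosyz₀_congr

theorem cosyz_map {X Y : C} (φ : injSeq X ⟶ injSeq Y) :
    (cosyz C).map ((st C).map φ.τ₁) = (st C).map φ.τ₃ :=
  st_τ₃ (injSeq_shortExact X) (extend (injSeq_shortExact X) φ.τ₁) φ (by simp)

instance : (cosyz C).Full where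
  map_surjective {X Y} w := by
    obtain ⟨w, rfl⟩ := (st C).map_surjective (X := (injSeq X.as).X₃) (Y := (injSeq Y.as).X₃) w
    obtain ⟨φ, rfl⟩ := exists_hom₃ (S := injSeq X.as) (injSeq_shortExact Y.as) w
    exact ⟨(st C).map φ.τ₁, cosyz_map φ⟩

instance : (cosyz C).Faithful where
  map_injective {X Y} a b h := by
    obtain ⟨a, rfl⟩ := (st C).map_surjective (X := X.as) (Y := Y.as) a
    obtain ⟨b, rfl⟩ := (st C).map_surjective (X := X.as) (Y := Y.as) b
    have := factors₁ (injSeq_shortExact Y.as) (extend (injSeq_shortExact X.as) a -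
      extend (injSeq_shortExact X.as) b) ((st_eq _ _).1 h)
    exact (st_eq a b).2 (by simpa using this)

instance : (cosyz C).EssSurj where
  mem_essImage Z := by
    let S := ShortComplex.mk (kernel.ι (Projective.π Z.as)) (Projective.π Z.as) (kernel.condition _)
    have hS : S.ShortExact := { exact := ShortComplex.exact_of_f_is_kernel _ (kernelIsKernel _) }
    have : Projective S.X₂ := inferInstanceAs (Projective (Projective.over Z.as))
    have : Injective S.X₂ := (Frobenius.proj_iff_inj _).1 this
    obtain ⟨φ, hφ⟩ := exists_hom₁ (S' := S) (injSeq_shortExact S.X₁) (𝟙 _)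
    refine ⟨(st C).obj S.X₁, ⟨⟨(st C).map φ.τ₃, (st C).map (extend hS (𝟙 _)).τ₃, ?_, ?_⟩⟩⟩
    · exact ((st C).map_comp _ _).symm.trans ((st_τ₃ (injSeq_shortExact S.X₁)
        (φ ≫ extend hS (𝟙 _)) (𝟙 _) (by simp [hφ])).trans ((st C).map_id _))
    · exact ((st C).map_comp _ _).symm.trans ((st_τ₃ hS
        (extend hS (𝟙 _) ≫ φ) (𝟙 _) (by simp [hφ])).trans ((st C).map_id _))

instance : (cosyz C).IsEquivalence where

/-- the shift on the stable category: the `n`-th shift is the `n`-th power of `Ω⁻¹` -/
noncomputable instance : HasShift (Stable C) ℤ := shiftOfEquiv (cosyz C).asEquivalence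

theorem shift_one : shiftFunctor (Stable C) (1 : ℤ) = cosyz C := rfl

instance (n : ℤ) : (shiftFunctor (Stable C) n).Additive :=
  Functor.additive_of_preserves_binary_products _

/-- The triangle `X₁ → X₂ → X₃ → Ω⁻¹ X₁` of the stable category induced by a short exact
sequence; its third map is induced on cokernels by a map `X₂ → I(X₁)` extending `X₁ → I(X₁)`. -/
noncomputable def stdTriangle {S : ShortComplex C} (hS : S.ShortExact) : Triangle (Stable C) :=
  Triangle.mk ((st C).map S.f) ((st C).map S.g) ((st C).map (extend hS (𝟙 S.X₁)).τ₃)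

variable (C) in
/-- the triangles isomorphic to a triangle induced by a short exact sequence -/
def distTri : Set (Triangle (Stable C)) :=
  {T | ∃ (S : ShortComplex C) (hS : S.ShortExact), Nonempty (T ≅ stdTriangle hS)}

end Pool.Agent.Lib.MP_c55f2d_al.H94
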