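import Pool.Agent.Lib.MP_c55f2d_al.Univ

namespace Pool.Agent.Lib.MP_c55f2d_al

/-- Relations of the local string modules. -/
def locRel {V Ar Λ : Type} [Ring Λ] (Q : TriQuiver V Ar) (e : V → Λ) (a : Ar → Λ) (α : Ar)
    (p q : ℕ) : Set (Λ × Λ × Λ) :=
  {(1 - e (Q.s α), 0, 0), (gpath Q e a α (p + 1), 0, 0), (gpath Q e a (Q.bar α) (q + 1), 0, 0),
    (0, 1, 0), (0, 0, 1)} ∪ {v | ∃ β l, v = (a (Q.f β) * a β * l, 0, 0)}

namespace Gen

variable {k V Ar Λ : Type} [Field k] [Ring Λ] [Algebra k Λ] [Fintype V]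
  {Q : TriQuiver V Ar} {e : V → Λ} {a : Ar → Λ} (h : Gen k Q e a)

section arm

variable {M W : Type} [AddCommGroup M] [Module k M] [Module Λ M] [IsScalarTower k Λ M]
  [AddCommGroup W] [Module k W] [Module Λ W] [IsScalarTower k Λ W]

/-- The part of the retraction that lives on one arm. -/
noncomputable def arm (Q : TriQuiver V Ar) (e : V → Λ) (a : Ar → Λ) (α : Ar) (p : ℕ)
    (θ : M →ₗ[k] k) (w : W) : M →ₗ[k] W :=
  ∑ j ∈ Finset.range p,
    (θ ∘ₗ (Algebra.lsmul k k M (gpath Q e a (Q.g^[j + 1] α) (p - (j + 1))) : M →ₗ[k] M)).smulRight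
      (gpath Q e a α (j + 1) • w)

omit [Fintype V] [IsScalarTower k Λ W] in
theorem arm_apply (α : Ar) (p : ℕ) (θ : M →ₗ[k] k) (w : W) (y : M) :
    arm Q e a α p θ w y = ∑ j ∈ Finset.range p,
      θ (gpath Q e a (Q.g^[j + 1] α) (p - (j + 1)) • y) • gpath Q e a α (j + 1) • w := by
  simp [arm, LinearMap.sum_apply]

include h

theorem arm_mem_rad (α : Ar) (p : ℕ) (θ : M →ₗ[k] k) (w : W) (y : M) :
    arm Q e a α p θ w y ∈ h.rad ⊤ := by
  rw [arm_apply]
  exact Submodule.sum_mem _ fun j _ => Submodule.smul_of_tower_mem _ _ (h.gpath_mem_rad α j w)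

theorem arm_e (α : Ar) (p : ℕ) (θ : M →ₗ[k] k) (w : W) (i : V) (y : M) :
    arm Q e a α p θ w (e i • y) = e i • arm Q e a α p θ w y := by
  rw [arm_apply, arm_apply, Finset.smul_sum]
  apply Finset.sum_congr rfl
  intro j _
  rw [smul_comm (e i), ← mul_smul (e i), ← mul_smul _ (e i)]
  by_cases hi : i = Q.s (Q.g^[j + 1] α)
  · rw [hi, h.gpath_e, h.e_gpath]
  · rw [h.gpath_e_ne (Ne.symm hi), h.e_gpath_ne hi]; simp

theorem exists_theta (hind : ∀ β (y y' : M), a β • y = a (Q.op β) • y' → a β • y = 0)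
    (α : Ar) (p : ℕ) (φ : M →ₗ[k] k) (hφ : 0 < p → ∀ y, gpath Q e a α p • y = 0 → φ y = 0) :
    ∃ θ : M →ₗ[k] k, 0 < p → (∀ y, θ (gpath Q e a α p • y) = φ y) ∧
      ∀ δ (y : M), δ ≠ Q.g^[p - 1] α → θ (e (Q.s (Q.g^[p] α)) • a δ • y) = 0 := by
  cases p with
  | zero => exact ⟨0, fun hp => absurd hp (lt_irrefl 0)⟩
  | succ p =>
    obtain ⟨θ, hθ⟩ := exists_factor
      ((Algebra.lsmul k k M (gpath Q e a α (p + 1)) : M →ₗ[k] M).coprod
        (Algebra.lsmul k k M (a (Q.op (Q.g^[p] α))) : M →ₗ[k] M))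
      (φ ∘ₗ LinearMap.fst k M M) (by
        rintro ⟨y, z⟩ hyz
        simp only [LinearMap.coprod_apply, Algebra.lsmul_coe] at hyz
        apply hφ (Nat.succ_pos p)
        rw [gpath, mul_smul] at hyz ⊢
        apply hind _ _ (-z)
        rw [smul_neg]
        exact eq_neg_of_add_eq_zero_left hyz)
    refine ⟨θ, fun _ => ⟨fun y => ?_, fun δ y hd => ?_⟩⟩
    · simpa using hθ (y, 0)
    · rw [← mul_smul, Q.s_iter_succ]
      by_cases ht : Q.t δ = Q.t (Q.g^[p] α)
      · rcases Q.in_cases ht with h1 | h1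
        · exact absurd h1 hd
        · rw [← ht, h.e_a, h1]
          simpa using hθ (0, y)
      · rw [h.e_a_ne (Ne.symm ht)]; simp

open Classical in
theorem arm_a (hf : ∀ β (y : M), a (Q.f β) • a β • y = 0)
    (hf' : ∀ β (y : W), a (Q.f β) • a β • y = 0) (α : Ar) (p : ℕ) (φ θ : M →ₗ[k] k)
    (hθ : 0 < p → (∀ y, θ (gpath Q e a α p • y) = φ y) ∧
      ∀ δ (y : M), δ ≠ Q.g^[p - 1] α → θ (e (Q.s (Q.g^[p] α)) • a δ • y) = 0)
    (w : W) (hw : gpath Q e a α (p + 1) • w = 0) (δ : Ar) (y : M) :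
    arm Q e a α p θ w (a δ • y) =
      a δ • arm Q e a α p θ w y + if δ = α then φ y • a α • w else 0 := by
  let T : ℕ → W := fun j => if δ = Q.g^[j] α then
    θ (gpath Q e a (Q.g^[j] α) (p - j) • y) • gpath Q e a α (j + 1) • w else 0
  have h1 : arm Q e a α p θ w (a δ • y) = ∑ j ∈ Finset.range p, T j := by
    rw [arm_apply]
    apply Finset.sum_congr rfl
    intro j hj
    have hj' : j < p := Finset.mem_range.mp hj
    by_cases hd : δ = Q.g^[j] α
    · simp only [T, if_pos hd]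
      rw [← mul_smul, hd, Function.iterate_succ_apply', ← h.gpath_succ',
        show p - (j + 1) + 1 = p - j by omega]
    · simp only [T, if_neg hd]
      have : θ (gpath Q e a (Q.g^[j + 1] α) (p - (j + 1)) • a δ • y) = 0 := by
        rcases Nat.eq_zero_or_pos (p - (j + 1)) with h0 | h0
        · have hp : p = j + 1 := by omega
          rw [h0, gpath, ← hp]
          exact (hθ (by omega)).2 δ y (by rw [hp]; exact hd)
        · obtain ⟨n, hn⟩ := Nat.exists_eq_succ_of_ne_zero h0.ne'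
          rw [hn]
          by_cases hs : Q.s (Q.g^[j + 1] α) = Q.t δ
          · rcases Q.out_cases hs with h2 | h2
            · rw [h.gpath_succ', mul_smul, h2, hf]; simp
            · rw [Function.iterate_succ_apply'] at h2
              exact absurd (Q.g_inj h2).symm hd
          · rw [← mul_smul, h.gpath_a_ne hs]; simp
      rw [this, zero_smul]
  have h2 : a δ • arm Q e a α p θ w y = ∑ j ∈ Finset.range p, T (j + 1) := by
    rw [arm_apply, Finset.smul_sum]
    apply Finset.sum_congr rfl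
    intro j _
    rw [smul_comm (a δ)]
    by_cases hd : δ = Q.g^[j + 1] α
    · simp only [T, if_pos hd]
      rw [← mul_smul (a δ), hd, gpath.eq_2 Q e a α (j + 1)]
    · simp only [T, if_neg hd]
      have : a δ • gpath Q e a α (j + 1) • w = 0 := by
        by_cases hs : Q.s δ = Q.t (Q.g^[j] α)
        · rcases Q.out_cases hs with h2 | h2
          · rw [gpath, mul_smul, h2, hf']
          · rw [Function.iterate_succ_apply'] at hd
            exact absurd h2 hd
        · rw [← mul_smul, h.a_gpath_ne (by rw [Q.s_iter_succ]; exact hs), zero_smul]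
      rw [this, smul_zero]
  have h3 : T p = 0 := by simp only [T, hw, smul_zero, ite_self]
  have h4 : T 0 = if δ = α then φ y • a α • w else 0 := by
    simp only [T, Function.iterate_zero, id, Nat.sub_zero, zero_add, h.gpath_one]
    rcases Nat.eq_zero_or_pos p with h0 | h0
    · rw [h0, zero_add, h.gpath_one] at hw
      simp [hw]
    · rw [(hθ h0).1]
  rw [h1, h2, ← h4, ← Finset.sum_range_succ', Finset.sum_range_succ, h3, add_zero]

end arm

variable [FiniteDimensional k Λ] {G : Type} [AddCommGroup G] [Module Λ G]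

/-- Modules with independent arrow images and vanishing `f`-compositions are direct sums of local
string modules. -/
theorem local_add (hN : h.Nak) {L : ℕ} (hL : ∀ α, gpath Q e a α L = 0)
    (hG : ∀ α p q, p < L → q < L → InAdd Λ G (Univ Λ (locRel Q e a α p q))) (n : ℕ) :
    ∀ (M : Type) [AddCommGroup M] [Module k M] [Module Λ M] [IsScalarTower k Λ M]
      [FiniteDimensional k M], Module.finrank k M = n →
      (∀ β (y : M), a (Q.f β) • a β • y = 0) →
      (∀ β (y y' : M), a β • y = a (Q.op β) • y' → a β • y = 0) → InAdd Λ G M := by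
  classical
  induction n using Nat.strong_induction_on with
  | _ n ih =>
  intro M _ _ _ _ _ hn hf hind
  rcases subsingleton_or_nontrivial M with hM | hM
  · exact InAdd.of_subsingleton
  -- a vertex where the top is non-zero
  have htop : ∃ (α : Ar) (y : M), e (Q.s α) • y ∉ h.rad (⊤ : Submodule Λ M) := by
    by_contra hc
    push Not at hc
    have : (⊥ : Submodule Λ M) = ⊤ := by
      apply hN
      rw [bot_sup_eq, eq_top_iff]
      intro y _
      rw [← one_smul Λ y, ← h.idem.complete, Finset.sum_smul]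
      apply Submodule.sum_mem
      intro i _
      obtain ⟨α, rfl⟩ := Q.s_surj i
      exact hc α y
    exact absurd this bot_ne_top
  obtain ⟨α, y0, hy0⟩ := htop
  let act : Λ → M →ₗ[k] M := fun l => (Algebra.lsmul k k M l : M →ₗ[k] M)
  have act_apply : ∀ l y, act l y = l • y := fun _ _ => rfl
  let F : Ar → ℕ → Submodule k M := fun γ p =>
    if p = 0 then LinearMap.range (act (a (Q.f.symm γ))) ⊔ LinearMap.range (act (1 - e (Q.s γ)))
    else LinearMap.ker (act (gpath Q e a γ p))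
  have F0 : ∀ γ, F γ 0 = LinearMap.range (act (a (Q.f.symm γ))) ⊔
      LinearMap.range (act (1 - e (Q.s γ))) := fun γ => if_pos rfl
  have Fs : ∀ γ p y, 0 < p → (y ∈ F γ p ↔ gpath Q e a γ p • y = 0) := by
    intro γ p y hp
    simp only [F, if_neg hp.ne', LinearMap.mem_ker, act_apply]
  have Fmono : ∀ γ, Monotone (F γ) := by
    intro γ
    apply monotone_nat_of_le_succ
    intro p y hy
    rw [Fs _ _ _ (Nat.succ_pos p)]
    rcases Nat.eq_zero_or_pos p with rfl | hp
    · rw [F0] at hy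
      obtain ⟨_, ⟨y1, rfl⟩, _, ⟨y2, rfl⟩, rfl⟩ := Submodule.mem_sup.mp hy
      rw [h.gpath_one, smul_add, act_apply, act_apply, ← mul_smul (a γ) (1 - _), mul_sub, mul_one,
        h.a_e, sub_self, zero_smul, add_zero]
      have := hf (Q.f.symm γ) y1
      rwa [Equiv.apply_symm_apply] at this
    · rw [Fs _ _ _ hp] at hy
      rw [gpath, mul_smul, hy, smul_zero]
  have hLpos : 0 < L := by
    rcases Nat.eq_zero_or_pos L with rfl | h0
    · exfalso
      apply hy0
      have := hL α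
      rw [gpath] at this
      rw [this, zero_smul]
      exact Submodule.zero_mem _
    · exact h0
  have FL : ∀ γ, F γ L = ⊤ := fun γ => by
    rw [eq_top_iff]
    intro y _
    rw [Fs _ _ _ hLpos, hL, zero_smul]
  have h0 : F α 0 ⊔ F (Q.bar α) 0 ≠ ⊤ := by
    intro htop
    apply hy0
    have : ∀ γ, Q.s γ = Q.s α → ∀ y ∈ F γ 0, e (Q.s α) • y ∈ h.rad (⊤ : Submodule Λ M) := by
      intro γ hγ y hy
      rw [F0] at hy
      obtain ⟨_, ⟨y1, rfl⟩, _, ⟨y2, rfl⟩, rfl⟩ := Submodule.mem_sup.mp hy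
      rw [smul_add, act_apply, act_apply, ← mul_smul _ (1 - _), mul_sub, mul_one, hγ, h.e_e,
        sub_self, zero_smul, add_zero]
      exact Submodule.smul_mem _ _ (h.a_mem_rad _ Submodule.mem_top)
    have hy : y0 ∈ F α 0 ⊔ F (Q.bar α) 0 := by rw [htop]; trivial
    obtain ⟨y1, h1, y2, h2, rfl⟩ := Submodule.mem_sup.mp hy
    rw [smul_add]
    exact Submodule.add_mem _ (this α rfl y1 h1) (this _ (Q.s_bar α) y2 h2)
  obtain ⟨p, q, x0, hp, hq, hx1, hx2, hx3⟩ :=
    exists_two_flags (F α) (F (Q.bar α)) (Fmono α) L (FL _) (FL _) h0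
  have hone : ∀ y : M, (1 - e (Q.s α)) • y ∈ F α p ⊔ F (Q.bar α) q := fun y =>
    Submodule.mem_sup_left (Fmono α (Nat.zero_le p) (by
      rw [F0]; exact Submodule.mem_sup_right ⟨y, rfl⟩))
  obtain ⟨φ, hφ1, hφ2⟩ := exists_functional _ x0 hx3
  have hφe : ∀ y, φ (e (Q.s α) • y) = φ y := by
    intro y
    have := hφ2 _ (hone y)
    rw [sub_smul, one_smul, map_sub, sub_eq_zero] at this
    exact this.symm
  have hφa : ∀ δ y, φ (a δ • y) = 0 := by
    intro δ y
    by_cases hd : Q.s α = Q.t δ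
    · rcases Q.out_cases hd with h1 | h1
      · apply hφ2
        apply Submodule.mem_sup_left (Fmono α (Nat.zero_le p) _)
        rw [F0]
        exact Submodule.mem_sup_left ⟨y, by rw [h1, Equiv.symm_apply_apply]; rfl⟩
      · apply hφ2
        apply Submodule.mem_sup_right (Fmono _ (Nat.zero_le q) _)
        rw [F0]
        exact Submodule.mem_sup_left ⟨y, by rw [h1, Q.bar_g, Equiv.symm_apply_apply]; rfl⟩
    · rw [← hφe, ← mul_smul, h.e_a_ne hd]; simp
  obtain ⟨θ1, hθ1⟩ := h.exists_theta hind α p φ fun hp0 y hy =>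
    hφ2 y (Submodule.mem_sup_left ((Fs _ _ _ hp0).mpr hy))
  obtain ⟨θ2, hθ2⟩ := h.exists_theta hind (Q.bar α) q φ fun hq0 y hy =>
    hφ2 y (Submodule.mem_sup_right ((Fs _ _ _ hq0).mpr hy))
  let R := locRel Q e a α p q
  have r1 : (1 - e (Q.s α)) • x1 R = 0 := univ_rel1 (Or.inl (by simp))
  have r1' : e (Q.s α) • x1 R = x1 R := by
    rw [sub_smul, one_smul, sub_eq_zero] at r1; exact r1.symm
  have r2 : gpath Q e a α (p + 1) • x1 R = 0 := univ_rel1 (Or.inl (by simp))
  have r3 : gpath Q e a (Q.bar α) (q + 1) • x1 R = 0 := univ_rel1 (Or.inl (by simp))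
  have r4 : x2 R = 0 := by simpa using univ_rel2 (R := R) (l := 1) (Or.inl (by simp))
  have r5 : x3 R = 0 := by simpa using univ_rel3 (R := R) (l := 1) (Or.inl (by simp))
  have r6 : ∀ β (w : Univ Λ R), a (Q.f β) • a β • w = 0 := by
    intro β w
    obtain ⟨⟨l1, l2, l3⟩, rfl⟩ := Submodule.Quotient.mk_surjective _ w
    rw [mk_eq, r4, r5, smul_zero, smul_zero, add_zero, add_zero, ← mul_smul, ← mul_smul]
    exact univ_rel1 (Or.inr ⟨β, l1, rfl⟩)
  let r0 : M →ₗ[k] Univ Λ R := φ.smulRight (x1 R) + arm Q e a α p θ1 (x1 R) +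
    arm Q e a (Q.bar α) q θ2 (x1 R)
  have r0_apply : ∀ y, r0 y = φ y • x1 R + arm Q e a α p θ1 (x1 R) y +
    arm Q e a (Q.bar α) q θ2 (x1 R) y := fun y => rfl
  have he : ∀ i y, r0 (e i • y) = e i • r0 y := by
    intro i y
    rw [r0_apply, r0_apply, h.arm_e, h.arm_e, smul_add, smul_add, smul_comm (e i)]
    congr 2
    by_cases hi : i = Q.s α
    · rw [hi, hφe, r1']
    · rw [← hφe, ← mul_smul, h.e_e_ne (Ne.symm hi), ← r1', ← mul_smul (e i), h.e_e_ne hi]; simp
  have ha : ∀ δ y, r0 (a δ • y) = a δ • r0 y := by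
    intro δ y
    rw [r0_apply, r0_apply, h.arm_a hf r6 α p φ θ1 hθ1 _ r2, h.arm_a hf r6 _ q φ θ2 hθ2 _ r3, hφa,
      zero_smul, zero_add, smul_add, smul_add, smul_comm (a δ) (φ y)]
    by_cases h1 : δ = α
    · rw [if_pos h1, if_neg (by rw [h1]; exact (Q.bar_ne α).symm), h1]; abel
    · by_cases h2 : δ = Q.bar α
      · rw [if_neg h1, if_pos h2, h2]; abel
      · have hs : Q.s δ ≠ Q.s α := fun hs => (Q.eq_or_bar α δ hs).elim h1 h2
        rw [if_neg h1, if_neg h2, ← r1', ← mul_smul (a δ) (e _), h.a_e_ne hs]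
        simp
  refine h.split_univ hN R (e (Q.s α) • x0) 0 0 ?_ (h.mkLin r0 he ha) ?_ ?_ (hG α p q hp hq) ?_
  · rintro v (hv | ⟨β, l, rfl⟩)
    · simp only [Set.mem_insert_iff, Set.mem_singleton_iff] at hv
      rcases hv with rfl | rfl | rfl | rfl | rfl
      · simp [← mul_smul, sub_mul, h.e_e]
      · have := (Fs _ _ _ (Nat.succ_pos p)).mp hx1
        simp [← mul_smul, h.gpath_e, this]
      · have := (Fs _ _ _ (Nat.succ_pos q)).mp hx2
        have h2 := h.gpath_e (Q.bar α) (q + 1)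
        rw [Q.s_bar] at h2
        simp [← mul_smul, h2, this]
      · simp
      · simp
    · simp [mul_smul, hf]
  · intro h1
    have := hφe x0
    rw [h1, map_zero, hφ1] at this
    exact zero_ne_one this
  · intro U h1 _ _ hU
    rw [r4, r5]
    refine ⟨?_, U.zero_mem, U.zero_mem⟩
    rw [mkLin_apply, r0_apply, hφe, hφ1, one_smul] at h1
    have h2 := U.sub_mem (U.sub_mem h1
      (hU (h.arm_mem_rad (Q.bar α) q θ2 (x1 R) (e (Q.s α) • x0))))
      (hU (h.arm_mem_rad α p θ1 (x1 R) (e (Q.s α) • x0)))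
    simpa using h2
  · intro hlt _
    have := finiteDim_sub k (LinearMap.ker (h.mkLin r0 he ha))
    apply ih _ (hn ▸ hlt) _ rfl
    · intro β y
      exact Subtype.ext (hf β y.1)
    · intro β y y' hyy
      exact Subtype.ext (hind β y.1 y'.1 (congrArg Subtype.val hyy))

end Gen

end Pool.Agent.Lib.MP_c55f2d_al
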