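import Pool.Agent.Lib.MP_c55f2d_al.Filt

namespace Pool.Agent.Lib.MP_c55f2d_al

theorem exists_factor_inj {Λ A B : Type} [Ring Λ] [hI : Module.Injective Λ Λ] [AddCommGroup A]
    [Module Λ A] [AddCommGroup B] [Module Λ B] (Ψ : A →ₗ[Λ] B) (ψ : A →ₗ[Λ] Λ)
    (h : ∀ x, Ψ x = 0 → ψ x = 0) : ∃ θ : B →ₗ[Λ] Λ, ∀ x, θ (Ψ x) = ψ x := by
  have hle : LinearMap.ker Ψ ≤ LinearMap.ker ψ := fun x hx => h x hx
  obtain ⟨θ, hθ⟩ := hI.out ((LinearMap.ker Ψ).liftQ Ψ le_rfl)
    (by rw [← LinearMap.ker_eq_bot]; exact Submodule.ker_liftQ_eq_bot _ _ _ le_rfl)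
    ((LinearMap.ker Ψ).liftQ ψ hle)
  exact ⟨θ, fun x => by simpa using hθ (Submodule.Quotient.mk x)⟩

namespace Gen

variable {k V Ar Λ : Type} [Field k] [Ring Λ] [Algebra k Λ] [Fintype V]
  {Q : TriQuiver V Ar} {e : V → Λ} {a : Ar → Λ} (h : Gen k Q e a)
include h

theorem mul_e_dec (i : V) (w : Λ) :
    ∃ c : k, w * e i - c • e i ∈ h.rad (⊤ : Submodule Λ Λ) := by
  apply h.induction (fun w => ∃ c : k, w * e i - c • e i ∈ h.rad (⊤ : Submodule Λ Λ))
  · intro j
    by_cases hj : j = i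
    · exact ⟨1, by rw [hj, h.e_e]; simp⟩
    · exact ⟨0, by rw [h.e_e_ne hj]; simp⟩
  · intro δ
    exact ⟨0, by simpa using h.a_mem_rad (N := (⊤ : Submodule Λ Λ)) δ (n := e i) trivial⟩
  · intro c
    exact ⟨c, by rw [← Algebra.smul_def]; simp⟩
  · rintro x y ⟨c, hc⟩ ⟨d, hd⟩
    refine ⟨c + d, ?_⟩
    have := Submodule.add_mem _ hc hd
    rwa [show x * e i - c • e i + (y * e i - d • e i) = (x + y) * e i - (c + d) • e i by
      rw [add_mul, add_smul]; abel] at this
  · rintro x y ⟨c, hc⟩ ⟨d, hd⟩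
    refine ⟨d * c, ?_⟩
    have := Submodule.add_mem _ (Submodule.smul_mem _ x hd) (Submodule.smul_of_tower_mem _ d hc)
    rwa [show x • (y * e i - d • e i) + d • (x * e i - c • e i) =
      x * y * e i - (d * c) • e i by
      rw [smul_eq_mul, mul_sub, mul_smul_comm, smul_sub, mul_smul, mul_assoc]; abel] at this

theorem mul_soc {s : Λ} {j : V} (hs : InSoc a s) (hj : e j * s = s) (l : Λ) :
    ∃ c : k, l * s = c • s := by
  apply h.induction (fun l => ∃ c : k, l * s = c • s)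
  · intro i
    by_cases hi : i = j
    · exact ⟨1, by rw [hi, hj, one_smul]⟩
    · exact ⟨0, by rw [← hj, ← mul_assoc, h.e_e_ne hi, zero_mul, zero_smul]⟩
  · intro δ
    exact ⟨0, by rw [hs δ, zero_smul]⟩
  · intro c
    exact ⟨c, (Algebra.smul_def c s).symm⟩
  · rintro x y ⟨c, hc⟩ ⟨d, hd⟩
    exact ⟨c + d, by rw [add_mul, hc, hd, add_smul]⟩
  · rintro x y ⟨c, hc⟩ ⟨d, hd⟩
    exact ⟨d * c, by rw [mul_assoc, hd, mul_smul_comm, hc, mul_smul]⟩

variable [FiniteDimensional k Λ]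

theorem eq_zero_of_mul_rad (hN : h.Nak) {y j : Λ} (hj : j ∈ h.rad (⊤ : Submodule Λ Λ))
    (hy : y * j = y) : y = 0 := by
  have : IsNoetherian Λ Λ := isNoetherian_of_tower k inferInstance
  have hs : Function.Surjective (LinearMap.toSpanSingleton Λ Λ (1 - j)) := by
    rw [← LinearMap.range_eq_top]
    apply hN
    rw [Ideal.eq_top_iff_one]
    have := Submodule.add_mem_sup (S := LinearMap.range (LinearMap.toSpanSingleton Λ Λ (1 - j)))
      (s := 1 - j) ⟨1, by simp⟩ hj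
    simpa using this
  apply IsNoetherian.injective_of_surjective_endomorphism _ hs
  simp [mul_sub, hy]

/-- If a socle element acts non-trivially on `x`, then `x` generates a projective module. -/
theorem ann_eq [Module.Injective Λ Λ] (hN : h.Nak) {X : Type} [AddCommGroup X] [Module k X]
    [Module Λ X] [IsScalarTower k Λ X] {s : Λ} {i j : V} (hs : InSoc a s) (hj : e j * s = s)
    (hi : s * e i = s) {x : X} (hx : s • x ≠ 0) {n : Λ} (hn : n * e i = n) (hnx : n • x = 0) :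
    n = 0 := by
  obtain ⟨F, hF⟩ := exists_factor_inj
    ((LinearMap.toSpanSingleton Λ Λ n).coprod (LinearMap.toSpanSingleton Λ Λ s))
    ((LinearMap.toSpanSingleton Λ Λ n) ∘ₗ LinearMap.fst Λ Λ Λ) (by
      rintro ⟨l, l'⟩ hl
      simp only [LinearMap.coprod_apply, LinearMap.toSpanSingleton_apply, smul_eq_mul] at hl
      obtain ⟨c, hc⟩ := h.mul_soc hs hj l'
      have h1 : (l * n + l' * s) • x = 0 := by rw [hl, zero_smul]
      rw [add_smul, mul_smul, hnx, smul_zero, zero_add, hc, smul_assoc] at h1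
      have h2 : c = 0 := (smul_eq_zero.mp h1).resolve_right hx
      rw [hc, h2, zero_smul, add_zero] at hl
      simpa using hl)
  have h1 : n * F 1 = n := by
    have := hF (1, 0)
    rw [← smul_eq_mul, ← map_smul]
    simpa using this
  have h2 : s * F 1 = 0 := by
    have := hF (0, 1)
    rw [← smul_eq_mul, ← map_smul]
    simpa using this
  obtain ⟨c, hc⟩ := h.mul_e_dec i (F 1)
  by_cases hc0 : c = 0
  · apply h.eq_zero_of_mul_rad hN hc
    rw [hc0, zero_smul, sub_zero, ← mul_assoc, h1, hn]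
  · exfalso
    apply hx
    have : s = 0 := by
      apply h.eq_zero_of_mul_rad hN (Submodule.smul_of_tower_mem _ (-c⁻¹) hc)
      rw [mul_smul_comm, mul_sub, ← mul_assoc, h2, zero_mul, mul_smul_comm, hi, zero_sub, smul_neg,
        smul_smul, neg_mul, inv_mul_cancel₀ hc0]
      simp
    rw [this, zero_smul]

end Gen

namespace WSPres

variable {k V Ar Λ : Type} [Field k] [Ring Λ] [Algebra k Λ] [Fintype V] [Fintype Ar]
  [FiniteDimensional k Λ] [Module.Injective Λ Λ]
  {Q : TriQuiver V Ar} {m : Ar → ℕ} {c : Ar → k} {e : V → Λ} {a : Ar → Λ}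
  (h : WSPres k Q m c e a)
include h

theorem two_step {G : Type} [AddCommGroup G] [Module Λ G] {L : ℕ}
    (hL : ∀ α, gpath Q e a α L = 0)
    (hG : ∀ α p q, p < L → q < L → InAdd Λ G (Univ Λ (locRel Q e a α p q)))
    (hGw : ∀ γ, InAdd Λ G (Univ Λ (wRel Q e a γ)))
    (hGv : ∀ γ, InAdd Λ G (Univ Λ (vRel Q e a γ))) (hGp : InAdd Λ G Λ) (n : ℕ) :
    ∀ (X : Type) [AddCommGroup X] [Module k X] [Module Λ X] [IsScalarTower k Λ X]
      [FiniteDimensional k X], Module.finrank k X = n →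
      ∃ Y : Submodule Λ X, InAdd Λ G Y ∧ InAdd Λ G (X ⧸ Y) := by
  induction n using Nat.strong_induction_on with
  | _ n ih =>
  intro X _ _ _ _ _ hn
  have hg := h.toGen
  by_cases hZ : ∀ r, InSoc a r → ∀ z : X, r • z = 0
  · exact h.filt hL hG hGw hGv hZ
  push Not at hZ
  obtain ⟨r, hr, z, hz⟩ := hZ
  have h1 : ∃ j i, (e j * r * e i) • z ≠ 0 := by
    by_contra hc
    push Not at hc
    apply hz
    have : r = ∑ j, ∑ i, e j * r * e i := by
      simp only [← Finset.mul_sum, hg.idem.complete, mul_one, ← Finset.sum_mul, one_mul]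
    rw [this]
    simp only [Finset.sum_smul, hc, Finset.sum_const_zero]
  obtain ⟨j, i, hji⟩ := h1
  have hs : InSoc a (e j * r * e i) := by
    apply InSoc.mul_right
    intro δ
    rw [← mul_assoc]
    by_cases hd : Q.s δ = j
    · rw [← hd, hg.a_e, hr]
    · rw [hg.a_e_ne hd, zero_mul]
  have hx : (e j * r * e i) • e i • z ≠ 0 := by
    rwa [← mul_smul, mul_assoc, hg.e_e]
  have hex : e i • e i • z = e i • z := by rw [← mul_smul, hg.e_e]
  obtain ⟨ρ0, hρ0⟩ := exists_factor_inj (LinearMap.toSpanSingleton Λ X (e i • z))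
    (LinearMap.toSpanSingleton Λ Λ (e i)) (by
      intro l hl
      simp only [LinearMap.toSpanSingleton_apply, smul_eq_mul] at hl ⊢
      apply hg.ann_eq h.nak hs (j := j) (i := i) (by rw [← mul_assoc, ← mul_assoc, hg.e_e])
        (by rw [mul_assoc, hg.e_e]) hx (by rw [mul_assoc, hg.e_e])
      rw [mul_smul, hex, hl])
  simp only [LinearMap.toSpanSingleton_apply, smul_eq_mul] at hρ0
  let ρ : X →ₗ[Λ] Λ := LinearMap.toSpanSingleton Λ Λ (e i) ∘ₗ ρ0
  have hρ : ∀ y, ρ (ρ y • e i • z) = ρ y := by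
    intro y
    simp only [ρ, LinearMap.comp_apply, LinearMap.toSpanSingleton_apply, smul_eq_mul, hρ0]
    simp only [mul_assoc, hg.e_e]
  have hne : ρ (e i • z) ≠ 0 := by
    have := hρ0 1
    rw [one_smul, one_mul] at this
    simp only [ρ, LinearMap.comp_apply, LinearMap.toSpanSingleton_apply, smul_eq_mul, this, hg.e_e]
    intro h0
    apply hx
    rw [h0, zero_smul, smul_zero]
  have := finiteDim_sub k (LinearMap.ker ρ)
  obtain ⟨Y, hY1, hY2⟩ := ih _ (hn ▸ finrank_ker_lt ρ _ hne) (LinearMap.ker ρ) rfl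
  let p : X →ₗ[Λ] LinearMap.ker ρ :=
    (LinearMap.id - LinearMap.toSpanSingleton Λ X (e i • z) ∘ₗ ρ).codRestrict _ (by
      intro y
      simp [hρ])
  have hp : ∀ y, (p y : X) = y - ρ y • e i • z := fun y => rfl
  have hp' : ∀ y : LinearMap.ker ρ, p y = y := fun y => Subtype.ext (by
    have : ρ y = 0 := y.2
    rw [hp, this, zero_smul, sub_zero])
  refine ⟨Y.map (LinearMap.ker ρ).subtype, ?_, ?_⟩
  · let E := Submodule.equivMapOfInjective _ (LinearMap.ker ρ).injective_subtype Y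
    exact hY1.of_retract E.symm.toLinearMap E.toLinearMap fun x => by simp
  · refine (hY2.prod hGp).of_retract
      ((Y.map (LinearMap.ker ρ).subtype).liftQ ((Y.mkQ ∘ₗ p).prod ρ) ?_)
      ((Y.mapQ _ (LinearMap.ker ρ).subtype (Submodule.le_comap_map _ _)).coprod
        ((Y.map (LinearMap.ker ρ).subtype).mkQ ∘ₗ LinearMap.toSpanSingleton Λ X (e i • z))) ?_
    · rintro _ ⟨y, hy, rfl⟩
      have h0 : ρ y = 0 := y.2
      change (Y.mkQ (p y), ρ y) = 0
      rw [hp', h0, Prod.mk_eq_zero]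
      exact ⟨(Submodule.Quotient.mk_eq_zero _).2 hy, rfl⟩
    · intro x
      obtain ⟨y, rfl⟩ := Submodule.Quotient.mk_surjective _ x
      change (Submodule.Quotient.mk (p y : X) + Submodule.Quotient.mk (ρ y • e i • z) :
        X ⧸ Y.map (LinearMap.ker ρ).subtype) = Submodule.Quotient.mk y
      rw [hp, ← Submodule.Quotient.mk_add, sub_add_cancel]

theorem main : ∃ (G : Type) (_ : AddCommGroup G) (_ : Module Λ G), Module.Finite Λ G ∧
    ∀ (X : Type) [AddCommGroup X] [Module Λ X] [Module.Finite Λ X],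
      ∃ Y : Submodule Λ X, InAdd Λ G Y ∧ InAdd Λ G (X ⧸ Y) := by
  classical
  obtain ⟨L, hL⟩ := h.exists_bound
  let R : (Ar × Fin L × Fin L) ⊕ Ar ⊕ Ar → Set (Λ × Λ × Λ) :=
    Sum.elim (fun x => locRel Q e a x.1 x.2.1 x.2.2) (Sum.elim (wRel Q e a) (vRel Q e a))
  have hR : ∀ i, InAdd Λ (Λ × ∀ i, Univ Λ (R i)) (Univ Λ (R i)) := fun i =>
    InAdd.self.of_retract (LinearMap.inr Λ Λ _ ∘ₗ LinearMap.single Λ (fun i => Univ Λ (R i)) i)
      (LinearMap.proj i ∘ₗ LinearMap.snd Λ Λ _) fun x => by simp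
  refine ⟨Λ × ∀ i, Univ Λ (R i), inferInstance, inferInstance, inferInstance, ?_⟩
  intro X _ _ _
  let _ : Module k X := Module.compHom X (algebraMap k Λ)
  have : IsScalarTower k Λ X := IsScalarTower.of_algebraMap_smul fun _ _ => rfl
  have : FiniteDimensional k X := Module.Finite.trans Λ X
  exact h.two_step hL (fun α p q hp hq => hR (Sum.inl (α, ⟨p, hp⟩, ⟨q, hq⟩)))
    (fun γ => hR (Sum.inr (Sum.inl γ))) (fun γ => hR (Sum.inr (Sum.inr γ)))
    (InAdd.self.of_retract (LinearMap.inl Λ Λ _) (LinearMap.fst Λ Λ _) fun x => rfl) _ X rfl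

end WSPres

end Pool.Agent.Lib.MP_c55f2d_al
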