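import Pool.Agent.Lib.MP_c55f2d_al.QDefs

/-! Radical, socle series, the module `Hom_A(J, X)` and its submodules. -/

universe u

namespace Pool.Agent.Lib.MP_c55f2d_al.Q

open Polynomial Matrix

/-- matrix form of tameness -/
def TameMat (k Λ : Type u) [Field k] [Ring Λ] [Algebra k Λ] : Prop :=
  ∀ d : ℕ, 1 ≤ d → ∃ (n : ℕ) (r : Fin n → ℕ)
    (ρ : ∀ i, Λ → Matrix (Fin (r i)) (Fin (r i)) k[X]) (m : ℕ) (N : Fin m → ModuleCat.{u} Λ),
    ∀ (M : Type u) [AddCommGroup M] [Module k M] [Module Λ M] [IsScalarTower k Λ M],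
      Module.finrank k M = d → Indec Λ M → (∃ j, Nonempty (M ≃ₗ[Λ] N j)) ∨
        ∃ (i : Fin n) (c : k) (e : M ≃ₗ[k] (Fin (r i) → k)),
          ∀ a x, e (a • x) = ((ρ i a).map (eval c)) *ᵥ e x

/-- finite-dimensional modules, bundled -/
structure FD (k A : Type u) [Field k] [Ring A] [Algebra k A] where
  /-- the underlying type -/
  X : Type u
  [acg : AddCommGroup X]
  [modk : Module k X]
  [modA : Module A X]
  [tw : IsScalarTower k A X]
  [fd : FiniteDimensional k X]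

attribute [instance] FD.acg FD.modk FD.modA FD.tw FD.fd

instance {k A : Type u} [Field k] [Ring A] [Algebra k A] : CoeSort (FD k A) (Type u) := ⟨FD.X⟩

/-- the Jacobson radical -/
abbrev J (A : Type u) [Ring A] : Ideal A := Ring.jacobson A

variable {A : Type u} [Ring A]

theorem J_mul_right {b : A} (hb : b ∈ J A) (a : A) : b * a ∈ J A := Ideal.mul_mem_right a _ hb

theorem J_mul_left (a : A) {b : A} (hb : b ∈ J A) : a * b ∈ J A := Ideal.mul_mem_left _ a hb

theorem Jpow_mul {j : ℕ} {a b : A} (ha : a ∈ J A ^ j) (hb : b ∈ J A) : a * b ∈ J A ^ (j + 1) := by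
  rw [Submodule.pow_succ]
  exact Submodule.mul_mem_mul ha hb

theorem Jpow_succ_le (j : ℕ) : J A ^ (j + 1) ≤ J A ^ j := by
  rw [Submodule.pow_succ]
  exact Submodule.mul_le.2 fun a ha b _ => Ideal.mul_mem_right b _ ha

theorem Jpow_succ_le' (j : ℕ) : J A ^ (j + 1) ≤ J A := by
  rw [Submodule.pow_succ]
  exact Submodule.mul_le.2 fun a _ b hb => Ideal.mul_mem_left _ a hb

theorem exists_Jpow (k A : Type u) [Field k] [Ring A] [Algebra k A] [FiniteDimensional k A] :
    ∃ L : ℕ, J A ^ L = ⊥ := by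
  have : IsArtinianRing A := isArtinian_of_tower k inferInstance
  exact IsSemiprimaryRing.isNilpotent (R := A)

section Mod

variable (A) (X : Type u) [AddCommGroup X] [Module A X]

/-- elements killed by `J ^ j` -/
def soc (j : ℕ) : Submodule A X where
  carrier := {x | ∀ a ∈ J A ^ j, a • x = 0}
  add_mem' hx hy a ha := by rw [smul_add, hx a ha, hy a ha, add_zero]
  zero_mem' a _ := smul_zero a
  smul_mem' c x hx a ha := by rw [smul_smul]; exact hx _ (Ideal.mul_mem_right c _ ha)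

/-- `J X + soc_j X` -/
def Rj (j : ℕ) : Submodule A X := J A • (⊤ : Submodule A X) ⊔ soc A X j

/-- `Hom_A(J, X)` -/
def Hm : Type u := J A →ₗ[A] X

instance : AddCommGroup (Hm A X) := inferInstanceAs (AddCommGroup (J A →ₗ[A] X))
instance : FunLike (Hm A X) (J A) X := inferInstanceAs (FunLike (J A →ₗ[A] X) _ _)
instance : LinearMapClass (Hm A X) A (J A) X :=
  inferInstanceAs (LinearMapClass (J A →ₗ[A] X) A _ _)

variable {A}

/-- right multiplication on `J` -/
def rmul (a : A) : J A →ₗ[A] J A where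
  toFun b := ⟨b * a, J_mul_right b.2 a⟩
  map_add' _ _ := Subtype.ext (add_mul _ _ _)
  map_smul' c b := Subtype.ext (mul_assoc c b.1 a)

@[simp] theorem rmul_val (a : A) (b : J A) : (rmul a b : A) = b * a := rfl

variable {X}

@[ext] theorem Hm.ext {φ ψ : Hm A X} (h : ∀ b, φ b = ψ b) : φ = ψ := DFunLike.ext _ _ h

/-- the underlying linear map -/
def Hm.lin (φ : Hm A X) : J A →ₗ[A] X := φ

/-- a linear map as an element of `Hm` -/
def Hm.of (φ : J A →ₗ[A] X) : Hm A X := φ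

@[simp] theorem Hm.lin_apply (φ : Hm A X) (b : J A) : φ.lin b = φ b := rfl
@[simp] theorem Hm.of_apply (φ : J A →ₗ[A] X) (b : J A) : Hm.of φ b = φ b := rfl
@[simp] theorem Hm.add_apply (φ ψ : Hm A X) (b : J A) : (φ + ψ) b = φ b + ψ b := rfl
@[simp] theorem Hm.sub_apply (φ ψ : Hm A X) (b : J A) : (φ - ψ) b = φ b - ψ b := rfl
@[simp] theorem Hm.neg_apply (φ : Hm A X) (b : J A) : (-φ) b = -φ b := rfl
@[simp] theorem Hm.zero_apply (b : J A) : (0 : Hm A X) b = 0 := rfl

theorem Hm.sum_apply {ι : Type*} (s : Finset ι) (φ : ι → Hm A X) (b : J A) :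
    (∑ i ∈ s, φ i) b = ∑ i ∈ s, φ i b :=
  LinearMap.sum_apply (R := A) s (fun i => (φ i).lin) b

instance : Module A (Hm A X) where
  smul a φ := Hm.of (φ.lin ∘ₗ rmul a)
  one_smul φ := Hm.ext fun b => congrArg φ (Subtype.ext (mul_one b.1))
  mul_smul a c φ := Hm.ext fun b => congrArg φ (Subtype.ext (mul_assoc b.1 a c).symm)
  smul_zero _ := rfl
  smul_add _ _ _ := rfl
  add_smul a c φ := Hm.ext fun b =>
    (congrArg φ (Subtype.ext (mul_add b.1 a c) : rmul (a + c) b = rmul a b + rmul c b)).trans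
      (map_add φ _ _)
  zero_smul φ := Hm.ext fun b =>
    (congrArg φ (Subtype.ext (mul_zero b.1) : rmul 0 b = 0)).trans (map_zero φ)

theorem Hm.smul_apply (a : A) (φ : Hm A X) (b : J A) : (a • φ) b = φ (rmul a b) := rfl

variable {Y : Type u} [AddCommGroup Y] [Module A Y] {Z : Type u} [AddCommGroup Z] [Module A Z]

/-- functoriality of `Hm` -/
def Hm.map (f : X →ₗ[A] Y) : Hm A X →ₗ[A] Hm A Y where
  toFun φ := Hm.of (f ∘ₗ φ.lin)
  map_add' _ _ := Hm.ext fun _ => map_add f _ _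
  map_smul' _ _ := rfl

@[simp] theorem Hm.map_apply (f : X →ₗ[A] Y) (φ : Hm A X) (b : J A) : Hm.map f φ b = f (φ b) := rfl

theorem Hm.map_map (g : Y →ₗ[A] Z) (f : X →ₗ[A] Y) (φ : Hm A X) :
    Hm.map g (Hm.map f φ) = Hm.map (g ∘ₗ f) φ := rfl

@[simp] theorem Hm.map_id (φ : Hm A X) : Hm.map LinearMap.id φ = φ := rfl

theorem Hm.add_map (f g : X →ₗ[A] Y) (φ : Hm A X) :
    Hm.map (f + g) φ = Hm.map f φ + Hm.map g φ := rfl

theorem Hm.sub_map (f g : X →ₗ[A] Y) (φ : Hm A X) :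
    Hm.map (f - g) φ = Hm.map f φ - Hm.map g φ := rfl

@[simp] theorem Hm.zero_map (φ : Hm A X) : Hm.map (0 : X →ₗ[A] Y) φ = 0 := rfl

variable (A X)

/-- inner homomorphisms `b ↦ b • x` -/
def iota : X →ₗ[A] Hm A X where
  toFun x := Hm.of ((LinearMap.toSpanSingleton A X x) ∘ₗ (J A).subtype)
  map_add' x y := Hm.ext fun b => smul_add b.1 x y
  map_smul' a x := Hm.ext fun b => smul_smul b.1 a x

@[simp] theorem iota_apply (x : X) (b : J A) : iota A X x b = (b : A) • x := rfl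

/-- homomorphisms that kill `J ^ (j + 1)` -/
def killer (j : ℕ) : Submodule A (Hm A X) where
  carrier := {φ | ∀ b : J A, (b : A) ∈ J A ^ (j + 1) → φ b = 0}
  add_mem' hx hy b hb := by rw [Hm.add_apply, hx b hb, hy b hb, add_zero]
  zero_mem' _ _ := rfl
  smul_mem' c φ hφ b hb := hφ (rmul c b) (Ideal.mul_mem_right c _ hb)

/-- `H_j(X)` -/
def Hj (j : ℕ) : Submodule A (Hm A X) := LinearMap.range (iota A X) ⊔ killer A X j

/-- `X` is a quotient of a direct sum of copies of `J` -/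
def InFac : Prop := ⨆ φ : Hm A X, LinearMap.range φ.lin = ⊤

variable {A X}

theorem mem_soc {j : ℕ} {x : X} : x ∈ soc A X j ↔ ∀ a ∈ J A ^ j, a • x = 0 := Iff.rfl

theorem mem_killer {j : ℕ} {φ : Hm A X} :
    φ ∈ killer A X j ↔ ∀ b : J A, (b : A) ∈ J A ^ (j + 1) → φ b = 0 := Iff.rfl

theorem smul_mem_Rj (j : ℕ) {a : A} (ha : a ∈ J A) (x : X) : a • x ∈ Rj A X j :=
  Submodule.mem_sup_left (Submodule.smul_mem_smul ha Submodule.mem_top)

theorem soc_le_Rj (j : ℕ) : soc A X j ≤ Rj A X j := le_sup_right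

theorem soc_mono (j : ℕ) : soc A X j ≤ soc A X (j + 1) := fun _ hx a ha =>
  hx a (Jpow_succ_le j ha)

theorem Rj_mono (j : ℕ) : Rj A X j ≤ Rj A X (j + 1) := sup_le_sup_left (soc_mono j) _

theorem Rj_zero : Rj A X 0 = J A • (⊤ : Submodule A X) := by
  refine le_antisymm (sup_le le_rfl fun x hx => ?_) le_sup_left
  have := hx 1 (by rw [Submodule.pow_zero, Ideal.one_eq_top]; trivial)
  rw [one_smul] at this
  exact this ▸ Submodule.zero_mem _

theorem Rj_top {L : ℕ} (hL : J A ^ L = ⊥) : Rj A X L = ⊤ :=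
  eq_top_iff.2 fun x _ => soc_le_Rj L fun a ha => by
    rw [hL, Submodule.mem_bot] at ha
    rw [ha, zero_smul]

/-- a submodule contains `R_j` if it contains the generators -/
theorem Rj_le {j : ℕ} {N : Submodule A X} (h1 : ∀ a ∈ J A, ∀ x, a • x ∈ N) (h2 : soc A X j ≤ N) :
    Rj A X j ≤ N :=
  sup_le (Submodule.smul_le.2 fun a ha x _ => h1 a ha x) h2

theorem map_Rj (f : X →ₗ[A] Y) {j : ℕ} {x : X} (hx : x ∈ Rj A X j) : f x ∈ Rj A Y j := by
  have : Rj A X j ≤ (Rj A Y j).comap f :=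
    Rj_le (fun a ha x => by rw [Submodule.mem_comap, map_smul]; exact smul_mem_Rj j ha _)
      fun x hx => soc_le_Rj j fun a ha => by rw [← map_smul, hx a ha, map_zero]
  exact this hx

/-- Nakayama -/
theorem eq_top_of_sup_J {L : ℕ} (hL : J A ^ L = ⊥) {N : Submodule A X}
    (h : J A • (⊤ : Submodule A X) ⊔ N = ⊤) : N = ⊤ := by
  have key : ∀ n : ℕ, (J A ^ n) • (⊤ : Submodule A X) ⊔ N = ⊤ := by
    intro n
    induction n with
    | zero => rw [Submodule.pow_zero, Ideal.one_eq_top, Submodule.top_smul, top_sup_eq]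
    | succ n ih =>
      refine eq_top_iff.2 (ih.ge.trans ?_)
      refine sup_le (Submodule.smul_le.2 fun a ha x _ => ?_) le_sup_right
      have hx : x ∈ J A • (⊤ : Submodule A X) ⊔ N := by rw [h]; trivial
      obtain ⟨y, hy, z, hz, rfl⟩ := Submodule.mem_sup.1 hx
      rw [smul_add]
      refine Submodule.add_mem _ (Submodule.mem_sup_left ?_)
        (Submodule.mem_sup_right (N.smul_mem a hz))
      refine Submodule.smul_induction_on hy (fun b hb w _ => ?_) fun u v hu hv => ?_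
      · rw [smul_smul]
        exact Submodule.smul_mem_smul (Jpow_mul ha hb) Submodule.mem_top
      · rw [smul_add]
        exact Submodule.add_mem _ hu hv
  have := key L
  rwa [hL, Submodule.bot_smul, bot_sup_eq] at this

theorem iota_mem_Hj (j : ℕ) (x : X) : iota A X x ∈ Hj A X j :=
  Submodule.mem_sup_left (LinearMap.mem_range_self _ x)

theorem range_iota_le_Hj (j : ℕ) : LinearMap.range (iota A X) ≤ Hj A X j := le_sup_left

theorem smul_eq_iota {a : A} (ha : a ∈ J A) (φ : Hm A X) : a • φ = iota A X (φ ⟨a, ha⟩) :=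
  Hm.ext fun b => (map_smul φ b.1 ⟨a, ha⟩)

theorem smul_mem_of_J {M : Submodule A (Hm A X)} (hM : LinearMap.range (iota A X) ≤ M) {a : A}
    (ha : a ∈ J A) (φ : Hm A X) : a • φ ∈ M :=
  smul_eq_iota ha φ ▸ hM (LinearMap.mem_range_self _ _)

theorem map_iota (f : X →ₗ[A] Y) (x : X) : Hm.map f (iota A X x) = iota A Y (f x) :=
  Hm.ext fun b => map_smul f b.1 x

theorem map_Hj (f : X →ₗ[A] Y) {j : ℕ} {φ : Hm A X} (h : φ ∈ Hj A X j) :
    Hm.map f φ ∈ Hj A Y j := by
  obtain ⟨_, ⟨x, rfl⟩, ψ, hψ, rfl⟩ := Submodule.mem_sup.1 h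
  rw [map_add, map_iota]
  exact Submodule.add_mem _ (iota_mem_Hj j _) (Submodule.mem_sup_right fun b hb => by
    rw [Hm.map_apply, hψ b hb, map_zero])

/-- Lemma (A) -/
theorem apply_mem_Rj {j : ℕ} {φ : Hm A X} (h : φ ∈ Hj A X j) (b : J A) : φ b ∈ Rj A X j := by
  obtain ⟨_, ⟨x, rfl⟩, ψ, hψ, rfl⟩ := Submodule.mem_sup.1 h
  rw [Hm.add_apply, iota_apply]
  refine Submodule.add_mem _ (smul_mem_Rj j b.2 x) (soc_le_Rj j fun a ha => ?_)
  rw [← map_smul]
  exact hψ _ (Jpow_mul ha b.2)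

theorem InFac.of_surjective (h : InFac A X) (f : X →ₗ[A] Y) (hf : Function.Surjective f) :
    InFac A Y := by
  have : (⊤ : Submodule A X) ≤ (⨆ φ : Hm A Y, LinearMap.range φ.lin).comap f := by
    rw [← h]
    refine iSup_le fun φ => ?_
    rintro _ ⟨b, rfl⟩
    exact Submodule.mem_iSup_of_mem (Hm.map f φ) ⟨b, rfl⟩
  refine eq_top_iff.2 fun y _ => ?_
  obtain ⟨x, rfl⟩ := hf y
  exact this Submodule.mem_top

theorem inFac_rad : InFac A (J A • (⊤ : Submodule A X) : Submodule A X) := by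
  refine eq_top_iff.2 fun ⟨y, hy⟩ _ => ?_
  refine Submodule.smul_induction_on' hy (p := fun y hy =>
    (⟨y, hy⟩ : (J A • (⊤ : Submodule A X) : Submodule A X)) ∈
      ⨆ φ : Hm A (J A • (⊤ : Submodule A X) : Submodule A X), LinearMap.range φ.lin)
    (fun a ha x _ => ?_) fun u _ v _ hu hv => Submodule.add_mem _ hu hv
  exact Submodule.mem_iSup_of_mem (Hm.of ((iota A X x).lin.codRestrict _ fun b =>
    Submodule.smul_mem_smul b.2 Submodule.mem_top)) ⟨⟨a, ha⟩, rfl⟩

variable {k : Type u} [Field k] [Algebra k A] [Module k X] [IsScalarTower k A X]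

instance : Module k (Hm A X) := inferInstanceAs (Module k (J A →ₗ[A] X))

@[simp] theorem Hm.ksmul_apply (c : k) (φ : Hm A X) (b : J A) : (c • φ) b = c • φ b := rfl

instance : IsScalarTower k A (Hm A X) :=
  ⟨fun c a φ => Hm.ext fun b => by
    rw [Hm.ksmul_apply, Hm.smul_apply, Hm.smul_apply, ← algebraMap_smul A c (φ _), ← map_smul]
    exact congrArg φ (Subtype.ext (by simp))⟩

instance [FiniteDimensional k A] [FiniteDimensional k X] : FiniteDimensional k (Hm A X) :=
  haveI : FiniteDimensional k (J A) :=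
    Module.Finite.of_injective ((J A).subtype.restrictScalars k) (J A).injective_subtype
  Module.Finite.of_injective (LinearMap.restrictScalarsₗ k A (J A) X k)
    (LinearMap.restrictScalars_injective k)

omit [Module k X] [IsScalarTower k A X] in
theorem Hm.ksmul_map [Module k Y] [IsScalarTower k A Y] (c : k) (f : X →ₗ[A] Y) (φ : Hm A X) :
    Hm.map (c • f) φ = c • Hm.map f φ := rfl

theorem Hm.map_ksmul [Module k Y] [IsScalarTower k A Y] (c : k) (f : X →ₗ[A] Y) (φ : Hm A X) :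
    Hm.map f (c • φ) = c • Hm.map f φ :=
  (Hm.map f).map_smul_of_tower c φ

end Mod

end Pool.Agent.Lib.MP_c55f2d_al.Q
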