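import Pool.Agent.Lib.MP_c55f2d_al.QBasic

/-! From bimodules to matrices. -/

universe u

namespace Pool.Agent.Lib.MP_c55f2d_al.Q

open Polynomial Matrix
open scoped TensorProduct

section

variable {k A : Type u} [Field k] [Ring A] [Algebra k A] (B : Bimod k A)

/-- the rank of the bimodule over the polynomial ring -/
noncomputable def Bimod.rk : ℕ := Module.finrank k[X] B.M

/-- a basis of the bimodule over the polynomial ring -/
noncomputable def Bimod.bas : Module.Basis (Fin B.rk) k[X] B.M := Module.finBasis k[X] B.M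

/-- the action of an element of the algebra -/
def Bimod.act (a : A) : B.M →ₗ[k[X]] B.M where
  toFun m := a • m
  map_add' := smul_add a
  map_smul' p m := (smul_comm p a m).symm

/-- the matrix of the action -/
noncomputable def Bimod.rho (a : A) : Matrix (Fin B.rk) (Fin B.rk) k[X] :=
  LinearMap.toMatrix B.bas B.bas (B.act a)

/-- coordinates on the fibre at `c` -/
noncomputable def Bimod.coord (c : k) :
    B.M ⊗[k[X]] (k[X] ⧸ Ideal.span {X - C c}) ≃+ (Fin B.rk → k) :=
  (TensorProduct.comm k[X] _ _).toAddEquiv.trans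
    ((B.bas.baseChange (k[X] ⧸ Ideal.span {X - C c})).equivFun.toAddEquiv.trans
      (AddEquiv.piCongrRight fun _ => (quotientSpanXSubCAlgEquiv c).toAddEquiv))

theorem Bimod.coord_tmul (c : k) (m : B.M) (p : k[X]) (i : Fin B.rk) :
    B.coord c (m ⊗ₜ Ideal.Quotient.mk _ p) i = eval c (B.bas.repr m i) * eval c p := by
  have h : B.coord c (m ⊗ₜ Ideal.Quotient.mk _ p) i = quotientSpanXSubCAlgEquiv c
      ((B.bas.baseChange (k[X] ⧸ Ideal.span {X - C c})).repr
        (Ideal.Quotient.mk _ p ⊗ₜ m) i) := rfl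
  rw [h, Module.Basis.baseChange_repr_tmul, ← eval_mul, ← quotientSpanXSubCAlgEquiv_mk]
  rfl

theorem Bimod.coord_smul (c : k) (a : A)
    (t : B.M ⊗[k[X]] (k[X] ⧸ Ideal.span {X - C c})) :
    B.coord c (a • t) = ((B.rho a).map (eval c)) *ᵥ B.coord c t := by
  induction t using TensorProduct.induction_on with
  | zero => rw [smul_zero, map_zero, mulVec_zero]
  | add x y hx hy => rw [smul_add, map_add, map_add, mulVec_add, hx, hy]
  | tmul m q =>
    obtain ⟨p, rfl⟩ := Ideal.Quotient.mk_surjective q
    funext i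
    have h : B.bas.repr (a • m) i = ∑ j, B.rho a i j * B.bas.repr m j :=
      (congrFun (LinearMap.toMatrix_mulVec_repr B.bas B.bas (B.act a) m) i).symm
    rw [TensorProduct.smul_tmul', B.coord_tmul, h, eval_finsetSum, Finset.sum_mul]
    refine Finset.sum_congr rfl fun j _ => ?_
    rw [B.coord_tmul, eval_mul, mul_assoc]
    rfl

theorem Bimod.coord_ksmul (c s : k) (t : B.M ⊗[k[X]] (k[X] ⧸ Ideal.span {X - C c})) :
    B.coord c (algebraMap k A s • t) = s • B.coord c t := by
  induction t using TensorProduct.induction_on with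
  | zero => rw [smul_zero, map_zero, smul_zero]
  | add x y hx hy => rw [smul_add, map_add, map_add, smul_add, hx, hy]
  | tmul m q =>
    obtain ⟨p, rfl⟩ := Ideal.Quotient.mk_surjective q
    funext i
    rw [TensorProduct.smul_tmul', ← B.central, Pi.smul_apply, B.coord_tmul, B.coord_tmul,
      map_smul, Finsupp.smul_apply, smul_eq_mul, eval_mul, eval_C, smul_eq_mul, mul_assoc]

end

theorem Tame.tameMat {k A : Type u} [Field k] [Ring A] [Algebra k A] (h : Tame k A) :
    TameMat k A := by
  intro d hd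
  obtain ⟨n, B, m, N, hB⟩ := h d hd
  refine ⟨n, fun i => (B i).rk, fun i => (B i).rho, m, N, fun M _ _ _ _ hM hI => ?_⟩
  rcases hB M hM hI with h1 | ⟨i, c, ⟨φ⟩⟩
  · exact Or.inl h1
  · refine Or.inr ⟨i, c, { φ.toAddEquiv.trans ((B i).coord c) with map_smul' := fun s x => ?_ },
      fun a x => ?_⟩
    · change (B i).coord c (φ (s • x)) = s • (B i).coord c (φ x)
      rw [← algebraMap_smul A s x, map_smul, Bimod.coord_ksmul]
    · change (B i).coord c (φ (a • x)) = _ *ᵥ (B i).coord c (φ x)
      rw [map_smul, Bimod.coord_smul]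

end Pool.Agent.Lib.MP_c55f2d_al.Q
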