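import Pool.Agent.Lib.MP_c55f2d_al.QHS

/-! Simple cells and independent families. -/

universe u

namespace Pool.Agent.Lib.MP_c55f2d_al.Q

variable {k A : Type u} [Field k] [Ring A] [Algebra k A]

/-- the class of `g` generates a simple left ideal of `A / J` -/
def Simp (g : A) : Prop := g ∉ J A ∧ ∀ a, a * g ∉ J A → ∃ b, b * (a * g) - g ∈ J A

theorem exists_cells (k A : Type u) [Field k] [Ring A] [Algebra k A] [FiniteDimensional k A] :
    ∃ (q : ℕ) (γ : Fin q → A), (∀ t, Simp (γ t)) ∧ ∃ b : Fin q → A, 1 - ∑ t, b t * γ t ∈ J A := by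
  have : IsArtinianRing A := isArtinian_of_tower k inferInstance
  have hs : IsSemisimpleModule A (A ⧸ Module.jacobson A A) :=
    (IsArtinian.isSemisimpleModule_iff_jacobson A _).2 (Module.jacobson_quotient_jacobson A A)
  have key : (⊤ : Submodule A (A ⧸ Module.jacobson A A)) ≤
      (Submodule.span A {g : A | Simp g}).map (Module.jacobson A A).mkQ := by
    rw [← IsSemisimpleModule.sSup_simples_eq_top A (A ⧸ Module.jacobson A A)]
    refine sSup_le fun m (hm : IsSimpleModule A m) x hx => ?_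
    obtain ⟨g, rfl⟩ := (Module.jacobson A A).mkQ_surjective x
    by_cases hg : g ∈ J A
    · have : (Module.jacobson A A).mkQ g = 0 := (Submodule.Quotient.mk_eq_zero _).2 hg
      rw [this]
      exact Submodule.zero_mem _
    · refine Submodule.mem_map_of_mem (Submodule.subset_span ⟨hg, fun a ha => ?_⟩)
      have h0 : a • (⟨_, hx⟩ : m) ≠ 0 := fun h =>
        ha ((Submodule.Quotient.mk_eq_zero _).1 (congrArg Subtype.val h))
      obtain ⟨b, hb⟩ := IsSimpleModule.toSpanSingleton_surjective A h0 ⟨_, hx⟩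
      exact ⟨b, (Submodule.Quotient.eq _).1 (congrArg Subtype.val hb)⟩
  obtain ⟨s, hs, h1⟩ := key (Submodule.mem_top (x := (Module.jacobson A A).mkQ 1))
  obtain ⟨q, b, γ, rfl⟩ := Submodule.mem_span_set'.1 hs
  exact ⟨q, fun t => γ t, fun t => (γ t).2, b, (Submodule.Quotient.eq _).1 h1.symm⟩

section
variable {X : Type u} [AddCommGroup X] [Module A X]

theorem cell_notMem {q : ℕ} {γ b : Fin q → A} (h : 1 - ∑ t, b t * γ t ∈ J A)
    {M : Submodule A (Hm A X)} (hM : LinearMap.range (iota A X) ≤ M) {φ : Hm A X} (hφ : φ ∉ M) :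
    ∃ t, γ t • φ ∉ M := by
  by_contra hc
  refine hφ ?_
  have h1 : ∀ t, γ t • φ ∈ M := fun t => not_not.1 fun ht => hc ⟨t, ht⟩
  have h2 : φ = (1 - ∑ t, b t * γ t) • φ + ∑ t, b t • γ t • φ := by
    simp only [sub_smul, one_smul, Finset.sum_smul, mul_smul, sub_add_cancel]
  rw [h2]
  exact M.add_mem (smul_mem_of_J hM h φ) (M.sum_mem fun t _ => M.smul_mem _ (h1 t))

theorem Simp.mem_J {g : A} (hg : Simp g) {M : Submodule A (Hm A X)}
    (hM : LinearMap.range (iota A X) ≤ M) {φ : Hm A X} (hφ : g • φ ∉ M) {a : A}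
    (ha : (a * g) • φ ∈ M) : a * g ∈ J A := by
  by_contra hc
  obtain ⟨b, hb⟩ := hg.2 a hc
  refine hφ ?_
  have h2 : g • φ = b • (a * g) • φ - (b * (a * g) - g) • φ := by
    rw [sub_smul, ← mul_smul b, sub_sub_cancel]
  rw [h2]
  exact M.sub_mem (M.smul_mem b ha) (smul_mem_of_J hM hb φ)

/-- independence of cells over `B` -/
def Ind {Λ : Type} [Fintype Λ] (B : Submodule A (Hm A X)) (g : Λ → A) (φ : Λ → Hm A X) : Prop :=
  ∀ a : Λ → A, ∑ l, (a l * g l) • φ l ∈ B → ∀ l, a l * g l ∈ J A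

theorem Ind.cons {n : ℕ} {B : Submodule A (Hm A X)} (hB : LinearMap.range (iota A X) ≤ B)
    {g₀ : A} (hg : Simp g₀) {φ₀ : Hm A X} (hφ : g₀ • φ₀ ∉ B) {g : Fin n → A} {φ : Fin n → Hm A X}
    (h : Ind (B ⊔ Submodule.span A {g₀ • φ₀}) g φ) :
    Ind B (Fin.cons g₀ g : Fin (n + 1) → A) (Fin.cons φ₀ φ : Fin (n + 1) → Hm A X) := by
  intro a ha
  rw [Fin.sum_univ_succ] at ha
  simp only [Fin.cons_zero, Fin.cons_succ] at ha
  have h0 : (a 0 * g₀) • φ₀ ∈ B ⊔ Submodule.span A {g₀ • φ₀} := by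
    rw [mul_smul]
    exact Submodule.mem_sup_right
      (Submodule.smul_mem _ _ (Submodule.mem_span_singleton_self _))
  have h1 := h (fun l => a l.succ)
    ((Submodule.add_mem_iff_right _ h0).1 (Submodule.mem_sup_left ha))
  have h2 : (a 0 * g₀) • φ₀ ∈ B :=
    (Submodule.add_mem_iff_left _ (B.sum_mem fun l _ => smul_mem_of_J hB (h1 l) _)).1 ha
  intro l
  refine Fin.cases ?_ (fun l => ?_) l
  · exact hg.mem_J hB hφ h2
  · exact h1 l

/-- the span of `M` and of the cells other than the `i`-th one -/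
def others {n : ℕ} (M : Submodule A (Hm A X)) (g : Fin n → A) (φ : Fin n → Hm A X) (i : Fin n) :
    Submodule A (Hm A X) where
  carrier := {ψ | ∃ a : Fin n → A, a i = 0 ∧ ψ - ∑ l, (a l * g l) • φ l ∈ M}
  add_mem' := by
    rintro ψ ψ' ⟨a, ha, h⟩ ⟨a', ha', h'⟩
    refine ⟨a + a', by rw [Pi.add_apply, ha, ha', add_zero], ?_⟩
    simp only [Pi.add_apply, add_mul, add_smul, Finset.sum_add_distrib]
    rw [add_sub_add_comm]
    exact M.add_mem h h'
  zero_mem' := ⟨0, rfl, by simp⟩
  smul_mem' := by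
    rintro c ψ ⟨a, ha, h⟩
    refine ⟨fun l => c * a l, by simp only [ha, mul_zero], ?_⟩
    have := M.smul_mem c h
    rw [smul_sub, Finset.smul_sum] at this
    simpa only [mul_assoc, mul_smul] using this

end

theorem exists_ind [FiniteDimensional k A] (X : FD k A) (B M : Submodule A (Hm A X))
    (hB : LinearMap.range (iota A X) ≤ B) (hBM : B ≤ M) :
    ∃ (n : ℕ) (g : Fin n → A) (φ : Fin n → Hm A X), Ind B g φ ∧
      B ⊔ Submodule.span A (Set.range fun l => g l • φ l) = M := by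
  have : IsNoetherian A (Hm A X) := isNoetherian_of_tower k inferInstance
  obtain ⟨q, γ, hγ, b, hb⟩ := exists_cells k A
  induction B using WellFoundedGT.induction with
  | _ B ih =>
    rcases hBM.eq_or_lt with h | h
    · refine ⟨0, Fin.elim0, Fin.elim0, fun _ _ l => l.elim0, ?_⟩
      rw [Set.range_eq_empty, Submodule.span_empty, sup_bot_eq, h]
    · obtain ⟨φ₀, hφM, hφB⟩ := SetLike.exists_of_lt h
      obtain ⟨t, ht⟩ := cell_notMem hb hB hφB
      obtain ⟨n, g, φ, h1, h2⟩ := ih (B ⊔ Submodule.span A {γ t • φ₀})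
        (lt_of_le_of_ne le_sup_left fun h' =>
          ht (h' ▸ Submodule.mem_sup_right (Submodule.mem_span_singleton_self _)))
        (hB.trans le_sup_left)
        (sup_le hBM ((Submodule.span_singleton_le_iff_mem _ _).2 (M.smul_mem _ hφM)))
      refine ⟨n + 1, Fin.cons (γ t) g, Fin.cons φ₀ φ, h1.cons hB (hγ t) ht, ?_⟩
      rw [← h2, sup_assoc, ← Submodule.span_union, Fin.range_fin_succ, Set.singleton_union]
      rfl

theorem finrank_sup_span [FiniteDimensional k A] (X : FD k A) (M : Submodule A (Hm A X))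
    (e : Hm A X) : Module.finrank k (M ⊔ Submodule.span A {e} : Submodule A (Hm A X)) ≤
      Module.finrank k M + Module.finrank k A := by
  have : FiniteDimensional k M :=
    Module.Finite.of_injective (M.subtype.restrictScalars k) M.injective_subtype
  let L : (M × A) →ₗ[k] (M ⊔ Submodule.span A {e} : Submodule A (Hm A X)) :=
    { toFun := fun p => ⟨p.1 + p.2 • e, Submodule.add_mem_sup p.1.2
        (Submodule.smul_mem _ _ (Submodule.mem_span_singleton_self _))⟩
      map_add' := fun p p' => Subtype.ext (by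
        simp only [Prod.fst_add, Prod.snd_add, Submodule.coe_add, add_smul]
        abel)
      map_smul' := fun c p => Subtype.ext (by
        simp only [Prod.smul_fst, Prod.smul_snd, Submodule.coe_smul_of_tower, smul_assoc,
          RingHom.id_apply, smul_add]) }
  have hL : Function.Surjective L := by
    rintro ⟨x, hx⟩
    obtain ⟨y, hy, z, hz, rfl⟩ := Submodule.mem_sup.1 hx
    obtain ⟨a, rfl⟩ := Submodule.mem_span_singleton.1 hz
    exact ⟨(⟨y, hy⟩, a), rfl⟩
  rw [← Module.finrank_prod]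
  exact LinearMap.finrank_le_finrank_of_surjective hL

theorem exists_many [FiniteDimensional k A] (X : FD k A) (hX : Indec A X) (j n : ℕ) :
    ∀ M : Submodule A (Hm A X), Hj A X j ≤ M →
      Module.finrank k M + n * Module.finrank k A <
        Module.finrank k (Hm A X) + Module.finrank k A →
      ∃ (g : Fin n → A) (φ : Fin n → Hm A X), Ind M g φ ∧ ∀ i, g i ∉ J A ∧
        ∀ f : X →ₗ[A] X, ¬ Function.Bijective f → Hm.map f (g i • φ i) ∈ others M g φ i := by
  obtain ⟨q, γ, hγ, b, hb⟩ := exists_cells k A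
  obtain ⟨N, hN⟩ := exists_level k A (Module.finrank k X)
  have hG : Good (Module.finrank k X) X := ⟨hX, le_rfl⟩
  induction n with
  | zero => exact fun M _ _ => ⟨Fin.elim0, Fin.elim0, fun _ _ l => l.elim0, fun l => l.elim0⟩
  | succ n ih =>
    intro M hM hd
    have hι := (range_iota_le_Hj j).trans hM
    rw [add_mul, one_mul] at hd
    have hne : M ≠ ⊤ := by
      rintro rfl
      have := ((Submodule.topEquiv (R := A) (M := Hm A X)).restrictScalars k).finrank_eq
      omega
    obtain ⟨s, -, φ₀, hφV, hφM, hs⟩ := hN j X hG M hM hne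
    obtain ⟨t, ht⟩ := cell_notMem hb hι hφM
    have hr := finrank_sup_span X M (γ t • φ₀)
    obtain ⟨g, φ, h1, h2⟩ := ih (M ⊔ Submodule.span A {γ t • φ₀}) (hM.trans le_sup_left)
      (by omega)
    refine ⟨Fin.cons (γ t) g, Fin.cons φ₀ φ, h1.cons hι (hγ t) ht, fun i => ?_⟩
    refine Fin.cases ⟨(hγ t).1, fun f hf => ⟨0, rfl, ?_⟩⟩
      (fun i => ⟨(h2 i).1, fun f hf => ?_⟩) i
    · simpa using hs (map_Vs hG f hf (Submodule.smul_mem _ (γ t) hφV))
    · obtain ⟨a, ha, h3⟩ := (h2 i).2 f hf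
      obtain ⟨y, hy, z, hz, h4⟩ := Submodule.mem_sup.1 h3
      obtain ⟨a₀, rfl⟩ := Submodule.mem_span_singleton.1 hz
      refine ⟨Fin.cons a₀ a, ha, ?_⟩
      rw [Fin.sum_univ_succ]
      simp only [Fin.cons_zero, Fin.cons_succ]
      rw [add_comm, ← sub_sub, ← h4, mul_smul, add_sub_cancel_right]
      exact hy

/-- five further cells, each moved by the non-isomorphisms into the span of the others -/
theorem exists_five [FiniteDimensional k A] (X : FD k A) (hX : Indec A X) (j : ℕ)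
    (M : Submodule A (Hm A X)) (hM : Hj A X j ≤ M)
    (hd : Module.finrank k M + 4 * Module.finrank k A < Module.finrank k (Hm A X)) :
    ∃ (g : Fin 5 → A) (φ : Fin 5 → Hm A X) (N : Fin 5 → Submodule A (Hm A X)), ∀ i,
      M ≤ N i ∧ (∀ l, l ≠ i → g l • φ l ∈ N i) ∧
      (∀ f : X →ₗ[A] X, ¬ Function.Bijective f → Hm.map f (g i • φ i) ∈ N i) ∧
      (∀ a, (a * g i) • φ i ∈ N i → a * g i ∈ J A) ∧ g i ∉ J A := by
  obtain ⟨g, φ, h1, h2⟩ := exists_many X hX j 5 M hM (by omega)
  refine ⟨g, φ, others M g φ, fun i => ⟨fun ψ hψ => ⟨0, rfl, by simpa using hψ⟩,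
    fun l hl => ⟨Pi.single l 1, Pi.single_eq_of_ne' hl _, ?_⟩, (h2 i).2, ?_, (h2 i).1⟩⟩
  · rw [Finset.sum_eq_single l (fun l' _ h => by rw [Pi.single_eq_of_ne h, zero_mul, zero_smul])
      (fun h => absurd (Finset.mem_univ l) h), Pi.single_eq_same, one_mul, sub_self]
    exact M.zero_mem
  · rintro a ⟨a', ha', h3⟩
    have := h1 (Pi.single i a - a') (by
      simp only [Pi.sub_apply, sub_mul, sub_smul, Finset.sum_sub_distrib]
      rwa [Finset.sum_eq_single i
        (fun l' _ h => by rw [Pi.single_eq_of_ne h, zero_mul, zero_smul])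
        (fun h => absurd (Finset.mem_univ i) h), Pi.single_eq_same]) i
    rwa [Pi.sub_apply, Pi.single_eq_same, ha', sub_zero] at this

end Pool.Agent.Lib.MP_c55f2d_al.Q
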