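import Mathlib

/-! Definitions for the statement: tame algebras. -/

universe u

namespace Pool.Agent.Lib.MP_c55f2d_al.Q

open Polynomial
open scoped TensorProduct

/-- indecomposable modules -/
def Indec (Λ X : Type u) [Ring Λ] [AddCommGroup X] [Module Λ X] : Prop :=
  Nontrivial X ∧ ∀ A B : Submodule Λ X, IsCompl A B → A = ⊥ ∨ B = ⊥

/-- `M` lies in `add G`: it is a direct summand of a finite direct sum of copies of `G` -/
def InAdd (Λ G M : Type u) [Ring Λ] [AddCommGroup G] [Module Λ G] [AddCommGroup M] [Module Λ M] :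
    Prop :=
  ∃ (n : ℕ) (i : M →ₗ[Λ] (Fin n → G)) (r : (Fin n → G) →ₗ[Λ] M), ∀ x, r (i x) = x

/-- a `Λ`-`k[X]`-bimodule (on which `k` acts centrally) that is free of finite rank over `k[X]` -/
structure Bimod (k Λ : Type u) [Field k] [Ring Λ] [Algebra k Λ] where
  /-- the underlying type -/
  M : Type u
  [acg : AddCommGroup M]
  [modP : Module k[X] M]
  [modΛ : Module Λ M]
  [comm : SMulCommClass k[X] Λ M]
  [free : Module.Free k[X] M]
  [fin : Module.Finite k[X] M]
  central : ∀ (c : k) (m : M), (C c : k[X]) • m = algebraMap k Λ c • m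

attribute [instance] Bimod.acg Bimod.modP Bimod.modΛ Bimod.comm Bimod.free Bimod.fin

/-- tame representation type: in each dimension `d` all indecomposable modules, apart from
finitely many isomorphism classes, are of the form `M_i ⊗ k[X]/(X - c)` -/
def Tame (k Λ : Type u) [Field k] [Ring Λ] [Algebra k Λ] : Prop :=
  ∀ d : ℕ, 1 ≤ d → ∃ (n : ℕ) (B : Fin n → Bimod k Λ) (m : ℕ) (N : Fin m → ModuleCat.{u} Λ),
    ∀ (M : Type u) [AddCommGroup M] [Module k M] [Module Λ M] [IsScalarTower k Λ M],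
      Module.finrank k M = d → Indec Λ M → (∃ j, Nonempty (M ≃ₗ[Λ] N j)) ∨
        ∃ (i : Fin n) (c : k),
          Nonempty (M ≃ₗ[Λ] (B i).M ⊗[k[X]] (k[X] ⧸ Ideal.span {X - C c}))

end Pool.Agent.Lib.MP_c55f2d_al.Q
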