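import Pool.Agent.Lib.MP_c55f2d_al.QPC

/-! The two-parameter family of extensions with a canonical submodule. -/

universe u

namespace Pool.Agent.Lib.MP_c55f2d_al.Q

variable {k A : Type u} [Field k] [Ring A] [Algebra k A]

section Ext

variable {X P : Type u} [AddCommGroup X] [Module k X] [Module A X] [IsScalarTower k A X]
  [AddCommGroup P] [Module k P] [Module A P] [IsScalarTower k A P] {K : Submodule A P}

/-- a linear section of `P → P / K` -/
structure Sec (k : Type u) [Field k] [Algebra k A] [Module k P] [IsScalarTower k A P]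
    (K : Submodule A P) where
  /-- the section -/
  σ : (P ⧸ K) →ₗ[k] P
  hσ : ∀ q, K.mkQ (σ q) = q

theorem exists_sec : Nonempty (Sec k K) := by
  obtain ⟨σ, hσ⟩ := (K.mkQ.restrictScalars k).exists_rightInverse_of_surjective
    (LinearMap.range_eq_top.2 K.mkQ_surjective)
  exact ⟨⟨σ, fun q => LinearMap.congr_fun hσ q⟩⟩

/-- the cocycle of the section -/
def Sec.coc (s : Sec k K) (a : A) : (P ⧸ K) →ₗ[k] K where
  toFun q := ⟨a • s.σ q - s.σ (a • q), by
    rw [← Submodule.Quotient.mk_eq_zero, ← Submodule.mkQ_apply, map_sub, map_smul, s.hσ, s.hσ,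
      sub_self]⟩
  map_add' q r := Subtype.ext (by simp only [map_add, smul_add, Submodule.coe_add]; abel)
  map_smul' c q := Subtype.ext (by
    simp only [map_smul, RingHom.id_apply, Submodule.coe_smul_of_tower, smul_sub,
      smul_comm a c])

theorem Sec.coc_val (s : Sec k K) (a : A) (q : P ⧸ K) :
    (s.coc a q : P) = a • s.σ q - s.σ (a • q) := rfl

/-- the pushout of `P ← K → X` -/
def Zt (_s : Sec k K) (_θ : K →ₗ[A] X) : Type u := X × (P ⧸ K)

variable (s : Sec k K) (θ θ' : K →ₗ[A] X)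

instance : AddCommGroup (Zt s θ) := inferInstanceAs (AddCommGroup (X × (P ⧸ K)))
instance : Module k (Zt s θ) := inferInstanceAs (Module k (X × (P ⧸ K)))

instance : Module A (Zt s θ) where
  smul a z := (a • z.1 + θ (s.coc a z.2), a • z.2)
  one_smul z := Prod.ext (by
    have : s.coc 1 z.2 = 0 := Subtype.ext (by simp [Sec.coc_val])
    change (1 : A) • z.1 + θ (s.coc 1 z.2) = z.1
    rw [this, map_zero, one_smul, add_zero]) (one_smul A z.2)
  mul_smul a b z := Prod.ext (by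
    have : s.coc (a * b) z.2 = a • s.coc b z.2 + s.coc a (b • z.2) :=
      Subtype.ext (by simp [Sec.coc_val, mul_smul, smul_sub])
    change (a * b) • z.1 + θ (s.coc (a * b) z.2) =
      a • (b • z.1 + θ (s.coc b z.2)) + θ (s.coc a (b • z.2))
    rw [this, map_add, map_smul, mul_smul, smul_add, add_assoc]) (mul_smul a b z.2)
  smul_zero a := Prod.ext (by
    change a • (0 : X) + θ (s.coc a 0) = 0
    simp) (smul_zero a)
  smul_add a z w := Prod.ext (by
    change a • (z.1 + w.1) + θ (s.coc a (z.2 + w.2)) =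
      a • z.1 + θ (s.coc a z.2) + (a • w.1 + θ (s.coc a w.2))
    rw [map_add, map_add, smul_add]
    abel) (smul_add a z.2 w.2)
  add_smul a b z := Prod.ext (by
    have : s.coc (a + b) z.2 = s.coc a z.2 + s.coc b z.2 :=
      Subtype.ext (by simp only [Sec.coc_val, add_smul, map_add, Submodule.coe_add]; abel)
    change (a + b) • z.1 + θ (s.coc (a + b) z.2) =
      a • z.1 + θ (s.coc a z.2) + (b • z.1 + θ (s.coc b z.2))
    rw [this, map_add, add_smul]
    abel) (add_smul a b z.2)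
  zero_smul z := Prod.ext (by
    have : s.coc 0 z.2 = 0 := Subtype.ext (by simp [Sec.coc_val])
    change (0 : A) • z.1 + θ (s.coc 0 z.2) = 0
    rw [this, map_zero, zero_smul, add_zero]) (zero_smul A z.2)

theorem Zt.smul_def (a : A) (z : Zt s θ) :
    a • z = ((a • z.1 + θ (s.coc a z.2), a • z.2) : X × (P ⧸ K)) := rfl

instance : IsScalarTower k A (Zt s θ) :=
  ⟨fun c a z => Prod.ext (by
    have : s.coc (c • a) z.2 = c • s.coc a z.2 :=
      Subtype.ext (by simp [Sec.coc_val, smul_sub])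
    change (c • a) • z.1 + θ (s.coc (c • a) z.2) = c • (a • z.1 + θ (s.coc a z.2))
    rw [this, θ.map_smul_of_tower, smul_assoc, smul_add]) (smul_assoc c a z.2)⟩

/-- the inclusion of `X` -/
def Zt.inl : X →ₗ[A] Zt s θ where
  toFun x := ((x, 0) : X × (P ⧸ K))
  map_add' x y := Prod.ext rfl (add_zero _).symm
  map_smul' a x := Prod.ext (by
    change a • x = a • x + θ (s.coc a 0)
    simp) (smul_zero a).symm

theorem Zt.inl_injective : Function.Injective (Zt.inl s θ) := fun _ _ h => congrArg Prod.fst h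

variable (hK : ∀ b ∈ J A, ∀ p : P, b • p ∈ K)

/-- the map `P → Hom(J, X)` attached to `θ` -/
def Th : P →ₗ[A] Hm A X where
  toFun p := Hm.of (θ ∘ₗ ((iota A P p).lin.codRestrict K fun b => hK b b.2 p))
  map_add' p q := Hm.ext fun b => (congrArg θ (Subtype.ext (smul_add b.1 p q))).trans
    (map_add θ ⟨_, hK b b.2 p⟩ ⟨_, hK b b.2 q⟩)
  map_smul' a p := Hm.ext fun b => congrArg θ (Subtype.ext (smul_smul b.1 a p))

theorem Th_apply (p : P) (b : J A) : Th θ hK p b = θ ⟨(b : A) • p, hK b b.2 p⟩ := rfl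

theorem Th_K (p : K) : Th θ hK p = iota A X (θ p) := Hm.ext fun b => map_smul θ b.1 p

theorem Zt.J_smul (b : J A) (z : Zt s θ) :
    (b : A) • z = Zt.inl s θ ((iota A X z.1 + Th θ hK (s.σ z.2)) b) := by
  have h0 : (b : A) • z.2 = 0 := by
    rw [← s.hσ z.2, ← map_smul, Submodule.mkQ_apply, Submodule.Quotient.mk_eq_zero]
    exact hK b b.2 _
  refine Prod.ext ?_ h0
  change (b : A) • z.1 + θ (s.coc b z.2) = (b : A) • z.1 + θ ⟨_, hK b b.2 _⟩
  congr 2
  exact Subtype.ext (by rw [Sec.coc_val, h0, map_zero, sub_zero])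

theorem Th_eq (p : P) : ∃ x, Th θ hK p = Th θ hK (s.σ (K.mkQ p)) + iota A X x := by
  have : p - s.σ (K.mkQ p) ∈ K := by
    rw [← Submodule.Quotient.mk_eq_zero, ← Submodule.mkQ_apply, map_sub, s.hσ, sub_self]
  exact ⟨θ ⟨_, this⟩, by rw [← Th_K θ hK, ← map_add, add_sub_cancel]⟩

variable {j : ℕ}

theorem Zt.canon (ind : ∀ p, Th θ hK p ∈ Hj A X j → p ∈ K)
    (gen : Rj A X (j + 1) ⊔ ⨆ p, LinearMap.range (Th θ hK p).lin = ⊤) :
    Rj A (Zt s θ) (j + 1) = LinearMap.range (Zt.inl s θ) := by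
  refine le_antisymm (Rj_le (fun a ha z => ⟨_, (Zt.J_smul s θ hK ⟨a, ha⟩ z).symm⟩) ?_) ?_
  · intro z hz
    have h1 : iota A X z.1 + Th θ hK (s.σ z.2) ∈ Hj A X j :=
      Submodule.mem_sup_right fun b hb => Zt.inl_injective s θ (by
        rw [← Zt.J_smul, hz b hb, map_zero])
    have h2 := ind _ ((Submodule.add_mem_iff_right _ (iota_mem_Hj j _)).1 h1)
    rw [← Submodule.Quotient.mk_eq_zero, ← Submodule.mkQ_apply, s.hσ] at h2
    exact ⟨z.1, Prod.ext rfl h2.symm⟩
  · have : (⊤ : Submodule A X) ≤ (Rj A (Zt s θ) (j + 1)).comap (Zt.inl s θ) := by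
      refine gen.ge.trans (sup_le (fun x hx => map_Rj _ hx) (iSup_le fun p => ?_))
      rintro _ ⟨b, rfl⟩
      obtain ⟨x, hx⟩ := Th_eq s θ hK p
      have h3 := Zt.J_smul s θ hK b ((x, K.mkQ p) : X × (P ⧸ K))
      rw [add_comm, ← hx] at h3
      exact Submodule.mem_comap.2 (h3 ▸ smul_mem_Rj _ b.2 _)
    rintro _ ⟨x, rfl⟩
    exact this Submodule.mem_top

theorem Zt.restrict (h : Rj A (Zt s θ) (j + 1) = LinearMap.range (Zt.inl s θ))
    (h' : Rj A (Zt s θ') (j + 1) = LinearMap.range (Zt.inl s θ')) (Φ : Zt s θ →ₗ[A] Zt s θ') :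
    ∃ f : Module.End A X, (∀ x, Zt.inl s θ' (f x) = Φ (Zt.inl s θ x)) ∧
      ∀ p, Hm.map f (Th θ hK p) ∈ Hj A X j ⊔ LinearMap.range (Th θ' hK) := by
  have h1 : ∀ x, (Φ ∘ₗ Zt.inl s θ) x ∈ LinearMap.range (Zt.inl s θ') := fun x =>
    h' ▸ map_Rj Φ (h.ge (LinearMap.mem_range_self _ x))
  let f : X →ₗ[A] X := (LinearEquiv.ofInjective _ (Zt.inl_injective s θ')).symm.toLinearMap ∘ₗ
    (Φ ∘ₗ Zt.inl s θ).codRestrict _ h1
  have hf : ∀ x, Zt.inl s θ' (f x) = Φ (Zt.inl s θ x) := fun x =>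
    congrArg Subtype.val
      ((LinearEquiv.ofInjective _ (Zt.inl_injective s θ')).apply_symm_apply ⟨_, h1 x⟩)
  refine ⟨f, hf, fun p => ?_⟩
  obtain ⟨x, hx⟩ := Th_eq s θ hK p
  let z : Zt s θ := ((x, K.mkQ p) : X × (P ⧸ K))
  have : Hm.map f (Th θ hK p) = iota A X (Φ z).1 + Th θ' hK (s.σ (Φ z).2) :=
    Hm.ext fun b => Zt.inl_injective s θ' (by
      rw [← Zt.J_smul, ← map_smul, Zt.J_smul s θ hK b z, Hm.map_apply, hf, hx, add_comm])
  rw [this]
  exact Submodule.add_mem_sup (iota_mem_Hj j _) (LinearMap.mem_range_self _ _)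

include hK in
theorem Zt.kill (h : Rj A (Zt s θ) (j + 1) = LinearMap.range (Zt.inl s θ))
    (Φ : Module.End A (Zt s θ)) (hΦ : IsIdempotentElem Φ) (h0 : ∀ x, Φ (Zt.inl s θ x) = 0) :
    Φ = 0 := by
  ext z
  have : Φ z ∈ LinearMap.range (Zt.inl s θ) := h ▸ soc_le_Rj _ fun a ha => by
    rw [← map_smul, Zt.J_smul s θ hK ⟨a, Jpow_succ_le' j ha⟩, h0]
  obtain ⟨x, hx⟩ := this
  rw [← hΦ, Module.End.mul_apply, ← hx, h0, LinearMap.zero_apply]

end Ext

theorem engine0 [IsAlgClosed k] (X P : FD k A) [Nontrivial X] (j : ℕ) (K : Submodule A P)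
    (hK : ∀ b ∈ J A, ∀ p : P, b • p ∈ K) (θ₀ θ₁ θ₂ : K →ₗ[A] X)
    (ind : ∀ (x y : k) p, Th (θ₀ + x • θ₁ + y • θ₂) hK p ∈ Hj A X j → p ∈ K)
    (gen : ∀ x y : k,
      Rj A X (j + 1) ⊔ ⨆ p, LinearMap.range (Th (θ₀ + x • θ₁ + y • θ₂) hK p).lin = ⊤)
    (rig : ∀ (x y x' y' : k) (h : Module.End A X),
      (∀ p, Hm.map h (Th (θ₀ + x • θ₁ + y • θ₂) hK p) ∈
        Hj A X j ⊔ LinearMap.range (Th (θ₀ + x' • θ₁ + y' • θ₂) hK)) →
      ∃ c : k, IsNilpotent (h - c • (1 : Module.End A X)) ∧ c * x = c * x' ∧ c * y = c * y') :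
    ¬ TameMat k A := by
  obtain ⟨s⟩ := exists_sec (k := k) (K := K)
  have : FiniteDimensional k (P ⧸ K) :=
    Module.Finite.of_surjective (K.mkQ.restrictScalars k) K.mkQ_surjective
  have can := fun x y => Zt.canon s _ hK (ind x y) (gen x y)
  let β : (K →ₗ[A] X) → A → Module.End k (X × (P ⧸ K)) := fun θ a =>
    LinearMap.inl k _ _ ∘ₗ θ.restrictScalars k ∘ₗ s.coc a ∘ₗ LinearMap.snd k _ _
  refine pc (X × (P ⧸ K)) (fun a => Algebra.lsmul k k _ a + β θ₀ a) (β θ₁) (β θ₂)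
    (fun x y => @FD.mk k A _ _ _ (Zt s (θ₀ + x • θ₁ + y • θ₂)) _ _ _ _
      (inferInstanceAs (FiniteDimensional k (X × (P ⧸ K)))))
    (fun x y => LinearEquiv.refl k (X × (P ⧸ K))) (fun x y a z => ?_) (fun x y => ?_) ?_
  · refine (Zt.smul_def s _ a z).trans (Prod.ext ?_ ?_)
    · change _ = a • z.1 + θ₀ (s.coc a z.2) + x • θ₁ (s.coc a z.2) + y • θ₂ (s.coc a z.2)
      simp [add_assoc]
    · change _ = a • z.2 + 0 + x • 0 + y • 0
      simp
  · refine ⟨(Zt.inl_injective s (θ₀ + x • θ₁ + y • θ₂)).nontrivial, fun M N hMN => ?_⟩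
    let Φ : Module.End A (Zt s (θ₀ + x • θ₁ + y • θ₂)) := M.projection N hMN
    have hΦ : IsIdempotentElem Φ := LinearMap.ext fun z =>
      Submodule.projection_apply_of_mem_left hMN (Submodule.projection_apply_mem hMN z)
    obtain ⟨f, hf, hf'⟩ := Zt.restrict s _ _ hK (can x y) (can x y) Φ
    obtain ⟨c, hc, -⟩ := rig x y x y f hf'
    have hi : IsIdempotentElem f := LinearMap.ext fun w => Zt.inl_injective s _ (by
      rw [Module.End.mul_apply, hf, hf, ← Module.End.mul_apply, hΦ])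
    by_cases h0 : c = 0
    · rw [h0, zero_smul, sub_zero] at hc
      have := Zt.kill s _ hK (can x y) Φ hΦ fun w => by
        rw [← hf, hi.eq_zero_of_isNilpotent hc, LinearMap.zero_apply, map_zero]
      left
      rw [← Submodule.range_projection hMN]
      exact LinearMap.range_eq_bot.2 this
    · have hu : IsUnit (c • (1 : Module.End A X)) :=
        ⟨⟨c • 1, c⁻¹ • 1, by simp [smul_smul, h0], by simp [smul_smul, h0]⟩, rfl⟩
      have hu' : IsUnit f := by
        have := hc.isUnit_add_right_of_commute hu (by simp [Commute, SemiconjBy])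
        rwa [sub_add_cancel] at this
      have := Zt.kill s _ hK (can x y) (1 - Φ) hΦ.one_sub fun w => by
        rw [LinearMap.sub_apply, ← hf, (IsIdempotentElem.iff_eq_one_of_isUnit hu').1 hi]
        exact sub_self _
      right
      rw [← Submodule.ker_projection hMN]
      exact LinearMap.ker_eq_bot.2 fun a b hab => by
        have h1 : Φ = 1 := (sub_eq_zero.1 this).symm
        change Φ a = Φ b at hab
        rwa [h1] at hab
  · rintro x y x' y' ⟨Φ⟩
    obtain ⟨f, hf, hf'⟩ := Zt.restrict s _ _ hK (can x y) (can x' y') Φ.toLinearMap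
    obtain ⟨c, hc, h1, h2⟩ := rig x y x' y' f hf'
    have h0 : c ≠ 0 := by
      rintro rfl
      rw [zero_smul, sub_zero] at hc
      obtain ⟨n, hn⟩ := hc
      have hi : Function.Injective f := fun a b hab => Zt.inl_injective s _ (Φ.injective (by
        have := congrArg (Zt.inl s (θ₀ + x' • θ₁ + y' • θ₂)) hab
        rwa [hf, hf] at this))
      have := Module.End.iterate_injective hi n
      obtain ⟨a, b, hab⟩ := exists_pair_ne X
      exact hab (this (by rw [hn]; rfl))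
    exact ⟨mul_left_cancel₀ h0 h1, mul_left_cancel₀ h0 h2⟩

theorem engine [IsAlgClosed k] [FiniteDimensional k A] (X : FD k A) [Nontrivial X] (j : ℕ)
    {Λ : Type} [Fintype Λ] (g : Λ → A) (ψ₀ ψ₁ ψ₂ : Λ → Hm A X)
    (ind : ∀ (x y : k) (a : Λ → A),
      ∑ l, (a l * g l) • (ψ₀ l + x • ψ₁ l + y • ψ₂ l) ∈ Hj A X j → ∀ l, a l * g l ∈ J A)
    (gen : ∀ x y : k,
      Rj A X (j + 1) ⊔ ⨆ l, LinearMap.range (g l • (ψ₀ l + x • ψ₁ l + y • ψ₂ l)).lin = ⊤)
    (rig : ∀ (x y x' y' : k) (h : Module.End A X),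
      (∀ l, Hm.map h (g l • (ψ₀ l + x • ψ₁ l + y • ψ₂ l)) ∈ Hj A X j ⊔ Submodule.span A
        (Set.range fun l => g l • (ψ₀ l + x' • ψ₁ l + y' • ψ₂ l))) →
      ∃ c : k, IsNilpotent (h - c • (1 : Module.End A X)) ∧ c * x = c * x' ∧ c * y = c * y') :
    ¬ TameMat k A := by
  classical
  let K : Submodule A (Λ → A) :=
    { carrier := {p | ∀ l, p l * g l ∈ J A}
      add_mem' := fun hp hq l => by rw [Pi.add_apply, add_mul]; exact add_mem (hp l) (hq l)
      zero_mem' := fun l => by simp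
      smul_mem' := fun a p hp l => by
        rw [Pi.smul_apply, smul_eq_mul, mul_assoc]; exact J_mul_left a (hp l) }
  have hK : ∀ b ∈ J A, ∀ p : Λ → A, b • p ∈ K := fun b hb p l => by
    rw [Pi.smul_apply, smul_eq_mul, mul_assoc]; exact J_mul_right hb _
  let m : Λ → K →ₗ[A] J A := fun l =>
    (LinearMap.toSpanSingleton A A (g l) ∘ₗ
      (LinearMap.proj l : (Λ → A) →ₗ[A] A) ∘ₗ K.subtype).codRestrict _
      fun p => p.2 l
  let θ : (Λ → Hm A X) → K →ₗ[A] X := fun ψ => ∑ l, (ψ l).lin ∘ₗ m l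
  have key : ∀ (x y : k) (p : Λ → A), Th (θ ψ₀ + x • θ ψ₁ + y • θ ψ₂) hK p =
      ∑ l, (p l * g l) • (ψ₀ l + x • ψ₁ l + y • ψ₂ l) := by
    intro x y p
    ext b
    have : ∀ l, m l ⟨(b : A) • p, hK b b.2 p⟩ = rmul (p l * g l) b := fun l =>
      Subtype.ext (mul_assoc b.1 (p l) (g l))
    simp [Th_apply, θ, Hm.sum_apply, Hm.smul_apply, this, Finset.sum_add_distrib, Finset.smul_sum]
  have key1 : ∀ (x y : k) (l : Λ), Th (θ ψ₀ + x • θ ψ₁ + y • θ ψ₂) hK (Pi.single l 1) =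
      g l • (ψ₀ l + x • ψ₁ l + y • ψ₂ l) := by
    intro x y l
    rw [key, Finset.sum_eq_single l (fun l' _ h => by simp [h]) (by simp)]
    simp
  refine engine0 X ⟨Λ → A⟩ j K hK (θ ψ₀) (θ ψ₁) (θ ψ₂) (fun x y p hp => ind x y p (key x y p ▸ hp))
    (fun x y => eq_top_iff.2 ((gen x y).ge.trans (sup_le_sup_left (iSup_le fun l => ?_) _)))
    fun x y x' y' h hh => rig x y x' y' h fun l => ?_
  · rw [← key1]
    exact le_iSup_of_le (Pi.single l 1) le_rfl
  · rw [← key1]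
    refine SetLike.le_def.1 (sup_le_sup_left ?_ _) (hh _)
    rintro _ ⟨p, rfl⟩
    change Th _ hK p ∈ _
    rw [key]
    exact Submodule.sum_mem _ fun l _ => by
      rw [mul_smul]; exact Submodule.smul_mem _ _ (Submodule.subset_span ⟨l, rfl⟩)

end Pool.Agent.Lib.MP_c55f2d_al.Q
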