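import Pool.Agent.Lib.MP_c55f2d_al.QBasic

/-! The Harada-Sai lemma and the filtration `V_s`. -/

universe u

namespace Pool.Agent.Lib.MP_c55f2d_al.Q

variable {k A : Type u} [Field k] [Ring A] [Algebra k A]

/-- indecomposable of dimension at most `b` -/
def Good (b : ℕ) (X : FD k A) : Prop := Indec A X ∧ Module.finrank k X ≤ b

/-- composites of `s` non-isomorphisms between good modules -/
inductive Chain (b : ℕ) : ℕ → ∀ X Y : FD k A, (X →ₗ[A] Y) → Prop
  | id (X : FD k A) : Good b X → Chain b 0 X X LinearMap.id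
  | comp {s : ℕ} {X Y Z : FD k A} {f : X →ₗ[A] Y} (g : Y →ₗ[A] Z) :
      Chain b s X Y f → Good b Z → ¬ Function.Bijective g → Chain b (s + 1) X Z (g ∘ₗ f)

theorem Chain.good_src {b s : ℕ} {X Y : FD k A} {f : X →ₗ[A] Y} (h : Chain b s X Y f) :
    Good b X := by
  induction h with
  | id X hX => exact hX
  | comp g _ _ _ ih => exact ih

theorem Chain.good_tgt {b s : ℕ} {X Y : FD k A} {f : X →ₗ[A] Y} (h : Chain b s X Y f) :
    Good b Y := by
  cases h with
  | id X hX => exact hX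
  | comp g _ hZ _ => exact hZ

theorem Chain.split {b n : ℕ} {X Z : FD k A} {f : X →ₗ[A] Z} (h : Chain b n X Z f) :
    ∀ s t, n = s + t → ∃ (Y : FD k A) (f₁ : X →ₗ[A] Y) (f₂ : Y →ₗ[A] Z),
      Chain b s X Y f₁ ∧ Chain b t Y Z f₂ ∧ f = f₂ ∘ₗ f₁ := by
  induction h with
  | id X hX =>
    intro s t hst
    obtain ⟨rfl, rfl⟩ : s = 0 ∧ t = 0 := by omega
    exact ⟨X, LinearMap.id, LinearMap.id, Chain.id X hX, Chain.id X hX, rfl⟩
  | @comp n X Y Z f g hc hZ hg ih =>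
    intro s t hst
    rcases t with _ | t
    · obtain rfl : s = n + 1 := by omega
      exact ⟨Z, g ∘ₗ f, LinearMap.id, Chain.comp g hc hZ hg, Chain.id Z hZ, rfl⟩
    · obtain ⟨W, f₁, f₂, h1, h2, h3⟩ := ih s t (by omega)
      exact ⟨W, f₁, g ∘ₗ f₂, h1, Chain.comp g h2 hZ hg, by rw [h3]; rfl⟩

theorem Chain.inv {b s : ℕ} {X Z : FD k A} {f : X →ₗ[A] Z} (h : Chain b (s + 1) X Z f) :
    ∃ (Y : FD k A) (f₁ : X →ₗ[A] Y) (g : Y →ₗ[A] Z),
      Chain b s X Y f₁ ∧ ¬ Function.Bijective g ∧ f = g ∘ₗ f₁ := by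
  cases h with
  | comp g hc _ hg => exact ⟨_, _, g, hc, hg, rfl⟩

/-- the rank of a homomorphism -/
noncomputable def hsRk {X Y : FD k A} (f : X →ₗ[A] Y) : ℕ :=
  Module.finrank k (LinearMap.range (f.restrictScalars k))

theorem hsRk_comp_left {X Y Z : FD k A} (f : X →ₗ[A] Y) (g : Y →ₗ[A] Z) :
    hsRk (g ∘ₗ f) ≤ hsRk g :=
  Submodule.finrank_mono (by
    rintro _ ⟨x, rfl⟩
    exact ⟨f x, rfl⟩)

theorem hsRk_comp_right {X Y Z : FD k A} (f : X →ₗ[A] Y) (g : Y →ₗ[A] Z) :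
    hsRk (g ∘ₗ f) ≤ hsRk f := by
  have e : LinearMap.range ((g ∘ₗ f).restrictScalars k) =
      (LinearMap.range (f.restrictScalars k)).map (g.restrictScalars k) :=
    LinearMap.range_comp (f.restrictScalars k) (g.restrictScalars k)
  rw [hsRk, e]
  exact Submodule.finrank_map_le _ _

/-- if no rank is lost through an indecomposable module, both maps are as regular as possible -/
theorem hs_through {X Y Z : FD k A} (hY : Indec A Y) (α : X →ₗ[A] Y) (β : Y →ₗ[A] Z)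
    (h0 : β ∘ₗ α ≠ 0) (h1 : hsRk α ≤ hsRk (β ∘ₗ α)) (h2 : hsRk β ≤ hsRk (β ∘ₗ α)) :
    Function.Surjective α ∧ Function.Injective β := by
  have e : LinearMap.range ((β ∘ₗ α).restrictScalars k) = LinearMap.range (β.restrictScalars k) :=
    Submodule.eq_of_le_of_finrank_le (by
      rintro _ ⟨x, rfl⟩
      exact ⟨α x, rfl⟩) h2
  have hdec : ∀ y : Y, ∃ x, β (y - α x) = 0 := by
    intro y
    have : β y ∈ LinearMap.range ((β ∘ₗ α).restrictScalars k) := by
      rw [e]; exact ⟨y, rfl⟩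
    obtain ⟨x, hx⟩ := this
    exact ⟨x, by rw [map_sub, ← hx]; exact sub_self _⟩
  have hsup : LinearMap.range (α.restrictScalars k) ⊔ LinearMap.ker (β.restrictScalars k) = ⊤ := by
    refine eq_top_iff.2 fun y _ => ?_
    obtain ⟨x, hx⟩ := hdec y
    exact Submodule.mem_sup.2 ⟨α x, ⟨x, rfl⟩, y - α x, hx, add_sub_cancel _ _⟩
  have d1 := Submodule.finrank_sup_add_finrank_inf_eq (LinearMap.range (α.restrictScalars k))
    (LinearMap.ker (β.restrictScalars k))
  have d2 := LinearMap.finrank_range_add_finrank_ker (β.restrictScalars k)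
  have d3 := hsRk_comp_left α β
  rw [hsup, finrank_top] at d1
  have hinf : LinearMap.range (α.restrictScalars k) ⊓ LinearMap.ker (β.restrictScalars k) = ⊥ := by
    rw [← Submodule.finrank_eq_zero]
    unfold hsRk at h1 d3
    omega
  have hc : IsCompl (LinearMap.range α) (LinearMap.ker β) := by
    constructor
    · refine Submodule.disjoint_def.2 fun y hy hy' => ?_
      have : y ∈ LinearMap.range (α.restrictScalars k) ⊓ LinearMap.ker (β.restrictScalars k) :=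
        ⟨hy, hy'⟩
      rwa [hinf, Submodule.mem_bot] at this
    · refine codisjoint_iff.2 (eq_top_iff.2 fun y _ => ?_)
      obtain ⟨x, hx⟩ := hdec y
      exact Submodule.mem_sup.2 ⟨α x, ⟨x, rfl⟩, y - α x, hx, add_sub_cancel _ _⟩
  rcases hY.2 _ _ hc with h | h
  · exact absurd (by rw [LinearMap.range_eq_bot.1 h, LinearMap.comp_zero]) h0
  · refine ⟨LinearMap.range_eq_top.1 ?_, LinearMap.ker_eq_bot.1 h⟩
    have := hc.sup_eq_top
    rwa [h, sup_bot_eq] at this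

theorem hs_rank (k A : Type u) [Field k] [Ring A] [Algebra k A] (b n : ℕ) :
    ∃ N : ℕ, ∀ (X Y : FD k A) (f : X →ₗ[A] Y), Chain b N X Y f → f = 0 ∨ hsRk f + n ≤ b := by
  induction n with
  | zero =>
    refine ⟨0, fun X Y f h => Or.inr ?_⟩
    exact (Submodule.finrank_le _).trans h.good_tgt.2
  | succ n ih =>
    obtain ⟨N, hN⟩ := ih
    refine ⟨N + 1 + N, fun X W f h => ?_⟩
    obtain ⟨Z, f', f₂, h1, h2, rfl⟩ := h.split (N + 1) N rfl
    obtain ⟨Y, f₁, g, h3, hg, rfl⟩ := h1.inv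
    by_contra hcon
    rw [not_or] at hcon
    obtain ⟨h0, hr⟩ := hcon
    have r1 : hsRk f₁ + n ≤ b := (hN _ _ _ h3).resolve_left fun e => h0 (by
      rw [e, LinearMap.comp_zero, LinearMap.comp_zero])
    have r2 : hsRk f₂ + n ≤ b := (hN _ _ _ h2).resolve_left fun e => h0 (by
      rw [e, LinearMap.zero_comp])
    have r3 := hsRk_comp_right f₁ g
    have r4 := hsRk_comp_left g f₂
    have e : (f₂ ∘ₗ g) ∘ₗ f₁ = f₂ ∘ₗ g ∘ₗ f₁ := rfl
    have a1 := hs_through h3.good_tgt.1 f₁ (f₂ ∘ₗ g) (by rwa [e]) (by rw [e]; omega)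
      (by rw [e]; omega)
    have a2 := hs_through h2.good_src.1 (g ∘ₗ f₁) f₂ h0 (by omega) (by omega)
    exact hg ⟨Function.Injective.of_comp (f := f₂) a1.2, Function.Surjective.of_comp (g := f₁) a2.1⟩

/-- Harada-Sai -/
theorem harada_sai (k A : Type u) [Field k] [Ring A] [Algebra k A] (b : ℕ) :
    ∃ N : ℕ, ∀ (X Y : FD k A) (f : X →ₗ[A] Y), Chain b N X Y f → f = 0 := by
  obtain ⟨N, hN⟩ := hs_rank k A b (b + 1)
  exact ⟨N, fun X Y f h => (hN X Y f h).resolve_right (by omega)⟩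

/-- the filtration `V_s` of `Hom(J, X)` -/
def Vs (b j s : ℕ) (X : FD k A) : Submodule A (Hm A X) :=
  Hj A X j ⊔ Submodule.span A
    {ψ | ∃ (W : FD k A) (f : W →ₗ[A] X) (φ : Hm A W), Chain b s W X f ∧ ψ = Hm.map f φ}

theorem Hj_le_Vs (b j s : ℕ) (X : FD k A) : Hj A X j ≤ Vs b j s X := le_sup_left

theorem map_Vs {b j s : ℕ} {X Y : FD k A} (hY : Good b Y) (f : X →ₗ[A] Y)
    (hf : ¬ Function.Bijective f) {φ : Hm A X} (hφ : φ ∈ Vs b j s X) :
    Hm.map f φ ∈ Vs b j (s + 1) Y := by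
  have : Vs b j s X ≤ (Vs b j (s + 1) Y).comap (Hm.map f) := by
    refine sup_le (fun ψ hψ => Hj_le_Vs b j (s + 1) Y (map_Hj f hψ)) (Submodule.span_le.2 ?_)
    rintro _ ⟨W, g, ψ, hc, rfl⟩
    exact Submodule.mem_sup_right
      (Submodule.subset_span ⟨W, f ∘ₗ g, ψ, Chain.comp f hc hY hf, rfl⟩)
  exact this hφ

theorem hs_switch {P : ℕ → Prop} (h0 : ¬ P 0) {N : ℕ} (hN : P N) :
    ∃ s < N, ¬ P s ∧ P (s + 1) := by
  induction N with
  | zero => exact absurd hN h0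
  | succ N ih =>
    by_cases h : P N
    · obtain ⟨s, hs, h'⟩ := ih h
      exact ⟨s, by omega, h'⟩
    · exact ⟨N, by omega, h, hN⟩

theorem exists_level (k A : Type u) [Field k] [Ring A] [Algebra k A] (b : ℕ) :
    ∃ N : ℕ, ∀ (j : ℕ) (X : FD k A), Good b X → ∀ M : Submodule A (Hm A X), Hj A X j ≤ M →
      M ≠ ⊤ → ∃ s < N, ∃ φ ∈ Vs b j s X, φ ∉ M ∧ Vs b j (s + 1) X ≤ M := by
  obtain ⟨N, hN⟩ := harada_sai k A b
  refine ⟨N, fun j X hX M hM hM' => ?_⟩
  have h0 : ¬ Vs b j 0 X ≤ M := fun h => hM' (eq_top_iff.2 fun φ _ => h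
    (Submodule.mem_sup_right (Submodule.subset_span ⟨X, LinearMap.id, φ, Chain.id X hX, rfl⟩)))
  have h1 : Vs b j N X ≤ M := by
    refine sup_le hM (Submodule.span_le.2 ?_)
    rintro _ ⟨W, g, ψ, hc, rfl⟩
    rw [hN _ _ _ hc, Hm.zero_map]
    exact M.zero_mem
  obtain ⟨s, hs, h2, h3⟩ := hs_switch (P := fun s => Vs b j s X ≤ M) h0 h1
  obtain ⟨φ, h4, h5⟩ := SetLike.not_le_iff_exists.1 h2
  exact ⟨s, hs, φ, h4, h5, h3⟩

/-- the version used in step 2: a level with `V_s ≠ V_{s+1}` -/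
theorem exists_level' (k A : Type u) [Field k] [Ring A] [Algebra k A] (b : ℕ) :
    ∃ N : ℕ, ∀ (j : ℕ) (X : FD k A), Good b X → Hj A X j ≠ ⊤ →
      ∃ s < N, ∃ φ ∈ Vs b j s X, φ ∉ Vs b j (s + 1) X := by
  obtain ⟨N, hN⟩ := exists_level k A b
  refine ⟨N, fun j X hX h => ?_⟩
  obtain ⟨s, hs, φ, h1, h2, h3⟩ := hN j X hX _ le_rfl h
  exact ⟨s, hs, φ, h1, fun h4 => h2 (h3 h4)⟩

theorem nilp_pi {b : ℕ} {I : Type} [Fintype I] [DecidableEq I] (X : I → FD k A)
    (hX : ∀ i, Good b (X i)) (h : Module.End A (∀ i, X i))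
    (hh : ∀ i i', ¬ Function.Bijective
      (LinearMap.proj i ∘ₗ h ∘ₗ LinearMap.single A (fun i => (X i).X) i' : X i' →ₗ[A] X i)) :
    IsNilpotent h := by
  obtain ⟨N, hN⟩ := harada_sai k A b
  let T : ℕ → ∀ i, AddSubmonoid (X i) := fun s i => AddSubmonoid.closure
    {x | ∃ (W : FD k A) (f : W →ₗ[A] X i) (w : W), Chain b s W (X i) f ∧ x = f w}
  have step : ∀ s i i' (g : X i' →ₗ[A] X i), ¬ Function.Bijective g → ∀ x ∈ T s i',
      g x ∈ T (s + 1) i := by
    intro s i i' g hg x hx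
    induction hx using AddSubmonoid.closure_induction with
    | mem x hx =>
      obtain ⟨W, f, w, hc, rfl⟩ := hx
      exact AddSubmonoid.subset_closure ⟨W, g ∘ₗ f, w, Chain.comp g hc (hX i) hg, rfl⟩
    | zero => rw [map_zero]; exact zero_mem _
    | add x y _ _ hx hy => rw [map_add]; exact add_mem hx hy
  have key : ∀ s (v : ∀ i, X i) i, (h ^ s) v i ∈ T s i := by
    intro s
    induction s with
    | zero =>
      exact fun v i => AddSubmonoid.subset_closure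
        ⟨X i, LinearMap.id, v i, Chain.id _ (hX i), rfl⟩
    | succ s ih =>
      intro v i
      rw [pow_succ', Module.End.mul_apply, ← Finset.univ_sum_single ((h ^ s) v), map_sum,
        Finset.sum_apply]
      exact sum_mem fun i' _ => step s i i' _ (hh i i') _ (ih v i')
  refine ⟨N, LinearMap.ext fun v => funext fun i => ?_⟩
  have hb : T N i ≤ ⊥ := by
    refine AddSubmonoid.closure_le.2 ?_
    rintro _ ⟨W, f, w, hc, rfl⟩
    rw [hN _ _ _ hc]
    exact zero_mem _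
  exact AddSubmonoid.mem_bot.1 (hb (key N v i))

theorem exists_scalar [IsAlgClosed k] (X : FD k A) [Nontrivial X] (f : X →ₗ[A] X) :
    ∃ c : k, ¬ Function.Bijective (f - c • LinearMap.id : X →ₗ[A] X) := by
  obtain ⟨c, hc⟩ := Module.End.exists_eigenvalue (f.restrictScalars k : Module.End k X)
  obtain ⟨v, hv⟩ := hc.exists_hasEigenvector
  refine ⟨c, fun hb => hv.2 (hb.1 ?_)⟩
  have : f v = c • v := hv.apply_eq_smul
  rw [map_zero, LinearMap.sub_apply, this]
  exact sub_self _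

end Pool.Agent.Lib.MP_c55f2d_al.Q
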