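import Pool.Agent.Lib.MP_c55f2d_al.QDefs

/-! From two-step filtrations to the dimension of the stable category. -/

universe u

namespace Pool.Agent.Lib.MP_c55f2d_al.Q

open CategoryTheory

section Stable

variable {Λ : Type u} [Ring Λ]

/-- two maps are identified if their difference factors through a projective module -/
def stRel (Λ : Type u) [Ring Λ] : HomRel (FGModuleCat.{u} Λ) := fun M N f g =>
  ∃ (P : FGModuleCat.{u} Λ) (i : M ⟶ P) (p : P ⟶ N), Module.Projective Λ P ∧ f - g = i ≫ p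

/-- the stable module category -/
abbrev StMod (Λ : Type u) [Ring Λ] := CategoryTheory.Quotient (stRel Λ)

/-- a module as an object of the stable category -/
def st (M : FGModuleCat.{u} Λ) : StMod Λ := (Quotient.functor (stRel Λ)).obj M

/-- there is a short exact sequence `0 → Y → M → Z → 0` -/
def SES (Y M Z : FGModuleCat.{u} Λ) : Prop :=
  ∃ (f : Y →ₗ[Λ] M) (g : M →ₗ[Λ] Z),
    Function.Injective f ∧ Function.Exact f g ∧ Function.Surjective g

/-- `Z` is a cosyzygy of `Y`, that is `Z ≅ Y[1]` in the stable category -/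
def IsShift (Y Z : FGModuleCat.{u} Λ) : Prop :=
  ∃ I : FGModuleCat.{u} Λ, Module.Injective Λ I ∧ SES Y I Z

/-- there is a triangle `Y → M → Z → Y[1]`: the three objects are stably isomorphic to the terms
of a short exact sequence -/
def Tri (Y M Z : FGModuleCat.{u} Λ) : Prop :=
  ∃ Y' M' Z', SES Y' M' Z' ∧ Nonempty (st Y' ≅ st Y) ∧ Nonempty (st M' ≅ st M) ∧
    Nonempty (st Z' ≅ st Z)

/-- `⟨G⟩₁`: the closure of `G` under finite direct sums, direct summands and shifts -/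
inductive Gen1 (G : FGModuleCat.{u} Λ) : FGModuleCat.{u} Λ → Prop
  | self : Gen1 G G
  | zero (M : FGModuleCat.{u} Λ) : Subsingleton M → Gen1 G M
  | sum (M N : FGModuleCat.{u} Λ) : Gen1 G M → Gen1 G N → Gen1 G (FGModuleCat.of Λ (M × N))
  | summand (M N : FGModuleCat.{u} Λ) : Gen1 G N → Nonempty (Retract (st M) (st N)) → Gen1 G M
  | shift (Y Z : FGModuleCat.{u} Λ) : Gen1 G Y → IsShift Y Z → Gen1 G Z
  | unshift (Y Z : FGModuleCat.{u} Λ) : Gen1 G Z → IsShift Y Z → Gen1 G Y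

/-- `Gen G n` is `⟨G⟩_{n+1}` -/
def Gen (G : FGModuleCat.{u} Λ) : ℕ → FGModuleCat.{u} Λ → Prop
  | 0 => Gen1 G
  | n + 1 => fun M => ∃ Y W Z, Gen G n Y ∧ Gen1 G Z ∧ Tri Y W Z ∧
      Nonempty (Retract (st M) (st W))

/-- the Rouquier dimension of the stable module category (`⊤` if there is no strong generator) -/
noncomputable def stableDim (Λ : Type u) [Ring Λ] : ℕ∞ :=
  ⨅ (d : ℕ) (_ : ∃ G : FGModuleCat.{u} Λ, ∀ M, Gen G d M), (d : ℕ∞)

end Stable

section InAdd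

variable {Λ : Type u} [Ring Λ] {G M N : Type u} [AddCommGroup G] [Module Λ G] [AddCommGroup M]
  [Module Λ M] [AddCommGroup N] [Module Λ N]

theorem InAdd.retract (h : InAdd Λ G N) (i : M →ₗ[Λ] N) (r : N →ₗ[Λ] M)
    (hr : ∀ x, r (i x) = x) : InAdd Λ G M := by
  obtain ⟨n, i', r', h'⟩ := h
  exact ⟨n, i' ∘ₗ i, r ∘ₗ r', fun x => by simp [h', hr]⟩

theorem InAdd.self : InAdd Λ G G :=
  ⟨1, LinearMap.pi fun _ => LinearMap.id, LinearMap.proj 0, fun _ => rfl⟩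

theorem InAdd.of_subsingleton [Subsingleton M] : InAdd Λ G M :=
  ⟨0, 0, 0, fun _ => Subsingleton.elim _ _⟩

theorem InAdd.prod (hM : InAdd Λ G M) (hN : InAdd Λ G N) : InAdd Λ G (M × N) := by
  obtain ⟨m, i, r, h⟩ := hM
  obtain ⟨n, i', r', h'⟩ := hN
  let e : (Fin (m + n) → G) ≃ₗ[Λ] (Fin m → G) × (Fin n → G) :=
    (LinearEquiv.funCongrLeft Λ G finSumFinEquiv).trans
      (LinearEquiv.sumArrowLequivProdArrow _ _ Λ G)
  exact ⟨m + n, e.symm.toLinearMap ∘ₗ i.prodMap i', r.prodMap r' ∘ₗ e.toLinearMap,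
    fun x => by simp [h, h']⟩

end InAdd

section Gen

variable {Λ : Type u} [Ring Λ] {G : FGModuleCat.{u} Λ}

theorem Gen1.retract {M N : FGModuleCat.{u} Λ} (h : Gen1 G N) (i : M →ₗ[Λ] N) (r : N →ₗ[Λ] M)
    (hr : ∀ x, r (i x) = x) : Gen1 G M := by
  let ρ : Retract M N :=
    ⟨FGModuleCat.ofHom i, FGModuleCat.ofHom r, FGModuleCat.hom_ext (LinearMap.ext hr)⟩
  exact Gen1.summand M N h ⟨ρ.map (Quotient.functor (stRel Λ))⟩

theorem Gen1.pow (G : FGModuleCat.{u} Λ) (n : ℕ) : Gen1 G (FGModuleCat.of Λ (Fin n → G)) := by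
  induction n with
  | zero => exact Gen1.zero _ (inferInstanceAs (Subsingleton (Fin 0 → G)))
  | succ n ih =>
    let e : (G × (Fin n → G)) ≃ₗ[Λ] (Fin (n + 1) → G) := Fin.consLinearEquiv Λ fun _ => G
    exact (Gen1.sum _ _ Gen1.self ih).retract e.symm.toLinearMap e.toLinearMap e.apply_symm_apply

theorem InAdd.gen1 {M : FGModuleCat.{u} Λ} (h : InAdd Λ G M) : Gen1 G M := by
  obtain ⟨n, i, r, hr⟩ := h
  exact (Gen1.pow G n).retract i r hr

end Gen

theorem stableDim_le_one {Λ : Type u} [Ring Λ] [IsNoetherianRing Λ] (G : FGModuleCat.{u} Λ)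
    (h : ∀ (M : Type u) [AddCommGroup M] [Module Λ M] [Module.Finite Λ M],
      ∃ Y : Submodule Λ M, InAdd Λ G Y ∧ InAdd Λ G (M ⧸ Y)) : stableDim Λ ≤ 1 := by
  refine iInf₂_le (f := fun (d : ℕ) (_ : ∃ G : FGModuleCat.{u} Λ, ∀ M, Gen G d M) => (d : ℕ∞)) 1
    ⟨G, fun M => ?_⟩
  obtain ⟨Y, h1, h2⟩ := h M
  exact ⟨FGModuleCat.of Λ Y, M, FGModuleCat.of Λ (M ⧸ Y), InAdd.gen1 h1, InAdd.gen1 h2,
    ⟨_, _, _, ⟨Y.subtype, Y.mkQ, Y.injective_subtype, LinearMap.exact_subtype_mkQ Y,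
      Y.mkQ_surjective⟩, ⟨Iso.refl _⟩, ⟨Iso.refl _⟩, ⟨Iso.refl _⟩⟩, ⟨Retract.refl _⟩⟩

end Pool.Agent.Lib.MP_c55f2d_al.Q
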