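import Pool.Agent.Lib.MP_c55f2d_al.QStep2a

/-! Step 2: finitely many indecomposable quotients of bounded dimension. -/

universe u

namespace Pool.Agent.Lib.MP_c55f2d_al.Q

variable {k A : Type u} [Field k] [Ring A] [Algebra k A]

theorem step2_families {P : FD k A → Prop}
    (h : ∀ (n : ℕ) (G : Fin n → FD k A), ∃ X : FD k A, P X ∧ ∀ i, ¬ Nonempty (X ≃ₗ[A] G i))
    (n : ℕ) : ∃ G : Fin n → FD k A, (∀ i, P (G i)) ∧
      ∀ i i', Nonempty (G i ≃ₗ[A] G i') → i = i' := by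
  induction n with
  | zero => exact ⟨Fin.elim0, fun i => i.elim0, fun i => i.elim0⟩
  | succ n ih =>
    obtain ⟨G, h1, h2⟩ := ih
    obtain ⟨X, hX, hne⟩ := h n G
    refine ⟨Fin.cons X G, fun i => Fin.cases hX h1 i, fun i i' => ?_⟩
    refine Fin.cases ?_ (fun i => ?_) i <;> refine Fin.cases ?_ (fun i' => ?_) i'
    · exact fun _ => rfl
    · exact fun e => (hne i' e).elim
    · exact fun ⟨e⟩ => (hne i ⟨e.symm⟩).elim
    · exact fun e => congrArg Fin.succ (h2 i i' e)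

theorem step2_level {L : ℕ} (hL : J A ^ L = ⊥) (X : FD k A) (hX : Nontrivial X)
    (hF : InFac A X) : ∃ j < L, Rj A X (j + 1) = ⊤ ∧ Hj A X j ≠ ⊤ := by
  classical
  have ex : ∃ j, Rj A X j = ⊤ := ⟨L, Rj_top hL⟩
  have h0 : Nat.find ex ≠ 0 := fun e => by
    have h1 := Nat.find_spec ex
    rw [e, Rj_zero] at h1
    exact bot_ne_top (eq_top_of_sup_J (N := (⊥ : Submodule A X)) hL (by rw [h1, top_sup_eq]))
  obtain ⟨j, hj⟩ := Nat.exists_eq_succ_of_ne_zero h0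
  have h1 : Nat.find ex ≤ L := Nat.find_min' ex (Rj_top hL)
  refine ⟨j, by omega, ?_, fun e => Nat.find_min ex (show j < Nat.find ex by omega) ?_⟩
  · have := Nat.find_spec ex
    rwa [hj] at this
  · refine eq_top_iff.2 (hF.ge.trans (iSup_le fun φ => ?_))
    rintro _ ⟨c, rfl⟩
    exact apply_mem_Rj (e ▸ Submodule.mem_top) c

theorem step2 [IsAlgClosed k] [FiniteDimensional k A] (hT : TameMat k A) (b : ℕ) :
    ∃ (n : ℕ) (G : Fin n → FD k A), ∀ X : FD k A, Good b X → InFac A X →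
      ∃ i, Nonempty (X ≃ₗ[A] G i) := by
  classical
  by_contra hc
  obtain ⟨L, hL⟩ := exists_Jpow k A
  obtain ⟨N, hN⟩ := exists_level' k A b
  obtain ⟨q, γ, hγ, β, hβ⟩ := exists_cells k A
  obtain ⟨G, h1, h2⟩ := step2_families (P := fun X : FD k A => Good b X ∧ InFac A X)
    (fun n G => by
      by_contra e
      refine hc ⟨n, G, fun X a c => ?_⟩
      by_contra e'
      exact e ⟨X, ⟨a, c⟩, fun i u => e' ⟨i, u⟩⟩) (L * (N * q) * 4 + 1)
  have key : ∀ i, ∃ c : Fin L × Fin N × Fin q, Rj A (G i) (c.1 + 1) = ⊤ ∧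
      ∃ φ ∈ Vs b c.1 c.2.1 (G i), γ c.2.2 • φ ∉ Vs b c.1 (c.2.1 + 1) (G i) := by
    intro i
    obtain ⟨j, hj, a1, a2⟩ := step2_level hL (G i) (h1 i).1.1.1 (h1 i).2
    obtain ⟨s, hs, φ, a3, a4⟩ := hN j (G i) (h1 i).1 a2
    obtain ⟨t, a5⟩ := cell_notMem hβ ((range_iota_le_Hj j).trans (Hj_le_Vs b j (s + 1) (G i))) a4
    exact ⟨(⟨j, hj⟩, ⟨s, hs⟩, t), a1, φ, a3, a5⟩
  choose c hc1 hc2 using key
  obtain ⟨y, hy⟩ := Fintype.exists_lt_card_fiber_of_mul_lt_card (n := 4) c (by simp)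
  obtain ⟨e, he⟩ := Function.Embedding.exists_of_card_le_finset (α := Fin 5)
    (s := Finset.univ.filter fun i => c i = y) (by rw [Fintype.card_fin]; exact hy)
  have hy' : ∀ i, c (e i) = y := fun i => (Finset.mem_filter.1 (he ⟨i, rfl⟩)).2
  have key2 : ∀ i, ∃ φ ∈ Vs b y.1 y.2.1 (G (e i)),
      γ y.2.2 • φ ∉ Vs b y.1 (y.2.1 + 1) (G (e i)) := fun i => hy' i ▸ hc2 (e i)
  choose φ a1 a2 using key2
  exact step2a hT (fun i => G (e i)) (fun i => (h1 _).1) (fun i i' u => e.injective (h2 _ _ u))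
    (fun i => hy' i ▸ hc1 (e i)) (hγ y.2.2) φ a1 a2

end Pool.Agent.Lib.MP_c55f2d_al.Q
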