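import Pool.Agent.Lib.MP_c55f2d_al.QStep1
import Pool.Agent.Lib.MP_c55f2d_al.QStep2
import Pool.Agent.Lib.MP_c55f2d_al.QBimod
import Pool.Agent.Lib.MP_c55f2d_al.QStable

/-! Radicals of modules over a tame algebra lie in `add G`. -/

universe u

namespace Pool.Agent.Lib.MP_c55f2d_al.Q

/-- if `add G` contains the indecomposable quotients then it contains all quotients -/
theorem inAdd_of_inFac {k A : Type u} [Field k] [Ring A] [Algebra k A] {G : Type u}
    [AddCommGroup G] [Module A G] (hG : ∀ X : FD k A, Indec A X → InFac A X → InAdd A G X)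
    (X : FD k A) (hX : InFac A X) : InAdd A G X := by
  induction hd : Module.finrank k X using Nat.strong_induction_on generalizing X with
  | _ d ih =>
  rcases subsingleton_or_nontrivial X with h0 | h0
  · exact InAdd.of_subsingleton
  by_cases hI : Indec A X
  · exact hG X hI hX
  have key : ∀ P Q : Submodule A X, IsCompl P Q → Q ≠ ⊥ → InAdd A G P := by
    intro P Q hPQ hQ
    have hfd : FiniteDimensional k P :=
      Module.Finite.of_injective (P.subtype.restrictScalars k) P.injective_subtype
    have hP : P.restrictScalars k ≠ ⊤ := fun h =>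
      hQ (eq_bot_of_top_isCompl ((Submodule.restrictScalars_eq_top_iff k A X).1 h ▸ hPQ))
    exact ih _ (hd ▸ Submodule.finrank_lt hP) ⟨P⟩
      (hX.of_surjective (P.projectionOnto Q hPQ) (Submodule.projectionOnto_surjective hPQ)) rfl
  simp only [Indec, h0, true_and, not_forall, not_or] at hI
  obtain ⟨P, Q, hPQ, hP, hQ⟩ := hI
  let e := Submodule.prodEquivOfIsCompl P Q hPQ
  exact ((key P Q hPQ hQ).prod (key Q P hPQ.symm hP)).retract e.symm.toLinearMap e.toLinearMap
    e.apply_symm_apply

/-- modules killed by the radical lie in `add (A / J)` -/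
theorem inAdd_top {k A : Type u} [Field k] [Ring A] [Algebra k A] [FiniteDimensional k A]
    (M : Type u) [AddCommGroup M] [Module A M] [Module.Finite A M]
    (hM : ∀ a ∈ J A, ∀ x : M, a • x = 0) : InAdd A (A ⧸ J A) M := by
  have : IsArtinianRing A := isArtinian_of_tower k inferInstance
  have : IsSemisimpleModule A (A ⧸ J A) :=
    (IsArtinian.isSemisimpleModule_iff_jacobson A _).2 (Module.jacobson_quotient_jacobson A A)
  obtain ⟨n, s, hs⟩ := Module.Finite.exists_fin (R := A) (M := M)
  let l : Fin n → (A ⧸ J A) →ₗ[A] M := fun i =>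
    Submodule.liftQ (J A) (LinearMap.toSpanSingleton A M (s i)) fun a ha => hM a ha _
  let g : (Fin n → A ⧸ J A) →ₗ[A] M := ∑ i, l i ∘ₗ LinearMap.proj i
  have hg : Function.Surjective g := by
    rw [← LinearMap.range_eq_top, eq_top_iff, ← hs, Submodule.span_le]
    rintro _ ⟨i, rfl⟩
    refine ⟨Pi.single i (Submodule.Quotient.mk 1), ?_⟩
    simp only [g, LinearMap.sum_apply, LinearMap.comp_apply, LinearMap.proj_apply]
    rw [Finset.sum_eq_single i (fun j _ hj => by rw [Pi.single_eq_of_ne hj, map_zero]) (by simp),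
      Pi.single_eq_same]
    exact one_smul A (s i)
  obtain ⟨i, hi⟩ := IsSemisimpleModule.lifting_property g hg LinearMap.id
  exact ⟨n, i, g, LinearMap.congr_fun hi⟩

theorem main_rad {k A : Type u} [Field k] [IsAlgClosed k] [Ring A] [Algebra k A]
    [FiniteDimensional k A] (hT : Tame k A) :
    ∃ G : FGModuleCat.{u} A, ∀ (M : Type u) [AddCommGroup M] [Module A M] [Module.Finite A M],
      InAdd A G (Ring.jacobson A • (⊤ : Submodule A M) : Submodule A M) ∧
        InAdd A G (M ⧸ (Ring.jacobson A • (⊤ : Submodule A M) : Submodule A M)) := by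
  obtain ⟨b, hb⟩ := step1 hT.tameMat
  obtain ⟨n, G, hG⟩ := step2 hT.tameMat b
  have : ∀ i, Module.Finite A (G i) := fun i => Module.Finite.of_restrictScalars_finite k A _
  refine ⟨FGModuleCat.of A ((∀ i, G i) × (A ⧸ J A)), fun M _ _ _ => ⟨?_, ?_⟩⟩
  · let : Module k M := Module.compHom M (algebraMap k A)
    have : IsScalarTower k A M := ⟨fun c a x => by rw [Algebra.smul_def, mul_smul]; rfl⟩
    have : FiniteDimensional k M := Module.Finite.trans A M
    have : FiniteDimensional k (J A • (⊤ : Submodule A M) : Submodule A M) :=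
      Module.Finite.of_injective ((J A • (⊤ : Submodule A M)).subtype.restrictScalars k)
        (Submodule.injective_subtype _)
    refine inAdd_of_inFac (k := k) (G := (∀ i, G i) × (A ⧸ J A)) (fun X hX hF => ?_)
      ⟨(J A • (⊤ : Submodule A M) : Submodule A M)⟩ inFac_rad
    obtain ⟨i, ⟨e⟩⟩ := hG X ⟨hX, hb X hX hF⟩ hF
    exact InAdd.self.retract (LinearMap.inl A _ _ ∘ₗ LinearMap.single A _ i ∘ₗ e.toLinearMap)
      (e.symm.toLinearMap ∘ₗ LinearMap.proj i ∘ₗ LinearMap.fst A _ _) fun x => by simp
  · obtain ⟨m, i, r, h⟩ := inAdd_top (k := k) (A := A)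
      (M ⧸ (J A • (⊤ : Submodule A M) : Submodule A M)) fun a ha x => by
        obtain ⟨x, rfl⟩ := Submodule.Quotient.mk_surjective _ x
        rw [← Submodule.Quotient.mk_smul, Submodule.Quotient.mk_eq_zero]
        exact Submodule.smul_mem_smul ha Submodule.mem_top
    exact ⟨m, (LinearMap.inr A (∀ i, G i) (A ⧸ J A)).compLeft (Fin m) ∘ₗ i,
      r ∘ₗ (LinearMap.snd A (∀ i, G i) (A ⧸ J A)).compLeft (Fin m), h⟩

theorem main_stable {k A : Type u} [Field k] [IsAlgClosed k] [Ring A] [Algebra k A]
    [FiniteDimensional k A] (hT : Tame k A) : stableDim A ≤ 1 := by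
  have : IsNoetherianRing A := isNoetherian_of_tower k inferInstance
  obtain ⟨G, hG⟩ := main_rad hT
  exact stableDim_le_one G fun M _ _ _ => ⟨_, hG M⟩

end Pool.Agent.Lib.MP_c55f2d_al.Q
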