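import Mathlib

/-! A one-parameter family of points of the plane lies on a curve. -/

universe u

namespace Pool.Agent.Lib.MP_c55f2d_al.Q

open MvPolynomial
open scoped TensorProduct

/-- The two copies of a transcendental element do not differ by a nilpotent. -/
lemma pc_not_nilpotent {F L : Type*} [Field F] [Field L] [Algebra F L] {t : L}
    (ht : Transcendental F t) :
    ¬ IsNilpotent (t ⊗ₜ[F] (1 : L) - (1 : L) ⊗ₜ[F] t) := by
  rintro ⟨N, hN⟩
  let φ : L ⊗[F] Polynomial F →ₐ[F] L ⊗[F] L :=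
    Algebra.TensorProduct.map (AlgHom.id F L) (Polynomial.aeval t)
  have hφ : Function.Injective φ :=
    Module.Flat.lTensor_preserves_injective_linearMap (M := L)
      (Polynomial.aeval (R := F) t).toLinearMap (transcendental_iff_injective.1 ht)
  let ψ : L ⊗[F] Polynomial F →ₐ[F] L :=
    Algebra.TensorProduct.productMap (AlgHom.id F L) (Polynomial.aeval (t - 1))
  have h1 : φ (t ⊗ₜ[F] (1 : Polynomial F) - (1 : L) ⊗ₜ[F] Polynomial.X) =
      t ⊗ₜ[F] (1 : L) - (1 : L) ⊗ₜ[F] t := by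
    simp [φ]
  have h2 : (t ⊗ₜ[F] (1 : Polynomial F) - (1 : L) ⊗ₜ[F] Polynomial.X) ^ N = 0 := by
    apply hφ
    rw [map_pow, h1, hN, map_zero]
  have h3 := congrArg ψ h2
  have h4 : ψ (t ⊗ₜ[F] (1 : Polynomial F) - (1 : L) ⊗ₜ[F] Polynomial.X) = 1 := by
    simp [ψ]
  rw [map_pow, h4, one_pow, map_zero] at h3
  exact one_ne_zero h3

/-- Two algebraically independent elements are not both algebraic over a simple extension. -/
lemma pc_exists_transcendental {k L : Type*} [Field k] [Field L] [Algebra k L] (x : Fin 2 → L)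
    (hx : AlgebraicIndependent k x) (c : L) :
    ∃ i, Transcendental (IntermediateField.adjoin k {c}) (x i) := by
  by_contra hn
  have hal : ∀ i, IsAlgebraic (Algebra.adjoin k {c}) (x i) := fun i =>
    IntermediateField.isAlgebraic_adjoin_iff.1 (by
      by_contra h
      exact hn ⟨i, h⟩)
  have h1 : (AlgebraicIndependent.matroid k L).Indep (Set.range x) := hx.to_subtype_range
  have h2 : Set.range x ⊆ (AlgebraicIndependent.matroid k L).closure {c} := by
    rintro _ ⟨i, rfl⟩
    rw [AlgebraicIndependent.matroid_closure_eq]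
    exact hal i
  have h3 := h1.encard_le_eRk_of_subset h2
  rw [Matroid.eRk_closure_eq] at h3
  have h4 := h3.trans (Matroid.eRk_le_encard _ _)
  rw [Set.encard_singleton, Set.encard_le_one_iff_subsingleton] at h4
  have h5 : x 0 = x 1 := h4 ⟨0, rfl⟩ ⟨1, rfl⟩
  exact absurd (hx.injective h5) (by decide)

/-- Transfer of the hypothesis from points to arbitrary rings. -/
lemma pc_nilpotent {k : Type u} [Field k] [IsAlgClosed k] {τ : Type} [Finite τ]
    (I : Ideal (MvPolynomial τ k)) (a c : τ)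
    (h : ∀ v w : τ → k, (∀ p ∈ I, eval v p = 0) → (∀ p ∈ I, eval w p = 0) → v c = w c → v a = w a)
    {B : Type*} [CommRing B] (f g : MvPolynomial τ k →+* B) (hC : ∀ r, f (C r) = g (C r))
    (hf : ∀ p ∈ I, f p = 0) (hg : ∀ p ∈ I, g p = 0) (hc : f (X c) = g (X c)) :
    IsNilpotent (f (X a) - g (X a)) := by
  let Φ : MvPolynomial (τ ⊕ τ) k →+* B :=
    eval₂Hom (f.comp C) (Sum.elim (fun x => f (X x)) (fun x => g (X x)))
  have hl : ∀ p, Φ (rename Sum.inl p) = f p := fun p =>
    RingHom.congr_fun (f := Φ.comp (rename (R := k) (Sum.inl : τ → τ ⊕ τ)).toRingHom) (g := f)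
      (ringHom_ext (fun r => by simp [Φ]) (fun i => by simp [Φ])) p
  have hr : ∀ p, Φ (rename Sum.inr p) = g p := fun p =>
    RingHom.congr_fun (f := Φ.comp (rename (R := k) (Sum.inr : τ → τ ⊕ τ)).toRingHom) (g := g)
      (ringHom_ext (fun r => by simp [Φ, hC]) (fun i => by simp [Φ])) p
  have hm : (rename Sum.inl (X a) - rename Sum.inr (X a) : MvPolynomial (τ ⊕ τ) k) ∈
      (RingHom.ker Φ).radical := by
    rw [← vanishingIdeal_zeroLocus_eq_radical (K := k), mem_vanishingIdeal_iff]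
    intro z hz
    rw [mem_zeroLocus_iff] at hz
    have e1 : ∀ p ∈ I, eval (z ∘ Sum.inl) p = 0 := fun p hp => by
      have := hz (rename Sum.inl p) (by rw [RingHom.mem_ker, hl, hf p hp])
      rwa [aeval_rename, aeval_eq_eval] at this
    have e2 : ∀ p ∈ I, eval (z ∘ Sum.inr) p = 0 := fun p hp => by
      have := hz (rename Sum.inr p) (by rw [RingHom.mem_ker, hr, hg p hp])
      rwa [aeval_rename, aeval_eq_eval] at this
    have e3 := hz (rename Sum.inl (X c) - rename Sum.inr (X c))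
      (by rw [RingHom.mem_ker, map_sub, hl, hr, hc, sub_self])
    have e4 := h _ _ e1 e2 (by simpa [sub_eq_zero] using e3)
    simpa [sub_eq_zero] using e4
  obtain ⟨N, hN⟩ := hm
  rw [RingHom.mem_ker, map_pow, map_sub, hl, hr] at hN
  exact ⟨N, hN⟩

theorem pc_core {k : Type u} [Field k] [IsAlgClosed k] {σ : Type} [Finite σ]
    (I : Ideal (MvPolynomial (Fin 2 ⊕ Option σ) k))
    (h : ∀ v w : Fin 2 ⊕ Option σ → k, (∀ p ∈ I, eval v p = 0) → (∀ p ∈ I, eval w p = 0) →
      v (Sum.inr none) = w (Sum.inr none) → ∀ i, v (Sum.inl i) = w (Sum.inl i)) :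
    ∃ F : MvPolynomial (Fin 2) k, F ≠ 0 ∧
      ∀ v : Fin 2 ⊕ Option σ → k, (∀ p ∈ I, eval v p = 0) → eval (fun i => v (Sum.inl i)) F = 0 := by
  by_contra hn
  have hdis : Disjoint (I : Set (MvPolynomial (Fin 2 ⊕ Option σ) k))
      ((nonZeroDivisors (MvPolynomial (Fin 2) k)).map
        (rename (R := k) (Sum.inl : Fin 2 → Fin 2 ⊕ Option σ)).toRingHom.toMonoidHom) := by
    rw [Set.disjoint_left]
    rintro _ hp ⟨F, hF, rfl⟩
    refine hn ⟨F, nonZeroDivisors.ne_zero hF, fun v hv => ?_⟩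
    have := hv _ hp
    change eval v (rename Sum.inl F) = 0 at this
    rwa [eval_rename] at this
  obtain ⟨P, hP, hIP, hPd⟩ := I.exists_le_prime_disjoint _ hdis
  let L := P.ResidueField
  let π : MvPolynomial (Fin 2 ⊕ Option σ) k →ₐ[k] L := IsScalarTower.toAlgHom k _ L
  have hπ : ∀ p, π p = 0 ↔ p ∈ P := fun p => Ideal.algebraMap_residueField_eq_zero
  have hx : AlgebraicIndependent k fun i : Fin 2 => π (X (Sum.inl i)) := by
    rw [algebraicIndependent_iff]
    intro F hF
    by_contra hF0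
    have e : π (rename Sum.inl F) = aeval (fun i : Fin 2 => π (X (Sum.inl i))) F :=
      AlgHom.congr_fun (φ₁ := π.comp (rename Sum.inl))
        (φ₂ := aeval fun i : Fin 2 => π (X (Sum.inl i))) (algHom_ext fun i => by simp) F
    exact Set.disjoint_left.1 hPd ((hπ _).1 (e.trans hF))
      ⟨F, mem_nonZeroDivisors_of_ne_zero hF0, rfl⟩
  obtain ⟨i, hi⟩ := pc_exists_transcendental _ hx (π (X (Sum.inr none)))
  set F := IntermediateField.adjoin k {π (X (Sum.inr none))} with hF
  have hmid : ∀ y : L, y ∈ F → y ⊗ₜ[F] (1 : L) = (1 : L) ⊗ₜ[F] y := fun y hy => by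
    have e : y = (⟨y, hy⟩ : F) • (1 : L) := by
      rw [Algebra.smul_def, mul_one]; rfl
    rw [e, TensorProduct.smul_tmul]
  refine pc_not_nilpotent hi (pc_nilpotent I (Sum.inl i) (Sum.inr none)
    (fun v w hv hw hc => h v w hv hw hc i)
    ((Algebra.TensorProduct.includeLeftRingHom (R := F) (A := L) (B := L)).comp π.toRingHom)
    ((Algebra.TensorProduct.includeRight (R := F) (A := L) (B := L)).toRingHom.comp π.toRingHom)
    (fun r => hmid _ ?_) (fun p hp => ?_) (fun p hp => ?_) (hmid _ ?_))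
  · exact (π.commutes r).symm ▸ F.algebraMap_mem r
  · change π p ⊗ₜ[F] (1 : L) = 0
    rw [(hπ p).2 (hIP hp), TensorProduct.zero_tmul]
  · change (1 : L) ⊗ₜ[F] π p = 0
    rw [(hπ p).2 (hIP hp), TensorProduct.tmul_zero]
  · exact IntermediateField.subset_adjoin _ _ rfl

end Pool.Agent.Lib.MP_c55f2d_al.Q
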