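import Pool.Agent.Lib.MP_c55f2d_al.QBasic
import Pool.Agent.Lib.MP_c55f2d_al.QPCore

/-! A tame algebra has no two-parameter family of indecomposables. -/

universe u

namespace Pool.Agent.Lib.MP_c55f2d_al.Q

variable {k A : Type u} [Field k] [Ring A] [Algebra k A]

section Mat

open Matrix

/-- matrix form: the points of the plane that meet a one-parameter family lie on a curve -/
theorem pc_mat [IsAlgClosed k] {ι : Type u} {d r : ℕ} (M₀ M₁ M₂ : ι → Matrix (Fin d) (Fin d) k)
    (ρ : ι → Matrix (Fin r) (Fin r) (Polynomial k))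
    (h : ∀ (x y x' y' : k) (U U' : Matrix (Fin d) (Fin d) k), U * U' = 1 → U' * U = 1 →
      (∀ a, U * (M₀ a + x • M₁ a + y • M₂ a) = (M₀ a + x' • M₁ a + y' • M₂ a) * U) →
      x = x' ∧ y = y') :
    ∃ F : MvPolynomial (Fin 2) k, F ≠ 0 ∧
      ∀ (x y c : k) (G : Matrix (Fin r) (Fin d) k) (G' : Matrix (Fin d) (Fin r) k),
        G * G' = 1 → G' * G = 1 →
        (∀ a, G * (M₀ a + x • M₁ a + y • M₂ a) = (ρ a).map (Polynomial.eval c) * G) →
        MvPolynomial.eval ![x, y] F = 0 := by
  classical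
  let σ : Type := (Fin r × Fin d) ⊕ (Fin d × Fin r)
  let R := MvPolynomial (Fin 2 ⊕ Option σ) k
  let GG : Matrix (Fin r) (Fin d) R :=
    Matrix.of fun s t => MvPolynomial.X (Sum.inr (some (Sum.inl (s, t))))
  let GH : Matrix (Fin d) (Fin r) R :=
    Matrix.of fun t s => MvPolynomial.X (Sum.inr (some (Sum.inr (t, s))))
  let P : ι → Matrix (Fin d) (Fin d) R := fun a =>
    (M₀ a).map MvPolynomial.C + (MvPolynomial.X (Sum.inl 0) : R) • (M₁ a).map MvPolynomial.C +
      (MvPolynomial.X (Sum.inl 1) : R) • (M₂ a).map MvPolynomial.C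
  let Qm : ι → Matrix (Fin r) (Fin r) R := fun a =>
    (ρ a).map (Polynomial.eval₂ MvPolynomial.C (MvPolynomial.X (Sum.inr none)))
  let S : Set R := {p | (∃ s t, p = (GG * GH - 1 : Matrix (Fin r) (Fin r) R) s t) ∨
    (∃ s t, p = (GH * GG - 1 : Matrix (Fin d) (Fin d) R) s t) ∨
    ∃ a s t, p = (GG * P a - Qm a * GG : Matrix (Fin r) (Fin d) R) s t}
  let g : (Fin 2 ⊕ Option σ → k) → Matrix (Fin r) (Fin d) k := fun v =>
    Matrix.of fun s t => v (Sum.inr (some (Sum.inl (s, t))))
  let g' : (Fin 2 ⊕ Option σ → k) → Matrix (Fin d) (Fin r) k := fun v =>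
    Matrix.of fun t s => v (Sum.inr (some (Sum.inr (t, s))))
  have hG : ∀ v, GG.map (MvPolynomial.eval v) = g v := fun v => by
    ext s t; simp [GG, g]
  have hH : ∀ v, GH.map (MvPolynomial.eval v) = g' v := fun v => by
    ext s t; simp [GH, g']
  have hP : ∀ v a, (P a).map (MvPolynomial.eval v) =
      M₀ a + v (Sum.inl 0) • M₁ a + v (Sum.inl 1) • M₂ a := fun v a => by
    ext s t; simp [P, R]
  have hQ : ∀ v a, (Qm a).map (MvPolynomial.eval v) =
      (ρ a).map (Polynomial.eval (v (Sum.inr none))) := fun v a => by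
    ext s t
    simp only [Qm, Matrix.map_apply]
    rw [Polynomial.hom_eval₂, MvPolynomial.eval_X]
    have : (MvPolynomial.eval v).comp MvPolynomial.C = RingHom.id k := by
      ext x; simp
    rw [this]; rfl
  have key : ∀ v : Fin 2 ⊕ Option σ → k, (∀ p ∈ Ideal.span S, MvPolynomial.eval v p = 0) ↔
      (g v * g' v = 1 ∧ g' v * g v = 1 ∧ ∀ a, g v * (M₀ a + v (Sum.inl 0) • M₁ a +
        v (Sum.inl 1) • M₂ a) = (ρ a).map (Polynomial.eval (v (Sum.inr none))) * g v) := by
    intro v
    have e1 : (GG * GH - 1).map (MvPolynomial.eval v) = g v * g' v - 1 := by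
      rw [Matrix.map_sub _ (map_sub _), Matrix.map_mul, hG, hH,
        Matrix.map_one _ (map_zero _) (map_one _)]
    have e2 : (GH * GG - 1).map (MvPolynomial.eval v) = g' v * g v - 1 := by
      rw [Matrix.map_sub _ (map_sub _), Matrix.map_mul, hG, hH,
        Matrix.map_one _ (map_zero _) (map_one _)]
    have e3 : ∀ a, (GG * P a - Qm a * GG).map (MvPolynomial.eval v) =
        g v * (M₀ a + v (Sum.inl 0) • M₁ a + v (Sum.inl 1) • M₂ a) -
          (ρ a).map (Polynomial.eval (v (Sum.inr none))) * g v := fun a => by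
      rw [Matrix.map_sub _ (map_sub _), Matrix.map_mul, Matrix.map_mul, hG, hP, hQ]
    constructor
    · intro hv
      refine ⟨?_, ?_, fun a => ?_⟩
      · rw [← sub_eq_zero, ← e1]
        ext s t
        exact hv _ (Ideal.subset_span (Or.inl ⟨s, t, rfl⟩))
      · rw [← sub_eq_zero, ← e2]
        ext s t
        exact hv _ (Ideal.subset_span (Or.inr (Or.inl ⟨s, t, rfl⟩)))
      · rw [← sub_eq_zero, ← e3]
        ext s t
        exact hv _ (Ideal.subset_span (Or.inr (Or.inr ⟨a, s, t, rfl⟩)))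
    · rintro ⟨h1, h2, h3⟩ p hp
      have hle : Ideal.span S ≤ RingHom.ker (MvPolynomial.eval v) := by
        rw [Ideal.span_le]
        rintro q (⟨s, t, rfl⟩ | ⟨s, t, rfl⟩ | ⟨a, s, t, rfl⟩)
        · have := congrFun (congrFun e1 s) t
          rw [h1, sub_self] at this
          exact this
        · have := congrFun (congrFun e2 s) t
          rw [h2, sub_self] at this
          exact this
        · have := congrFun (congrFun (e3 a) s) t
          rw [h3, sub_self] at this
          exact this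
      exact hle hp
  obtain ⟨F, hF0, hF⟩ := pc_core (k := k) (σ := σ) (Ideal.span S) (fun v w hv hw hc => by
    obtain ⟨v1, v2, v3⟩ := (key v).1 hv
    obtain ⟨w1, w2, w3⟩ := (key w).1 hw
    have := h (v (Sum.inl 0)) (v (Sum.inl 1)) (w (Sum.inl 0)) (w (Sum.inl 1)) (g' w * g v)
      (g' v * g w) (by
        rw [Matrix.mul_assoc, ← Matrix.mul_assoc (g v), v1, Matrix.one_mul, w2]) (by
        rw [Matrix.mul_assoc, ← Matrix.mul_assoc (g w), w1, Matrix.one_mul, v2]) (fun a => by
        have e : g' w * (ρ a).map (Polynomial.eval (w (Sum.inr none))) =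
            (M₀ a + w (Sum.inl 0) • M₁ a + w (Sum.inl 1) • M₂ a) * g' w := by
          calc g' w * (ρ a).map (Polynomial.eval (w (Sum.inr none)))
              = g' w * ((ρ a).map (Polynomial.eval (w (Sum.inr none))) * g w) * g' w := by
                rw [Matrix.mul_assoc, Matrix.mul_assoc, w1, Matrix.mul_one]
            _ = _ := by rw [← w3, ← Matrix.mul_assoc, w2, Matrix.one_mul]
        rw [Matrix.mul_assoc, v3, hc, ← Matrix.mul_assoc, e, Matrix.mul_assoc])
    intro i
    fin_cases i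
    · exact this.1
    · exact this.2)
  refine ⟨F, hF0, fun x y c G G' h1 h2 h3 => ?_⟩
  let v : Fin 2 ⊕ Option σ → k := Sum.elim ![x, y] fun o =>
    o.elim c (Sum.elim (fun st => G st.1 st.2) fun ts => G' ts.1 ts.2)
  have hg : g v = G := by ext s t; rfl
  have hg' : g' v = G' := by ext s t; rfl
  exact hF v ((key v).2 ⟨by rw [hg, hg', h1], by rw [hg, hg', h2], fun a => by
    rw [hg]; exact h3 a⟩)

end Mat

theorem pc [IsAlgClosed k] (V : Type u) [AddCommGroup V] [Module k V] [FiniteDimensional k V]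
    (α₀ α₁ α₂ : A → Module.End k V) (Z : k → k → FD k A) (e : ∀ x y, Z x y ≃ₗ[k] V)
    (he : ∀ x y a z, e x y (a • z) = (α₀ a + x • α₁ a + y • α₂ a) (e x y z))
    (hind : ∀ x y, Indec A (Z x y))
    (hiso : ∀ x y x' y', Nonempty (Z x y ≃ₗ[A] Z x' y') → x = x' ∧ y = y') : ¬ TameMat k A := by
  classical
  intro hT
  have hnt : Nontrivial V := by
    have := (hind 0 0).1
    exact (e 0 0).symm.toEquiv.nontrivial
  obtain ⟨n, r, ρ, m, N, hN⟩ := hT (Module.finrank k V) Module.finrank_pos
  let b := Module.finBasis k V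
  let M₀ : A → Matrix (Fin (Module.finrank k V)) (Fin (Module.finrank k V)) k :=
    fun a => LinearMap.toMatrix b b (α₀ a)
  let M₁ : A → Matrix (Fin (Module.finrank k V)) (Fin (Module.finrank k V)) k :=
    fun a => LinearMap.toMatrix b b (α₁ a)
  let M₂ : A → Matrix (Fin (Module.finrank k V)) (Fin (Module.finrank k V)) k :=
    fun a => LinearMap.toMatrix b b (α₂ a)
  have hM : ∀ (x y : k) a, M₀ a + x • M₁ a + y • M₂ a =
      LinearMap.toMatrix b b (α₀ a + x • α₁ a + y • α₂ a) := fun x y a => by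
    simp only [M₀, M₁, M₂, map_add, map_smul]
  have hmat : ∀ (x y x' y' : k) (U U' : Matrix (Fin (Module.finrank k V))
      (Fin (Module.finrank k V)) k), U * U' = 1 → U' * U = 1 →
      (∀ a, U * (M₀ a + x • M₁ a + y • M₂ a) = (M₀ a + x' • M₁ a + y' • M₂ a) * U) →
      x = x' ∧ y = y' := by
    intro x y x' y' U U' h1 h2 h3
    apply hiso
    let u : V ≃ₗ[k] V := LinearEquiv.ofLinearMap (Matrix.toLin b b U) (Matrix.toLin b b U')
      (by rw [← Matrix.toLin_mul, h1, Matrix.toLin_one])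
      (by rw [← Matrix.toLin_mul, h2, Matrix.toLin_one])
    have hu : ∀ a z, u ((α₀ a + x • α₁ a + y • α₂ a) z) =
        (α₀ a + x' • α₁ a + y' • α₂ a) (u z) := fun a z => by
      have := congrArg (Matrix.toLin b b) (h3 a)
      rw [hM, hM, Matrix.toLin_mul b b b, Matrix.toLin_mul b b b, Matrix.toLin_toMatrix,
        Matrix.toLin_toMatrix] at this
      exact LinearMap.congr_fun this z
    let w : Z x y ≃ₗ[k] Z x' y' := (e x y).trans (u.trans (e x' y').symm)
    refine ⟨{ w.toAddEquiv with map_smul' := fun a z => ?_ }⟩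
    apply (e x' y').injective
    change e x' y' (w (a • z)) = e x' y' (a • w z)
    rw [he]
    simp only [w, LinearEquiv.trans_apply, LinearEquiv.apply_symm_apply]
    rw [he, hu]
  choose F hF0 hF using fun i : Fin n => pc_mat M₀ M₁ M₂ (ρ i) hmat
  have hE : ∀ j : Fin m, ∃ E : MvPolynomial (Fin 2) k, E ≠ 0 ∧
      ∀ x y, Nonempty (Z x y ≃ₗ[A] N j) → MvPolynomial.eval ![x, y] E = 0 := by
    intro j
    by_cases hj : ∃ x y, Nonempty (Z x y ≃ₗ[A] N j)
    · obtain ⟨x₀, y₀, ⟨f₀⟩⟩ := hj
      refine ⟨MvPolynomial.X 0 - MvPolynomial.C x₀, fun h0 => ?_, fun x y ⟨f⟩ => ?_⟩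
      · have := congrArg (MvPolynomial.eval fun _ : Fin 2 => x₀ + 1) h0
        simp at this
      · have := (hiso x y x₀ y₀ ⟨f.trans f₀.symm⟩).1
        simp [this]
    · exact ⟨1, one_ne_zero, fun x y hxy => absurd ⟨x, y, hxy⟩ hj⟩
  choose E hE0 hE using hE
  have hne : (∏ i, F i) * ∏ j, E j ≠ 0 :=
    mul_ne_zero (Finset.prod_ne_zero_iff.2 fun i _ => hF0 i)
      (Finset.prod_ne_zero_iff.2 fun j _ => hE0 j)
  apply hne
  apply MvPolynomial.funext
  intro v
  have hv : v = ![v 0, v 1] := by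
    ext i; fin_cases i <;> rfl
  rw [map_zero, map_mul, map_prod, map_prod, hv]
  rcases hN (Z (v 0) (v 1)) (e _ _).finrank_eq (hind _ _) with ⟨j, hj⟩ | ⟨i, c, f, hf⟩
  · rw [Finset.prod_eq_zero (Finset.mem_univ j) (hE j _ _ hj), mul_zero]
  · let t : V ≃ₗ[k] (Fin (r i) → k) := (e (v 0) (v 1)).symm.trans f
    let s := Pi.basisFun k (Fin (r i))
    have := hF i (v 0) (v 1) c (LinearMap.toMatrix b s t.toLinearMap)
      (LinearMap.toMatrix s b t.symm.toLinearMap)
      (by rw [← LinearMap.toMatrix_comp s b s, LinearEquiv.comp_symm, LinearMap.toMatrix_id])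
      (by rw [← LinearMap.toMatrix_comp b s b, LinearEquiv.symm_comp, LinearMap.toMatrix_id])
      (fun a => by
        rw [hM, ← LinearMap.toMatrix_comp b b s,
          ← LinearMap.toMatrix_toLin s s ((ρ i a).map (Polynomial.eval c)),
          ← LinearMap.toMatrix_comp b s s]
        congr 1
        refine LinearMap.ext fun z => ?_
        obtain ⟨z, rfl⟩ := (e (v 0) (v 1)).surjective z
        rw [LinearMap.comp_apply, LinearMap.comp_apply, ← he]
        simp only [t, s, LinearEquiv.coe_coe, LinearEquiv.trans_apply,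
          LinearEquiv.symm_apply_apply, Matrix.toLin_eq_toLin', Matrix.toLin'_apply]
        exact hf a z)
    rw [Finset.prod_eq_zero (Finset.mem_univ i) this, zero_mul]

end Pool.Agent.Lib.MP_c55f2d_al.Q
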