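import Pool.Agent.Lib.MP_c55f2d_al.QStep1a

/-! Step 1: indecomposable quotients of sums of copies of `J` have bounded dimension. -/

universe u

namespace Pool.Agent.Lib.MP_c55f2d_al.Q

variable {k A : Type u} [Field k] [Ring A] [Algebra k A]

section Dim

variable (k) {V : Type u} [AddCommGroup V] [Module k V] [Module A V] [IsScalarTower k A V]
  [FiniteDimensional k V]

theorem s1_quot (R : Submodule A V) :
    Module.finrank k (V ⧸ R) + Module.finrank k R = Module.finrank k V := by
  rw [← (Submodule.Quotient.restrictScalarsEquiv k R).finrank_eq]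
  exact Submodule.finrank_quotient_add_finrank (R.restrictScalars k)

theorem s1_sup (R S : Submodule A V) :
    Module.finrank k (R ⊔ S : Submodule A V) ≤ Module.finrank k R + Module.finrank k S := by
  have h := Submodule.finrank_add_le_finrank_add_finrank (R.restrictScalars k)
    (S.restrictScalars k)
  rw [← Submodule.restrictScalars_sup] at h
  exact h

theorem s1_lt {R S : Submodule A V} (h : R < S) : Module.finrank k R < Module.finrank k S := by
  have h' : R.restrictScalars k < S.restrictScalars k :=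
    lt_of_le_of_ne (fun _ hx => h.le hx) fun e =>
      h.ne (Submodule.restrictScalars_injective k A V e)
  exact Submodule.finrank_lt_finrank_of_lt h'

theorem s1_top : Module.finrank k (⊤ : Submodule A V) = Module.finrank k V :=
  ((Submodule.topEquiv (R := A) (M := V)).restrictScalars k).finrank_eq

theorem s1_le (R : Submodule A V) : Module.finrank k R ≤ Module.finrank k V := by
  have := s1_quot k R
  omega

theorem s1_range {Y : Type u} [AddCommGroup Y] [Module k Y] [Module A Y] [IsScalarTower k A Y]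
    [FiniteDimensional k Y] (f : Y →ₗ[A] V) :
    Module.finrank k (LinearMap.range f) ≤ Module.finrank k Y :=
  LinearMap.finrank_range_le (f.restrictScalars k)

theorem s1_span [FiniteDimensional k A] (x : V) :
    Module.finrank k (Submodule.span A {x}) ≤ Module.finrank k A := by
  rw [LinearMap.span_singleton_eq_range]
  exact s1_range k _

/-- dimension of a finite sum -/
theorem s1_sum {ι : Type*} (R : Submodule A V) (W : ι → Submodule A V) (c : ℕ)
    (hW : ∀ i, Module.finrank k (W i) ≤ c) (s : Finset ι) :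
    Module.finrank k (R ⊔ ⨆ i ∈ s, W i : Submodule A V) ≤ Module.finrank k R + c * s.card := by
  classical
  induction s using Finset.induction_on with
  | empty =>
    have e : R ⊔ ⨆ i ∈ (∅ : Finset ι), W i = R := by simp
    rw [e]
    exact Nat.le_add_right _ _
  | insert i s hi ih =>
    rw [Finset.iSup_insert, Finset.card_insert_of_notMem hi, sup_comm (W i), ← sup_assoc,
      Nat.mul_succ]
    have h1 := s1_sup k (R ⊔ ⨆ i ∈ s, W i) (W i)
    have h2 := hW i
    omega

/-- a few members of a spanning family span modulo `R` -/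
theorem s1_choose {ι : Type*} (W : ι → Submodule A V) (hW : ⨆ i, W i = ⊤) (n : ℕ) :
    ∀ R : Submodule A V, Module.finrank k V ≤ Module.finrank k R + n →
      ∃ s : Finset ι, s.card ≤ n ∧ R ⊔ ⨆ i ∈ s, W i = ⊤ := by
  classical
  induction n with
  | zero =>
    intro R hR
    refine ⟨∅, le_rfl, ?_⟩
    by_contra h
    have h1 : R < ⊤ := lt_top_iff_ne_top.2 fun e => h (by rw [e, top_sup_eq])
    have h2 := s1_lt k h1
    rw [s1_top] at h2
    omega
  | succ n ih =>
    intro R hR
    by_cases h : ∀ i, W i ≤ R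
    · refine ⟨∅, Nat.zero_le _, ?_⟩
      have : R = ⊤ := eq_top_iff.2 (hW ▸ iSup_le h)
      rw [this, top_sup_eq]
    · obtain ⟨i, hi⟩ := not_forall.1 h
      have h1 := s1_lt k (left_lt_sup.2 hi)
      obtain ⟨s, hs, ht⟩ := ih (R ⊔ W i) (by omega)
      refine ⟨insert i s, (Finset.card_insert_le i s).trans (Nat.succ_le_succ hs), ?_⟩
      rw [Finset.iSup_insert, ← sup_assoc, ht]

omit [Module k V] [IsScalarTower k A V] [FiniteDimensional k V] in
theorem s1_span_top : ⨆ x : V, Submodule.span A {x} = ⊤ :=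
  eq_top_iff.2 fun x _ => Submodule.mem_iSup_of_mem x (Submodule.mem_span_singleton_self x)

end Dim

/-- maps with values in `N` -/
def s1Into {X : Type u} [AddCommGroup X] [Module A X] (N : Submodule A X) :
    Submodule A (Hm A X) where
  carrier := {φ | ∀ b, φ b ∈ N}
  add_mem' hx hy b := N.add_mem (hx b) (hy b)
  zero_mem' _ := N.zero_mem
  smul_mem' c _ hφ b := hφ (rmul c b)

theorem step1b [IsAlgClosed k] [FiniteDimensional k A] (hT : TameMat k A) (X : FD k A)
    (hX : Indec A X) (hF : InFac A X) (j : ℕ) :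
    Module.finrank k (X ⧸ Rj A X j) ≤
      Module.finrank k A ^ 2 * (Module.finrank k (X ⧸ Rj A X (j + 1)) + 4) := by
  have : FiniteDimensional k (J A) :=
    Module.Finite.of_injective ((J A).subtype.restrictScalars k) (J A).injective_subtype
  have hr : ∀ φ : Hm A X, Module.finrank k (LinearMap.range φ.lin) ≤ Module.finrank k A :=
    fun φ => (s1_range k φ.lin).trans (s1_le k (J A))
  obtain ⟨s, hs, hst⟩ := s1_choose k (fun φ : Hm A X => LinearMap.range φ.lin) hF
    (Module.finrank k (X ⧸ Rj A X (j + 1))) (Rj A X (j + 1))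
    (by have := s1_quot k (Rj A X (j + 1)); omega)
  have h1 := step1a hT X hX j (Hj A X j ⊔ ⨆ φ ∈ s, Submodule.span A {φ}) le_sup_left (by
    refine eq_top_iff.2 (hst.ge.trans (sup_le_sup_left (iSup₂_le fun φ hφ => ?_) _))
    exact le_iSup₂_of_le (f := fun (φ : Hm A X)
      (_ : φ ∈ Hj A X j ⊔ ⨆ φ ∈ s, Submodule.span A {φ}) => LinearMap.range (Hm.lin φ)) φ
      (Submodule.mem_sup_right (Submodule.mem_iSup_of_mem φ (Submodule.mem_iSup_of_mem hφ
        (Submodule.mem_span_singleton_self φ)))) le_rfl)
  have h2 := s1_sum k (Hj A X j) (fun φ : Hm A X => Submodule.span A {φ}) _ (s1_span k) s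
  obtain ⟨t, ht, htt⟩ := s1_choose k (fun φ : Hm A X => Submodule.span A {φ}) s1_span_top
    (Module.finrank k A * (Module.finrank k (X ⧸ Rj A X (j + 1)) + 4)) (Hj A X j) (by
      have := Nat.mul_le_mul_left (Module.finrank k A) hs
      rw [Nat.mul_add]
      omega)
  have h3 : s1Into (Rj A X j ⊔ ⨆ φ ∈ t, LinearMap.range (Hm.lin φ)) = ⊤ := by
    refine eq_top_iff.2 (htt.ge.trans (sup_le (fun φ hφ b => ?_) (iSup₂_le fun φ hφ => ?_)))
    · exact Submodule.mem_sup_left (apply_mem_Rj hφ b)
    · refine (Submodule.span_singleton_le_iff_mem _ _).2 fun b => ?_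
      exact Submodule.mem_sup_right (Submodule.mem_iSup_of_mem φ
        (Submodule.mem_iSup_of_mem hφ ⟨b, rfl⟩))
  have h4 : Rj A X j ⊔ ⨆ φ ∈ t, LinearMap.range (Hm.lin φ) = ⊤ := by
    refine eq_top_iff.2 (hF.ge.trans (iSup_le fun φ => ?_))
    rintro _ ⟨b, rfl⟩
    have : φ ∈ s1Into (Rj A X j ⊔ ⨆ φ ∈ t, LinearMap.range (Hm.lin φ)) := by
      rw [h3]; trivial
    exact this b
  have h5 := s1_sum k (Rj A X j) (fun φ : Hm A X => LinearMap.range φ.lin) _ hr t
  rw [h4, s1_top] at h5
  have h6 := s1_quot k (Rj A X j)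
  have h7 := Nat.mul_le_mul_left (Module.finrank k A) ht
  rw [pow_two, Nat.mul_assoc]
  omega

theorem step1 [IsAlgClosed k] [FiniteDimensional k A] (hT : TameMat k A) :
    ∃ b : ℕ, ∀ X : FD k A, Indec A X → InFac A X → Module.finrank k X ≤ b := by
  obtain ⟨L, hL⟩ := exists_Jpow k A
  have key : ∀ n j : ℕ, j + n = L → ∃ b : ℕ, ∀ X : FD k A, Indec A X → InFac A X →
      Module.finrank k (X ⧸ Rj A X j) ≤ b := by
    intro n
    induction n with
    | zero =>
      intro j hj
      refine ⟨0, fun X _ _ => ?_⟩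
      have h := s1_quot k (Rj A X j)
      rw [show j = L from hj, Rj_top hL, s1_top] at h
      rw [show j = L from hj, Rj_top hL]
      omega
    | succ n ih =>
      intro j hj
      obtain ⟨b, hb⟩ := ih (j + 1) (by omega)
      exact ⟨Module.finrank k A ^ 2 * (b + 4), fun X hX hF => (step1b hT X hX hF j).trans
        (Nat.mul_le_mul_left _ (Nat.add_le_add_right (hb X hX hF) 4))⟩
  obtain ⟨b, hb⟩ := key L 0 (Nat.zero_add L)
  refine ⟨Module.finrank k A * b, fun X hX hF => ?_⟩
  obtain ⟨s, hs, hst⟩ := s1_choose k (fun x : X => Submodule.span A {x}) s1_span_top b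
    (Rj A X 0) (by have := s1_quot k (Rj A X 0); have := hb X hX hF; omega)
  rw [Rj_zero] at hst
  have h1 := s1_sum k (⊥ : Submodule A X) (fun x : X => Submodule.span A {x}) _ (s1_span k) s
  have h0 : Module.finrank k (⊥ : Submodule A X) = 0 := Module.finrank_zero_of_subsingleton
  rw [bot_sup_eq, eq_top_of_sup_J hL hst, s1_top, h0, Nat.zero_add] at h1
  exact h1.trans (Nat.mul_le_mul_left _ hs)

end Pool.Agent.Lib.MP_c55f2d_al.Q
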