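import Pool.Agent.Lib.MP_c55f2d_al.QCells
import Pool.Agent.Lib.MP_c55f2d_al.QEngine

/-! Step 1, the five subspaces. -/

universe u

namespace Pool.Agent.Lib.MP_c55f2d_al.Q

variable {k A : Type u} [Field k] [Ring A] [Algebra k A]

/-- the square of a module -/
def s1a_sq (X : FD k A) : FD k A := ⟨Fin 2 → X⟩

/-- the homomorphism with components `u r • φ` -/
def s1a_vec {X : FD k A} (u : Fin 2 → k) (φ : Hm A X) : Hm A (Fin 2 → X) :=
  Hm.of (LinearMap.pi fun r => (u r • φ).lin)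

theorem s1a_proj {X : FD k A} (u : Fin 2 → k) (φ : Hm A X) (r : Fin 2) :
    Hm.map (LinearMap.proj r : (Fin 2 → X) →ₗ[A] X) (s1a_vec u φ) = u r • φ := rfl

theorem s1a_comb {X : FD k A} (φ : Hm A X) (p q w : Fin 2 → k) (x y : k) :
    s1a_vec p φ + x • s1a_vec q φ + y • s1a_vec w φ = s1a_vec (p + x • q + y • w) φ := by
  refine Hm.ext fun b => funext fun r => ?_
  change p r • φ b + x • q r • φ b + y • w r • φ b = (p r + x * q r + y * w r) • φ b
  simp only [add_smul, mul_smul]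

theorem s1a_map {X : FD k A} (h : Module.End A (Fin 2 → X)) (a : A) (u : Fin 2 → k) (φ : Hm A X)
    (r : Fin 2) : Hm.map (LinearMap.proj r : (Fin 2 → X) →ₗ[A] X) (Hm.map h (a • s1a_vec u φ)) =
      ∑ r', u r' • Hm.map (LinearMap.proj r ∘ₗ h ∘ₗ LinearMap.single A (fun _ => X.X) r')
        (a • φ) := by
  refine Hm.ext fun b => ?_
  rw [Hm.sum_apply]
  change h (fun r' => u r' • (a • φ) b) r = ∑ r', u r' • h (Pi.single r' ((a • φ) b)) r
  rw [← Finset.univ_sum_single fun r' => u r' • (a • φ) b, map_sum, Finset.sum_apply]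
  refine Finset.sum_congr rfl fun r' _ => ?_
  rw [Pi.single_smul, LinearMap.map_smul_of_tower, Pi.smul_apply]

/-- the five lines -/
def s1a_u (x y : k) : Fin 5 → Fin 2 → k := ![![1, 0], ![0, 1], ![1, 1], ![1, x], ![1, y]]

/-- a submodule `M ⊇ H_j` whose maps generate `X` modulo `R_{j+1}` has small codimension -/
theorem step1a [IsAlgClosed k] [FiniteDimensional k A] (hT : TameMat k A) (X : FD k A)
    (hX : Indec A X) (j : ℕ) (M : Submodule A (Hm A X)) (hM : Hj A X j ≤ M)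
    (hgen : Rj A X (j + 1) ⊔ ⨆ φ ∈ M, LinearMap.range (Hm.lin φ) = ⊤) :
    Module.finrank k (Hm A X) ≤ Module.finrank k M + 4 * Module.finrank k A := by
  by_contra hd
  obtain ⟨g, φ, N, hN⟩ := exists_five X hX j M hM (not_le.1 hd)
  obtain ⟨n, g₀, φ₀, hI, hS⟩ := exists_ind X (Hj A X j) M (range_iota_le_Hj j) hM
  have hnt : Nontrivial X := hX.1
  have : Nontrivial (s1a_sq X) := inferInstanceAs (Nontrivial (Fin 2 → X))
  let G : (Fin n × Fin 2) ⊕ Fin 5 → A := Sum.elim (fun p => g₀ p.1) g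
  let Φ : (Fin n × Fin 2) ⊕ Fin 5 → Hm A X := Sum.elim (fun p => φ₀ p.1) φ
  let U : k → k → (Fin n × Fin 2) ⊕ Fin 5 → Fin 2 → k := fun x y =>
    Sum.elim (fun p => Pi.single p.2 1) (s1a_u x y)
  let U₁ : (Fin n × Fin 2) ⊕ Fin 5 → Fin 2 → k := Sum.elim 0 ![0, 0, 0, ![0, 1], 0]
  let U₂ : (Fin n × Fin 2) ⊕ Fin 5 → Fin 2 → k := Sum.elim 0 ![0, 0, 0, 0, ![0, 1]]
  have hq : ∀ (x y : k) l, s1a_vec (U 0 0 l) (Φ l) + x • s1a_vec (U₁ l) (Φ l) +
      y • s1a_vec (U₂ l) (Φ l) = s1a_vec (U x y l) (Φ l) := fun x y l => by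
    rw [s1a_comb]
    congr 1
    rcases l with p | i
    · simp [U, U₁, U₂]
    · funext r
      fin_cases i <;> fin_cases r <;> simp [U, U₁, U₂, s1a_u]
  have hM0 : ∀ t, g₀ t • φ₀ t ∈ M := fun t =>
    hS ▸ Submodule.mem_sup_right (Submodule.subset_span ⟨t, rfl⟩)
  have ext : ∀ (i : Fin 5) (w : (Fin n × Fin 2) ⊕ Fin 5 → k) (a : (Fin n × Fin 2) ⊕ Fin 5 → A),
      ∑ l, w l • a l • G l • Φ l - w (.inr i) • a (.inr i) • g i • φ i ∈ N i := fun i w a => by
    rw [← Finset.add_sum_erase _ _ (Finset.mem_univ (Sum.inr i))]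
    change w (.inr i) • a (.inr i) • g i • φ i + _ - _ ∈ _
    rw [add_sub_cancel_left]
    refine Submodule.sum_mem _ fun l hl => Submodule.smul_of_tower_mem _ _
      (Submodule.smul_mem _ _ ?_)
    rcases l with p | l
    · exact (hN i).1 (hM0 p.1)
    · exact (hN i).2.1 l fun e => (Finset.mem_erase.1 hl).1 (congrArg _ e)
  refine engine (s1a_sq X) j G (fun l => s1a_vec (U 0 0 l) (Φ l))
    (fun l => s1a_vec (U₁ l) (Φ l)) (fun l => s1a_vec (U₂ l) (Φ l)) (fun x y a ha => ?_)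
    (fun x y => ?_) (fun x y x' y' h hh => ?_) hT
  · change ∑ l, (a l * G l) • (s1a_vec (U 0 0 l) (Φ l) + x • s1a_vec (U₁ l) (Φ l) +
      y • s1a_vec (U₂ l) (Φ l)) ∈ Hj A (Fin 2 → X) j at ha
    simp only [hq] at ha
    have h3 : ∀ r, ∑ l, U x y l r • a l • G l • Φ l ∈ Hj A X j := fun r => by
      have := map_Hj (LinearMap.proj r : (Fin 2 → X) →ₗ[A] X) ha
      simpa only [map_sum, map_smul, s1a_proj, mul_smul, smul_comm _ (U x y _ r)] using this
    have h4 : ∀ i, a (.inr i) * g i ∈ J A := fun i => by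
      obtain ⟨r, hr⟩ : ∃ r, U x y (.inr i) r = 1 := by
        refine ⟨if i = 1 then 1 else 0, ?_⟩
        fin_cases i <;> simp [U, s1a_u]
      have := Submodule.sub_mem _ ((hN i).1 (hM (h3 r))) (ext i (fun l => U x y l r) a)
      rw [sub_sub_cancel, hr, one_smul, smul_smul] at this
      exact (hN i).2.2.2.1 _ this
    rintro (⟨t, r⟩ | i)
    · refine hI (fun t => a (.inl (t, r))) ?_ t
      have h5 := h3 r
      rw [Fintype.sum_sum_type, Fintype.sum_prod_type] at h5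
      have h6 := (Submodule.add_mem_iff_left _ (Submodule.sum_mem _ fun i _ =>
        Submodule.smul_of_tower_mem _ _ (by
          rw [smul_smul]
          exact smul_mem_of_J (range_iota_le_Hj j) (h4 i) _))).1 h5
      simpa [U, G, Φ, Pi.single_apply, mul_smul] using h6
    · exact h4 i
  · change Rj A (Fin 2 → X) (j + 1) ⊔ ⨆ l, LinearMap.range (G l • (s1a_vec (U 0 0 l) (Φ l) +
      x • s1a_vec (U₁ l) (Φ l) + y • s1a_vec (U₂ l) (Φ l))).lin = ⊤
    simp only [hq]
    generalize hT' : Rj A (Fin 2 → X) (j + 1) ⊔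
      ⨆ l, LinearMap.range (G l • s1a_vec (U x y l) (Φ l)).lin = T
    refine eq_top_iff.2 fun z _ => ?_
    rw [← Finset.univ_sum_single z]
    refine Submodule.sum_mem _ fun r _ => ?_
    have h1 : Rj A X (j + 1) ≤ T.comap (LinearMap.single A (fun _ => X.X) r) := fun w hw =>
      hT' ▸ Submodule.mem_sup_left (map_Rj (LinearMap.single A (fun _ => X.X) r) hw)
    let P : Submodule A (Hm A X) :=
      { carrier := {ψ | ∀ b, ψ b ∈ T.comap (LinearMap.single A (fun _ => X.X) r)}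
        add_mem' := fun h1 h2 b => Submodule.add_mem _ (h1 b) (h2 b)
        zero_mem' := fun _ => Submodule.zero_mem _
        smul_mem' := fun c _ h1 b => h1 (rmul c b) }
    have h2 : M ≤ P := by
      rw [← hS]
      refine sup_le (fun ψ hψ b => h1 (Rj_mono j (apply_mem_Rj hψ b))) (Submodule.span_le.2 ?_)
      rintro _ ⟨t, rfl⟩ b
      refine hT' ▸ Submodule.mem_sup_right
        (Submodule.mem_iSup_of_mem (.inl (t, r)) ⟨b, funext fun r' => ?_⟩)
      change (Pi.single r (1 : k) : Fin 2 → k) r' • (g₀ t • φ₀ t) b =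
        (Pi.single r ((g₀ t • φ₀ t) b) : Fin 2 → X) r'
      simp [Pi.single_apply]
    have h3 : (⊤ : Submodule A X) ≤ T.comap (LinearMap.single A (fun _ => X.X) r) := by
      rw [← hgen]
      refine sup_le h1 (iSup₂_le fun ψ hψ => ?_)
      rintro _ ⟨b, rfl⟩
      exact h2 hψ b
    exact h3 Submodule.mem_top
  change Module.End A (Fin 2 → X) at h
  change ∀ l, Hm.map h (G l • (s1a_vec (U 0 0 l) (Φ l) + x • s1a_vec (U₁ l) (Φ l) +
      y • s1a_vec (U₂ l) (Φ l))) ∈ Hj A (Fin 2 → X) j ⊔ Submodule.span A (Set.range fun l =>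
        G l • (s1a_vec (U 0 0 l) (Φ l) + x' • s1a_vec (U₁ l) (Φ l) +
          y' • s1a_vec (U₂ l) (Φ l))) at hh
  simp only [hq] at hh
  choose c hc using fun r r' : Fin 2 => exists_scalar X
    (LinearMap.proj r ∘ₗ h ∘ₗ LinearMap.single A (fun _ => X.X) r')
  let π : A →ₗ[k] A ⧸ (J A).restrictScalars k := ((J A).restrictScalars k).mkQ
  have hπ : ∀ a, π a = 0 ↔ a ∈ J A := fun a => Submodule.Quotient.mk_eq_zero _
  have key : ∀ i, (∑ r', s1a_u x y i r' * c 0 r') * s1a_u x' y' i 1 =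
      (∑ r', s1a_u x y i r' * c 1 r') * s1a_u x' y' i 0 := fun i => by
    obtain ⟨η, hη, ζ, hζ, e⟩ := Submodule.mem_sup.1 (hh (.inr i))
    obtain ⟨a, rfl⟩ := (Submodule.mem_span_range_iff_exists_fun A).1 hζ
    have h1 : ∀ r, (∑ r', s1a_u x y i r' * c r r') • π (g i) =
        s1a_u x' y' i r • π (a (.inr i) * g i) := fun r => by
      have h2 := congrArg (Hm.map (LinearMap.proj r : (Fin 2 → X) →ₗ[A] X)) e
      rw [s1a_map] at h2
      simp only [map_add, map_sum, map_smul (Hm.map (LinearMap.proj r : (Fin 2 → X) →ₗ[A] X)),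
        s1a_proj, smul_comm _ (U x' y' _ r)] at h2
      have h3 := Submodule.add_mem _ ((hN i).1 (hM
        (map_Hj (LinearMap.proj r : (Fin 2 → X) →ₗ[A] X) hη))) (ext i (fun l => U x' y' l r) a)
      rw [add_sub, h2] at h3
      have h4 := Submodule.sub_mem _ h3 (Submodule.sum_mem _ fun r' (_ : r' ∈ Finset.univ) =>
        Submodule.smul_of_tower_mem _ (s1a_u x y i r') ((hN i).2.2.1 _ (hc r r')))
      have h5 := (hN i).2.2.2.1 ((∑ r', s1a_u x y i r' * c r r') • (1 : A) -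
          s1a_u x' y' i r • a (.inr i)) (by
        refine (congrArg (· ∈ N i) ?_).mp h4
        simp only [Hm.sub_map, Hm.ksmul_map, Hm.map_id, U, G, Φ, Sum.elim_inr, Fin.sum_univ_two,
          sub_smul, add_smul, smul_assoc, mul_smul, smul_sub, one_smul]
        abel)
      rw [← hπ] at h5
      simpa only [sub_mul, smul_mul_assoc, one_mul, map_sub, map_smul, sub_eq_zero] using h5
    refine smul_left_injective k (fun h0 => (hN i).2.2.2.2 ((hπ (g i)).1 h0)) ?_
    simp only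
    rw [mul_comm, mul_smul, h1, mul_comm _ (s1a_u x' y' i 0), mul_smul, h1, smul_comm]
  have e0 : c 1 0 = 0 := by simpa [s1a_u] using (key 0).symm
  have e1 : c 0 1 = 0 := by simpa [s1a_u] using key 1
  have e2 : c 1 1 = c 0 0 := by simpa [s1a_u, e0, e1] using (key 2).symm
  have e3 : c 0 0 * x' = x * c 0 0 := by simpa [s1a_u, e0, e1, e2] using key 3
  have e4 : c 0 0 * y' = y * c 0 0 := by simpa [s1a_u, e0, e1, e2] using key 4
  refine ⟨c 0 0, ?_, by rw [e3, mul_comm], by rw [e4, mul_comm]⟩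
  refine nilp_pi (b := Module.finrank k X) (fun _ : Fin 2 => X) (fun _ => ⟨hX, le_rfl⟩)
    (h - c 0 0 • (1 : Module.End A (Fin 2 → X))) fun r r' hb => hc r r' ?_
  refine (congrArg (fun f : X →ₗ[A] X => Function.Bijective f) ?_).mp hb
  ext z
  fin_cases r <;> fin_cases r' <;> simp [e0, e1, e2]

end Pool.Agent.Lib.MP_c55f2d_al.Q
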