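import Pool.Agent.Lib.MP_c55f2d_al.QCells
import Pool.Agent.Lib.MP_c55f2d_al.QEngine

/-! Step 2, the five quotients. -/

universe u

namespace Pool.Agent.Lib.MP_c55f2d_al.Q

variable {k A : Type u} [Field k] [Ring A] [Algebra k A]

/-- five lines in general position are rigid -/
theorem s2a_lines {W : Type u} [AddCommGroup W] [Module k W] {u : W} (hu : u ≠ 0)
    {c : Fin 5 → k} {x y x' y' : k} {v₀ v₁ w₀ w₁ : W}
    (hv : ∀ i, (c i * ![1, 0, 1, 1, 1] i) • u =
      (![1, 0, 1, 1, 1] i : k) • v₀ + (![0, 1, 1, x', y'] i : k) • v₁)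
    (hw : ∀ i, (c i * ![0, 1, 1, x, y] i) • u =
      (![1, 0, 1, 1, 1] i : k) • w₀ + (![0, 1, 1, x', y'] i : k) • w₁) :
    (∀ i, c i = c 0) ∧ c 0 * x = c 0 * x' ∧ c 0 * y = c 0 * y' := by
  have a0 : v₀ = c 0 • u := by simpa using (hv 0).symm
  have a1 : v₁ = 0 := by simpa using (hv 1).symm
  have b0 : w₀ = 0 := by simpa using (hw 0).symm
  have b1 : w₁ = c 1 • u := by simpa using (hw 1).symm
  subst a0 a1 b0 b1
  have inj := smul_left_injective k hu
  have e2 : c 2 = c 0 := inj (by simpa using hv 2)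
  have e3 : c 3 = c 0 := inj (by simpa using hv 3)
  have e4 : c 4 = c 0 := inj (by simpa using hv 4)
  have e1 : c 2 = c 1 := inj (by simpa using hw 2)
  have f3 : c 3 * x = x' * c 1 := inj (by simpa [mul_smul] using hw 3)
  have f4 : c 4 * y = y' * c 1 := inj (by simpa [mul_smul] using hw 4)
  have e1' : c 1 = c 0 := e1.symm.trans e2
  refine ⟨fun i => ?_, ?_, ?_⟩
  · fin_cases i
    exacts [rfl, e1', e2, e3, e4]
  · rw [← e3, f3, e1', e3, mul_comm]
  · rw [← e4, f4, e1', e4, mul_comm]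

/-- the product of a finite family -/
def s2a_pi (X : Fin 5 → FD k A) : FD k A := ⟨∀ i, X i⟩

/-- the homomorphism with components `p i • φ i` -/
def s2a_psi {X : Fin 5 → FD k A} (φ : ∀ i, Hm A (X i)) (p : Fin 5 → k) : Hm A (∀ i, X i) :=
  Hm.of (LinearMap.pi fun i => (p i • φ i).lin)

theorem s2a_proj {X : Fin 5 → FD k A} (φ : ∀ i, Hm A (X i)) (p : Fin 5 → k) (i : Fin 5) :
    Hm.map (LinearMap.proj i : (∀ i, X i) →ₗ[A] X i) (s2a_psi φ p) = p i • φ i := rfl

theorem s2a_comb {X : Fin 5 → FD k A} (φ : ∀ i, Hm A (X i)) (p q r : Fin 5 → k) (x y : k) :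
    s2a_psi φ p + x • s2a_psi φ q + y • s2a_psi φ r = s2a_psi φ (p + x • q + y • r) := by
  refine Hm.ext fun b => funext fun i => ?_
  change p i • φ i b + x • q i • φ i b + y • r i • φ i b = (p i + x * q i + y * r i) • φ i b
  simp only [add_smul, mul_smul]

theorem s2a_move {b j s : ℕ} {X : Fin 5 → FD k A} (hX : ∀ i, Good b (X i))
    (f : Module.End A (∀ i, X i)) (hf : ∀ i i', ¬ Function.Bijective
      (LinearMap.proj i ∘ₗ f ∘ₗ LinearMap.single A (fun i => (X i).X) i' : X i' →ₗ[A] X i))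
    {ψ : Hm A (∀ i, X i)}
    (hψ : ∀ i, Hm.map (LinearMap.proj i : (∀ i, X i) →ₗ[A] X i) ψ ∈ Vs b j s (X i)) (i : Fin 5) :
    Hm.map (LinearMap.proj i : (∀ i, X i) →ₗ[A] X i) (Hm.map f ψ) ∈ Vs b j (s + 1) (X i) := by
  have e : Hm.map (LinearMap.proj i : (∀ i, X i) →ₗ[A] X i) (Hm.map f ψ) = ∑ i', Hm.map
      (LinearMap.proj i ∘ₗ f ∘ₗ LinearMap.single A (fun i => (X i).X) i' : X i' →ₗ[A] X i)
      (Hm.map (LinearMap.proj i' : (∀ i, X i) →ₗ[A] X i') ψ) := by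
    refine Hm.ext fun a => ?_
    rw [Hm.sum_apply]
    change f (ψ a) i = ∑ i', f (Pi.single i' (ψ a i')) i
    rw [← Finset.sum_apply, ← map_sum, Finset.univ_sum_single]
  rw [e]
  exact Submodule.sum_mem _ fun i' _ => map_Vs (hX i) _ (hf i i') (hψ i')

theorem step2a [IsAlgClosed k] [FiniteDimensional k A] (hT : TameMat k A) {b j s : ℕ}
    (X : Fin 5 → FD k A) (hX : ∀ i, Good b (X i))
    (hne : ∀ i i', Nonempty (X i ≃ₗ[A] X i') → i = i') (hR : ∀ i, Rj A (X i) (j + 1) = ⊤)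
    {g : A} (hg : Simp g) (φ : ∀ i, Hm A (X i)) (h1 : ∀ i, φ i ∈ Vs b j s (X i))
    (h2 : ∀ i, g • φ i ∉ Vs b j (s + 1) (X i)) : False := by
  have hnt : ∀ i, Nontrivial (X i) := fun i => (hX i).1.1
  have : Nontrivial (s2a_pi X) := inferInstanceAs (Nontrivial (∀ i, X i))
  let q : k → k → Fin 2 → Fin 5 → k := fun x y => ![![1, 0, 1, 1, 1], ![0, 1, 1, x, y]]
  let q₁ : Fin 2 → Fin 5 → k := ![0, ![0, 0, 0, 1, 0]]
  let q₂ : Fin 2 → Fin 5 → k := ![0, ![0, 0, 0, 0, 1]]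
  have hq : ∀ (x y : k) l, s2a_psi φ (q 0 0 l) + x • s2a_psi φ (q₁ l) + y • s2a_psi φ (q₂ l) =
      s2a_psi φ (q x y l) := fun x y l => by
    rw [s2a_comb]
    congr 1
    funext i
    fin_cases l <;> fin_cases i <;> simp [q, q₁, q₂]
  have hJ : ∀ i (a : A), (a * g) • φ i ∈ Vs b j (s + 1) (X i) → a * g ∈ J A := fun i a ha =>
    hg.mem_J ((range_iota_le_Hj j).trans (Hj_le_Vs b j (s + 1) (X i))) (h2 i) ha
  refine engine (s2a_pi X) j (fun _ : Fin 2 => g) (fun l => s2a_psi φ (q 0 0 l))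
    (fun l => s2a_psi φ (q₁ l)) (fun l => s2a_psi φ (q₂ l)) (fun x y a ha => ?_) (fun x y => ?_)
    (fun x y x' y' h hh => ?_) hT
  · change ∑ l, (a l * g) • (s2a_psi φ (q 0 0 l) + x • s2a_psi φ (q₁ l) +
      y • s2a_psi φ (q₂ l)) ∈ Hj A (∀ i, X i) j at ha
    simp only [hq] at ha
    have h3 := fun i => Hj_le_Vs b j (s + 1) (X i)
      (map_Hj (LinearMap.proj i : (∀ i, X i) →ₗ[A] X i) ha)
    simp only [Fin.sum_univ_two, map_add, map_smul, s2a_proj] at h3
    intro l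
    fin_cases l
    · exact hJ 0 _ (by simpa [q] using h3 0)
    · exact hJ 1 _ (by simpa [q] using h3 1)
  · refine eq_top_iff.2 fun z _ => Submodule.mem_sup_left ?_
    change z ∈ Rj A (∀ i, X i) (j + 1)
    rw [← Finset.univ_sum_single z]
    exact Submodule.sum_mem _ fun i _ =>
      map_Rj (LinearMap.single A (fun i => (X i).X) i) (by rw [hR i]; trivial)
  change Module.End A (∀ i, X i) at h
  change ∀ l, Hm.map h (g • (s2a_psi φ (q 0 0 l) + x • s2a_psi φ (q₁ l) +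
      y • s2a_psi φ (q₂ l))) ∈ Hj A (∀ i, X i) j ⊔ Submodule.span A (Set.range fun l =>
        g • (s2a_psi φ (q 0 0 l) + x' • s2a_psi φ (q₁ l) + y' • s2a_psi φ (q₂ l))) at hh
  simp only [hq] at hh
  choose c hc using fun i => exists_scalar (X i)
    (LinearMap.proj i ∘ₗ h ∘ₗ LinearMap.single A (fun i => (X i).X) i)
  let D : Module.End A (∀ i, X i) :=
    LinearMap.pi fun i => c i • (LinearMap.proj i : (∀ i, X i) →ₗ[A] X i)
  have hD : ∀ i i', ¬ Function.Bijective (LinearMap.proj i ∘ₗ (h - D) ∘ₗ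
      LinearMap.single A (fun i => (X i).X) i' : X i' →ₗ[A] X i) := fun i i' hb => by
    obtain rfl := hne i' i ⟨LinearEquiv.ofBijective _ hb⟩
    refine hc i' ?_
    convert hb using 2
    ext z
    simp [D]
  let π : A →ₗ[k] A ⧸ (J A).restrictScalars k := ((J A).restrictScalars k).mkQ
  have hπ : ∀ a, π a = 0 ↔ a ∈ J A := fun a => Submodule.Quotient.mk_eq_zero _
  have key : ∀ l, ∃ v₀ v₁, ∀ i, (c i * q x y l i) • π g = q x' y' 0 i • v₀ + q x' y' 1 i • v₁ := by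
    intro l
    obtain ⟨η, hη, ζ, hζ, e⟩ := Submodule.mem_sup.1 (hh l)
    obtain ⟨a, rfl⟩ := (Submodule.mem_span_range_iff_exists_fun A).1 hζ
    refine ⟨π (a 0 * g), π (a 1 * g), fun i => ?_⟩
    have h3 := s2a_move hX (h - D) hD (ψ := g • s2a_psi φ (q x y l)) (fun i => by
      rw [map_smul, s2a_proj]
      exact Submodule.smul_mem _ _ (Submodule.smul_of_tower_mem _ _ (h1 i))) i
    have h4 : Hm.map (LinearMap.proj i : (∀ i, X i) →ₗ[A] X i)
        (Hm.map D (g • s2a_psi φ (q x y l))) = c i • g • q x y l i • φ i := rfl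
    rw [Hm.sub_map, map_sub, h4, ← e] at h3
    simp only [Fin.sum_univ_two, map_add, map_smul, s2a_proj] at h3
    have h5 := Submodule.sub_mem _ (Hj_le_Vs b j (s + 1) (X i)
      (map_Hj (LinearMap.proj i : (∀ i, X i) →ₗ[A] X i) hη)) h3
    have h6 := hJ i ((c i * q x y l i) • (1 : A) - (q x' y' 0 i • a 0 + q x' y' 1 i • a 1)) (by
      convert h5 using 1
      simp only [sub_mul, add_mul, smul_mul_assoc, one_mul, sub_smul, add_smul, smul_assoc,
        mul_smul, smul_comm g, smul_comm (a _)]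
      abel)
    rw [← hπ] at h6
    simpa only [sub_mul, add_mul, smul_mul_assoc, one_mul, map_sub, map_add, map_smul,
      sub_eq_zero] using h6
  obtain ⟨v₀, v₁, hv⟩ := key 0
  obtain ⟨w₀, w₁, hw⟩ := key 1
  obtain ⟨e1, e2, e3⟩ := s2a_lines (fun h0 => hg.1 ((hπ g).1 h0)) hv hw
  refine ⟨c 0, ?_, e2, e3⟩
  have e : D = c 0 • (1 : Module.End A (∀ i, X i)) := by
    refine LinearMap.ext fun z => funext fun i => ?_
    simp [D, e1 i]
  change IsNilpotent (h - c 0 • (1 : Module.End A (∀ i, X i)))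
  rw [← e]
  exact nilp_pi X hX _ hD

end Pool.Agent.Lib.MP_c55f2d_al.Q
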