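import Pool.Agent.Lib.MP_c55f2d_al.Add

namespace Pool.Agent.Lib.MP_c55f2d_al

namespace TriQuiver

variable {V Ar : Type} (Q : TriQuiver V Ar)

theorem bar_bar (α : Ar) : Q.bar (Q.bar α) = α := by
  rcases Q.eq_or_bar α (Q.bar (Q.bar α)) (by rw [Q.s_bar, Q.s_bar]) with h | h
  · exact h
  · exact absurd h (Q.bar_ne _)

theorem bar_inj : Function.Injective Q.bar := fun x y h => by
  rw [← Q.bar_bar x, h, Q.bar_bar]

theorem s_g (α : Ar) : Q.s (Q.g α) = Q.t α := by rw [g, Q.s_bar, Q.s_f]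

theorem g_ne_f (α : Ar) : Q.g α ≠ Q.f α := Q.bar_ne _

theorem g_inj : Function.Injective Q.g := Q.bar_inj.comp Q.f.injective

theorem bar_g (α : Ar) : Q.bar (Q.g α) = Q.f α := Q.bar_bar _

theorem out_cases {δ α : Ar} (h : Q.s δ = Q.t α) : δ = Q.f α ∨ δ = Q.g α :=
  Q.eq_or_bar _ _ (by rw [h, Q.s_f])

/-- The other arrow with the same target. -/
def op (γ : Ar) : Ar := Q.f.symm (Q.g γ)

theorem f_op (γ : Ar) : Q.f (Q.op γ) = Q.g γ := by simp [op]

theorem g_op (γ : Ar) : Q.g (Q.op γ) = Q.f γ := by rw [g, f_op, bar_g]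

theorem t_op (γ : Ar) : Q.t (Q.op γ) = Q.t γ := by rw [← Q.s_f, f_op, s_g]

theorem op_ne (γ : Ar) : Q.op γ ≠ γ := fun h => Q.g_ne_f γ (by rw [← f_op, h])

theorem op_op (γ : Ar) : Q.op (Q.op γ) = γ := by
  apply Q.f.injective
  rw [f_op, g_op]

theorem in_cases {δ γ : Ar} (h : Q.t δ = Q.t γ) : δ = γ ∨ δ = Q.op γ := by
  rcases Q.out_cases (δ := Q.f δ) (α := γ) (by rw [Q.s_f, h]) with h1 | h1
  · exact Or.inl (Q.f.injective h1)
  · exact Or.inr (Q.f.injective (by rw [h1, f_op]))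

theorem g_g_op_f (β : Ar) : Q.g (Q.g (Q.op (Q.f β))) = Q.bar β := by
  rw [g_op, g, Q.f_cube]

theorem s_iter_succ (α : Ar) (n : ℕ) : Q.s (Q.g^[n + 1] α) = Q.t (Q.g^[n] α) := by
  rw [Function.iterate_succ_apply', s_g]

end TriQuiver

/-- Generators of the algebra. -/
structure Gen (k : Type) {V Ar Λ : Type} [Field k] [Ring Λ] [Algebra k Λ] [Fintype V]
    (Q : TriQuiver V Ar) (e : V → Λ) (a : Ar → Λ) : Prop where
  idem : CompleteOrthogonalIdempotents e
  arrow : ∀ α, e (Q.t α) * a α * e (Q.s α) = a α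
  gen : Algebra.adjoin k (Set.range e ∪ Set.range a) = ⊤

namespace Gen

variable {k V Ar Λ : Type} [Field k] [Ring Λ] [Algebra k Λ] [Fintype V]
  {Q : TriQuiver V Ar} {e : V → Λ} {a : Ar → Λ} (h : Gen k Q e a)
include h

theorem e_e (i : V) : e i * e i = e i := h.idem.idem i

theorem e_e_ne {i j : V} (hij : i ≠ j) : e i * e j = 0 := h.idem.ortho hij

theorem e_a (α : Ar) : e (Q.t α) * a α = a α := by
  conv_lhs => rw [← h.arrow α]
  rw [← mul_assoc, ← mul_assoc, h.e_e, h.arrow]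

theorem a_e (α : Ar) : a α * e (Q.s α) = a α := by
  conv_lhs => rw [← h.arrow α]
  rw [mul_assoc, h.e_e, h.arrow]

theorem e_a_ne {i : V} {α : Ar} (hi : i ≠ Q.t α) : e i * a α = 0 := by
  rw [← h.e_a α, ← mul_assoc, h.e_e_ne hi, zero_mul]

theorem a_e_ne {i : V} {α : Ar} (hi : Q.s α ≠ i) : a α * e i = 0 := by
  rw [← h.a_e α, mul_assoc, h.e_e_ne hi, mul_zero]

theorem a_a_ne {δ α : Ar} (hd : Q.s δ ≠ Q.t α) : a δ * a α = 0 := by
  rw [← h.e_a α, ← mul_assoc, h.a_e_ne hd, zero_mul]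

theorem gpath_e (α : Ar) (n : ℕ) : gpath Q e a α n * e (Q.s α) = gpath Q e a α n := by
  induction n with
  | zero => exact h.e_e _
  | succ n ih => rw [gpath, mul_assoc, ih]

theorem e_gpath (α : Ar) (n : ℕ) : e (Q.s (Q.g^[n] α)) * gpath Q e a α n = gpath Q e a α n := by
  cases n with
  | zero => exact h.e_e _
  | succ n => rw [gpath, Q.s_iter_succ, ← mul_assoc, h.e_a]

theorem gpath_e_ne {i : V} {α : Ar} (hi : Q.s α ≠ i) (n : ℕ) : gpath Q e a α n * e i = 0 := by
  rw [← h.gpath_e α n, mul_assoc, h.e_e_ne hi, mul_zero]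

theorem e_gpath_ne {i : V} {α : Ar} {n : ℕ} (hi : i ≠ Q.s (Q.g^[n] α)) :
    e i * gpath Q e a α n = 0 := by
  rw [← h.e_gpath α n, ← mul_assoc, h.e_e_ne hi, zero_mul]

theorem gpath_one (α : Ar) : gpath Q e a α 1 = a α := by
  simp [gpath, h.a_e]

theorem gpath_add (α : Ar) (n m : ℕ) :
    gpath Q e a α (n + m) = gpath Q e a (Q.g^[n] α) m * gpath Q e a α n := by
  induction m with
  | zero => exact (h.e_gpath α n).symm
  | succ m ih =>
    rw [← add_assoc, gpath, gpath, ih, mul_assoc, ← Function.iterate_add_apply, add_comm m n]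

theorem gpath_succ' (α : Ar) (n : ℕ) :
    gpath Q e a α (n + 1) = gpath Q e a (Q.g α) n * a α := by
  rw [add_comm, h.gpath_add, h.gpath_one]; rfl

theorem gpath_a_ne {α δ : Ar} (hd : Q.s α ≠ Q.t δ) (n : ℕ) : gpath Q e a α n * a δ = 0 := by
  rw [← h.e_a δ, ← mul_assoc, h.gpath_e_ne hd, zero_mul]

theorem a_gpath_ne {α δ : Ar} {n : ℕ} (hd : Q.s δ ≠ Q.s (Q.g^[n] α)) :
    a δ * gpath Q e a α n = 0 := by
  rw [← h.e_gpath α n, ← mul_assoc, h.a_e_ne hd, zero_mul]

/-- Induction over the algebra. -/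
theorem induction (P : Λ → Prop) (he : ∀ i, P (e i)) (ha : ∀ α, P (a α))
    (hk : ∀ c : k, P (algebraMap k Λ c)) (hadd : ∀ x y, P x → P y → P (x + y))
    (hmul : ∀ x y, P x → P y → P (x * y)) (x : Λ) : P x := by
  have hx : x ∈ Algebra.adjoin k (Set.range e ∪ Set.range a) := h.gen ▸ Algebra.mem_top
  induction hx using Algebra.adjoin_induction with
  | mem x hx =>
    rcases hx with ⟨i, rfl⟩ | ⟨α, rfl⟩
    · exact he i
    · exact ha α
  | algebraMap c => exact hk c
  | add x y _ _ hx hy => exact hadd x y hx hy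
  | mul x y _ _ hx hy => exact hmul x y hx hy

section modules

variable {M M' : Type} [AddCommGroup M] [Module k M] [Module Λ M] [IsScalarTower k Λ M]
  [AddCommGroup M'] [Module k M'] [Module Λ M'] [IsScalarTower k Λ M']

/-- A `k`-linear map commuting with the generators is linear over the algebra. -/
def mkLin (r : M →ₗ[k] M') (he : ∀ i y, r (e i • y) = e i • r y)
    (ha : ∀ δ y, r (a δ • y) = a δ • r y) : M →ₗ[Λ] M' where
  toFun := r
  map_add' := r.map_add
  map_smul' := by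
    intro l
    apply h.induction (fun l => ∀ y, r (l • y) = l • r y) he ha
    · intro c y; simp
    · intro x y hx hy z; simp [add_smul, hx, hy]
    · intro x y hx hy z; rw [mul_smul, mul_smul, hx, hy]

theorem mkLin_apply (r : M →ₗ[k] M') (he : ∀ i y, r (e i • y) = e i • r y)
    (ha : ∀ δ y, r (a δ • y) = a δ • r y) (y : M) : h.mkLin r he ha y = r y := rfl

/-- A subspace stable under the generators is a submodule. -/
def mkSub (W : Submodule k M) (he : ∀ i, ∀ y ∈ W, e i • y ∈ W)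
    (ha : ∀ δ, ∀ y ∈ W, a δ • y ∈ W) : Submodule Λ M where
  carrier := W
  add_mem' := W.add_mem
  zero_mem' := W.zero_mem
  smul_mem' := by
    intro l
    apply h.induction (fun l => ∀ y, y ∈ W → l • y ∈ W) he ha
    · intro c y hy; simpa using W.smul_mem c hy
    · intro x y hx hy z hz; rw [add_smul]; exact W.add_mem (hx z hz) (hy z hz)
    · intro x y hx hy z hz; rw [mul_smul]; exact hx _ (hy z hz)

theorem mem_mkSub (W : Submodule k M) (he : ∀ i, ∀ y ∈ W, e i • y ∈ W)
    (ha : ∀ δ, ∀ y ∈ W, a δ • y ∈ W) (y : M) : y ∈ h.mkSub W he ha ↔ y ∈ W := Iff.rfl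

/-- The radical of a submodule: the span of the images of the arrows. -/
def rad (N : Submodule Λ M) : Submodule Λ M :=
  h.mkSub (Submodule.span k {y | ∃ δ, ∃ n ∈ N, y = a δ • n})
    (by
      intro i y hy
      induction hy using Submodule.span_induction with
      | mem y hy =>
        obtain ⟨δ, n, hn, rfl⟩ := hy
        rw [← mul_smul]
        by_cases hi : i = Q.t δ
        · rw [hi, h.e_a]; exact Submodule.subset_span ⟨δ, n, hn, rfl⟩
        · rw [h.e_a_ne hi, zero_smul]; exact Submodule.zero_mem _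
      | zero => simp
      | add x y _ _ hx hy => rw [smul_add]; exact Submodule.add_mem _ hx hy
      | smul c x _ hx => rw [smul_comm]; exact Submodule.smul_mem _ c hx)
    (by
      intro δ y hy
      refine Submodule.subset_span ⟨δ, y, ?_, rfl⟩
      induction hy using Submodule.span_induction with
      | mem y hy =>
        obtain ⟨δ, n, hn, rfl⟩ := hy
        exact N.smul_mem _ hn
      | zero => simp
      | add x y _ _ hx hy => exact N.add_mem hx hy
      | smul c x _ hx => exact N.smul_of_tower_mem c hx)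

theorem a_mem_rad {N : Submodule Λ M} (δ : Ar) {n : M} (hn : n ∈ N) : a δ • n ∈ h.rad N :=
  Submodule.subset_span ⟨δ, n, hn, rfl⟩

theorem rad_le_of {N : Submodule Λ M} (W : Submodule k M) (hW : ∀ δ, ∀ n ∈ N, a δ • n ∈ W) :
    ∀ y ∈ h.rad N, y ∈ W := by
  intro y hy
  have : Submodule.span k {y | ∃ δ, ∃ n ∈ N, y = a δ • n} ≤ W := by
    rw [Submodule.span_le]
    rintro _ ⟨δ, n, hn, rfl⟩
    exact hW δ n hn
  exact this hy

theorem rad_le {N N' : Submodule Λ M} (hW : ∀ δ, ∀ n ∈ N, a δ • n ∈ N') : h.rad N ≤ N' :=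
  fun y hy => h.rad_le_of (N'.restrictScalars k) hW y hy

theorem gpath_mem_rad (α : Ar) (n : ℕ) (y : M) : gpath Q e a α (n + 1) • y ∈ h.rad ⊤ := by
  rw [gpath, mul_smul]; exact h.a_mem_rad _ Submodule.mem_top

/-- Nakayama's lemma from nilpotency of the radical. -/
theorem nakayama {L : ℕ} (hL : (h.rad)^[L] (⊤ : Submodule Λ M) = ⊥) (U : Submodule Λ M)
    (hU : U ⊔ h.rad ⊤ = ⊤) : U = ⊤ := by
  have : ∀ n, U ⊔ (h.rad)^[n] ⊤ = ⊤ := by
    intro n
    induction n with
    | zero => simp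
    | succ n ih =>
      rw [eq_top_iff, Function.iterate_succ_apply']
      refine hU.ge.trans (sup_le le_sup_left ?_)
      apply h.rad_le
      intro δ y _
      have hy : y ∈ U ⊔ (h.rad)^[n] ⊤ := by rw [ih]; trivial
      obtain ⟨y1, h1, y2, h2, rfl⟩ := Submodule.mem_sup.mp hy
      rw [smul_add]
      exact Submodule.add_mem _ (Submodule.mem_sup_left (U.smul_mem _ h1))
        (Submodule.mem_sup_right (h.a_mem_rad δ h2))
  have h2 := this L
  rwa [hL, sup_bot_eq] at h2

end modules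

/-- Nakayama's lemma holds for all modules. -/
def Nak : Prop :=
  ∀ (M : Type) [AddCommGroup M] [Module k M] [Module Λ M] [IsScalarTower k Λ M]
    (U : Submodule Λ M), U ⊔ h.rad ⊤ = ⊤ → U = ⊤

end Gen

end Pool.Agent.Lib.MP_c55f2d_al
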