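import Pool.Agent.Lib.MP_c55f2d_al.Local

namespace Pool.Agent.Lib.MP_c55f2d_al

/-- Relations of the `W`-shaped string modules. -/
def wRel {V Ar Λ : Type} [Ring Λ] (Q : TriQuiver V Ar) (e : V → Λ) (a : Ar → Λ) (γ : Ar) :
    Set (Λ × Λ × Λ) :=
  {(1 - e (Q.s γ), 0, 0), (0, 1 - e (Q.s (Q.op γ)), 0), (0, 0, 1 - e (Q.s (Q.op (Q.bar γ)))),
    (a γ, -a (Q.op γ), 0), (a (Q.bar γ), 0, -a (Q.op (Q.bar γ))), (0, a (Q.bar (Q.op γ)), 0),
    (0, 0, a (Q.bar (Q.op (Q.bar γ))))} ∪ {v | ∃ δ δ' w, v = (a δ * a δ') • w}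

/-- Relations of the `V`-shaped string modules. -/
def vRel {V Ar Λ : Type} [Ring Λ] (Q : TriQuiver V Ar) (e : V → Λ) (a : Ar → Λ) (γ : Ar) :
    Set (Λ × Λ × Λ) :=
  {(1 - e (Q.s γ), 0, 0), (0, 1 - e (Q.s (Q.op γ)), 0), (0, 0, 1),
    (a γ, -a (Q.op γ), 0), (a (Q.bar γ), 0, 0), (0, a (Q.bar (Q.op γ)), 0)} ∪
    {v | ∃ δ δ' w, v = (a δ * a δ') • w}

theorem univ_radSq {Ar Λ : Type} [Ring Λ] {a : Ar → Λ} {R : Set (Λ × Λ × Λ)}
    (hR : ∀ δ δ' w, (a δ * a δ') • w ∈ R) (δ δ' : Ar) (w : Univ Λ R) : a δ • a δ' • w = 0 := by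
  obtain ⟨v, rfl⟩ := Submodule.Quotient.mk_surjective _ w
  rw [← mul_smul, ← Submodule.Quotient.mk_smul, Submodule.Quotient.mk_eq_zero]
  exact Submodule.subset_span (hR δ δ' v)

theorem radSq_rel {Ar Λ M : Type} [Ring Λ] [AddCommGroup M] [Module Λ M] {a : Ar → Λ}
    (h2 : ∀ δ δ' (y : M), a δ • a δ' • y = 0) (x y z : M) (δ δ' : Ar) (w : Λ × Λ × Λ) :
    ((a δ * a δ') • w).1 • x + ((a δ * a δ') • w).2.1 • y + ((a δ * a δ') • w).2.2 • z = 0 := by
  simp [mul_smul, h2]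

namespace Gen

variable {k V Ar Λ : Type} [Field k] [Ring Λ] [Algebra k Λ] [Fintype V]
  {Q : TriQuiver V Ar} {e : V → Λ} {a : Ar → Λ} (h : Gen k Q e a)

section wing

variable {M W : Type} [AddCommGroup M] [Module k M] [Module Λ M] [IsScalarTower k Λ M]
  [AddCommGroup W] [Module k W] [Module Λ W] [IsScalarTower k Λ W]

/-- One socle element together with an end of the string. -/
noncomputable def wing (Q : TriQuiver V Ar) (e : V → Λ) (a : Ar → Λ) (γ : Ar)
    (θ : M →ₗ[k] k) (w : W) : M →ₗ[k] W :=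
  (θ ∘ₗ (Algebra.lsmul k k M (e (Q.t γ)) : M →ₗ[k] M)).smulRight (a (Q.op γ) • w) +
    (θ ∘ₗ (Algebra.lsmul k k M (a (Q.op γ)) : M →ₗ[k] M)).smulRight w

omit [Fintype V] [IsScalarTower k Λ W] in
theorem wing_apply (γ : Ar) (θ : M →ₗ[k] k) (w : W) (y : M) :
    wing Q e a γ θ w y = θ (e (Q.t γ) • y) • a (Q.op γ) • w + θ (a (Q.op γ) • y) • w := rfl

include h

omit [Module k M] [IsScalarTower k Λ M] in
theorem a_smul_zero {γ δ : Ar} {w : M} (hw : e (Q.s γ) • w = w) (hb : a (Q.bar γ) • w = 0)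
    (hd : δ ≠ γ) : a δ • w = 0 := by
  by_cases hs : Q.s δ = Q.s γ
  · rcases Q.eq_or_bar γ δ hs with h1 | h1
    · exact absurd h1 hd
    · rw [h1, hb]
  · rw [← hw, ← mul_smul, h.a_e_ne hs, zero_smul]

omit [IsScalarTower k Λ M] in
theorem coef_e (γ : Ar) (θ : M →ₗ[k] k) (w : W) (hw : e (Q.s γ) • w = w) (i : V) (y : M) :
    θ (a γ • e i • y) • w = e i • θ (a γ • y) • w := by
  rw [smul_comm (e i), ← mul_smul]
  by_cases hi : Q.s γ = i
  · rw [← hi, h.a_e, hw]
  · rw [h.a_e_ne hi, ← hw, ← mul_smul (e i), h.e_e_ne (Ne.symm hi)]; simp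

theorem wing_e (γ : Ar) (θ : M →ₗ[k] k) (w : W) (hw : e (Q.s (Q.op γ)) • w = w) (i : V)
    (y : M) : wing Q e a γ θ w (e i • y) = e i • wing Q e a γ θ w y := by
  rw [wing_apply, wing_apply, smul_add, h.coef_e _ θ w hw]
  congr 1
  rw [smul_comm (e i), ← mul_smul (e i), ← mul_smul]
  by_cases hi : i = Q.t γ
  · rw [hi, h.e_e, ← Q.t_op γ, h.e_a]
  · rw [h.e_e_ne (Ne.symm hi), h.e_a_ne (by rw [Q.t_op]; exact hi)]; simp

open Classical in
theorem wing_a (h2 : ∀ δ δ' (y : M), a δ • a δ' • y = 0)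
    (h2' : ∀ δ δ' (y : W), a δ • a δ' • y = 0) (γ : Ar) (θ : M →ₗ[k] k) (w : W)
    (hw : e (Q.s (Q.op γ)) • w = w) (hb : a (Q.bar (Q.op γ)) • w = 0) (δ : Ar) (y : M) :
    wing Q e a γ θ w (a δ • y) =
      a δ • wing Q e a γ θ w y + if δ = γ then θ (a γ • y) • a (Q.op γ) • w else 0 := by
  rw [wing_apply, wing_apply, h2, map_zero, zero_smul, add_zero, smul_add, smul_comm (a δ), h2',
    smul_zero, zero_add, smul_comm (a δ), ← mul_smul]
  by_cases h1 : δ = γ
  · rw [if_pos h1, h.a_smul_zero (δ := δ) hw hb (by rw [h1]; exact (Q.op_ne γ).symm), h1, h.e_a]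
    simp
  · rw [if_neg h1, add_zero]
    by_cases h3 : δ = Q.op γ
    · rw [h3, ← Q.t_op γ, h.e_a]
    · rw [h.a_smul_zero hw hb h3, h.e_a_ne]
      · simp
      · intro ht
        exact (Q.in_cases ht.symm).elim h1 h3

end wing

variable [FiniteDimensional k Λ] {G : Type} [AddCommGroup G] [Module Λ G]

/-- Modules with radical square zero whose strings are short. -/
theorem radSq_add (hN : h.Nak) {L : ℕ} (hL : ∀ α, gpath Q e a α L = 0)
    (hG : ∀ α p q, p < L → q < L → InAdd Λ G (Univ Λ (locRel Q e a α p q)))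
    (hGw : ∀ γ, InAdd Λ G (Univ Λ (wRel Q e a γ)))
    (hGv : ∀ γ, InAdd Λ G (Univ Λ (vRel Q e a γ))) (n : ℕ) :
    ∀ (M : Type) [AddCommGroup M] [Module k M] [Module Λ M] [IsScalarTower k Λ M]
      [FiniteDimensional k M], Module.finrank k M = n →
      (∀ δ δ' (y : M), a δ • a δ' • y = 0) →
      (∀ γ (y : M), ∃ v w : M, a (Q.bar γ) • v = 0 ∧ a (Q.bar (Q.op γ)) • w = 0 ∧
        a γ • y = a γ • v + a (Q.op γ) • w) → InAdd Λ G M := by
  classical
  induction n using Nat.strong_induction_on with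
  | _ n ih =>
  intro M _ _ _ _ _ hn h2 hP
  have step : ∀ {L' : Type} [AddCommGroup L'] [Module Λ L'] (r : M →ₗ[Λ] L'),
      Module.finrank k (LinearMap.ker r) < Module.finrank k M →
      (∃ p : M →ₗ[Λ] LinearMap.ker r, ∀ y : LinearMap.ker r, p y = y) →
      InAdd Λ G (LinearMap.ker r) := by
    intro L' _ _ r hlt ⟨p, hp⟩
    have := finiteDim_sub k (LinearMap.ker r)
    apply ih _ (hn ▸ hlt) _ rfl
    · intro δ δ' y
      exact Subtype.ext (h2 δ δ' y.1)
    · intro γ y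
      obtain ⟨v, w, h3, h4, h5⟩ := hP γ y.1
      refine ⟨p v, p w, by rw [← map_smul, h3, map_zero], by rw [← map_smul, h4, map_zero], ?_⟩
      rw [← map_smul, ← map_smul, ← map_add, ← h5, map_smul, hp]
  let act : Λ → M →ₗ[k] M := fun l => (Algebra.lsmul k k M l : M →ₗ[k] M)
  have act_apply : ∀ l y, act l y = l • y := fun _ _ => rfl
  have ae : ∀ γ (y : M), a γ • e (Q.s γ) • y = a γ • y := fun γ y => by rw [← mul_smul, h.a_e]
  have abe : ∀ γ (y : M), a (Q.bar γ) • e (Q.s γ) • y = a (Q.bar γ) • y := fun γ y => by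
    rw [← Q.s_bar, ae]
  have ee : ∀ i (y : M), e i • e i • y = e i • y := fun i y => by rw [← mul_smul, h.e_e]
  by_cases hW : ∃ γ t, t ∉ LinearMap.ker (act (a γ)) ⊔ LinearMap.ker (act (a (Q.bar γ)))
  · obtain ⟨γ, t, ht⟩ := hW
    obtain ⟨φ, hφ1, hφ2⟩ := exists_functional _ t ht
    have hφl : ∀ y, a γ • y = 0 → φ y = 0 := fun y hy => hφ2 y (Submodule.mem_sup_left hy)
    have hφr : ∀ y, a (Q.bar γ) • y = 0 → φ y = 0 := fun y hy =>
      hφ2 y (Submodule.mem_sup_right hy)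
    have hφe : ∀ y, φ (e (Q.s γ) • y) = φ y := by
      intro y
      have := hφl (y - e (Q.s γ) • y) (by rw [smul_sub, ae, sub_self])
      rw [map_sub, sub_eq_zero] at this
      exact this.symm
    obtain ⟨θ1, hθ1⟩ := exists_factor (act (a γ)) φ hφl
    obtain ⟨θ2, hθ2⟩ := exists_factor (act (a (Q.bar γ))) φ hφr
    simp only [act_apply] at hθ1 hθ2
    obtain ⟨v, w, hv, hw, hvw⟩ := hP γ t
    obtain ⟨v', w', hv', hw', hvw'⟩ := hP (Q.bar γ) t
    rw [Q.bar_bar] at hv'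
    have hx1 : a γ • e (Q.s γ) • (t - v - v') = a (Q.op γ) • e (Q.s (Q.op γ)) • w := by
      rw [ae, ae, smul_sub, smul_sub, hvw, hv']; abel
    have hx2 : a (Q.bar γ) • e (Q.s γ) • (t - v - v') =
        a (Q.op (Q.bar γ)) • e (Q.s (Q.op (Q.bar γ))) • w' := by
      rw [abe, ae, smul_sub, smul_sub, hvw', hv]; abel
    have hφx : φ (e (Q.s γ) • (t - v - v')) = 1 := by
      rw [hφe, map_sub, map_sub, hφ1, hφr v hv, hφl v' hv']; simp
    let R := wRel Q e a γ
    have r0 : ∀ δ δ' (w : Univ Λ R), a δ • a δ' • w = 0 :=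
      univ_radSq fun δ δ' w => Or.inr ⟨δ, δ', w, rfl⟩
    have r1 : e (Q.s γ) • x1 R = x1 R := by
      have : (1 - e (Q.s γ)) • x1 R = 0 := univ_rel1 (Or.inl (by simp))
      rw [sub_smul, one_smul, sub_eq_zero] at this; exact this.symm
    have r2 : e (Q.s (Q.op γ)) • x2 R = x2 R := by
      have : (1 - e (Q.s (Q.op γ))) • x2 R = 0 := univ_rel2 (Or.inl (by simp))
      rw [sub_smul, one_smul, sub_eq_zero] at this; exact this.symm
    have r3 : e (Q.s (Q.op (Q.bar γ))) • x3 R = x3 R := by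
      have : (1 - e (Q.s (Q.op (Q.bar γ)))) • x3 R = 0 := univ_rel3 (Or.inl (by simp))
      rw [sub_smul, one_smul, sub_eq_zero] at this; exact this.symm
    have r4 : a γ • x1 R = a (Q.op γ) • x2 R := by
      have := univ_rel (R := R) (l1 := a γ) (l2 := -a (Q.op γ)) (l3 := 0) (Or.inl (by simp))
      rw [zero_smul, add_zero, neg_smul, add_neg_eq_zero] at this; exact this
    have r5 : a (Q.bar γ) • x1 R = a (Q.op (Q.bar γ)) • x3 R := by
      have := univ_rel (R := R) (l1 := a (Q.bar γ)) (l2 := 0) (l3 := -a (Q.op (Q.bar γ)))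
        (Or.inl (by simp))
      rw [zero_smul, add_zero, neg_smul, add_neg_eq_zero] at this; exact this
    have r6 : a (Q.bar (Q.op γ)) • x2 R = 0 := univ_rel2 (Or.inl (by simp))
    have r7 : a (Q.bar (Q.op (Q.bar γ))) • x3 R = 0 := univ_rel3 (Or.inl (by simp))
    let ρ : M →ₗ[k] Univ Λ R := φ.smulRight (x1 R) + wing Q e a γ θ1 (x2 R) +
      wing Q e a (Q.bar γ) θ2 (x3 R)
    have ρ_apply : ∀ y, ρ y = φ y • x1 R + wing Q e a γ θ1 (x2 R) y +
      wing Q e a (Q.bar γ) θ2 (x3 R) y := fun y => rfl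
    have he : ∀ i y, ρ (e i • y) = e i • ρ y := by
      intro i y
      rw [ρ_apply, ρ_apply, h.wing_e _ _ _ r2, h.wing_e _ _ _ r3, smul_add, smul_add,
        smul_comm (e i)]
      congr 2
      by_cases hi : i = Q.s γ
      · rw [hi, hφe, r1]
      · rw [← hφe, ← mul_smul, h.e_e_ne (Ne.symm hi), ← r1, ← mul_smul (e i), h.e_e_ne hi]; simp
    have ha : ∀ δ y, ρ (a δ • y) = a δ • ρ y := by
      intro δ y
      rw [ρ_apply, ρ_apply, h.wing_a h2 r0 _ _ _ r2 r6, h.wing_a h2 r0 _ _ _ r3 r7,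
        hφl _ (h2 _ _ _), zero_smul, zero_add, smul_add, smul_add, smul_comm (a δ) (φ y), hθ1, hθ2]
      by_cases h1 : δ = γ
      · rw [if_pos h1, if_neg (by rw [h1]; exact (Q.bar_ne γ).symm), h1, r4]; abel
      · by_cases h3 : δ = Q.bar γ
        · rw [if_neg h1, if_pos h3, h3, r5]; abel
        · have hs : Q.s δ ≠ Q.s γ := fun hs => (Q.eq_or_bar γ δ hs).elim h1 h3
          rw [if_neg h1, if_neg h3, ← r1, ← mul_smul (a δ) (e _), h.a_e_ne hs]
          simp
    have hne : Q.op (Q.bar γ) ≠ Q.op γ := fun hh => Q.bar_ne γ (by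
      rw [← Q.op_op (Q.bar γ), hh, Q.op_op])
    have hw1 : a (Q.bar (Q.op γ)) • e (Q.s (Q.op γ)) • w = 0 := by rw [abe, hw]
    have hw2 : a (Q.bar (Q.op (Q.bar γ))) • e (Q.s (Q.op (Q.bar γ))) • w' = 0 := by rw [abe, hw']
    refine h.split_univ hN R (e (Q.s γ) • (t - v - v')) (e (Q.s (Q.op γ)) • w)
      (e (Q.s (Q.op (Q.bar γ))) • w') ?_ (h.mkLin ρ he ha) ?_ ?_ (hGw γ) (step _)
    · rintro u (hu | ⟨δ, δ', u, rfl⟩)
      · simp only [Set.mem_insert_iff, Set.mem_singleton_iff] at hu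
        rcases hu with rfl | rfl | rfl | rfl | rfl | rfl | rfl
        · simp only [sub_smul, one_smul, ee]; simp
        · simp only [sub_smul, one_smul, ee]; simp
        · simp only [sub_smul, one_smul, ee]; simp
        · simp only [hx1]; simp
        · simp only [hx2]; simp
        · simp only [hw1]; simp
        · simp only [hw2]; simp
      · exact radSq_rel h2 _ _ _ δ δ' u
    · intro h0
      rw [h0, map_zero] at hφx
      exact zero_ne_one hφx
    · intro U h1 h3 h4 hU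
      have hs1 : a (Q.op γ) • x2 R ∈ U := hU (h.a_mem_rad _ Submodule.mem_top)
      have hs2 : a (Q.op (Q.bar γ)) • x3 R ∈ U := hU (h.a_mem_rad _ Submodule.mem_top)
      rw [mkLin_apply, ρ_apply, wing_apply, wing_apply] at h1 h3 h4
      rw [hφl _ (h.a_smul_zero (ee _ _) hw1 (Q.op_ne γ).symm), ← hx1, hθ1, hφx,
        h.a_smul_zero (ee _ _) hw1 hne, map_zero, zero_smul, zero_smul, zero_add, add_zero,
        one_smul] at h3
      rw [hφr _ (h.a_smul_zero (ee _ _) hw2 (Q.op_ne _).symm), ← hx2, hθ2, hφx,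
        h.a_smul_zero (ee _ _) hw2 hne.symm, map_zero, zero_smul, zero_smul, zero_add, add_zero,
        one_smul] at h4
      rw [hφx, one_smul] at h1
      have h5 : x2 R ∈ U := by
        rw [U.add_mem_iff_left (U.smul_of_tower_mem _ hs2),
          U.add_mem_iff_right (U.smul_of_tower_mem _ hs1)] at h3
        exact h3
      have h6 : x3 R ∈ U := by
        rw [U.add_mem_iff_right (U.smul_of_tower_mem _ hs1),
          U.add_mem_iff_right (U.smul_of_tower_mem _ hs2)] at h4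
        exact h4
      refine ⟨?_, h5, h6⟩
      rw [U.add_mem_iff_left (U.add_mem (U.smul_of_tower_mem _ hs2) (U.smul_of_tower_mem _ h6)),
        U.add_mem_iff_left (U.add_mem (U.smul_of_tower_mem _ hs1) (U.smul_of_tower_mem _ h5))] at h1
      exact h1
  by_cases hV : ∃ γ, ∃ v w : M, a (Q.bar γ) • v = 0 ∧ a (Q.bar (Q.op γ)) • w = 0 ∧
      a γ • v = a (Q.op γ) • w ∧ a γ • v ≠ 0
  · obtain ⟨γ, v, w, hv, hw, hvw, hne⟩ := hV
    obtain ⟨θ, hθ, -⟩ := exists_functional (⊥ : Submodule k M) (a γ • v) (by simpa using hne)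
    let R := vRel Q e a γ
    have r0 : ∀ δ δ' (w : Univ Λ R), a δ • a δ' • w = 0 :=
      univ_radSq fun δ δ' w => Or.inr ⟨δ, δ', w, rfl⟩
    have r1 : e (Q.s γ) • x1 R = x1 R := by
      have : (1 - e (Q.s γ)) • x1 R = 0 := univ_rel1 (Or.inl (by simp))
      rw [sub_smul, one_smul, sub_eq_zero] at this; exact this.symm
    have r2 : e (Q.s (Q.op γ)) • x2 R = x2 R := by
      have : (1 - e (Q.s (Q.op γ))) • x2 R = 0 := univ_rel2 (Or.inl (by simp))
      rw [sub_smul, one_smul, sub_eq_zero] at this; exact this.symm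
    have r3 : x3 R = 0 := by simpa using univ_rel3 (R := R) (l := 1) (Or.inl (by simp))
    have r4 : a γ • x1 R = a (Q.op γ) • x2 R := by
      have := univ_rel (R := R) (l1 := a γ) (l2 := -a (Q.op γ)) (l3 := 0) (Or.inl (by simp))
      rw [zero_smul, add_zero, neg_smul, add_neg_eq_zero] at this; exact this
    have r5 : a (Q.bar γ) • x1 R = 0 := univ_rel1 (Or.inl (by simp))
    have r6 : a (Q.bar (Q.op γ)) • x2 R = 0 := univ_rel2 (Or.inl (by simp))
    let ρ : M →ₗ[k] Univ Λ R := (θ ∘ₗ act (a γ)).smulRight (x1 R) + wing Q e a γ θ (x2 R)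
    have ρ_apply : ∀ y, ρ y = θ (a γ • y) • x1 R + wing Q e a γ θ (x2 R) y := fun y => rfl
    have he : ∀ i y, ρ (e i • y) = e i • ρ y := by
      intro i y
      rw [ρ_apply, ρ_apply, h.wing_e _ _ _ r2, smul_add, h.coef_e _ _ _ r1]
    have ha : ∀ δ y, ρ (a δ • y) = a δ • ρ y := by
      intro δ y
      rw [ρ_apply, ρ_apply, h.wing_a h2 r0 _ _ _ r2 r6, h2, map_zero, zero_smul, zero_add,
        smul_add, smul_comm (a δ) (θ _)]
      by_cases h1 : δ = γ
      · rw [if_pos h1, h1, r4]; abel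
      · rw [if_neg h1, h.a_smul_zero r1 r5 h1]; simp
    have hv1 : a (Q.bar γ) • e (Q.s γ) • v = 0 := by rw [abe, hv]
    have hw1 : a (Q.bar (Q.op γ)) • e (Q.s (Q.op γ)) • w = 0 := by rw [abe, hw]
    refine h.split_univ hN R (e (Q.s γ) • v) (e (Q.s (Q.op γ)) • w) 0 ?_ (h.mkLin ρ he ha) ?_ ?_
      (hGv γ) (step _)
    · rintro u (hu | ⟨δ, δ', u, rfl⟩)
      · simp only [Set.mem_insert_iff, Set.mem_singleton_iff] at hu
        rcases hu with rfl | rfl | rfl | rfl | rfl | rfl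
        · simp only [sub_smul, one_smul, ee]; simp
        · simp only [sub_smul, one_smul, ee]; simp
        · simp
        · simp only [neg_smul, ae, hvw]; simp
        · simp only [hv1]; simp
        · simp only [hw1]; simp
      · exact radSq_rel h2 _ _ _ δ δ' u
    · intro h0
      apply hne
      rw [← ae, h0, smul_zero]
    · intro U h1 h3 _ hU
      have hs1 : a (Q.op γ) • x2 R ∈ U := hU (h.a_mem_rad _ Submodule.mem_top)
      rw [mkLin_apply, ρ_apply, wing_apply] at h1 h3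
      rw [ae, hθ, one_smul, h.a_smul_zero (ee _ _) hv1 (Q.op_ne γ), map_zero, zero_smul, add_zero,
        U.add_mem_iff_left (U.smul_of_tower_mem _ hs1)] at h1
      rw [ae, ← hvw, hθ, one_smul, U.add_mem_iff_right (U.smul_of_tower_mem _ h1),
        U.add_mem_iff_right (U.smul_of_tower_mem _ hs1)] at h3
      exact ⟨h1, h3, r3 ▸ U.zero_mem⟩
  push Not at hW hV
  apply h.local_add hN hL hG _ M rfl (fun β y => h2 _ _ y)
  intro β y y' hyy
  obtain ⟨y1, hy1, y2, hy2, rfl⟩ := Submodule.mem_sup.mp (hW β y)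
  obtain ⟨z1, hz1, z2, hz2, rfl⟩ := Submodule.mem_sup.mp (hW (Q.op β) y')
  rw [LinearMap.mem_ker, act_apply] at hy1 hy2 hz1 hz2
  rw [smul_add, hy1, zero_add] at hyy ⊢
  rw [smul_add, hz1, zero_add] at hyy
  exact hV β y2 z2 hy2 hz2 hyy

end Gen

end Pool.Agent.Lib.MP_c55f2d_al
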