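import Pool.Agent.Lib.MP_c55f2d_al.Quiver

namespace Pool.Agent.Lib.MP_c55f2d_al

section soc

variable {Ar Λ : Type} [Ring Λ] {a : Ar → Λ}

theorem InSoc.mul_right {r : Λ} (h : InSoc a r) (l : Λ) : InSoc a (r * l) := fun δ => by
  rw [← mul_assoc, h δ, zero_mul]

theorem InSoc.zero : InSoc a 0 := fun _ => mul_zero _

end soc

namespace WSPres

variable {k V Ar Λ : Type} [Field k] [Ring Λ] [Algebra k Λ] [Fintype V]
  {Q : TriQuiver V Ar} {m : Ar → ℕ} {c : Ar → k} {e : V → Λ} {a : Ar → Λ}

/-- The number `m α * n α`. -/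
noncomputable def N (Q : TriQuiver V Ar) (m : Ar → ℕ) (α : Ar) : ℕ :=
  m α * Function.minimalPeriod Q.g α

omit [Fintype V] in
theorem iter_N (α : Ar) : Q.g^[N Q m α] α = α :=
  ((Function.isPeriodicPt_minimalPeriod Q.g α).const_mul (m α)).eq

variable (h : WSPres k Q m c e a)
include h

theorem toGen : Gen k Q e a := ⟨h.idem, h.arrow, h.gen⟩

theorem four (α : Ar) : 4 ≤ N Q m α := h.four_le α

theorem g_iter_pred (α : Ar) : Q.g (Q.g^[N Q m α - 1] α) = α := by
  have h4 := h.four α
  have := iter_N (Q := Q) (m := m) α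
  rw [show N Q m α = (N Q m α - 1) + 1 by omega, Function.iterate_succ_apply'] at this
  exact this

theorem g_g_iter (α : Ar) : Q.g (Q.g (Q.g^[N Q m α - 2] α)) = α := by
  have h4 := h.four α
  have := h.g_iter_pred α
  rw [show N Q m α - 1 = (N Q m α - 2) + 1 by omega, Function.iterate_succ_apply'] at this
  exact this

/-- The path `A` is annihilated by the arrows modulo the socle. -/
theorem a_A (δ β : Ar) : InSoc a (a δ * gpath Q e a (Q.bar β) (N Q m (Q.bar β) - 1)) := by
  have hg := h.toGen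
  have h4 := h.four (Q.bar β)
  have hlast : Q.g^[N Q m (Q.bar β) - 1] (Q.bar β) = Q.f (Q.f β) := by
    apply Q.g_inj
    rw [h.g_iter_pred, TriQuiver.g, Q.f_cube]
  by_cases hd : Q.s δ = Q.t (Q.f β)
  · rcases Q.out_cases hd with rfl | rfl
    · have := h.rel4 (Q.bar β)
      change InSoc a (gpath Q e a (Q.bar β) (N Q m (Q.bar β))) at this
      rw [show N Q m (Q.bar β) = (N Q m (Q.bar β) - 1) + 1 by omega, gpath, hlast] at this
      exact this
    · intro δ'
      have h1 := h.rel1 β (Q.g (Q.f β))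
      have h2 := h.rel2 β δ'
      change a (Q.g (Q.f β)) * (a (Q.f β) * a β - c (Q.bar β) •
        gpath Q e a (Q.bar β) (N Q m (Q.bar β) - 1)) = 0 at h1
      rw [mul_sub, sub_eq_zero, mul_smul_comm, ← mul_assoc] at h1
      rw [h1, mul_smul_comm] at h2
      exact (smul_eq_zero.mp h2).resolve_left (h.c_ne _)
  · rw [hg.a_gpath_ne (by rw [hlast, Q.s_f]; exact hd)]
    exact InSoc.zero

theorem a_f_a (δ β : Ar) : InSoc a (a δ * (a (Q.f β) * a β)) := by
  intro δ'
  have h1 := h.rel1 β δ
  change a δ * (a (Q.f β) * a β - c (Q.bar β) •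
    gpath Q e a (Q.bar β) (N Q m (Q.bar β) - 1)) = 0 at h1
  rw [mul_sub, sub_eq_zero, mul_smul_comm] at h1
  rw [h1, mul_smul_comm, h.a_A δ β δ', smul_zero]

theorem exists_bound [Fintype Ar] : ∃ L, ∀ α, gpath Q e a α L = 0 := by
  have hg := h.toGen
  refine ⟨Finset.univ.sup (N Q m) + 1, fun α => ?_⟩
  have h1 : N Q m α ≤ Finset.univ.sup (N Q m) := Finset.le_sup (Finset.mem_univ α)
  obtain ⟨d, hd⟩ := Nat.exists_eq_add_of_le h1
  have h2 : gpath Q e a α (N Q m α + 1) = 0 := by
    rw [gpath]; exact h.rel4 α _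
  rw [hd, show N Q m α + d + 1 = (N Q m α + 1) + d by omega, hg.gpath_add, h2, mul_zero]

theorem nak [Fintype Ar] : h.toGen.Nak := by
  intro M _ _ _ _ U hU
  have hg := h.toGen
  obtain ⟨L, hL⟩ := h.exists_bound
  let S2 : Submodule k M :=
    { carrier := {y | ∀ δ δ', a δ • a δ' • y = 0}
      add_mem' := fun {x y} hx hy δ δ' => by rw [smul_add, smul_add, hx, hy, add_zero]
      zero_mem' := fun δ δ' => by simp
      smul_mem' := fun r x hx δ δ' => by rw [smul_comm (a δ'), smul_comm (a δ), hx, smul_zero] }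
  have key : ∀ n, ∀ y ∈ (hg.rad)^[n + 1] (⊤ : Submodule Λ M),
      y ∈ Submodule.span k {y | ∃ (α : Ar) (z : M), y = gpath Q e a α (n + 1) • z} ⊔ S2 := by
    intro n
    induction n with
    | zero =>
      apply hg.rad_le_of
      intro δ z _
      exact Submodule.mem_sup_left (Submodule.subset_span ⟨δ, z, by rw [hg.gpath_one]⟩)
    | succ n ih =>
      rw [Function.iterate_succ_apply']
      apply hg.rad_le_of
      intro δ z hz
      obtain ⟨z1, h1, z2, h2, rfl⟩ := Submodule.mem_sup.mp (ih z hz)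
      rw [smul_add]
      refine Submodule.add_mem _ ?_ (Submodule.mem_sup_right fun δ1 δ2 => by
        rw [h2 δ2 δ, smul_zero])
      clear hz
      induction h1 using Submodule.span_induction with
      | mem y hy =>
        obtain ⟨α, z, rfl⟩ := hy
        rw [← mul_smul]
        by_cases hd : Q.s δ = Q.t (Q.g^[n] α)
        · rcases Q.out_cases hd with rfl | rfl
          · apply Submodule.mem_sup_right
            intro δ1 δ2
            rw [gpath, ← mul_smul, ← mul_smul, ← mul_assoc (a (Q.f _)), mul_assoc (a δ1),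
              ← mul_assoc (a δ2), ← mul_assoc, h.a_f_a δ2 _ δ1, zero_mul, zero_smul]
          · apply Submodule.mem_sup_left
            refine Submodule.subset_span ⟨α, z, ?_⟩
            rw [gpath.eq_2 Q e a α (n + 1), Function.iterate_succ_apply']
        · rw [hg.a_gpath_ne (by rw [Q.s_iter_succ]; exact hd), zero_smul]
          exact Submodule.zero_mem _
      | zero => simp
      | add x y _ _ hx hy => rw [smul_add]; exact Submodule.add_mem _ hx hy
      | smul r x _ hx => rw [smul_comm]; exact Submodule.smul_mem _ r hx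
  have hL' : ∀ α, gpath Q e a α (L + 1) = 0 := fun α => by rw [gpath, hL, mul_zero]
  have h1 : ∀ y ∈ (hg.rad)^[L + 1] (⊤ : Submodule Λ M), y ∈ S2 := by
    intro y hy
    have := key L y hy
    rwa [show Submodule.span k {y | ∃ (α : Ar) (z : M), y = gpath Q e a α (L + 1) • z} = ⊥ from
      Submodule.span_eq_bot.mpr (by rintro _ ⟨α, z, rfl⟩; rw [hL', zero_smul]), bot_sup_eq] at this
  apply hg.nakayama (L := L + 1 + 1 + 1) _ U hU
  rw [eq_bot_iff, Function.iterate_succ_apply']
  apply hg.rad_le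
  intro δ y hy
  rw [Function.iterate_succ_apply'] at hy
  have : y ∈ LinearMap.ker ((Algebra.lsmul k k M (a δ) : M →ₗ[k] M)) := by
    refine hg.rad_le_of _ ?_ y hy
    intro δ' z hz
    simpa using h1 z hz δ δ'
  simpa using this

end WSPres

end Pool.Agent.Lib.MP_c55f2d_al
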