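import Pool.Agent.Lib.MP_c55f2d_al.QMain
import Pool.Agent.Lib.MP_c55f2d_al.H94Kasch

/-! Approximations by the radical-generated modules and the global dimension of `End G`. -/

universe u

namespace Pool.Agent.Lib.MP_c55f2d_al.Q

open CategoryTheory MulOpposite

section pd

variable {R : Type u} [Ring R] {M N P : Type u} [AddCommGroup M] [Module R M] [AddCommGroup N]
  [Module R N] [AddCommGroup P] [Module R P]

theorem rd_step (f : M →ₗ[R] P) (g : P →ₗ[R] N) (hf : Function.Injective f)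
    (hfg : Function.Exact f g) (hg : Function.Surjective g) (hP : Module.Projective R P) (n : ℕ)
    (h : HasProjectiveDimensionLT (ModuleCat.of R M) (n + 1)) :
    HasProjectiveDimensionLT (ModuleCat.of R N) (n + 2) :=
  ((ModuleCat.shortComplex_shortExact
    (ShortComplex.moduleCatMk f g hfg.linearMap_comp_eq_zero) hfg hf hg).hasProjectiveDimensionLT_X₃_iff
      n (ModuleCat.projective_of_categoryTheory_projective (ModuleCat.of R P))).2 h

end pd

variable {A : Type u} [Ring A] (G : Type u) [AddCommGroup G] [Module A G]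

/-- `Hom_A(G, X)` as a right module over `End G` -/
def HG (X : Type u) [AddCommGroup X] [Module A X] : Type u := G →ₗ[A] X

variable {X Y : Type u} [AddCommGroup X] [Module A X] [AddCommGroup Y] [Module A Y]

instance : AddCommGroup (HG (A := A) G X) := inferInstanceAs (AddCommGroup (G →ₗ[A] X))

/-- the underlying linear map -/
def HG.lin {G : Type u} [AddCommGroup G] [Module A G] (f : HG (A := A) G X) : G →ₗ[A] X := f

instance : Module (Module.End A G)ᵐᵒᵖ (HG (A := A) G X) where
  smul e f := f.lin ∘ₗ e.unop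
  one_smul _ := rfl
  mul_smul _ _ _ := rfl
  smul_zero _ := rfl
  smul_add _ _ _ := rfl
  add_smul a b f := LinearMap.comp_add a.unop b.unop f.lin
  zero_smul f := LinearMap.comp_zero f.lin

/-- functoriality -/
def HG.map (f : X →ₗ[A] Y) : HG (A := A) G X →ₗ[(Module.End A G)ᵐᵒᵖ] HG (A := A) G Y where
  toFun g := f ∘ₗ g.lin
  map_add' a b := LinearMap.comp_add a.lin b.lin f
  map_smul' _ _ := rfl

/-- `Hom(G, G ^ n)` is free -/
def HG.free (n : ℕ) :
    HG (A := A) G (Fin n → G) ≃ₗ[(Module.End A G)ᵐᵒᵖ] (Fin n → (Module.End A G)ᵐᵒᵖ) where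
  toFun g i := op (LinearMap.proj i ∘ₗ g.lin)
  invFun v := LinearMap.pi fun i => (v i).unop
  map_add' _ _ := rfl
  map_smul' _ _ := rfl
  left_inv _ := rfl
  right_inv _ := rfl

variable {G}

theorem HG.projective (h : InAdd A G X) :
    Module.Projective (Module.End A G)ᵐᵒᵖ (HG (A := A) G X) := by
  obtain ⟨n, i, r, h⟩ := h
  have := Module.Projective.of_equiv (HG.free (A := A) G n).symm
  exact .of_split (HG.map G i) (HG.map G r)
    (LinearMap.ext fun g => LinearMap.ext fun x => h (g.lin x))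

theorem HG.full {n : ℕ}
    (φ : HG (A := A) G (Fin n → G) →ₗ[(Module.End A G)ᵐᵒᵖ] HG (A := A) G X) :
    ∃ f : (Fin n → G) →ₗ[A] X, φ = HG.map G f := by
  let s : Fin n → HG (A := A) G (Fin n → G) := fun i => LinearMap.single A (fun _ => G) i
  refine ⟨∑ i, (φ (s i)).lin ∘ₗ LinearMap.proj i, LinearMap.ext fun g => ?_⟩
  have h : g = ∑ i, (op (LinearMap.proj i ∘ₗ g.lin) : (Module.End A G)ᵐᵒᵖ) • s i :=
    LinearMap.ext fun x => ((LinearMap.sum_apply (R := A) Finset.univ
      (fun i => LinearMap.single A (fun _ => G) i ∘ₗ LinearMap.proj i ∘ₗ g.lin) x).trans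
        (Finset.univ_sum_single (g.lin x))).symm
  conv_lhs => rw [h, map_sum]
  simp only [map_smul]
  exact LinearMap.ext fun x => (LinearMap.sum_apply (R := A) Finset.univ
    (fun i => (φ (s i)).lin ∘ₗ LinearMap.proj i ∘ₗ g.lin) x).trans
      (LinearMap.sum_apply (R := A) Finset.univ
        (fun i => (φ (s i)).lin ∘ₗ LinearMap.proj i) (g.lin x)).symm

theorem HG.injective {f : X →ₗ[A] Y} (hf : Function.Injective f) :
    Function.Injective (HG.map G f) := fun _ _ h =>
  LinearMap.ext fun x => hf (LinearMap.congr_fun h x)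

theorem HG.exact (f : X →ₗ[A] Y) :
    Function.Exact (HG.map G (LinearMap.ker f).subtype) (HG.map G f) := fun g =>
  ⟨fun h => ⟨g.lin.codRestrict _ fun x => LinearMap.congr_fun h x, rfl⟩,
    fun ⟨a, h⟩ => h ▸ LinearMap.ext fun x => (a.lin x).2⟩

/-- the approximation property bounds the global dimension of `End G` -/
theorem rd_gldim [IsNoetherianRing A] [Module.Finite A G]
    [IsNoetherianRing (Module.End A G)ᵐᵒᵖ]
    (hG : ∀ (X : Type u) [AddCommGroup X] [Module A X] [Module.Finite A X],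
      ∃ (M : Type u) (_ : AddCommGroup M) (_ : Module A M) (p : M →ₗ[A] X), InAdd A G M ∧
        InAdd A G (LinearMap.ker p) ∧ ∀ g : G →ₗ[A] X, ∃ g' : G →ₗ[A] M, p ∘ₗ g' = g)
    (N : Type u) [AddCommGroup N] [Module (Module.End A G)ᵐᵒᵖ N]
    [Module.Finite (Module.End A G)ᵐᵒᵖ N] :
    HasProjectiveDimensionLE (ModuleCat.of (Module.End A G)ᵐᵒᵖ N) 3 := by
  have pw : ∀ n, InAdd A G (Fin n → G) := fun n => ⟨n, .id, .id, fun _ => rfl⟩
  obtain ⟨n, π, hπ⟩ := Module.Finite.exists_fin' (Module.End A G)ᵐᵒᵖ N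
  obtain ⟨m, ρ, hρ⟩ := Module.Finite.exists_fin' (Module.End A G)ᵐᵒᵖ (LinearMap.ker π)
  obtain ⟨f, hf⟩ := HG.full ((HG.free (A := A) G n).symm.toLinearMap ∘ₗ (LinearMap.ker π).subtype ∘ₗ
    ρ ∘ₗ (HG.free (A := A) G m).toLinearMap)
  obtain ⟨M, _, _, p, h1, h2, h3⟩ := hG (LinearMap.ker f)
  have := HG.projective h2
  have a0 : HasProjectiveDimensionLT
      (ModuleCat.of (Module.End A G)ᵐᵒᵖ (HG (A := A) G (LinearMap.ker p))) 1 :=
    projective_iff_hasProjectiveDimensionLT_one.1
      (ModuleCat.projective_of_categoryTheory_projective _)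
  have a1 := rd_step _ _ (HG.injective (Submodule.injective_subtype _)) (HG.exact p) h3
    (HG.projective h1) 0 a0
  have a2 := rd_step (HG.map G (LinearMap.ker f).subtype) (ρ ∘ₗ (HG.free (A := A) G m).toLinearMap)
    (HG.injective (Submodule.injective_subtype _)) (fun g => by
      rw [← HG.exact f g, ← hf]
      simp) (hρ.comp (HG.free (A := A) G m).surjective) (HG.projective (pw m)) 1 a1
  exact rd_step _ π (Submodule.injective_subtype _) π.exact_subtype_ker_map hπ inferInstance 2 a2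

theorem rd_trace (h : InFac A X) (f : X →ₗ[A] Y) (x : X) :
    f x ∈ ⨆ φ : Hm A Y, LinearMap.range φ.lin := by
  have : (⊤ : Submodule A X) ≤ (⨆ φ : Hm A Y, LinearMap.range φ.lin).comap f := by
    rw [← h]
    refine iSup_le fun φ => ?_
    rintro _ ⟨b, rfl⟩
    exact Submodule.mem_iSup_of_mem (Hm.map f φ) ⟨b, rfl⟩
  exact this Submodule.mem_top

theorem rd_inFac_trace : InFac A (⨆ φ : Hm A X, LinearMap.range φ.lin : Submodule A X) := by
  refine eq_top_iff.2 fun ⟨y, hy⟩ _ => ?_
  refine Submodule.iSup_induction' (fun φ : Hm A X => LinearMap.range φ.lin)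
    (motive := fun y hy => (⟨y, hy⟩ : (⨆ φ : Hm A X, LinearMap.range φ.lin : Submodule A X)) ∈
      ⨆ φ : Hm A (⨆ φ : Hm A X, LinearMap.range φ.lin : Submodule A X), LinearMap.range φ.lin)
    ?_ (Submodule.zero_mem _) (fun u v _ _ hu hv => Submodule.add_mem _ hu hv) hy
  rintro φ _ ⟨b, rfl⟩
  exact Submodule.mem_iSup_of_mem (Hm.of (φ.lin.codRestrict _ fun b =>
    Submodule.mem_iSup_of_mem φ ⟨b, rfl⟩)) ⟨b, rfl⟩

theorem rd_cover {k : Type u} [Field k] [Algebra k A] [FiniteDimensional k A] (n : ℕ)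
    (Q : Submodule A (Fin n → A)) :
    ∃ h : (Fin n → A) →ₗ[A] (Fin n → A), (∀ x, h x ∈ Q) ∧
      ∀ x ∈ Q, x - h x ∈ J A • (⊤ : Submodule A (Fin n → A)) := by
  have : IsArtinianRing A := isArtinian_of_tower k inferInstance
  have : IsSemisimpleModule A (A ⧸ J A) :=
    (IsArtinian.isSemisimpleModule_iff_jacobson A _).2 (Module.jacobson_quotient_jacobson A A)
  set T := J A • (⊤ : Submodule A (Fin n → A)) with hT
  obtain ⟨m, i, r, hr⟩ := inAdd_top (k := k) (A := A) ((Fin n → A) ⧸ T) fun a ha x => by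
    obtain ⟨x, rfl⟩ := Submodule.Quotient.mk_surjective _ x
    rw [← Submodule.Quotient.mk_smul, Submodule.Quotient.mk_eq_zero]
    exact Submodule.smul_mem_smul ha Submodule.mem_top
  have := IsSemisimpleModule.of_surjective r fun x => ⟨_, hr x⟩
  let q : Q →ₗ[A] (Fin n → A) ⧸ T := T.mkQ ∘ₗ Q.subtype
  obtain ⟨ε, hε⟩ := IsSemisimpleModule.extension_property (LinearMap.range q).subtype
    (Submodule.injective_subtype _) LinearMap.id
  obtain ⟨h, hh⟩ := Module.projective_lifting_property q.rangeRestrict (ε ∘ₗ T.mkQ)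
    q.surjective_rangeRestrict
  refine ⟨Q.subtype ∘ₗ h, fun x => (h x).2, fun x hx => ?_⟩
  rw [← Submodule.Quotient.eq]
  have h1 := congrArg Subtype.val (LinearMap.congr_fun hh x)
  have h2 := congrArg Subtype.val (LinearMap.congr_fun hε ⟨q ⟨x, hx⟩, _, rfl⟩)
  exact h2.symm.trans h1.symm

theorem InAdd.pi_self (h : InAdd A G X) (n : ℕ) : InAdd A G (Fin n → X) := by
  induction n with
  | zero => exact InAdd.of_subsingleton
  | succ n ih =>
    let e := Fin.consLinearEquiv A fun _ : Fin (n + 1) => X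
    exact (h.prod ih).retract e.symm.toLinearMap e.toLinearMap e.apply_symm_apply

theorem main_repdim {k A : Type u} [Field k] [IsAlgClosed k] [Ring A] [Algebra k A]
    [FiniteDimensional k A] (hT : Tame k A) :
    ∃ G : FGModuleCat.{u} A, InAdd A G A ∧
      ∀ (N : Type u) [AddCommGroup N] [Module (Module.End A G)ᵐᵒᵖ N]
        [Module.Finite (Module.End A G)ᵐᵒᵖ N],
        HasProjectiveDimensionLE (ModuleCat.of (Module.End A G)ᵐᵒᵖ N) 3 := by
  classical
  have : IsNoetherianRing A := isNoetherian_of_tower k inferInstance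
  obtain ⟨b, hb⟩ := step1 hT.tameMat
  obtain ⟨n, G, hG⟩ := step2 hT.tameMat b
  have : ∀ i, Module.Finite A (G i) := fun i => Module.Finite.of_restrictScalars_finite k A _
  let G₀ : Type u := A × ∀ i : {i // InFac A (G i)}, G i
  have : Module.Finite k (Module.End A G₀) := Module.Finite.of_injective
    (LinearMap.restrictScalarsₗ k A G₀ G₀ k) (LinearMap.restrictScalars_injective k)
  have : IsNoetherianRing (Module.End A G₀)ᵐᵒᵖ := isNoetherian_of_tower k inferInstance
  have hA : InAdd A G₀ A := InAdd.self.retract (LinearMap.inl A _ _) (LinearMap.fst A _ _)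
    fun _ => rfl
  have hF : ∀ (X : Type u) [AddCommGroup X] [Module A X] [Module.Finite A X], InFac A X →
      InAdd A G₀ X := by
    intro X _ _ _ hX
    let : Module k X := Module.compHom X (algebraMap k A)
    have : IsScalarTower k A X := ⟨fun c a x => by rw [Algebra.smul_def, mul_smul]; rfl⟩
    have : FiniteDimensional k X := Module.Finite.trans A X
    refine inAdd_of_inFac (k := k) (G := G₀) (fun X hX hF => ?_) ⟨X⟩ hX
    obtain ⟨i, ⟨e⟩⟩ := hG X ⟨hX, hb X hX hF⟩ hF
    let j : {i // InFac A (G i)} := ⟨i, hF.of_surjective e.toLinearMap e.surjective⟩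
    exact InAdd.self.retract
      (LinearMap.inr A _ _ ∘ₗ LinearMap.single A (fun i : {i // InFac A (G i)} => G i) j ∘ₗ
        e.toLinearMap)
      (e.symm.toLinearMap ∘ₗ LinearMap.proj (φ := fun i : {i // InFac A (G i)} => G i) j ∘ₗ
        LinearMap.snd A _ _) fun x =>
      (congrArg e.symm (Pi.single_eq_same (M := fun i : {i // InFac A (G i)} => G i) j (e x))).trans
        (e.symm_apply_apply x)
  refine ⟨FGModuleCat.of A G₀, hA, fun N _ _ _ => rd_gldim (G := G₀) (fun X _ _ _ => ?_) N⟩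
  obtain ⟨m, π, hπ⟩ := Module.Finite.exists_fin' A X
  set t : Submodule A X := ⨆ φ : Hm A X, LinearMap.range φ.lin with ht
  set T := J A • (⊤ : Submodule A (Fin m → A)) with hT
  have hTQ : T ≤ t.comap π := fun x hx => rd_trace inFac_rad (π ∘ₗ T.subtype) ⟨x, hx⟩
  obtain ⟨h, h1, h2⟩ := rd_cover (k := k) m (t.comap π)
  refine ⟨t × (Fin m → A), inferInstance, inferInstance, t.subtype.coprod π,
    (hF t rd_inFac_trace).prod (hA.pi_self m), ?_, fun g => ?_⟩
  · have h3 : ∀ z : LinearMap.ker (t.subtype.coprod π), (z.1.1 : X) = -π z.1.2 := fun z =>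
      eq_neg_of_add_eq_zero_left z.2
    let a : LinearMap.ker (t.subtype.coprod π) →ₗ[A] (Fin m → A) :=
      LinearMap.snd A _ _ ∘ₗ Submodule.subtype _
    let q : ((Fin m → A) × T) →ₗ[A] (Fin m → A) := h.coprod T.subtype
    have h4 : ∀ z, π (q z) ∈ t := fun z => (t.comap π).add_mem (h1 _) (hTQ z.2.2)
    refine ((hA.pi_self m).prod (hF T inFac_rad)).retract
      (a.prod ((a - h ∘ₗ a).codRestrict T fun z => h2 _ ?_))
      ((((-(π ∘ₗ q)).codRestrict t fun z => t.neg_mem (h4 z)).prod q).codRestrict _ fun z => ?_)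
      fun z => ?_
    · have h5 : π z.1.2 = -(z.1.1 : X) := by rw [h3, neg_neg]
      exact (h5 ▸ t.neg_mem z.1.1.2 : π z.1.2 ∈ t)
    · exact neg_add_cancel (π (q z))
    · have h5 : h z.1.2 + (z.1.2 - h z.1.2) = z.1.2 := add_sub_cancel _ _
      exact Subtype.ext (Prod.ext (Subtype.ext ((congrArg (fun y => -π y) h5).trans (h3 z).symm)) h5)
  · obtain ⟨g₁, hg₁⟩ := Module.projective_lifting_property π (g ∘ₗ LinearMap.inl A _ _) hπ
    have h3 : ∀ x, (g ∘ₗ LinearMap.inr A _ _) x ∈ t := fun x => by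
      rw [← Finset.univ_sum_single x, map_sum]
      exact t.sum_mem fun i _ => rd_trace i.2 ((g ∘ₗ LinearMap.inr A _ _) ∘ₗ
        LinearMap.single A (fun i : {i // InFac A (G i)} => G i) i) (x i)
    refine ⟨(((g ∘ₗ LinearMap.inr A _ _).codRestrict t h3) ∘ₗ LinearMap.snd A _ _).prod
      (g₁ ∘ₗ LinearMap.fst A _ _), LinearMap.ext fun x => ?_⟩
    have h4 : π (g₁ x.1) = g (x.1, 0) := LinearMap.congr_fun hg₁ x.1
    calc _ = g (0, x.2) + π (g₁ x.1) := rfl
      _ = g (0, x.2) + g (x.1, 0) := congrArg _ h4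
      _ = g x := (map_add g _ _).symm.trans (congrArg g (Prod.ext (zero_add _) (add_zero _)))

end Pool.Agent.Lib.MP_c55f2d_al.Q
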