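import Pool.Agent.Lib.MP_c55f2d_al.Rels

namespace Pool.Agent.Lib.MP_c55f2d_al

/-- The module with three generators and the relations `R`. -/
abbrev Univ (Λ : Type) [Ring Λ] (R : Set (Λ × Λ × Λ)) : Type :=
  (Λ × Λ × Λ) ⧸ Submodule.span Λ R

section

variable {Λ : Type} [Ring Λ]

/-- First generator. -/
def x1 (R : Set (Λ × Λ × Λ)) : Univ Λ R := Submodule.Quotient.mk (1, 0, 0)
/-- Second generator. -/
def x2 (R : Set (Λ × Λ × Λ)) : Univ Λ R := Submodule.Quotient.mk (0, 1, 0)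
/-- Third generator. -/
def x3 (R : Set (Λ × Λ × Λ)) : Univ Λ R := Submodule.Quotient.mk (0, 0, 1)

theorem mk_eq (R : Set (Λ × Λ × Λ)) (l1 l2 l3 : Λ) :
    (Submodule.Quotient.mk (l1, l2, l3) : Univ Λ R) = l1 • x1 R + l2 • x2 R + l3 • x3 R := by
  simp only [x1, x2, x3, ← Submodule.Quotient.mk_smul, ← Submodule.Quotient.mk_add]
  simp

theorem univ_rel {R : Set (Λ × Λ × Λ)} {l1 l2 l3 : Λ} (h : (l1, l2, l3) ∈ R) :
    l1 • x1 R + l2 • x2 R + l3 • x3 R = 0 := by
  rw [← mk_eq, Submodule.Quotient.mk_eq_zero]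
  exact Submodule.subset_span h

theorem univ_rel1 {R : Set (Λ × Λ × Λ)} {l : Λ} (h : (l, 0, 0) ∈ R) : l • x1 R = 0 := by
  simpa using univ_rel h

theorem univ_rel2 {R : Set (Λ × Λ × Λ)} {l : Λ} (h : (0, l, 0) ∈ R) : l • x2 R = 0 := by
  simpa using univ_rel h

theorem univ_rel3 {R : Set (Λ × Λ × Λ)} {l : Λ} (h : (0, 0, l) ∈ R) : l • x3 R = 0 := by
  simpa using univ_rel h

variable {M : Type} [AddCommGroup M] [Module Λ M]

/-- The map out of the universal module given by three elements satisfying the relations. -/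
def univMap (R : Set (Λ × Λ × Λ)) (x y z : M)
    (hR : ∀ v ∈ R, v.1 • x + v.2.1 • y + v.2.2 • z = 0) : Univ Λ R →ₗ[Λ] M :=
  (Submodule.span Λ R).liftQ
    ((LinearMap.toSpanSingleton Λ M x).coprod
      ((LinearMap.toSpanSingleton Λ M y).coprod (LinearMap.toSpanSingleton Λ M z)))
    (by
      rw [Submodule.span_le]
      intro v hv
      simpa [add_assoc] using hR v hv)

theorem univMap_x1 (R : Set (Λ × Λ × Λ)) (x y z : M) (hR) : univMap R x y z hR (x1 R) = x := by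
  simp [univMap, x1]

theorem univMap_x2 (R : Set (Λ × Λ × Λ)) (x y z : M) (hR) : univMap R x y z hR (x2 R) = y := by
  simp [univMap, x2]

theorem univMap_x3 (R : Set (Λ × Λ × Λ)) (x y z : M) (hR) : univMap R x y z hR (x3 R) = z := by
  simp [univMap, x3]

end

namespace Gen

variable {k V Ar Λ : Type} [Field k] [Ring Λ] [Algebra k Λ] [Fintype V] [FiniteDimensional k Λ]
  {Q : TriQuiver V Ar} {e : V → Λ} {a : Ar → Λ} (h : Gen k Q e a)
  {G : Type} [AddCommGroup G] [Module Λ G]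

/-- Splitting off a universal module. -/
theorem split_univ (hN : h.Nak) {M : Type} [AddCommGroup M] [Module k M] [Module Λ M]
    [IsScalarTower k Λ M] [FiniteDimensional k M] (R : Set (Λ × Λ × Λ)) (x y z : M)
    (hR : ∀ v ∈ R, v.1 • x + v.2.1 • y + v.2.2 • z = 0) (r : M →ₗ[Λ] Univ Λ R) (hx : x ≠ 0)
    (hgen : ∀ U : Submodule Λ (Univ Λ R), r x ∈ U → r y ∈ U → r z ∈ U → h.rad ⊤ ≤ U →
      x1 R ∈ U ∧ x2 R ∈ U ∧ x3 R ∈ U)
    (hG : InAdd Λ G (Univ Λ R))
    (hK : Module.finrank k (LinearMap.ker r) < Module.finrank k M →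
      (∃ p : M →ₗ[Λ] LinearMap.ker r, ∀ y : LinearMap.ker r, p y = y) →
      InAdd Λ G (LinearMap.ker r)) : InAdd Λ G M := by
  let u := univMap R x y z hR
  have hsurj : Function.Surjective (r ∘ₗ u) := by
    rw [← LinearMap.range_eq_top]
    apply hN
    obtain ⟨h1, h2, h3⟩ := hgen (LinearMap.range (r ∘ₗ u) ⊔ h.rad ⊤)
      (Submodule.mem_sup_left ⟨x1 R, by simp [u, univMap_x1]⟩)
      (Submodule.mem_sup_left ⟨x2 R, by simp [u, univMap_x2]⟩)
      (Submodule.mem_sup_left ⟨x3 R, by simp [u, univMap_x3]⟩) le_sup_right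
    rw [eq_top_iff]
    intro w _
    obtain ⟨⟨l1, l2, l3⟩, rfl⟩ := Submodule.Quotient.mk_surjective _ w
    rw [mk_eq]
    exact Submodule.add_mem _ (Submodule.add_mem _ (Submodule.smul_mem _ _ h1)
      (Submodule.smul_mem _ _ h2)) (Submodule.smul_mem _ _ h3)
  have : IsNoetherian Λ (Univ Λ R) := isNoetherian_of_tower k inferInstance
  have hinj : Function.Injective (r ∘ₗ u) :=
    IsNoetherian.injective_of_surjective_endomorphism _ hsurj
  refine InAdd.of_split u r ⟨hinj, hsurj⟩ hG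
    (hK (finrank_ker_lt r x ?_) (exists_proj u r ⟨hinj, hsurj⟩))
  intro h0
  apply hx
  have : (r ∘ₗ u) (x1 R) = (r ∘ₗ u) 0 := by simp [u, univMap_x1, h0]
  have h2 := hinj this
  rw [← univMap_x1 R x y z hR, h2, map_zero]

end Gen

end Pool.Agent.Lib.MP_c55f2d_al
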